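import Pool.Agent.Lib.MP_d57abb_nt.TA.Rt
import Pool.Agent.Lib.MP_d57abb_nt.TA.Defs3

/-!
# JOB DilA: dilation of frames by the generator of norm `p` (about 220 lines)

`ϖ = vp p = (a, b)`, `a, b ≥ 0` (`Qd_vp`), `nm ϖ = p` (`nm_vp`), so `a, b ≥ 1` (`a² = p` or `b² = p` is impossible).  `ai v = ml (3, -1) v` is multiplication by the inverse of the unit `al`, `nm (3, -1) = 1`; it keeps `nm`, `dt`, `kk`.
For all `ϖ, v, w`: `dt (ml ϖ v) (ml ϖ w) = nm ϖ * dt v w` and `kk (ml ϖ v) (ml ϖ w) = nm ϖ * kk v w` (`ring` after unfolding), `ml ϖ (ai v) = ai (ml ϖ v)`.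
`Ph_Ip`: `Ip_iff`.
`Ph_Qd`: `V = ml ϖ v = (a v₁ - b v₂, a v₂ + b v₁ + 3 b v₂)`, `W = ml ϖ w`; `V.2, W.2 ≥ 0`.  `dt V W = V.1 W.2 - W.1 V.2 = p`.
  Case `W.1 ≥ 0`: `V.1 W.2 = p + W.1 V.2 > 0`, so `V.1 > 0`.
  Case `W.1 < 0`: `ai W = (3 W.1 + W.2, - W.1)`, `3 W.1 + W.2 = 3 a w₁ + a w₂ + b w₁ ≥ 0`, same for `V`; we need `V.1 ≤ 0`.  If `V.1 ≥ 1`, then `V.1 W.2 + |W.1| V.2 = p` gives `W.2 + V.2 ≤ p`, so
  `kk V W = V.1 W.1 + V.2 W.2 + 3 W.1 V.2 ≤ V.2 W.2 ≤ p² / 4`, but `kk V W = p kk v w > p²`.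
`Ph_inj`: `ml ϖ` is injective (multiply by the conjugate `(a + 3 b, - b)`: `ml (a + 3 b, - b) (ml ϖ v) = p • v`), `ai` is injective.  Mixed case: `ml ϖ x.i = ai (ml ϖ x'.i) = ml ϖ (ai x'.i)`, so `x.i = ai x'.i`, `x.i.2 = - x'.i.1`, so
`x'.1.1 = x'.2.1 = 0`, `dt x'.1 x'.2 = 0`, contradiction.
`Ph_surj`: `y.1 = ml ϖ v`, `y.2 = ml ϖ w` (`Ip_iff`), `dt v w = 1`.  From `p v = ml (a + 3 b, - b) y.1`: `p v.1 = (a + 3 b) y.1.1 + b y.1.2 > 0`, same for `w`.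
  Case `v.2 ≥ 0`: `v.1 w.2 = 1 + w.1 v.2 > 0`, `w.2 > 0`, `x = (v, w)`, `(ml ϖ x.2).1 = y.2.1 ≥ 0`.
  Case `v.2 < 0`: `w.2 ≤ 0` (otherwise `v.1 w.2 + w.1 |v.2| ≥ 2`), take `x = (al v, al w)`, `al (s, t) = (- t, s + 3 t)`; `p (v.1 + 3 v.2) = a y₁ + b y₂ + 3 a y₂ ≥ 0` with `y.1 = (y₁, y₂)`.  `(ml ϖ x.2).1 = - y.2.2`; it is `< 0` (if `y.2.2 = 0`
  then `dt y.1 y.2 = - y.2.1 y.1.2 ≤ 0`), and `ai (al v) = v`.
`Ph_ll`: `nm_bounds` for `x.1` and for `(Ph p x).1`.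
`aa_Ph`: `Ω (p n) = Ω n + 1` for `n ≠ 0` (`ArithmeticFunction.cardFactors_mul`, `cardFactors_apply_prime`), `nm x.1 > 0` (`tp_of_Qd`, `TP.nm_pos`).
-/

namespace Pool.Agent.Lib.MP_d57abb_nt.TA

open Finset Pool.Agent.Lib.MP_d57abb_nt

/-- multiplication by the inverse of the unit `al` -/
def ai (v : ℤ × ℤ) : ℤ × ℤ := (3 * v.1 + v.2, - v.1)

/-- the dilation by the generator of norm `p`, normalised to the quadrant -/
noncomputable def Ph (p : ℕ) (x : (ℤ × ℤ) × (ℤ × ℤ)) : (ℤ × ℤ) × (ℤ × ℤ) :=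
  if 0 ≤ (ml (vp p) x.2).1 then (ml (vp p) x.1, ml (vp p) x.2)
  else (ai (ml (vp p) x.1), ai (ml (vp p) x.2))

private theorem DilA_vp {p : ℕ} (hp : SP p) : ∃ a b : ℤ, vp p = (a, b) ∧ 1 ≤ a ∧ 1 ≤ b ∧
    a ^ 2 + 3 * a * b + b ^ 2 = p := by
  obtain ⟨ha, hb, -⟩ := Qd_vp hp
  have hn := nm_vp hp
  unfold nm at hn
  have hpz : Prime (p : ℤ) := Nat.prime_iff_prime_int.1 hp.1
  have hsq : ∀ c : ℤ, c ^ 2 ≠ p := by
    intro c hc
    have h1 : (p : ℤ) ∣ c := hpz.dvd_of_dvd_pow (n := 2) ⟨1, by rw [hc, mul_one]⟩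
    obtain ⟨k, hk⟩ := h1
    have h2 : (p : ℤ) * (p * k ^ 2) = p * 1 := by
      rw [hk] at hc
      linear_combination hc
    have h3 := mul_left_cancel₀ hpz.ne_zero h2
    exact hpz.not_isUnit (IsUnit.of_mul_eq_one _ h3)
  refine ⟨(vp p).1, (vp p).2, rfl, ?_, ?_, hn⟩
  · by_contra h
    have h0 : (vp p).1 = 0 := by omega
    apply hsq (vp p).2
    rw [h0] at hn
    linear_combination hn
  · by_contra h
    have h0 : (vp p).2 = 0 := by omega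
    apply hsq (vp p).1
    rw [h0] at hn
    linear_combination hn

private theorem DilA_dt_ml (u v w : ℤ × ℤ) : dt (ml u v) (ml u w) = nm u * dt v w := by
  unfold dt ml nm
  ring

private theorem DilA_kk_ml (u v w : ℤ × ℤ) : kk (ml u v) (ml u w) = nm u * kk v w := by
  unfold kk ml nm
  ring

private theorem DilA_dt_ai (v w : ℤ × ℤ) : dt (ai v) (ai w) = dt v w := by
  unfold dt ai
  ring

private theorem DilA_kk_ai (v w : ℤ × ℤ) : kk (ai v) (ai w) = kk v w := by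
  unfold kk ai
  ring

private theorem DilA_nm_ai (v : ℤ × ℤ) : nm (ai v) = nm v := by
  unfold nm ai
  ring

private theorem DilA_ml_ai (u v : ℤ × ℤ) : ml u (ai v) = ai (ml u v) := by
  unfold ml ai
  ext
  · simp only
    ring
  · simp only
    ring

/-- multiplication by the unit `al` -/
private def DilA_al (v : ℤ × ℤ) : ℤ × ℤ := (- v.2, v.1 + 3 * v.2)

private theorem DilA_ai_al (v : ℤ × ℤ) : ai (DilA_al v) = v := by
  unfold ai DilA_al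
  ext
  · simp only
    ring
  · simp only
    ring

private theorem DilA_ml_al (u v : ℤ × ℤ) : ml u (DilA_al v) = DilA_al (ml u v) := by
  unfold ml DilA_al
  ext
  · simp only
    ring
  · simp only
    ring

private theorem DilA_dt_al (v w : ℤ × ℤ) : dt (DilA_al v) (DilA_al w) = dt v w := by
  unfold dt DilA_al
  ring

private theorem DilA_ai_inj {v w : ℤ × ℤ} (h : ai v = ai w) : v = w := by
  unfold ai at h
  rw [Prod.mk.injEq] at h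
  ext
  · omega
  · omega

private theorem DilA_conj {a b p : ℤ} (hn : a ^ 2 + 3 * a * b + b ^ 2 = p) (v : ℤ × ℤ) :
    p * v.1 = (a + 3 * b) * (ml (a, b) v).1 + b * (ml (a, b) v).2 ∧
    p * v.2 = a * (ml (a, b) v).2 - b * (ml (a, b) v).1 := by
  unfold ml
  simp only
  constructor
  · linear_combination (-v.1) * hn
  · linear_combination (-v.2) * hn

private theorem DilA_ml_inj {a b p : ℤ} (hp : p ≠ 0) (hn : a ^ 2 + 3 * a * b + b ^ 2 = p) {v w : ℤ × ℤ}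
    (h : ml (a, b) v = ml (a, b) w) : v = w := by
  obtain ⟨h1, h2⟩ := DilA_conj hn v
  obtain ⟨h3, h4⟩ := DilA_conj hn w
  rw [h] at h1 h2
  ext
  · exact mul_left_cancel₀ hp (h1.trans h3.symm)
  · exact mul_left_cancel₀ hp (h2.trans h4.symm)

private theorem DilA_nm_pos {v : ℤ × ℤ} (hv : Qd v) : 0 < nm v := (tp_of_Qd hv).nm_pos

private theorem DilA_core {V1 V2 W1 W2 p K : ℤ} (hp0 : 0 < p) (q1 : 0 < V2) (q2 : 0 < W2) (hW : W1 < 0)
    (h1 : V1 * W2 - W1 * V2 = p) (h5 : V1 * W1 + V2 * W2 + 3 * W1 * V2 = p * K) (hk : p < K) :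
    V1 ≤ 0 := by
  by_contra hc
  push Not at hc
  have h3 : W2 ≤ V1 * W2 := by
    have := mul_le_mul_of_nonneg_right (show (1 : ℤ) ≤ V1 by omega) q2.le
    linarith
  have h4 : V2 ≤ (-W1) * V2 := by
    have := mul_le_mul_of_nonneg_right (show (1 : ℤ) ≤ -W1 by omega) q1.le
    linarith
  have h6 : V2 + W2 ≤ p := by linarith
  have h7 : V1 * W1 ≤ 0 := mul_nonpos_of_nonneg_of_nonpos hc.le hW.le
  have h8 : W1 * V2 ≤ 0 := mul_nonpos_of_nonpos_of_nonneg hW.le q1.le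
  have h9 : p * K ≤ V2 * W2 := by linarith
  have h10 : p * p < p * K := mul_lt_mul_of_pos_left hk hp0
  have h11 : (V2 + W2) * (V2 + W2) ≤ p * p := mul_self_le_mul_self (by omega) h6
  have h12 : 0 ≤ (V2 - W2) * (V2 - W2) := mul_self_nonneg _
  have h13 : 0 < p * p := mul_pos hp0 hp0
  linarith

private theorem DilA_core2 {V1 V2 W1 W2 p : ℤ} (hp0 : 0 < p) (q1 : 0 < V2) (q2 : 0 < W2) (hW : 0 ≤ W1)
    (h1 : V1 * W2 - W1 * V2 = p) : 0 < V1 := by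
  by_contra hc
  push Not at hc
  have h3 : V1 * W2 ≤ 0 := mul_nonpos_of_nonpos_of_nonneg hc q2.le
  have h4 : 0 ≤ W1 * V2 := mul_nonneg hW q1.le
  linarith

private theorem DilA_Qd {v : ℤ × ℤ} (h1 : 0 ≤ v.1) (h2 : 0 ≤ v.2) (h3 : 0 < v.1 + v.2) : Qd v := by
  refine ⟨h1, h2, ?_⟩
  rintro rfl
  simp at h3

theorem Ph_dt {p : ℕ} (hp : SP p) {x : (ℤ × ℤ) × (ℤ × ℤ)} (h : dt x.1 x.2 = 1) :
    dt (Ph p x).1 (Ph p x).2 = p := by
  unfold Ph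
  split_ifs
  · show dt (ml (vp p) x.1) (ml (vp p) x.2) = p
    rw [DilA_dt_ml, nm_vp hp, h, mul_one]
  · show dt (ai (ml (vp p) x.1)) (ai (ml (vp p) x.2)) = p
    rw [DilA_dt_ai, DilA_dt_ml, nm_vp hp, h, mul_one]

theorem Ph_kk {p : ℕ} (hp : SP p) (x : (ℤ × ℤ) × (ℤ × ℤ)) :
    kk (Ph p x).1 (Ph p x).2 = p * kk x.1 x.2 := by
  unfold Ph
  split_ifs
  · show kk (ml (vp p) x.1) (ml (vp p) x.2) = _
    rw [DilA_kk_ml, nm_vp hp]
  · show kk (ai (ml (vp p) x.1)) (ai (ml (vp p) x.2)) = _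
    rw [DilA_kk_ai, DilA_kk_ml, nm_vp hp]

theorem Ph_nm1 {p : ℕ} (hp : SP p) (x : (ℤ × ℤ) × (ℤ × ℤ)) : nm (Ph p x).1 = p * nm x.1 := by
  unfold Ph
  split_ifs
  · show nm (ml (vp p) x.1) = _
    rw [nm_ml, nm_vp hp]
  · show nm (ai (ml (vp p) x.1)) = _
    rw [DilA_nm_ai, nm_ml, nm_vp hp]

theorem Ph_nm2 {p : ℕ} (hp : SP p) (x : (ℤ × ℤ) × (ℤ × ℤ)) : nm (Ph p x).2 = p * nm x.2 := by
  unfold Ph
  split_ifs
  · show nm (ml (vp p) x.2) = _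
    rw [nm_ml, nm_vp hp]
  · show nm (ai (ml (vp p) x.2)) = _
    rw [DilA_nm_ai, nm_ml, nm_vp hp]

theorem Ph_Ip {p : ℕ} (hp : SP p) (x : (ℤ × ℤ) × (ℤ × ℤ)) : Ip p (Ph p x).1 ∧ Ip p (Ph p x).2 := by
  rw [Ip_iff hp, Ip_iff hp]
  unfold Ph
  split_ifs
  · exact ⟨⟨x.1, rfl⟩, ⟨x.2, rfl⟩⟩
  · exact ⟨⟨ai x.1, (DilA_ml_ai _ _).symm⟩, ⟨ai x.2, (DilA_ml_ai _ _).symm⟩⟩

theorem Ph_Qd {p : ℕ} (hp : SP p) {x : (ℤ × ℤ) × (ℤ × ℤ)} (hx : Fr x) (hk : (p : ℤ) < kk x.1 x.2) :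
    Qd (Ph p x).1 ∧ Qd (Ph p x).2 := by
  obtain ⟨a, b, hv, ha, hb, hn⟩ := DilA_vp hp
  obtain ⟨⟨v, w⟩, rfl⟩ : ∃ y, y = x := ⟨x, rfl⟩
  obtain ⟨v1, v2⟩ := v
  obtain ⟨w1, w2⟩ := w
  obtain ⟨hQ1, hQ2, hd⟩ := hx
  have hs1 := hQ1.ll_pos
  have hs2 := hQ2.ll_pos
  obtain ⟨a1, a2, -⟩ := hQ1
  obtain ⟨c1, c2, -⟩ := hQ2
  have hdp := Ph_dt hp (x := ((v1, v2), (w1, w2))) hd
  have hkp := Ph_kk hp ((v1, v2), (w1, w2))
  unfold ll at hs1 hs2
  simp only at a1 a2 c1 c2 hs1 hs2 hk hkp hdp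
  have hp0 : (0 : ℤ) < p := by exact_mod_cast hp.1.pos
  unfold Ph at hdp hkp ⊢
  rw [hv] at hdp hkp ⊢
  set V1 := a * v1 - b * v2 with hV1
  set V2 := a * v2 + v1 * b + 3 * b * v2 with hV2
  set W1 := a * w1 - b * w2 with hW1
  set W2 := a * w2 + w1 * b + 3 * b * w2 with hW2
  have e1 : ml (a, b) (v1, v2) = (V1, V2) := rfl
  have e2 : ml (a, b) (w1, w2) = (W1, W2) := rfl
  simp only [e1, e2] at hdp hkp ⊢
  have p1 : 0 ≤ a * v2 := mul_nonneg (by omega) a2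
  have p2 : 0 ≤ v1 * b := mul_nonneg a1 (by omega)
  have p3 : 0 ≤ b * v2 := mul_nonneg (by omega) a2
  have p4 : 0 ≤ a * w2 := mul_nonneg (by omega) c2
  have p5 : 0 ≤ w1 * b := mul_nonneg c1 (by omega)
  have p6 : 0 ≤ b * w2 := mul_nonneg (by omega) c2
  have p7 : 0 ≤ a * v1 := mul_nonneg (by omega) a1
  have p8 : 0 ≤ a * w1 := mul_nonneg (by omega) c1
  have q1 : 0 < V2 := by
    have : v1 + v2 ≤ v1 * b + a * v2 := by nlinarith
    linarith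
  have q2 : 0 < W2 := by
    have : w1 + w2 ≤ w1 * b + a * w2 := by nlinarith
    linarith
  by_cases hW : 0 ≤ W1
  · rw [if_pos hW] at hdp ⊢
    have h1 : V1 * W2 - W1 * V2 = p := hdp
    have h2 : 0 < V1 := DilA_core2 hp0 q1 q2 hW h1
    exact ⟨DilA_Qd h2.le q1.le (add_pos h2 q1), DilA_Qd hW q2.le (add_pos_of_nonneg_of_pos hW q2)⟩
  · rw [if_neg hW] at hdp hkp ⊢
    rw [DilA_dt_ai] at hdp
    rw [DilA_kk_ai] at hkp
    have h1 : V1 * W2 - W1 * V2 = p := hdp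
    have h5 : V1 * W1 + V2 * W2 + 3 * W1 * V2 = p * kk (v1, v2) (w1, w2) := hkp
    push Not at hW
    have h2 : V1 ≤ 0 := DilA_core hp0 q1 q2 hW h1 h5 hk
    constructor
    · refine DilA_Qd (v := ai (V1, V2)) ?_ ?_ ?_
      · show 0 ≤ 3 * V1 + V2
        rw [hV1, hV2]
        linarith
      · show 0 ≤ - V1
        linarith
      · show 0 < 3 * V1 + V2 + - V1
        rcases h2.eq_or_lt with h3 | h3
        · rw [h3]
          linarith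
        · have : 0 ≤ 3 * V1 + V2 := by
            rw [hV1, hV2]
            linarith
          linarith
    · refine DilA_Qd (v := ai (W1, W2)) ?_ ?_ ?_
      · show 0 ≤ 3 * W1 + W2
        rw [hW1, hW2]
        linarith
      · show 0 ≤ - W1
        linarith
      · show 0 < 3 * W1 + W2 + - W1
        have : 0 ≤ 3 * W1 + W2 := by
          rw [hW1, hW2]
          linarith
        linarith

private theorem DilA_mixed {a b p : ℤ} (hp : p ≠ 0) (hn : a ^ 2 + 3 * a * b + b ^ 2 = p)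
    {x x' : (ℤ × ℤ) × (ℤ × ℤ)} (hx : Fr x) (hx' : Fr x') (h1 : ml (a, b) x.1 = ai (ml (a, b) x'.1))
    (h2 : ml (a, b) x.2 = ai (ml (a, b) x'.2)) : False := by
  rw [← DilA_ml_ai] at h1 h2
  have e1 := DilA_ml_inj hp hn h1
  have e2 := DilA_ml_inj hp hn h2
  have f1 : x.1.2 = - x'.1.1 := by rw [e1]; rfl
  have f2 : x.2.2 = - x'.2.1 := by rw [e2]; rfl
  have g1 := hx.1.2.1
  have g2 := hx.2.1.2.1
  have g3 := hx'.1.1
  have g4 := hx'.2.1.1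
  have g5 := hx'.2.2
  have k1 : x'.1.1 = 0 := by omega
  have k2 : x'.2.1 = 0 := by omega
  unfold dt at g5
  rw [k1, k2] at g5
  simp at g5

theorem Ph_inj {p : ℕ} (hp : SP p) {x x' : (ℤ × ℤ) × (ℤ × ℤ)} (hx : Fr x) (hx' : Fr x')
    (h : Ph p x = Ph p x') : x = x' := by
  obtain ⟨a, b, hv, ha, hb, hn⟩ := DilA_vp hp
  have hp0 : (p : ℤ) ≠ 0 := by exact_mod_cast hp.1.ne_zero
  unfold Ph at h
  rw [hv] at h
  split_ifs at h with h1 h2 h2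
  · rw [Prod.mk.injEq] at h
    exact Prod.ext (DilA_ml_inj hp0 hn h.1) (DilA_ml_inj hp0 hn h.2)
  · rw [Prod.mk.injEq] at h
    exact (DilA_mixed hp0 hn hx hx' h.1 h.2).elim
  · rw [Prod.mk.injEq] at h
    exact (DilA_mixed hp0 hn hx' hx h.1.symm h.2.symm).elim
  · rw [Prod.mk.injEq] at h
    exact Prod.ext (DilA_ml_inj hp0 hn (DilA_ai_inj h.1)) (DilA_ml_inj hp0 hn (DilA_ai_inj h.2))

theorem Ph_surj {p : ℕ} (hp : SP p) {y : (ℤ × ℤ) × (ℤ × ℤ)} (h1 : Qd y.1) (h2 : Qd y.2)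
    (hd : dt y.1 y.2 = p) (hI : Ip p y.1 ∧ Ip p y.2) : ∃ x, Fr x ∧ Ph p x = y := by
  obtain ⟨a, b, hv, ha, hb, hn⟩ := DilA_vp hp
  have hp0 : (0 : ℤ) < p := by exact_mod_cast hp.1.pos
  obtain ⟨⟨v, e1⟩, ⟨w, e2⟩⟩ : (∃ u, y.1 = ml (vp p) u) ∧ ∃ u, y.2 = ml (vp p) u :=
    ⟨(Ip_iff hp _).1 hI.1, (Ip_iff hp _).1 hI.2⟩
  have hd1 : dt v w = 1 := by
    rw [e1, e2, DilA_dt_ml, nm_vp hp] at hd
    exact mul_left_cancel₀ hp0.ne' (hd.trans (mul_one _).symm)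
  obtain ⟨c1, c2⟩ := DilA_conj hn v
  obtain ⟨c3, c4⟩ := DilA_conj hn w
  rw [hv] at e1 e2
  rw [← e1] at c1 c2
  rw [← e2] at c3 c4
  have s1 := h1.ll_pos
  have s2 := h2.ll_pos
  unfold ll at s1 s2
  obtain ⟨y11, y12, -⟩ := h1
  obtain ⟨y21, y22, -⟩ := h2
  have hv1 : 0 < v.1 := by
    have h3 : 0 < (p : ℤ) * v.1 := by
      rw [c1]
      nlinarith [mul_nonneg (by omega : 0 ≤ a + 3 * b - 1) y11, mul_nonneg (by omega : 0 ≤ b - 1) y12]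
    exact (mul_pos_iff_of_pos_left hp0).1 h3
  have hw1 : 0 < w.1 := by
    have h3 : 0 < (p : ℤ) * w.1 := by
      rw [c3]
      nlinarith [mul_nonneg (by omega : 0 ≤ a + 3 * b - 1) y21, mul_nonneg (by omega : 0 ≤ b - 1) y22]
    exact (mul_pos_iff_of_pos_left hp0).1 h3
  have hd2 : v.1 * w.2 - w.1 * v.2 = 1 := hd1
  by_cases hv2 : 0 ≤ v.2
  · have hw2 : 0 < w.2 := by
      by_contra hc
      push Not at hc
      have h3 : v.1 * w.2 ≤ 0 := mul_nonpos_of_nonneg_of_nonpos hv1.le hc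
      have h4 : 0 ≤ w.1 * v.2 := mul_nonneg hw1.le hv2
      linarith
    refine ⟨(v, w), ⟨DilA_Qd hv1.le hv2 (by show 0 < v.1 + v.2; omega),
      DilA_Qd hw1.le hw2.le (by show 0 < w.1 + w.2; omega), hd1⟩, ?_⟩
    unfold Ph
    rw [hv]
    show (if 0 ≤ (ml (a, b) w).1 then (ml (a, b) v, ml (a, b) w)
      else (ai (ml (a, b) v), ai (ml (a, b) w))) = y
    rw [if_pos (by rw [← e2]; exact y21), ← e1, ← e2]
  · push Not at hv2
    have hw2 : w.2 ≤ 0 := by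
      by_contra hc
      push Not at hc
      have h3 : 1 ≤ v.1 * w.2 := by nlinarith
      have h4 : 1 ≤ w.1 * (-v.2) := by nlinarith
      linarith
    have hv3 : 0 ≤ v.1 + 3 * v.2 := by
      have h3 : 0 ≤ (p : ℤ) * (v.1 + 3 * v.2) := by
        have e : (p : ℤ) * (v.1 + 3 * v.2) = a * y.1.1 + b * y.1.2 + 3 * a * y.1.2 := by
          linear_combination c1 + 3 * c2
        rw [e]
        have := mul_nonneg (by omega : 0 ≤ a) y11
        have := mul_nonneg (by omega : 0 ≤ b) y12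
        have := mul_nonneg (by omega : 0 ≤ a) y12
        linarith
      exact nonneg_of_mul_nonneg_right h3 hp0
    have hw3 : 0 ≤ w.1 + 3 * w.2 := by
      have h3 : 0 ≤ (p : ℤ) * (w.1 + 3 * w.2) := by
        have e : (p : ℤ) * (w.1 + 3 * w.2) = a * y.2.1 + b * y.2.2 + 3 * a * y.2.2 := by
          linear_combination c3 + 3 * c4
        rw [e]
        have := mul_nonneg (by omega : 0 ≤ a) y21
        have := mul_nonneg (by omega : 0 ≤ b) y22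
        have := mul_nonneg (by omega : 0 ≤ a) y22
        linarith
      exact nonneg_of_mul_nonneg_right h3 hp0
    have hy22 : 0 < y.2.2 := by
      rcases y22.eq_or_lt with h3 | h3
      · exfalso
        unfold dt at hd
        rw [← h3] at hd
        have := mul_nonneg y21 y12
        linarith
      · exact h3
    refine ⟨(DilA_al v, DilA_al w), ⟨?_, ?_, ?_⟩, ?_⟩
    · refine DilA_Qd (v := DilA_al v) ?_ hv3 ?_
      · show 0 ≤ - v.2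
        omega
      · show 0 < - v.2 + (v.1 + 3 * v.2)
        omega
    · refine DilA_Qd (v := DilA_al w) ?_ hw3 ?_
      · show 0 ≤ - w.2
        omega
      · show 0 < - w.2 + (w.1 + 3 * w.2)
        omega
    · exact (DilA_dt_al v w).trans hd1
    · unfold Ph
      rw [hv]
      show (if 0 ≤ (ml (a, b) (DilA_al w)).1 then (ml (a, b) (DilA_al v), ml (a, b) (DilA_al w))
        else (ai (ml (a, b) (DilA_al v)), ai (ml (a, b) (DilA_al w)))) = y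
      rw [DilA_ml_al, DilA_ml_al, ← e1, ← e2, DilA_ai_al, DilA_ai_al, if_neg]
      show ¬ 0 ≤ - y.2.2
      omega

theorem Ph_ll {p : ℕ} (hp : SP p) {x : (ℤ × ℤ) × (ℤ × ℤ)} (hx : Fr x) (hk : (p : ℤ) < kk x.1 x.2) :
    4 * p * (ll x.1) ^ 2 ≤ 5 * (ll (Ph p x).1) ^ 2 ∧ 4 * (ll (Ph p x).1) ^ 2 ≤ 5 * p * (ll x.1) ^ 2 := by
  have hQ := (Ph_Qd hp hx hk).1
  obtain ⟨b1, b2⟩ := nm_bounds hx.1
  obtain ⟨b3, b4⟩ := nm_bounds hQ
  rw [Ph_nm1 hp] at b3 b4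
  have hp0 : (0 : ℤ) ≤ p := by exact_mod_cast hp.1.pos.le
  constructor
  · have h1 := mul_le_mul_of_nonneg_left b1 hp0
    linarith
  · have h1 := mul_le_mul_of_nonneg_left b2 hp0
    linarith

theorem aa_Ph {p : ℕ} (hp : SP p) {x : (ℤ × ℤ) × (ℤ × ℤ)} (hx : Fr x) (z : ℂ) :
    aa z (Ph p x).1 = z * aa z x.1 ∧ aa z (Ph p x).2 = z * aa z x.2 := by
  have hp0 : p ≠ 0 := hp.1.ne_zero
  have key : ∀ m : ℤ, 0 < m → ArithmeticFunction.cardFactors ((p : ℤ) * m).natAbs =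
      ArithmeticFunction.cardFactors m.natAbs + 1 := by
    intro m hm
    rw [Int.natAbs_mul, Int.natAbs_natCast, ArithmeticFunction.cardFactors_mul hp0 (by omega),
      ArithmeticFunction.cardFactors_apply_prime hp.1, add_comm]
  unfold aa
  rw [Ph_nm1 hp, Ph_nm2 hp, key _ (DilA_nm_pos hx.1), key _ (DilA_nm_pos hx.2.1), pow_succ, pow_succ]
  constructor
  · ring
  · ring

end Pool.Agent.Lib.MP_d57abb_nt.TA
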