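import Pool.Agent.Lib.MP_d57abb_nt.TA.Cone

/-!
# JOB Par: the cells with first vector of size `n` as pairs `(j, y)`, `n ∣ j y + 1` (about 150 lines)

For `C ∈ CC A` (use `mem_CC`, `Fr`, `Qd`) put `n = ll C.1`, `j = ll C.2`, `y = C.1.2`, `y' = C.2.2`, so `C.1 = (n - y, y)`, `C.2 = (j - y', y')`.
`dt C.1 C.2 = (n - y) y' - (j - y') y = n y' - j y = 1` (ring), so `j y + 1 = n y'`.

* `par_mem`: `0 < n`, `0 < j` (`Qd.ll_pos`), `0 ≤ y`; `y < n`: `n - y = C.1.1 ≥ 0`, and if `C.1.1 = 0` then `dt C.1 C.2 = - C.2.1 * C.1.2 ≤ 0 < 1`.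
* `par_inj`: `C.1 = C'.1` from `C.1.1 = ll C.1 - C.1.2`; then `n C.2.2 = n C'.2.2` by the relation above (from `dt = 1`), `n > 0`, so `C.2.2 = C'.2.2`, and
  `C.2.1 = ll C.2 - C.2.2`.
* `par_surj`: write `j y + 1 = n y'`; `C = ((n - y, y), (j - y', y'))`.  `j > A - n ≥ 0`.  `y' > 0` as `n y' = j y + 1 > 0`; `y' ≤ j`: `n y' = j y + 1 ≤ j (n - 1) + 1 ≤ j n`.
  So `Qd C.1`, `Qd C.2` and `dt = 1`; conclude by `mem_CC`.
* `card_inv`: the map `x ↦ x.1` from the set to the `j ∈ Ioc a (a + n)` with `IsCoprime j n` is a bijection: `n ∣ j y + 1` makes `j` prime to `n`; `y` is unique modulo `n` (`j (y - y') ≡ 0`,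
  `j` invertible) hence unique in `Ico 0 n`; existence: `u j + v n = 1`, `y = (-u) % n`.  The number of `j` in `Ioc a (a + n)` prime to `n` is `φ n`: bijection with
  `(range n).filter (Nat.Coprime n)` by `j ↦ (j % n).toNat` (or `Int.card_Ioc_filter..`/`Nat.filter_coprime_Ico_eq_totient` after a shift by a multiple of `n`, or with `(ZMod n)ˣ` and
  `ZMod.card_units_eq_totient`).  Any proof.
* `card_CN`: bijection `C ↦ (ll C.2, C.1.2)` from `{C ∈ CC A | ll C.1 = n}` to the set of `card_inv` with `a = A - n` (`par_mem`, `par_inj`, `par_surj`).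
* `card_CC`: `Finset.card_eq_sum_card_fiberwise` for `C ↦ (ll C.1).toNat` with values in `Icc 1 A`.
-/

namespace Pool.Agent.Lib.MP_d57abb_nt.TA

open Finset Pool.Agent.Lib.MP_d57abb_nt

theorem par_mem {A : ℕ} {C : (ℤ × ℤ) × (ℤ × ℤ)} (hC : C ∈ CC A) :
    0 < ll C.1 ∧ 0 < ll C.2 ∧ 0 ≤ C.1.2 ∧ C.1.2 < ll C.1 ∧ ll C.2 * C.1.2 + 1 = ll C.1 * C.2.2 := by
  obtain ⟨⟨h1, h2, h3⟩, -⟩ := mem_CC.mp hC
  refine ⟨h1.ll_pos, h2.ll_pos, h1.2.1, ?_, ?_⟩
  · have h4 : 0 < C.1.1 := by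
      rcases lt_or_eq_of_le h1.1 with h | h
      · exact h
      · exfalso
        unfold dt at h3
        rw [← h] at h3
        have h5 := mul_nonneg h2.1 h1.2.1
        linarith
    unfold ll
    linarith
  · unfold dt at h3
    unfold ll
    linarith

theorem par_inj {C C' : (ℤ × ℤ) × (ℤ × ℤ)} (h : dt C.1 C.2 = 1) (h' : dt C'.1 C'.2 = 1) (h0 : 0 < ll C.1)
    (h1 : ll C.1 = ll C'.1) (h2 : ll C.2 = ll C'.2) (h3 : C.1.2 = C'.1.2) : C = C' := by
  obtain ⟨⟨a, b⟩, ⟨c, d⟩⟩ := C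
  obtain ⟨⟨a', b'⟩, ⟨c', d'⟩⟩ := C'
  simp only [dt, ll] at h h' h0 h1 h2 h3
  subst h3
  have ha : a = a' := by linarith
  subst ha
  have h4 : (a + b) * d = (a + b) * d' := by
    have h5 : c = c' + d' - d := by linarith
    rw [h5] at h
    linarith
  have hd : d = d' := mul_left_cancel₀ h0.ne' h4
  subst hd
  have hc : c = c' := by linarith
  subst hc
  rfl

theorem par_surj {A n : ℕ} (hn : 1 ≤ n) (hnA : n ≤ A) {j y : ℤ} (hj : (A : ℤ) - n < j) (hj' : j ≤ A)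
    (hy : 0 ≤ y) (hy' : y < n) (h : (n : ℤ) ∣ j * y + 1) :
    ∃ C ∈ CC A, ll C.1 = n ∧ ll C.2 = j ∧ C.1.2 = y := by
  obtain ⟨z, hz⟩ := h
  have hn' : (1 : ℤ) ≤ n := by exact_mod_cast hn
  have hnA' : (n : ℤ) ≤ A := by exact_mod_cast hnA
  have hj0 : 0 < j := by linarith
  have hz0 : 0 < z := by
    have h1 : 0 < (n : ℤ) * z := by
      rw [← hz]
      have := mul_nonneg hj0.le hy
      linarith
    exact (pos_iff_pos_of_mul_pos h1).mp (by linarith)
  have hzj : z ≤ j := by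
    have h1 : (n : ℤ) * z ≤ n * j := by
      rw [← hz]
      have h2 : j * y ≤ j * (n - 1) := mul_le_mul_of_nonneg_left (by linarith) hj0.le
      linarith
    exact le_of_mul_le_mul_left h1 (by linarith)
  refine ⟨(((n : ℤ) - y, y), (j - z, z)), ?_, ?_, ?_, rfl⟩
  · rw [mem_CC]
    refine ⟨⟨⟨?_, ?_, ?_⟩, ⟨?_, ?_, ?_⟩, ?_⟩, ?_, ?_, ?_⟩
    · show 0 ≤ (n : ℤ) - y
      linarith
    · exact hy
    · intro h0
      have h1 := congrArg Prod.fst h0
      have h2 := congrArg Prod.snd h0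
      simp only [Prod.fst_zero, Prod.snd_zero] at h1 h2
      linarith
    · show 0 ≤ j - z
      linarith
    · exact hz0.le
    · intro h0
      have h2 := congrArg Prod.snd h0
      simp only [Prod.snd_zero] at h2
      linarith
    · simp only [dt]
      linarith
    · simp only [ll]
      linarith
    · simp only [ll]
      linarith
    · simp only [ll]
      linarith
  · simp only [ll]
    linarith
  · simp only [ll]
    linarith

private theorem Par_uniq {n : ℤ} {a j j' : ℤ} (h1 : a < j) (h2 : j ≤ a + n) (h3 : a < j')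
    (h4 : j' ≤ a + n) (h : n ∣ j - j') : j = j' := by
  obtain ⟨k, hk⟩ := h
  have hn : 0 < n := by linarith
  have h5 : k < 1 := by
    by_contra hc
    push Not at hc
    have := mul_le_mul_of_nonneg_left hc hn.le
    linarith
  have h6 : -1 < k := by
    by_contra hc
    push Not at hc
    have := mul_le_mul_of_nonneg_left hc hn.le
    linarith
  have h7 : k = 0 := by omega
  rw [h7, mul_zero] at hk
  linarith

theorem card_inv {n : ℕ} (hn : 0 < n) (a : ℤ) :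
    ((Ioc a (a + n) ×ˢ Ico (0 : ℤ) n).filter (fun x => (n : ℤ) ∣ x.1 * x.2 + 1)).card = n.totient := by
  have hn' : (0 : ℤ) < n := by exact_mod_cast hn
  rw [Nat.totient]
  refine Finset.card_bij (fun x _ => x.2.toNat) ?_ ?_ ?_
  · intro x hx
    rw [mem_filter, mem_product, mem_Ioc, mem_Ico] at hx
    obtain ⟨⟨⟨h1, h2⟩, h3, h4⟩, k, hk⟩ := hx
    rw [mem_filter, mem_range]
    refine ⟨by omega, ?_⟩
    rw [← Nat.isCoprime_iff_coprime, Int.toNat_of_nonneg h3]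
    exact ⟨k, -x.1, by linarith⟩
  · intro x hx x' hx' h
    rw [mem_filter, mem_product, mem_Ioc, mem_Ico] at hx hx'
    obtain ⟨⟨⟨h1, h2⟩, h3, h4⟩, k, hk⟩ := hx
    obtain ⟨⟨⟨h1', h2'⟩, h3', h4'⟩, k', hk'⟩ := hx'
    have h5 : x.2 = x'.2 := by
      have h6 : ((x.2.toNat : ℕ) : ℤ) = ((x'.2.toNat : ℕ) : ℤ) := congrArg (fun t : ℕ => (t : ℤ)) h
      rw [Int.toNat_of_nonneg h3, Int.toNat_of_nonneg h3'] at h6
      exact h6
    have h6 : IsCoprime (n : ℤ) x.2 := ⟨k, -x.1, by linarith⟩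
    have h7 : (n : ℤ) ∣ x.2 * (x.1 - x'.1) := by
      refine ⟨k - k', ?_⟩
      rw [← h5] at hk'
      linarith
    have h8 : (n : ℤ) ∣ x.1 - x'.1 := h6.dvd_of_dvd_mul_left h7
    exact Prod.ext (Par_uniq h1 h2 h1' h2' h8) h5
  · intro b hb
    rw [mem_filter, mem_range] at hb
    obtain ⟨hb1, hb2⟩ := hb
    rw [← Nat.isCoprime_iff_coprime] at hb2
    obtain ⟨u, v, huv⟩ := hb2
    have hm1 := Int.emod_nonneg (-v - a - 1) hn'.ne'
    have hm2 := Int.emod_lt_of_pos (-v - a - 1) hn'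
    have hm3 := Int.emod_add_mul_ediv (-v - a - 1) n
    refine ⟨(a + 1 + (-v - a - 1) % n, (b : ℤ)), ?_, ?_⟩
    · rw [mem_filter, mem_product, mem_Ioc, mem_Ico]
      have hb1' : (b : ℤ) < n := by exact_mod_cast hb1
      refine ⟨⟨⟨by show a < a + 1 + (-v - a - 1) % (n : ℤ); linarith,
        by show a + 1 + (-v - a - 1) % (n : ℤ) ≤ a + n; linarith⟩,
        by show (0 : ℤ) ≤ b; positivity, hb1'⟩, ?_⟩
      show (n : ℤ) ∣ (a + 1 + (-v - a - 1) % (n : ℤ)) * (b : ℤ) + 1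
      refine ⟨u - ((-v - a - 1) / n) * b, ?_⟩
      have h1 : (-v - a - 1) % (n : ℤ) = (-v - a - 1) - n * ((-v - a - 1) / n) := by linarith
      rw [h1]
      linarith
    · exact Int.toNat_natCast b

theorem card_CN {A n : ℕ} (hn : 1 ≤ n) (hnA : n ≤ A) :
    ((CC A).filter (fun C => ll C.1 = n)).card = n.totient := by
  rw [← card_inv (n := n) hn ((A : ℤ) - n)]
  refine Finset.card_bij (fun C _ => (ll C.2, C.1.2)) ?_ ?_ ?_
  · intro C hC
    rw [mem_filter] at hC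
    obtain ⟨hC, h0⟩ := hC
    obtain ⟨h1, h2, h3, h4, h5⟩ := par_mem hC
    obtain ⟨-, h6, h7, h8⟩ := mem_CC.mp hC
    rw [mem_filter, mem_product, mem_Ioc, mem_Ico]
    refine ⟨⟨⟨?_, ?_⟩, h3, ?_⟩, ?_⟩
    · show (A : ℤ) - n < ll C.2
      linarith
    · show ll C.2 ≤ (A : ℤ) - n + n
      linarith
    · show C.1.2 < (n : ℤ)
      linarith
    · show (n : ℤ) ∣ ll C.2 * C.1.2 + 1
      rw [h5, h0]
      exact dvd_mul_right _ _
  · intro C hC C' hC' h
    rw [mem_filter] at hC hC'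
    have h1 := (mem_CC.mp hC.1).1.2.2
    have h2 := (mem_CC.mp hC'.1).1.2.2
    have e1 : ll C.2 = ll C'.2 := (Prod.mk.inj h).1
    have e2 : C.1.2 = C'.1.2 := (Prod.mk.inj h).2
    exact par_inj h1 h2 (par_mem hC.1).1 (hC.2.trans hC'.2.symm) e1 e2
  · intro x hx
    rw [mem_filter, mem_product, mem_Ioc, mem_Ico] at hx
    obtain ⟨⟨⟨h1, h2⟩, h3, h4⟩, h5⟩ := hx
    obtain ⟨C, hC, h6, h7, h8⟩ := par_surj hn hnA h1 (by linarith) h3 h4 h5
    exact ⟨C, mem_filter.mpr ⟨hC, h6⟩, Prod.ext h7 h8⟩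

theorem card_CC (A : ℕ) : (CC A).card = ∑ n ∈ Icc 1 A, n.totient := by
  rw [Finset.card_eq_sum_card_fiberwise (f := fun C : (ℤ × ℤ) × (ℤ × ℤ) => (ll C.1).toNat) (t := Icc 1 A)]
  · refine Finset.sum_congr rfl fun n hn => ?_
    rw [mem_Icc] at hn
    rw [← card_CN hn.1 hn.2]
    apply congrArg Finset.card
    apply Finset.filter_congr
    intro C _
    constructor
    · intro h
      have h1 : ((ll C.1).toNat : ℤ) = n := by rw [h]
      omega
    · intro h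
      rw [h]
      exact Int.toNat_natCast n
  · intro C hC
    have hC' : C ∈ CC A := hC
    have h1 := (par_mem hC').1
    have h2 := (mem_CC.mp hC').2.1
    show (ll C.1).toNat ∈ (Icc 1 A : Finset ℕ)
    rw [mem_Icc]
    omega

end Pool.Agent.Lib.MP_d57abb_nt.TA
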