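import Pool.Agent.Lib.MP_d57abb_nt.TA.Defs2

/-!
# JOB Wt: elementary properties of the weight functions (about 150 lines)

All functions are piecewise linear.
* `hh_lip`, `hw_lip`, `ch_lip`: `max`, `min` of Lipschitz functions (`abs_max_sub_max_le_max`, `abs_min_sub_min_le_max`, or `LipschitzWith` lemmas) or by cases.
* `hh_sum`: for `x ≥ 1`, `x ≤ 2^I`: choose `j ≤ I` with `2^j ≤ x < 2^(j+1)` (or `x = 2^I`): then `hh (x / 2^j) = 2 - x / 2^j`, `hh (x / 2^(j+1)) = x / 2^j - 1`, all the other terms vanish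
  (`x / 2^i ≥ 2` for `i < j`, `≤ 1/2` for `i > j + 1`).  The general upper bound `hh_sum_le`: at most two consecutive terms are nonzero and their sum is `1`.
* `ch_sum`: `x ∈ (0, 1]`: the terms `n = 0, …, K` are `x`, `1` (`K - 1` times), `1 - x`.
* `GW_Dw`: `0 ≤ hw, ch ≤ 1`; `y ≥ 0`: `Dw K x y ≠ 0` gives `x ≥ 1/4`, `ch K (y/x) ≤ y / x ≤ 4 y`.  Support: `hw x ≠ 0` gives `1/4 ≤ x ≤ 4`, `ch ≠ 0` gives `0 < y / x < K + 1`.
  Lipschitz with `L = 64 (K + 2)`: if both `x, x' ≥ 1/4`: `|y/x - y'/x'| ≤ |y - y'| / x + |y'| |x - x'| / (x x')`; one may assume `|y'| ≤ 4 (K + 1)` when `ch (y'/x') ≠ 0` (exchange the roles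
  otherwise); if one of `x, x'` is `< 1/4` the corresponding value is `0` and `hw` is Lipschitz: `|Dw x y - 0| ≤ hw x = |hw x - hw x'| ≤ 4 |x - x'|`.  The same argument for `> 4`.
* `le_Dw`: `Wh x y ≠ 0` gives `x ∈ [1/2, 2]` (assumption `hx`), `0 ≤ y ≤ Y`, `hw x = 1`; `y / x ≤ 2 Y ≤ K`, `ch K (y / x) ≥ min (y / x) 1 ≥ min (y/2) 1`, and `Wh x y ≤ B * min 1 y ≤ 2 B min (y/2) 1`.
-/

namespace Pool.Agent.Lib.MP_d57abb_nt.TA

open Finset Pool.Agent.Lib.MP_d57abb_nt

theorem hh_nonneg (x : ℝ) : 0 ≤ hh x := by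
  unfold hh
  exact le_max_left _ _

theorem hh_le_one (x : ℝ) : hh x ≤ 1 := by
  unfold hh
  refine max_le zero_le_one ?_
  rcases le_total x 1 with h | h
  · exact (min_le_left _ _).trans (by linarith)
  · exact (min_le_right _ _).trans (by linarith)

theorem hh_lip (x y : ℝ) : |hh x - hh y| ≤ 2 * |x - y| := by
  unfold hh
  have h0 : 0 ≤ |x - y| := abs_nonneg _
  refine (abs_max_sub_max_le_max _ _ _ _).trans (max_le ?_ ?_)
  · rw [sub_self, abs_zero]
    linarith
  · refine (abs_min_sub_min_le_max _ _ _ _).trans (max_le ?_ ?_)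
    · have e : 2 * x - 1 - (2 * y - 1) = 2 * (x - y) := by ring
      rw [e, abs_mul, abs_of_pos (by norm_num : (0 : ℝ) < 2)]
    · have e : 2 - x - (2 - y) = -(x - y) := by ring
      rw [e, abs_neg]
      linarith

private theorem Wt_hh_zero_left {x : ℝ} (h : x ≤ 1 / 2) : hh x = 0 := by
  unfold hh
  exact max_eq_left ((min_le_left _ _).trans (by linarith))

private theorem Wt_hh_zero_right {x : ℝ} (h : 2 ≤ x) : hh x = 0 := by
  unfold hh
  exact max_eq_left ((min_le_right _ _).trans (by linarith))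

theorem hh_supp {x : ℝ} (h : hh x ≠ 0) : 1 / 2 < x ∧ x < 2 := by
  constructor
  · by_contra h1
    exact h (Wt_hh_zero_left (not_lt.1 h1))
  · by_contra h1
    exact h (Wt_hh_zero_right (not_lt.1 h1))

theorem hh_sum {x : ℝ} {I : ℕ} (h1 : 1 ≤ x) (h2 : x ≤ 2 ^ I) : ∑ j ∈ range (I + 1), hh (x / 2 ^ j) = 1 := by
  induction I with
  | zero =>
    rw [pow_zero] at h2
    have hx : x = 1 := le_antisymm h2 h1
    rw [zero_add, sum_range_one, pow_zero, hx]
    unfold hh
    norm_num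
  | succ I ih =>
    have hp : (0 : ℝ) < 2 ^ I := by positivity
    have e2 : (2 : ℝ) ^ (I + 1) = 2 * 2 ^ I := by rw [pow_succ]; ring
    rcases le_or_gt x (2 ^ I) with h | h
    · rw [sum_range_succ, ih h, Wt_hh_zero_left, add_zero]
      rw [e2, div_le_iff₀ (by positivity)]
      linarith
    · have hz : ∑ j ∈ range I, hh (x / 2 ^ j) = 0 := by
        refine sum_eq_zero fun j hj => Wt_hh_zero_right ?_
        have hj' : j + 1 ≤ I := mem_range.1 hj
        have h3 : (2 : ℝ) ^ (j + 1) ≤ 2 ^ I := pow_le_pow_right₀ (by norm_num) hj'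
        rw [le_div_iff₀ (by positivity)]
        have e3 : (2 : ℝ) ^ (j + 1) = 2 * 2 ^ j := by rw [pow_succ]; ring
        rw [e3] at h3
        linarith
      rw [sum_range_succ, sum_range_succ, hz, zero_add]
      have t1 : 1 ≤ x / 2 ^ I := by
        rw [le_div_iff₀ hp]
        linarith
      have t2 : x / 2 ^ I ≤ 2 := by
        rw [div_le_iff₀ hp, ← e2]
        exact h2
      have e3 : x / 2 ^ (I + 1) = (x / 2 ^ I) / 2 := by
        rw [e2, div_div, mul_comm]
      rw [e3]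
      generalize x / 2 ^ I = t at t1 t2
      unfold hh
      rw [min_eq_right (by linarith : 2 - t ≤ 2 * t - 1),
        min_eq_left (by linarith : 2 * (t / 2) - 1 ≤ 2 - t / 2),
        max_eq_right (by linarith : 0 ≤ 2 - t), max_eq_right (by linarith : 0 ≤ 2 * (t / 2) - 1)]
      ring

theorem hh_sum_le (x : ℝ) (S : Finset ℕ) : ∑ j ∈ S, hh (x / 2 ^ j) ≤ 1 := by
  rcases le_or_gt 1 x with h | h
  · obtain ⟨I, hI⟩ : ∃ I : ℕ, x ≤ 2 ^ I := by
      obtain ⟨I, hI⟩ := pow_unbounded_of_one_lt x (by norm_num : (1 : ℝ) < 2)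
      exact ⟨I, hI.le⟩
    have h3 : x ≤ 2 ^ (I + S.sup id) := by
      refine hI.trans (pow_le_pow_right₀ (by norm_num) (by omega))
    rw [← hh_sum h h3]
    refine sum_le_sum_of_subset_of_nonneg ?_ (fun j _ _ => hh_nonneg _)
    intro j hj
    have h4 : j ≤ S.sup id := Finset.le_sup (f := id) hj
    rw [mem_range]
    omega
  · have h1 : ∀ j ∈ S, hh (x / 2 ^ j) ≤ if j = 0 then 1 else 0 := by
      intro j _
      by_cases hj : j = 0
      · rw [if_pos hj]
        exact hh_le_one _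
      · rw [if_neg hj]
        refine le_of_eq (Wt_hh_zero_left ?_)
        have h2 : (2 : ℝ) ^ 1 ≤ 2 ^ j := pow_le_pow_right₀ (by norm_num) (by omega)
        rw [div_le_iff₀ (by positivity)]
        linarith
    refine (sum_le_sum h1).trans ?_
    rw [sum_ite_eq']
    split_ifs
    · exact le_refl _
    · exact zero_le_one

theorem ch_sum {K : ℕ} (hK : 1 ≤ K) {x : ℝ} (h0 : 0 < x) (h1 : x ≤ 1) :
    ∑ n ∈ range (K + 1), ch K (x + n) = K := by
  obtain ⟨m, rfl⟩ : ∃ m, K = m + 1 := ⟨K - 1, by omega⟩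
  have hm : (0 : ℝ) ≤ m := Nat.cast_nonneg m
  rw [sum_range_succ, sum_range_succ']
  have e1 : ∀ n ∈ range m, ch ((m + 1 : ℕ) : ℝ) (x + ((n + 1 : ℕ) : ℝ)) = 1 := by
    intro n hn
    have h3 : n + 1 ≤ m := mem_range.1 hn
    have h4 : ((n : ℝ) + 1) ≤ m := by exact_mod_cast h3
    have h5 : (0 : ℝ) ≤ n := Nat.cast_nonneg n
    unfold ch
    push_cast
    rw [min_eq_left (by linarith : (1 : ℝ) ≤ (m : ℝ) + 1 + 1 - (x + ((n : ℝ) + 1))),
      min_eq_right (by linarith : (1 : ℝ) ≤ x + ((n : ℝ) + 1)), max_eq_right zero_le_one]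
  have e2 : ch ((m + 1 : ℕ) : ℝ) (x + ((0 : ℕ) : ℝ)) = x := by
    unfold ch
    push_cast
    rw [add_zero, min_eq_left (by linarith : (1 : ℝ) ≤ (m : ℝ) + 1 + 1 - x), min_eq_left h1,
      max_eq_right h0.le]
  have e3 : ch ((m + 1 : ℕ) : ℝ) (x + ((m + 1 : ℕ) : ℝ)) = 1 - x := by
    unfold ch
    push_cast
    rw [min_eq_right (by linarith : (m : ℝ) + 1 + 1 - (x + ((m : ℝ) + 1)) ≤ 1),
      min_eq_right (by linarith : (m : ℝ) + 1 + 1 - (x + ((m : ℝ) + 1)) ≤ x + ((m : ℝ) + 1)),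
      max_eq_right (by linarith)]
    ring
  rw [sum_congr rfl e1, e2, e3, sum_const, card_range, nsmul_eq_mul]
  push_cast
  ring

theorem ch_nonneg (K t : ℝ) : 0 ≤ ch K t := by
  unfold ch
  exact le_max_left _ _

theorem ch_le_one (K t : ℝ) : ch K t ≤ 1 := by
  unfold ch
  exact max_le zero_le_one ((min_le_right _ _).trans (min_le_left _ _))

theorem ch_le (K : ℝ) {t : ℝ} (ht : 0 ≤ t) : ch K t ≤ t := by
  unfold ch
  exact max_le ht (min_le_left _ _)

theorem ch_supp {K t : ℝ} (h : ch K t ≠ 0) : 0 < t ∧ t < K + 1 := by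
  constructor
  · by_contra h1
    refine h ?_
    unfold ch
    exact max_eq_left ((min_le_left _ _).trans (not_lt.1 h1))
  · by_contra h1
    refine h ?_
    unfold ch
    refine max_eq_left ((min_le_right _ _).trans ((min_le_right _ _).trans ?_))
    have := not_lt.1 h1
    linarith

private theorem Wt_ch_lip (K s t : ℝ) : |ch K s - ch K t| ≤ |s - t| := by
  unfold ch
  refine (abs_max_sub_max_le_max _ _ _ _).trans (max_le ?_ ?_)
  · rw [sub_self, abs_zero]
    exact abs_nonneg _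
  · refine (abs_min_sub_min_le_max _ _ _ _).trans (max_le le_rfl ?_)
    refine (abs_min_sub_min_le_max _ _ _ _).trans (max_le ?_ ?_)
    · rw [sub_self, abs_zero]
      exact abs_nonneg _
    · have e : K + 1 - s - (K + 1 - t) = -(s - t) := by ring
      rw [e, abs_neg]

theorem hw_nonneg (x : ℝ) : 0 ≤ hw x := by
  unfold hw
  exact le_max_left _ _

theorem hw_le_one (x : ℝ) : hw x ≤ 1 := by
  unfold hw
  exact max_le zero_le_one (min_le_left _ _)

theorem hw_supp {x : ℝ} (h : hw x ≠ 0) : 1 / 4 < x ∧ x < 4 := by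
  constructor
  · by_contra h1
    refine h ?_
    unfold hw
    refine max_eq_left ((min_le_right _ _).trans ((min_le_left _ _).trans ?_))
    have := not_lt.1 h1
    linarith
  · by_contra h1
    refine h ?_
    unfold hw
    refine max_eq_left ((min_le_right _ _).trans ((min_le_right _ _).trans ?_))
    have := not_lt.1 h1
    linarith

private theorem Wt_hw_lip (x y : ℝ) : |hw x - hw y| ≤ 4 * |x - y| := by
  unfold hw
  have h0 : 0 ≤ |x - y| := abs_nonneg _
  refine (abs_max_sub_max_le_max _ _ _ _).trans (max_le ?_ ?_)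
  · rw [sub_self, abs_zero]
    linarith
  · refine (abs_min_sub_min_le_max _ _ _ _).trans (max_le ?_ ?_)
    · rw [sub_self, abs_zero]
      linarith
    · refine (abs_min_sub_min_le_max _ _ _ _).trans (max_le ?_ ?_)
      · have e : 4 * x - 1 - (4 * y - 1) = 4 * (x - y) := by ring
        rw [e, abs_mul, abs_of_pos (by norm_num : (0 : ℝ) < 4)]
      · have e : 2 - x / 2 - (2 - y / 2) = -((x - y) / 2) := by ring
        rw [e, abs_neg, abs_div, abs_of_pos (by norm_num : (0 : ℝ) < 2)]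
        linarith

private theorem Wt_hw_one {x : ℝ} (h1 : 1 / 2 ≤ x) (h2 : x ≤ 2) : hw x = 1 := by
  unfold hw
  rw [min_eq_left (le_min (by linarith) (by linarith)), max_eq_right zero_le_one]

private theorem Wt_ch_key (K : ℝ) (hK : 0 ≤ K) {x y x' y' : ℝ} (hx : 1 / 4 < x) (hx' : 1 / 4 < x')
    (h : ch K (y' / x') ≠ 0) :
    |ch K (y / x) - ch K (y' / x')| ≤ 4 * |y - y'| + 4 * (K + 1) * |x - x'| := by
  obtain ⟨h1, h2⟩ := ch_supp h
  have hx0 : 0 < x := by linarith
  have hx0' : 0 < x' := by linarith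
  refine (Wt_ch_lip K _ _).trans ?_
  have e : y / x - y' / x' = (y - y') / x + (y' / x') * ((x' - x) / x) := by
    field_simp
    ring
  have hinv : 1 / x ≤ 4 := by
    rw [div_le_iff₀ hx0]
    linarith
  rw [e]
  refine (abs_add_le _ _).trans (add_le_add ?_ ?_)
  · rw [abs_div, abs_of_pos hx0, div_eq_mul_one_div, mul_comm]
    exact mul_le_mul_of_nonneg_right hinv (abs_nonneg _)
  · rw [abs_mul, abs_of_pos h1, abs_div, abs_of_pos hx0, abs_sub_comm x' x,
      div_eq_mul_one_div |x - x'| x]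
    have h3 : |x - x'| * (1 / x) ≤ |x - x'| * 4 := mul_le_mul_of_nonneg_left hinv (abs_nonneg _)
    have h4 : y' / x' * (|x - x'| * (1 / x)) ≤ (K + 1) * (|x - x'| * 4) :=
      mul_le_mul h2.le h3 (by positivity) (by linarith)
    linarith

private theorem Wt_ch_both (K : ℝ) (hK : 0 ≤ K) {x y x' y' : ℝ} (hx : 1 / 4 < x)
    (hx' : 1 / 4 < x') :
    |ch K (y / x) - ch K (y' / x')| ≤ 4 * |y - y'| + 4 * (K + 1) * |x - x'| := by
  by_cases h : ch K (y' / x') = 0
  · by_cases h' : ch K (y / x) = 0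
    · rw [h, h', sub_self, abs_zero]
      positivity
    · rw [abs_sub_comm, abs_sub_comm y y', abs_sub_comm x x']
      exact Wt_ch_key K hK hx' hx h'
  · exact Wt_ch_key K hK hx hx' h

theorem GW_Dw (K : ℕ) (hK : 1 ≤ K) : ∃ L : ℝ, 0 ≤ L ∧ GW (Dw K) (4 * (K + 1)) 4 L := by
  have hK0 : (0 : ℝ) ≤ K := Nat.cast_nonneg K
  have hnn : ∀ x y : ℝ, 0 ≤ Dw K x y := fun x y => mul_nonneg (hw_nonneg _) (ch_nonneg _ _)
  have hone : ∀ x y : ℝ, Dw K x y ≤ 1 := fun x y =>
    mul_le_one₀ (hw_le_one _) (ch_nonneg _ _) (ch_le_one _ _)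
  have hhw : ∀ x y : ℝ, Dw K x y ≤ hw x := fun x y =>
    mul_le_of_le_one_right (hw_nonneg _) (ch_le_one _ _)
  refine ⟨4 * (K + 2), by positivity, ⟨hnn, ?_, ?_, ?_, ?_, ?_⟩⟩
  · intro x y
    linarith [hone x y]
  · intro x y hy
    by_cases hx : hw x = 0
    · unfold Dw
      rw [hx, zero_mul]
      linarith
    · obtain ⟨h1, -⟩ := hw_supp hx
      have hx0 : 0 < x := by linarith
      have h2 : ch K (y / x) ≤ y / x := ch_le _ (div_nonneg hy hx0.le)
      have h3 : y / x ≤ 4 * y := by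
        rw [div_le_iff₀ hx0]
        nlinarith
      have h4 : Dw K x y ≤ ch K (y / x) :=
        mul_le_of_le_one_left (ch_nonneg _ _) (hw_le_one _)
      linarith
  · intro x y h
    have h1 : hw x ≠ 0 := left_ne_zero_of_mul h
    obtain ⟨h2, h3⟩ := hw_supp h1
    exact ⟨h2.le, h3.le⟩
  · intro x y h
    have h1 : hw x ≠ 0 := left_ne_zero_of_mul h
    have h4 : ch K (y / x) ≠ 0 := right_ne_zero_of_mul h
    obtain ⟨h2, h3⟩ := hw_supp h1
    obtain ⟨h5, h6⟩ := ch_supp h4
    have hx0 : 0 < x := by linarith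
    have h7 : y = y / x * x := by field_simp
    constructor
    · rw [h7]
      positivity
    · rw [h7]
      nlinarith
  · intro x y x' y'
    have hax : 0 ≤ |x - x'| := abs_nonneg _
    have hay : 0 ≤ |y - y'| := abs_nonneg _
    by_cases hx : hw x = 0
    · have h1 : Dw K x y = 0 := by
        unfold Dw
        rw [hx, zero_mul]
      have h2 := Wt_hw_lip x x'
      rw [hx, zero_sub, abs_neg, abs_of_nonneg (hw_nonneg _)] at h2
      rw [h1, zero_sub, abs_neg, abs_of_nonneg (hnn _ _)]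
      have h3 := hhw x' y'
      nlinarith
    by_cases hx' : hw x' = 0
    · have h1 : Dw K x' y' = 0 := by
        unfold Dw
        rw [hx', zero_mul]
      have h2 := Wt_hw_lip x x'
      rw [hx', sub_zero, abs_of_nonneg (hw_nonneg _)] at h2
      rw [h1, sub_zero, abs_of_nonneg (hnn _ _)]
      have h3 := hhw x y
      nlinarith
    have h1 := (hw_supp hx).1
    have h2 := (hw_supp hx').1
    have h3 := Wt_ch_both K hK0 (y := y) (y' := y') h1 h2
    have h4 := Wt_hw_lip x x'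
    have e : Dw K x y - Dw K x' y' = (hw x - hw x') * ch K (y / x) +
        hw x' * (ch K (y / x) - ch K (y' / x')) := by
      unfold Dw
      ring
    rw [e]
    have h5 : |(hw x - hw x') * ch K (y / x)| ≤ 4 * |x - x'| := by
      rw [abs_mul, abs_of_nonneg (ch_nonneg _ _)]
      exact (mul_le_of_le_one_right (abs_nonneg _) (ch_le_one _ _)).trans h4
    have h6 : |hw x' * (ch K (y / x) - ch K (y' / x'))| ≤
        4 * |y - y'| + 4 * (K + 1) * |x - x'| := by
      rw [abs_mul, abs_of_nonneg (hw_nonneg _)]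
      exact (mul_le_of_le_one_left (abs_nonneg _) (hw_le_one _)).trans h3
    have h7 := (abs_add_le ((hw x - hw x') * ch K (y / x))
      (hw x' * (ch K (y / x) - ch K (y' / x')))).trans (add_le_add h5 h6)
    refine h7.trans ?_
    have h8 : 0 ≤ (K : ℝ) * |y - y'| := mul_nonneg hK0 hay
    nlinarith

theorem le_Dw {Wh : ℝ → ℝ → ℝ} {Y B L : ℝ} (h : GW Wh Y B L) (hB : 0 ≤ B)
    (hx : ∀ x y, Wh x y ≠ 0 → 1 / 2 ≤ x ∧ x ≤ 2) {K : ℕ} (hK : 2 * Y ≤ K) (x y : ℝ) :
    Wh x y ≤ 2 * B * Dw K x y := by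
  by_cases h0 : Wh x y = 0
  · rw [h0]
    exact mul_nonneg (by linarith) (mul_nonneg (hw_nonneg _) (ch_nonneg _ _))
  obtain ⟨h1, h2⟩ := hx x y h0
  obtain ⟨h3, h4⟩ := h.sy x y h0
  have hx0 : 0 < x := by linarith
  have h5 : y / x ≤ 2 * y := by
    rw [div_le_iff₀ hx0]
    nlinarith
  have h6 : y / 2 ≤ y / x := by
    rw [div_le_div_iff₀ (by norm_num) hx0]
    nlinarith
  have h7 : 0 ≤ y / x := div_nonneg h3 hx0.le
  have h8 : min (y / x) 1 ≤ ch K (y / x) := by
    unfold ch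
    refine le_max_of_le_right (le_min (min_le_left _ _) (le_min (min_le_right _ _) ?_))
    refine (min_le_right _ _).trans ?_
    linarith
  unfold Dw
  rw [Wt_hw_one h1 h2, one_mul]
  have h9 : 2 * B * min (y / x) 1 ≤ 2 * B * ch K (y / x) :=
    mul_le_mul_of_nonneg_left h8 (by linarith)
  refine le_trans ?_ h9
  rcases le_total (y / x) 1 with h10 | h10
  · rw [min_eq_left h10]
    have h11 := h.ley x y h3
    have h12 : B * (y / 2) ≤ B * (y / x) := mul_le_mul_of_nonneg_left h6 hB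
    linarith
  · rw [min_eq_right h10]
    have h11 := h.le x y
    linarith

theorem GW.mono {Wh : ℝ → ℝ → ℝ} {Y Y' B L : ℝ} (h : GW Wh Y B L) (hY : Y ≤ Y') : GW Wh Y' B L := by
  exact ⟨h.nn, h.le, h.ley, h.sx, fun x y hxy => ⟨(h.sy x y hxy).1, (h.sy x y hxy).2.trans hY⟩,
    h.lip⟩

end Pool.Agent.Lib.MP_d57abb_nt.TA
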