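import Pool.Agent.Lib.MP_d57abb_nt.TA.Cone
import Pool.Agent.Lib.MP_d57abb_nt.All.Root

/-!
# JOB Rt: the element of norm `p` and its ideal (about 120 lines)

`exists_rt`.  `exists_PI5` (`All/Root`) gives a totally positive `ϖ₀` with `nm ϖ₀ = p`.  (1) A unit multiple of it is in the quadrant: multiplication by `al` is
`(x, y) ↦ (-y, x + 3 y)`, by `al⁻¹` it is `(x, y) ↦ (3 x + y, -x)`; both keep `nm` and `TP`.  Take the totally positive `ϖ = (x, y)` of norm `p` with `|x| + |y|` minimal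
(well-founded minimum over the natural numbers).  If `x < 0` then `y > 0` (`pp > 0`), from `qq > 0`: `y be > -x = |x|`, so `y > 2.6 |x|`; then
`(3 x + y, -x)`: `3 x + y ≥ -0.4 |x|..`, in any case `|3 x + y| ≤ y - |x|` as `0.. ≤ y - 3|x| + ..`: if `y ≥ 3 |x|` then `|3x+y| + |x| = y - 2 |x| < y + |x|`, if `y < 3 |x|` then
`|3 x + y| + |x| = 3 |x| - y + |x| ≤ 4 |x| - 2.6 |x| < y + |x|`: smaller, contradiction.  If `y < 0`: symmetric (use `(-y, x + 3 y)`; `pp > 0` gives `x > -al y`).  So `Qd ϖ`.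
(2) `y = ϖ.2` is prime to `p`: otherwise `p ∣ x²`, `p ∣ x`, `p² ∣ p`.  Choose `r : ℤ` with `x + r y ≡ 0 (mod p)` (inverse of `y` modulo `p`).  From `nm ϖ = p`:
`y² (r² - 3 r + 1) ≡ x² + 3 x y + y² ≡ 0`, so `r² - 3 r + 1 ≡ 0`.
(3) `→`: `ml ϖ u = (x u₁ - y u₂, x u₂ + u₁ y + 3 y u₂)`; for `v.1 + r v.2 ≡ 0` the conjugate `ϖ' = (x + 3 y, -y)` satisfies `ml ϖ ϖ' = (p, 0)`, and `ml ϖ' v` has both
coordinates divisible by `p`: the second is `(x + 3y) v₂ - y v₁ + 3 (-y) v₂ = x v₂ - y v₁ ≡ x v₂ + y r v₂ ≡ 0`, the first is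
`(x + 3 y) v₁ + y v₂ ≡ v₂ (y - r (x + 3 y)) ≡ v₂ y (1 + r² - 3 r) ≡ 0`.  So `v = ml ϖ (ml ϖ' v / p)`.
`←`: `(x u₁ - y u₂) + r (x u₂ + u₁ y + 3 y u₂) ≡ u₁ (x + r y) + u₂ (- y + r x + 3 r y) ≡ u₂ y (-1 - r² + 3 r) ≡ 0`.
`rt_sub_one`: `r ≡ 1` would give `1 - 3 + 1 = -1 ≡ 0`.
-/

namespace Pool.Agent.Lib.MP_d57abb_nt.TA

open Finset Pool.Agent.Lib.MP_d57abb_nt

private theorem Rt_quad (n : ℕ) : ∀ v : ℤ × ℤ, v.1.natAbs + v.2.natAbs ≤ n → TP v →
    ∃ w : ℤ × ℤ, 0 ≤ w.1 ∧ 0 ≤ w.2 ∧ nm w = nm v := by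
  induction n with
  | zero =>
    intro v hv _
    exact ⟨v, by omega, by omega, rfl⟩
  | succ n ih =>
    intro v hv hT
    obtain ⟨x, y⟩ := v
    obtain ⟨h1, h2⟩ := hT
    simp only at hv
    unfold pp at h1
    unfold qq at h2
    simp only at h1 h2
    have ha := al_lo
    have ha2 := al_hi
    have hb := be_lo
    have hb2 := be_hi
    have hs := al_add_be
    have hm := al_mul_be
    by_cases hx : x < 0
    · have hxr : (x : ℝ) < 0 := by exact_mod_cast hx
      have hyr : (0 : ℝ) < y := by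
        by_contra hc
        push Not at hc
        nlinarith
      have hy : 0 < y := by exact_mod_cast hyr
      have h5 : (5 : ℝ) * (-x) < 2 * y := by nlinarith
      have h5' : 5 * (-x) < 2 * y := by exact_mod_cast h5
      obtain ⟨w, hw1, hw2, hw3⟩ := ih (3 * x + y, -x) (by simp only; omega) (by
        refine ⟨?_, ?_⟩
        · have e : pp (3 * x + y, -x) = be * (x + y * al) := by
            unfold pp
            push_cast
            linear_combination (-(x : ℝ)) * hs - (y : ℝ) * hm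
          rw [e]
          exact mul_pos (by linarith) h1
        · have e : qq (3 * x + y, -x) = al * (x + y * be) := by
            unfold qq
            push_cast
            linear_combination (-(x : ℝ)) * hs - (y : ℝ) * hm
          rw [e]
          exact mul_pos (by linarith) h2)
      refine ⟨w, hw1, hw2, hw3.trans ?_⟩
      unfold nm
      ring
    · by_cases hy : y < 0
      · have hyr : (y : ℝ) < 0 := by exact_mod_cast hy
        have hxr : (0 : ℝ) < x := by nlinarith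
        have h5 : (5 : ℝ) * (-y) < 2 * x := by nlinarith
        have h5' : 5 * (-y) < 2 * x := by exact_mod_cast h5
        obtain ⟨w, hw1, hw2, hw3⟩ := ih (-y, x + 3 * y) (by simp only; omega) (by
          refine ⟨?_, ?_⟩
          · have e : pp (-y, x + 3 * y) = al * (x + y * al) := by
              unfold pp
              push_cast
              linear_combination (-(y : ℝ)) * al_sq
            rw [e]
            exact mul_pos (by linarith) h1
          · have e : qq (-y, x + 3 * y) = be * (x + y * be) := by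
              unfold qq
              push_cast
              linear_combination (-(y : ℝ)) * be_sq
            rw [e]
            exact mul_pos (by linarith) h2)
        refine ⟨w, hw1, hw2, hw3.trans ?_⟩
        unfold nm
        ring
      · exact ⟨(x, y), by simpa using hx, by simpa using hy, rfl⟩

theorem exists_rt {p : ℕ} (hp : SP p) : ∃ x : ℤ × (ℤ × ℤ), Qd x.2 ∧ nm x.2 = p ∧
    (p : ℤ) ∣ x.1 ^ 2 - 3 * x.1 + 1 ∧
    ∀ v : ℤ × ℤ, (p : ℤ) ∣ v.1 + x.1 * v.2 ↔ ∃ u, v = ml x.2 u := by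
  obtain ⟨hp1, hp5⟩ := hp
  obtain ⟨ϖ₀, hϖ⟩ := Pool.Agent.Lib.MP_d57abb_nt.All.exists_PI5 hp1 hp5
  obtain ⟨⟨x, y⟩, hx, hy, hn0⟩ := Rt_quad _ ϖ₀ le_rfl hϖ.tp
  rw [hϖ.nm] at hn0
  simp only at hx hy
  have hpz : Prime (p : ℤ) := Nat.prime_iff_prime_int.1 hp1
  have hn : x ^ 2 + 3 * x * y + y ^ 2 = p := by
    have := hn0
    unfold nm at this
    exact this
  have hp0 : (p : ℤ) ≠ 0 := hpz.ne_zero
  have hcop : IsCoprime y (p : ℤ) := by
    refine IsCoprime.symm ((Prime.coprime_iff_not_dvd hpz).2 ?_)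
    intro hd
    have hxd : (p : ℤ) ∣ x := by
      apply hpz.dvd_of_dvd_pow (n := 2)
      obtain ⟨k, hk⟩ := hd
      exact ⟨1 - 3 * x * k - y * k, by linear_combination hn - (3 * x + y) * hk⟩
    obtain ⟨k, hk⟩ := hd
    obtain ⟨l, hl⟩ := hxd
    have h1 : (p : ℤ) * (p * (l ^ 2 + 3 * l * k + k ^ 2)) = p * 1 := by
      rw [hl, hk] at hn
      linear_combination hn
    have h2 := mul_left_cancel₀ hp0 h1
    exact hpz.not_isUnit (IsUnit.of_mul_eq_one _ h2)
  obtain ⟨a, b, hab⟩ := hcop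
  obtain ⟨r, n, hrn⟩ : ∃ r n : ℤ, x + r * y = p * n :=
    ⟨-x * a, x * b, by linear_combination (-x) * hab⟩
  have hr : (p : ℤ) ∣ r ^ 2 - 3 * r + 1 := by
    have h1 : (p : ℤ) ∣ y ^ 2 * (r ^ 2 - 3 * r + 1) := by
      refine ⟨1 + n * (r * y - x) - 3 * y * n, ?_⟩
      linear_combination hn + (r * y - x - 3 * y) * hrn
    rcases hpz.dvd_or_dvd h1 with h2 | h2
    · exfalso
      have h3 := hpz.dvd_of_dvd_pow h2
      have h4 : (p : ℤ) ∣ 1 := by
        rw [← hab]
        exact dvd_add (Dvd.dvd.mul_left h3 _) (Dvd.intro_left _ rfl)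
      exact hpz.not_isUnit (isUnit_of_dvd_one h4)
    · exact h2
  refine ⟨(r, (x, y)), ⟨hx, hy, ?_⟩, hn0, hr, ?_⟩
  · intro h0
    rw [Prod.ext_iff] at h0
    simp only [Prod.fst_zero, Prod.snd_zero] at h0
    rw [h0.1, h0.2] at hn
    apply hp0
    rw [← hn]
    ring
  · obtain ⟨q, hq⟩ := hr
    rintro ⟨v1, v2⟩
    constructor
    · rintro ⟨m, hm⟩
      simp only at hm
      refine ⟨(m * (x + 3 * y) - n * r * v2 + q * y * v2, n * v2 - m * y), ?_⟩
      unfold ml
      ext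
      · simp only
        apply mul_left_cancel₀ hp0
        linear_combination (-v1) * hn + x * ((x + 3 * y) * hm - r * v2 * hrn + y * v2 * hq) -
          y * (v2 * hrn - y * hm)
      · simp only
        apply mul_left_cancel₀ hp0
        linear_combination (-v2) * hn + y * ((x + 3 * y) * hm - r * v2 * hrn + y * v2 * hq) +
          (x + 3 * y) * (v2 * hrn - y * hm)
    · rintro ⟨⟨u1, u2⟩, hu⟩
      unfold ml at hu
      rw [Prod.ext_iff] at hu
      simp only at hu ⊢
      refine ⟨u1 * n + u2 * n * r - u2 * y * q, ?_⟩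
      rw [hu.1, hu.2]
      linear_combination (u1 + r * u2) * hrn - u2 * y * hq

open Classical in
/-- the root attached to the chosen prime ideal above `p` -/
noncomputable def rt (p : ℕ) : ℤ := if h : SP p then (exists_rt h).choose.1 else 0

open Classical in
/-- the chosen generator of norm `p` in the quadrant -/
noncomputable def vp (p : ℕ) : ℤ × ℤ := if h : SP p then (exists_rt h).choose.2 else (1, 0)

/-- `v` is in the chosen prime ideal above `p` -/
def Ip (p : ℕ) (v : ℤ × ℤ) : Prop := (p : ℤ) ∣ v.1 + rt p * v.2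

theorem Qd_vp {p : ℕ} (hp : SP p) : Qd (vp p) := by
  unfold vp
  rw [dif_pos hp]
  exact (exists_rt hp).choose_spec.1

theorem nm_vp {p : ℕ} (hp : SP p) : nm (vp p) = p := by
  unfold vp
  rw [dif_pos hp]
  exact (exists_rt hp).choose_spec.2.1

theorem Ip_iff {p : ℕ} (hp : SP p) (v : ℤ × ℤ) : Ip p v ↔ ∃ u, v = ml (vp p) u := by
  unfold Ip vp rt
  rw [dif_pos hp, dif_pos hp]
  exact (exists_rt hp).choose_spec.2.2.2 v

theorem rt_eq {p : ℕ} (hp : SP p) : (p : ℤ) ∣ rt p ^ 2 - 3 * rt p + 1 := by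
  unfold rt
  rw [dif_pos hp]
  exact (exists_rt hp).choose_spec.2.2.1

theorem rt_sub_one {p : ℕ} (hp : SP p) : ¬ (p : ℤ) ∣ rt p - 1 := by
  intro hd
  have h1 := rt_eq hp
  have hpz : Prime (p : ℤ) := Nat.prime_iff_prime_int.1 hp.1
  have h2 : (p : ℤ) ∣ 1 := by
    obtain ⟨a, ha⟩ := hd
    obtain ⟨b, hb⟩ := h1
    exact ⟨a * (rt p - 2) - b, by linear_combination (rt p - 2) * ha - hb⟩
  exact hpz.not_isUnit (isUnit_of_dvd_one h2)

/-- the coordinate modulo `p` -/
noncomputable def ro (p : ℕ) (v : ℤ × ℤ) : ZMod p := (v.1 : ZMod p) + (rt p : ZMod p) * (v.2 : ZMod p)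

open Classical in
/-- the position of the ideal in the frame: a point of the projective line over `ZMod p` -/
noncomputable def yv (p : ℕ) (C : (ℤ × ℤ) × (ℤ × ℤ)) : ℕ :=
  if ro p C.1 = 0 then p else (- ro p C.2 * (ro p C.1)⁻¹).val

/-- the vector `s` is in the lattice given by the point `y` -/
def iL (p y : ℕ) (s : ℤ × ℤ) : Prop :=
  (y = p → (p : ℤ) ∣ s.2) ∧ (y ≠ p → (p : ℤ) ∣ s.1 - y * s.2)

/-- the positions for all the primes of a finite set -/
noncomputable def Yv (T : Finset ℕ) (C : (ℤ × ℤ) × (ℤ × ℤ)) (p : T) : ℕ := yv p C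

end Pool.Agent.Lib.MP_d57abb_nt.TA
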