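import Mathlib

/-!
# JOB Phi: the asymptotics of the sum of Euler's function (about 100 lines)

`φ(n) = ∑_{d k = n} μ(d) k` (`Nat.sum_totient` and Moebius inversion, e.g. `ArithmeticFunction.sum_eq_iff_sum_mul_moebius_eq`; or
`∑_{d ∣ n} φ d = n` with `ArithmeticFunction.sum_eq_iff_sum_smul_moebius_eq`).  Hence
`∑_{1 ≤ n ≤ A} φ(n) = ∑_{1 ≤ d ≤ A} μ(d) ∑_{1 ≤ k ≤ A / d} k = ∑_{d ≥ 1} μ(d) q (q + 1) / 2` with `q = A / d` (natural division; `0` for `d > A`).
Divide by `A²`: the term of `d` is `g_A(d) = μ(d) q (q + 1) / (2 A²)`; `|g_A(d)| ≤ 1 / d²` because `q ≤ A / d`, `q + 1 ≤ 2 A / d` if `d ≤ A`, and `q = 0` otherwise; for fixed `d ≥ 1`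
`q / A → 1 / d` (`tendsto_nat_floor_mul_div_atTop` or `A / d - 1 < q ≤ A / d`), so `g_A(d) → μ(d) / (2 d²)`.  `tendsto_tsum_of_dominated_convergence` gives the limit
`c = (1 / 2) ∑' d, μ(d) / d²`.  `c ≥ 0` (`ge_of_tendsto'`) and `c ≠ 0`: `ArithmeticFunction.LSeries_zeta_mul_Lseries_moebius` at `s = 2` (`L ζ 2 * L μ 2 = 1`) shows
`∑ μ(d) / d² ≠ 0` (`LSeries` is the `tsum` of `LSeries.term`, compare with the real sum by `Complex.ofReal_tsum`).  Any other proof is fine, for example an elementary lower bound for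
positivity.
-/

namespace Pool.Agent.Lib.MP_d57abb_nt.TA

open Finset Filter Topology

private noncomputable def PhiA : ArithmeticFunction ℤ := ⟨fun n => (n.totient : ℤ), by simp⟩

private theorem Phi_mul : (ArithmeticFunction.moebius : ArithmeticFunction ℤ) *
    ((ArithmeticFunction.id : ArithmeticFunction ℕ) : ArithmeticFunction ℤ) = PhiA := by
  have h : ((ArithmeticFunction.zeta : ArithmeticFunction ℕ) : ArithmeticFunction ℤ) * PhiA =
      ((ArithmeticFunction.id : ArithmeticFunction ℕ) : ArithmeticFunction ℤ) := by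
    ext n
    rw [ArithmeticFunction.coe_zeta_mul_apply]
    have h1 : ∀ i ∈ n.divisors, PhiA i = ((i.totient : ℕ) : ℤ) := fun i _ => rfl
    rw [Finset.sum_congr rfl h1, ← Nat.cast_sum, Nat.sum_totient]
    simp
  rw [← h, ← mul_assoc, ArithmeticFunction.moebius_mul_coe_zeta, one_mul]

private theorem Phi_gauss (q : ℕ) :
    ((∑ m ∈ Ioc 0 q, ((ArithmeticFunction.id : ArithmeticFunction ℕ) :
      ArithmeticFunction ℤ) m : ℤ) : ℝ) = (q : ℝ) * (q + 1) / 2 := by
  induction q with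
  | zero => simp
  | succ q ih =>
    rw [Finset.sum_Ioc_succ_top (Nat.zero_le q), Int.cast_add, ih]
    simp only [ArithmeticFunction.natCoe_apply, ArithmeticFunction.id_apply, Int.cast_natCast]
    push_cast
    ring

private theorem Phi_sum (A : ℕ) : ((∑ n ∈ Icc 1 A, n.totient : ℕ) : ℝ) =
    ∑ n ∈ Ioc 0 A, ((ArithmeticFunction.moebius n : ℤ) : ℝ) *
      (((A / n : ℕ) : ℝ) * (((A / n : ℕ) : ℝ) + 1) / 2) := by
  have h := ArithmeticFunction.sum_Ioc_mul_eq_sum_sum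
    (ArithmeticFunction.moebius : ArithmeticFunction ℤ)
    ((ArithmeticFunction.id : ArithmeticFunction ℕ) : ArithmeticFunction ℤ) A
  rw [Phi_mul] at h
  have h1 : ((∑ n ∈ Icc 1 A, n.totient : ℕ) : ℤ) = ∑ n ∈ Ioc 0 A, PhiA n := by
    rw [Nat.cast_sum]
    rfl
  have h2 := congrArg (fun z : ℤ => (z : ℝ)) (h1.trans h)
  simp only [Int.cast_sum, Int.cast_mul] at h2
  have h3 : (((∑ n ∈ Icc 1 A, n.totient : ℕ) : ℤ) : ℝ) = ((∑ n ∈ Icc 1 A, n.totient : ℕ) : ℝ) :=
    Int.cast_natCast _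
  rw [← h3, h2]
  apply Finset.sum_congr rfl
  intro n _
  rw [← Phi_gauss (A / n), Int.cast_sum]

private noncomputable def PhiG (A d : ℕ) : ℝ :=
  ((ArithmeticFunction.moebius d : ℤ) : ℝ) *
      (((A / d : ℕ) : ℝ) * (((A / d : ℕ) : ℝ) + 1) / 2) / (A : ℝ) ^ 2

private theorem Phi_tsum (A : ℕ) :
    ((∑ n ∈ Icc 1 A, n.totient : ℕ) : ℝ) / (A : ℝ) ^ 2 = ∑' d, PhiG A d := by
  rw [tsum_eq_sum (s := Ioc 0 A), Phi_sum, Finset.sum_div]
  · rfl
  · intro d hd
    rw [Finset.mem_Ioc] at hd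
    have h0 : A / d = 0 := by
      rcases Nat.eq_zero_or_pos d with h | h
      · rw [h, Nat.div_zero]
      · exact Nat.div_eq_of_lt (by omega)
    unfold PhiG
    rw [h0]
    simp

private theorem Phi_bound (A d : ℕ) : ‖PhiG A d‖ ≤ 1 / (d : ℝ) ^ 2 := by
  unfold PhiG
  rcases Nat.eq_zero_or_pos (A / d) with h | h
  · rw [h]
    simp only [Nat.cast_zero, zero_mul, zero_div, mul_zero, norm_zero]
    positivity
  · have hd : 0 < d := by
      rcases Nat.eq_zero_or_pos d with h' | h'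
      · rw [h', Nat.div_zero] at h
        omega
      · exact h'
    have hA : 0 < A := by
      rcases Nat.eq_zero_or_pos A with h' | h'
      · rw [h', Nat.zero_div] at h
        omega
      · exact h'
    have hq : ((A / d : ℕ) : ℝ) * d ≤ A := by
      exact_mod_cast Nat.div_mul_le_self A d
    have hq1 : (1 : ℝ) ≤ ((A / d : ℕ) : ℝ) := by exact_mod_cast h
    have hdr : (0 : ℝ) < d := by exact_mod_cast hd
    have hAr : (0 : ℝ) < A := by exact_mod_cast hA
    set q : ℝ := ((A / d : ℕ) : ℝ) with hqdef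
    have hmu : |((ArithmeticFunction.moebius d : ℤ) : ℝ)| ≤ 1 := by
      exact_mod_cast ArithmeticFunction.abs_moebius_le_one
    rw [Real.norm_eq_abs, abs_div, abs_mul, abs_of_nonneg (show 0 ≤ q * (q + 1) / 2 by positivity),
      abs_of_nonneg (show 0 ≤ (A : ℝ) ^ 2 by positivity)]
    rw [div_le_div_iff₀ (by positivity) (by positivity), one_mul]
    have h1 : q * (q + 1) / 2 ≤ q ^ 2 := by nlinarith
    have h2 : |((ArithmeticFunction.moebius d : ℤ) : ℝ)| * (q * (q + 1) / 2) ≤ q ^ 2 := by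
      calc _ ≤ 1 * (q * (q + 1) / 2) := mul_le_mul_of_nonneg_right hmu (by positivity)
        _ ≤ q ^ 2 := by rw [one_mul]; exact h1
    calc |((ArithmeticFunction.moebius d : ℤ) : ℝ)| * (q * (q + 1) / 2) * (d : ℝ) ^ 2
        ≤ q ^ 2 * (d : ℝ) ^ 2 := mul_le_mul_of_nonneg_right h2 (by positivity)
      _ = (q * d) ^ 2 := by ring
      _ ≤ (A : ℝ) ^ 2 := pow_le_pow_left₀ (by positivity) hq 2

private theorem Phi_lim (d : ℕ) : Tendsto (fun A : ℕ => PhiG A d) atTop
    (𝓝 (((ArithmeticFunction.moebius d : ℤ) : ℝ) / (2 * (d : ℝ) ^ 2))) := by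
  rcases Nat.eq_zero_or_pos d with h | hd
  · subst h
    simp [PhiG]
  have hdr : (0 : ℝ) < d := by exact_mod_cast hd
  have h1 : Tendsto (fun A : ℕ => ((A / d : ℕ) : ℝ) / (A : ℝ)) atTop (𝓝 (1 / (d : ℝ))) := by
    have h2 := (tendsto_nat_floor_mul_div_atTop (R := ℝ) (a := 1 / (d : ℝ)) (by positivity)).comp
      tendsto_natCast_atTop_atTop
    refine h2.congr ?_
    intro A
    simp only [Function.comp]
    congr 2
    rw [show (1 / (d : ℝ)) * (A : ℝ) = (A : ℝ) / (d : ℝ) by ring]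
    exact Nat.floor_div_eq_div A d
  have h2 : Tendsto (fun A : ℕ => (1 : ℝ) / (A : ℝ)) atTop (𝓝 0) := tendsto_one_div_atTop_nhds_zero_nat
  have h3 := ((h1.mul (h1.add h2)).const_mul
    (((ArithmeticFunction.moebius d : ℤ) : ℝ) / 2))
  have e : ((ArithmeticFunction.moebius d : ℤ) : ℝ) / 2 * (1 / (d : ℝ) * (1 / (d : ℝ) + 0)) =
      ((ArithmeticFunction.moebius d : ℤ) : ℝ) / (2 * (d : ℝ) ^ 2) := by
    field_simp
    ring
  rw [e] at h3
  refine h3.congr ?_
  intro A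
  unfold PhiG
  rcases Nat.eq_zero_or_pos A with h | hA
  · subst h
    simp
  have hAr : (A : ℝ) ≠ 0 := by
    have : (0 : ℝ) < A := by exact_mod_cast hA
    exact this.ne'
  field_simp

theorem sum_totient_lim : ∃ c : ℝ, 0 < c ∧
    Tendsto (fun A : ℕ => ((∑ n ∈ Icc 1 A, n.totient : ℕ) : ℝ) / (A : ℝ) ^ 2) atTop (𝓝 c) := by
  have hz := hasSum_zeta_two
  have hb : Summable (fun d : ℕ => 1 / (d : ℝ) ^ 2) := hz.summable
  refine ⟨∑' d : ℕ, ((ArithmeticFunction.moebius d : ℤ) : ℝ) / (2 * (d : ℝ) ^ 2), ?_, ?_⟩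
  · have hmu : ∀ d : ℕ, |((ArithmeticFunction.moebius d : ℤ) : ℝ)| ≤ 1 := by
      intro d
      exact_mod_cast ArithmeticFunction.abs_moebius_le_one
    have hs : Summable (fun d : ℕ => ((ArithmeticFunction.moebius d : ℤ) : ℝ) / (2 * (d : ℝ) ^ 2)) := by
      apply Summable.of_norm_bounded hb
      intro d
      rw [Real.norm_eq_abs, abs_div, abs_of_nonneg (show 0 ≤ 2 * (d : ℝ) ^ 2 by positivity)]
      rcases Nat.eq_zero_or_pos d with h | hd
      · subst h
        simp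
      have hdr : (0 : ℝ) < d := by exact_mod_cast hd
      rw [div_le_div_iff₀ (by positivity) (by positivity)]
      have h1 := mul_le_mul_of_nonneg_right (hmu d) (show 0 ≤ (d : ℝ) ^ 2 by positivity)
      nlinarith [sq_nonneg (d : ℝ)]
    have hs2 : Summable (fun d : ℕ => ((ArithmeticFunction.moebius d : ℤ) : ℝ) / (2 * (d : ℝ) ^ 2) +
        1 / 2 * (1 / (d : ℝ) ^ 2)) := hs.add (hb.mul_left _)
    have h1 := hs2.le_tsum 1 (by
      intro d _
      have h2 := (abs_le.1 (hmu d)).1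
      have h3 : ((ArithmeticFunction.moebius d : ℤ) : ℝ) / (2 * (d : ℝ) ^ 2) +
        1 / 2 * (1 / (d : ℝ) ^ 2) = (((ArithmeticFunction.moebius d : ℤ) : ℝ) + 1) *
          (1 / (2 * (d : ℝ) ^ 2)) := by ring
      rw [h3]
      exact mul_nonneg (by linarith) (by positivity))
    rw [hs.tsum_add (hb.mul_left _), tsum_mul_left, hz.tsum_eq] at h1
    have h4 : (1 : ℝ) ≤ ∑' d : ℕ, ((ArithmeticFunction.moebius d : ℤ) : ℝ) / (2 * (d : ℝ) ^ 2) +
        1 / 2 * (Real.pi ^ 2 / 6) := by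
      refine le_trans (le_of_eq ?_) h1
      norm_num
    have h5 : Real.pi ^ 2 < 12 := by
      have := Real.pi_lt_d2
      have h6 := Real.pi_pos
      nlinarith
    linarith
  · have h := tendsto_tsum_of_dominated_convergence (f := fun A d => PhiG A d)
      (g := fun d : ℕ => ((ArithmeticFunction.moebius d : ℤ) : ℝ) / (2 * (d : ℝ) ^ 2))
      (bound := fun d : ℕ => 1 / (d : ℝ) ^ 2) (𝓕 := (atTop : Filter ℕ)) hb Phi_lim
      (Filter.Eventually.of_forall (fun A d => Phi_bound A d))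
    refine h.congr ?_
    intro A
    exact (Phi_tsum A).symm

end Pool.Agent.Lib.MP_d57abb_nt.TA
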