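import Pool.Agent.Lib.MP_d57abb_nt.TA.Defs
import Pool.Agent.Lib.MP_d57abb_nt.All.SW

/-!
# JOB PLB: the number of primes `± 1` modulo `5` in `(P/2, P]` (about 80 lines)

`All.sw` (Siegel-Walfisz, file `All/SW`) with `A = 1`, `B = 1`, modulus `5`, residue `1`: `|∑_{n ≤ y, n ≡ 1 (5)} lp n - y / 4| ≤ y / log y` for `y ≥ y₀`
(`lp n = log n` for `n` prime, `0` otherwise).  For `y = P` and `y = P / 2` (natural division, `P / 2 ≥ (P - 1) / 2`): the sum of `log p` over the primes `p ≡ 1 (mod 5)` in `(P/2, P]`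
is `≥ P/4 - P/8 - o(P) - 1 ≥ P / 16` for large `P`; every term is `≤ log P`, so the number is `≥ P / (16 log P)`.
-/

namespace Pool.Agent.Lib.MP_d57abb_nt.TA

open Finset Pool.Agent.Lib.MP_d57abb_nt

theorem card_PS : ∃ P₀ : ℕ, ∀ P : ℕ, P₀ ≤ P → (P : ℝ) / (16 * Real.log P) ≤ ((PS P).card : ℝ) := by
  classical
  obtain ⟨y₀, hy₀⟩ := All.sw 1 1
  have ht : Filter.Tendsto (fun y : ℕ => Real.log (y : ℝ)) Filter.atTop Filter.atTop :=
    Real.tendsto_log_atTop.comp tendsto_natCast_atTop_atTop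
  obtain ⟨N, hN⟩ := Filter.eventually_atTop.1 (ht.eventually (Filter.eventually_ge_atTop (24 : ℝ)))
  refine ⟨2 * (y₀ + N) + 2, fun P hP => ?_⟩
  have key : ∀ y : ℕ, y₀ + N ≤ y →
      |∑ n ∈ (Finset.Ioc 0 y).filter (fun n => n ≡ 1 [MOD 5]), All.lp n - (y : ℝ) / 4| ≤
        (y : ℝ) / 24 := by
    intro y hy
    have hlog : (24 : ℝ) ≤ Real.log y := hN y (by omega)
    have h5 : ((5 : ℕ) : ℝ) ≤ Real.log y ^ 1 := by
      rw [pow_one]
      push_cast
      linarith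
    have h := hy₀ y (by omega) 5 (by norm_num) h5 1 (by norm_num)
    have ht5 : Nat.totient 5 = 4 := by decide
    rw [ht5, pow_one] at h
    have h2 : (y : ℝ) / Real.log y ≤ (y : ℝ) / 24 :=
      div_le_div_of_nonneg_left (Nat.cast_nonneg y) (by norm_num) hlog
    push_cast at h
    exact h.trans h2
  have k1 := key P (by omega)
  have k2 := key (P / 2) (by omega)
  rw [abs_le] at k1 k2
  have hhalf : ((P / 2 : ℕ) : ℝ) ≤ (P : ℝ) / 2 := Nat.cast_div_le
  have hsub : (Finset.Ioc 0 (P / 2)).filter (fun n => n ≡ 1 [MOD 5]) ⊆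
      (Finset.Ioc 0 P).filter (fun n => n ≡ 1 [MOD 5]) := by
    intro n hn
    rw [mem_filter, mem_Ioc] at hn ⊢
    exact ⟨⟨hn.1.1, by omega⟩, hn.2⟩
  have hsd := Finset.sum_sdiff hsub (f := All.lp)
  set D := (Finset.Ioc 0 P).filter (fun n => n ≡ 1 [MOD 5]) \
    (Finset.Ioc 0 (P / 2)).filter (fun n => n ≡ 1 [MOD 5]) with hD
  have hlow : (P : ℝ) / 16 ≤ ∑ n ∈ D, All.lp n := by
    have hP0 : (0 : ℝ) ≤ P := Nat.cast_nonneg P
    linarith [k1.1, k2.2]
  have hlogP : (24 : ℝ) ≤ Real.log P := hN P (by omega)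
  have hup : ∑ n ∈ D, All.lp n ≤ ((PS P).card : ℝ) * Real.log P := by
    have h1 : ∑ n ∈ D, All.lp n ≤ ∑ n ∈ D, (if n.Prime then Real.log P else 0) := by
      refine sum_le_sum fun n hn => ?_
      unfold All.lp
      split_ifs with hp
      · have hnP : n ≤ P := by
          rw [hD, mem_sdiff, mem_filter, mem_Ioc] at hn
          exact hn.1.1.2
        exact Real.log_le_log (by exact_mod_cast hp.pos) (by exact_mod_cast hnP)
      · exact le_rfl
    rw [← sum_filter, sum_const, nsmul_eq_mul] at h1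
    refine h1.trans (mul_le_mul_of_nonneg_right ?_ (by linarith))
    refine Nat.cast_le.2 (card_le_card ?_)
    intro n hn
    rw [mem_filter, hD, mem_sdiff, mem_filter, mem_filter, mem_Ioc, mem_Ioc] at hn
    obtain ⟨⟨⟨⟨h0, hnP⟩, hmod⟩, hnot⟩, hpr⟩ := hn
    unfold PS
    rw [mem_filter, mem_Ioc]
    refine ⟨⟨?_, hnP⟩, hpr, Or.inl ?_⟩
    · by_contra hc
      exact hnot ⟨⟨h0, by omega⟩, hmod⟩
    · have : n % 5 = 1 % 5 := hmod
      omega
  have hlp : (0 : ℝ) < 16 * Real.log P := by linarith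
  rw [div_le_iff₀ hlp]
  linarith

end Pool.Agent.Lib.MP_d57abb_nt.TA
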