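import Pool.Agent.Lib.MP_d57abb_nt.MR.MRp

/-!
# The theorem in short intervals
-/

namespace Pool.Agent.Lib.MP_d57abb_nt.TA

theorem mrp_in {q : ℕ} (hq : 1 ≤ q) {z : ℂ} (hz : z ^ q = 1) (hz1 : z ≠ 1) : MS.MRp z :=
  MR.mrp (by omega) hz hz1

end Pool.Agent.Lib.MP_d57abb_nt.TA
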