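import Pool.Agent.Lib.MP_d57abb_nt.TA.Rt

/-!
# JOB Yv: the position of the prime ideal in a frame (about 150 lines)

Work in the field `ZMod p` (`haveI : Fact p.Prime`).  `Ip p v ↔ ro p v = 0` (`ZMod.intCast_zmod_eq_zero_iff_dvd` / `ZMod.intCast_eq_zero..`); `ro` is additive,
`ro p (em C s) = s.1 ro C.1 + s.2 ro C.2`.  If `dt C.1 C.2 = 1` then `ro C.1`, `ro C.2` are not both `0`: `dt C.1 C.2 = C.1.1 C.2.2 - C.2.1 C.1.2`, with `C.i.1 ≡ - r C.i.2` it would be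
`≡ 0`.
* `iL_iff`: if `ro C.1 = 0` then `yv = p` and `Ip ↔ s.2 ro C.2 = 0 ↔ p ∣ s.2`; otherwise `yv = y.val < p`, `y = - ro C.2 / ro C.1`, and `Ip ↔ s.1 = y s.2` in `ZMod p`
  (`ZMod.natCast_zmod_val`).
* `exists_maps`: for one prime: `yv (Lf C)`: `ro (C.1 + C.2) = ro C.1 + ro C.2`.  With `Y = yv p C`: if `Y = p` then `yv (Lf C) = p` and `yv (Rt C) = (-1 : ZMod p).val`;
  otherwise `yv (Lf C) = (Y - 1 : ZMod p).val`, and `yv (Rt C) = p` if `(Y : ZMod p) = 1`, else `(Y / (1 - Y) : ZMod p).val`.  Then take the functions coordinatewise on `T → ℕ`.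
* `exists_unique_y`: if `p ∣ s.2` (then `p ∤ s.1`): only `y = p`; otherwise `y = (s.1 / s.2).val`.
* `iL_dt`: if `iL p y s`, `p` does not divide both coordinates of `s`: `iL p y t ↔ p ∣ dt s t`.  For `y = p`: `p ∣ s.2`, `p ∤ s.1`, `dt s t = s.1 t.2 - t.1 s.2`.  For `y < p`:
  `s.1 = y s.2`, `s.2 ≠ 0` in `ZMod p`, `dt s t = s.2 (y t.2 - t.1)`.
-/

namespace Pool.Agent.Lib.MP_d57abb_nt.TA

open Finset Pool.Agent.Lib.MP_d57abb_nt

private theorem Yv_dvd (p : ℕ) (a : ℤ) : (p : ℤ) ∣ a ↔ (a : ZMod p) = 0 :=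
  (CharP.intCast_eq_zero_iff (ZMod p) p a).symm

private theorem Yv_ip (p : ℕ) (v : ℤ × ℤ) : Ip p v ↔ ro p v = 0 := by
  unfold Ip ro
  rw [Yv_dvd]
  push_cast
  rfl

private theorem Yv_add (p : ℕ) (v w : ℤ × ℤ) : ro p (v + w) = ro p v + ro p w := by
  unfold ro
  simp only [Prod.fst_add, Prod.snd_add]
  push_cast
  ring

private theorem Yv_em (p : ℕ) (C : (ℤ × ℤ) × (ℤ × ℤ)) (s : ℤ × ℤ) :
    ro p (em C s) = (s.1 : ZMod p) * ro p C.1 + (s.2 : ZMod p) * ro p C.2 := by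
  unfold ro em
  simp only [Prod.fst_add, Prod.snd_add, Prod.smul_fst, Prod.smul_snd, smul_eq_mul]
  push_cast
  ring

private theorem Yv_ne {p : ℕ} (hp : SP p) {C : (ℤ × ℤ) × (ℤ × ℤ)} (hC : dt C.1 C.2 = 1)
    (h1 : ro p C.1 = 0) : ro p C.2 ≠ 0 := by
  have : Fact p.Prime := ⟨hp.1⟩
  intro h2
  have h : ((dt C.1 C.2 : ℤ) : ZMod p) = 1 := by rw [hC]; simp
  unfold dt at h
  push_cast at h
  unfold ro at h1 h2
  have : (1 : ZMod p) = 0 := by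
    linear_combination (-1 : ZMod p) * h + (C.2.2 : ZMod p) * h1 - (C.1.2 : ZMod p) * h2
  exact one_ne_zero this

private theorem Yv_val_ne {p : ℕ} (hp : SP p) (a : ZMod p) : a.val ≠ p := by
  have : Fact p.Prime := ⟨hp.1⟩
  exact (ZMod.val_lt a).ne

theorem yv_lt {p : ℕ} (hp : SP p) (C : (ℤ × ℤ) × (ℤ × ℤ)) : yv p C < p + 1 := by
  have : Fact p.Prime := ⟨hp.1⟩
  unfold yv
  split_ifs
  · exact Nat.lt_succ_self p
  · exact (ZMod.val_lt _).trans (Nat.lt_succ_self p)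

private theorem Yv_iL_p (p : ℕ) (s : ℤ × ℤ) : iL p p s ↔ (s.2 : ZMod p) = 0 := by
  unfold iL
  rw [← Yv_dvd]
  exact ⟨fun h => h.1 rfl, fun h => ⟨fun _ => h, fun h' => absurd rfl h'⟩⟩

private theorem Yv_iL_ne {p y : ℕ} (hy : y ≠ p) (s : ℤ × ℤ) :
    iL p y s ↔ (s.1 : ZMod p) = (y : ZMod p) * (s.2 : ZMod p) := by
  have e : (p : ℤ) ∣ s.1 - y * s.2 ↔ (s.1 : ZMod p) = (y : ZMod p) * (s.2 : ZMod p) := by
    rw [Yv_dvd]
    push_cast
    rw [sub_eq_zero]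
  unfold iL
  rw [e]
  exact ⟨fun h => h.2 hy, fun h => ⟨fun h' => absurd h' hy, fun _ => h⟩⟩

private theorem Yv_yv_zero {p : ℕ} {C : (ℤ × ℤ) × (ℤ × ℤ)} (h : ro p C.1 = 0) : yv p C = p := by
  unfold yv
  rw [if_pos h]

private theorem Yv_yv_ne {p : ℕ} {C : (ℤ × ℤ) × (ℤ × ℤ)} (h : ro p C.1 ≠ 0) :
    yv p C = (- ro p C.2 * (ro p C.1)⁻¹).val := by
  unfold yv
  rw [if_neg h]

private theorem Yv_cast {p : ℕ} (hp : SP p) {C : (ℤ × ℤ) × (ℤ × ℤ)} (h : ro p C.1 ≠ 0) :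
    (yv p C : ZMod p) * ro p C.1 = - ro p C.2 := by
  have : Fact p.Prime := ⟨hp.1⟩
  rw [Yv_yv_ne h, ZMod.natCast_zmod_val, mul_assoc, inv_mul_cancel₀ h, mul_one]

theorem iL_iff {p : ℕ} (hp : SP p) {C : (ℤ × ℤ) × (ℤ × ℤ)} (hC : dt C.1 C.2 = 1) (s : ℤ × ℤ) :
    Ip p (em C s) ↔ iL p (yv p C) s := by
  have : Fact p.Prime := ⟨hp.1⟩
  rw [Yv_ip, Yv_em]
  by_cases h : ro p C.1 = 0
  · rw [Yv_yv_zero h, Yv_iL_p, h, mul_zero, zero_add]
    have h2 := Yv_ne hp hC h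
    exact ⟨fun h' => (mul_eq_zero.mp h').resolve_right h2, fun h' => by rw [h', zero_mul]⟩
  · have hne : yv p C ≠ p := by rw [Yv_yv_ne h]; exact Yv_val_ne hp _
    rw [Yv_iL_ne hne]
    have hc := Yv_cast hp h
    constructor
    · intro h'
      apply mul_right_cancel₀ h
      linear_combination h' - (s.2 : ZMod p) * hc
    · intro h'
      linear_combination ro p C.1 * h' + (s.2 : ZMod p) * hc

private theorem Yv_lf {p : ℕ} (hp : SP p) {C : (ℤ × ℤ) × (ℤ × ℤ)} (_hC : dt C.1 C.2 = 1) :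
    yv p (Lf C) = if yv p C = p then p else ((yv p C : ZMod p) - 1).val := by
  have : Fact p.Prime := ⟨hp.1⟩
  by_cases h : ro p C.1 = 0
  · have h1 : yv p (Lf C) = p := Yv_yv_zero (C := Lf C) h
    rw [Yv_yv_zero h, if_pos rfl, h1]
  · have hne : yv p C ≠ p := by rw [Yv_yv_ne h]; exact Yv_val_ne hp _
    have h1 : yv p (Lf C) = (- ro p (C.1 + C.2) * (ro p C.1)⁻¹).val := Yv_yv_ne (C := Lf C) h
    rw [if_neg hne, h1, Yv_add]
    congr 1
    apply mul_right_cancel₀ h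
    rw [mul_assoc, inv_mul_cancel₀ h]
    have hc := Yv_cast hp h
    linear_combination - hc

private theorem Yv_rt {p : ℕ} (hp : SP p) {C : (ℤ × ℤ) × (ℤ × ℤ)} (hC : dt C.1 C.2 = 1) :
    yv p (Rt C) = if yv p C = p then ((-1 : ZMod p)).val else
      if (yv p C : ZMod p) = 1 then p else
        ((yv p C : ZMod p) * (1 - (yv p C : ZMod p))⁻¹).val := by
  have : Fact p.Prime := ⟨hp.1⟩
  by_cases h : ro p C.1 = 0
  · have h2 := Yv_ne hp hC h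
    have h3 : ro p (C.1 + C.2) ≠ 0 := by rw [Yv_add, h, zero_add]; exact h2
    have h1 : yv p (Rt C) = (- ro p C.2 * (ro p (C.1 + C.2))⁻¹).val := Yv_yv_ne (C := Rt C) h3
    rw [Yv_yv_zero h, if_pos rfl, h1, Yv_add, h, zero_add]
    congr 1
    rw [neg_mul, mul_inv_cancel₀ h2]
  · have hne : yv p C ≠ p := by rw [Yv_yv_ne h]; exact Yv_val_ne hp _
    have hc := Yv_cast hp h
    rw [if_neg hne]
    by_cases h4 : (yv p C : ZMod p) = 1
    · have h3 : ro p (C.1 + C.2) = 0 := by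
        rw [Yv_add]
        rw [h4, one_mul] at hc
        rw [hc]
        ring
      rw [if_pos h4]
      exact Yv_yv_zero (C := Rt C) h3
    · have h5 : (1 - (yv p C : ZMod p)) ≠ 0 := fun h' => h4 (sub_eq_zero.mp h').symm
      have h6 : ro p (C.1 + C.2) = ro p C.1 * (1 - (yv p C : ZMod p)) := by
        rw [Yv_add]
        linear_combination hc
      have h3 : ro p (C.1 + C.2) ≠ 0 := by rw [h6]; exact mul_ne_zero h h5
      have h1 : yv p (Rt C) = (- ro p C.2 * (ro p (C.1 + C.2))⁻¹).val := Yv_yv_ne (C := Rt C) h3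
      rw [if_neg h4, h1]
      congr 1
      apply mul_right_cancel₀ h3
      rw [mul_assoc, inv_mul_cancel₀ h3, h6]
      have h7 : (1 - (yv p C : ZMod p))⁻¹ * (1 - (yv p C : ZMod p)) = 1 := inv_mul_cancel₀ h5
      linear_combination - hc - (yv p C : ZMod p) * ro p C.1 * h7

theorem exists_maps (T : Finset ℕ) (hT : ∀ p ∈ T, SP p) : ∃ yl yr : (T → ℕ) → (T → ℕ),
    (∀ C, Fr C → Yv T (Lf C) = yl (Yv T C)) ∧ (∀ C, Fr C → Yv T (Rt C) = yr (Yv T C)) := by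
  refine ⟨fun Y p => if Y p = (p : ℕ) then (p : ℕ) else ((Y p : ZMod (p : ℕ)) - 1).val,
    fun Y p => if Y p = (p : ℕ) then ((-1 : ZMod (p : ℕ))).val else
      if (Y p : ZMod (p : ℕ)) = 1 then (p : ℕ) else
        ((Y p : ZMod (p : ℕ)) * (1 - (Y p : ZMod (p : ℕ)))⁻¹).val, ?_, ?_⟩
  · intro C hC
    funext p
    exact Yv_lf (hT p p.2) hC.2.2
  · intro C hC
    funext p
    exact Yv_rt (hT p p.2) hC.2.2

theorem exists_unique_y {p : ℕ} (hp : SP p) {s : ℤ × ℤ} (hs : ¬ ((p : ℤ) ∣ s.1 ∧ (p : ℤ) ∣ s.2)) :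
    ∃! y, y ∈ range (p + 1) ∧ iL p y s := by
  have : Fact p.Prime := ⟨hp.1⟩
  rw [Yv_dvd, Yv_dvd] at hs
  by_cases h : (s.2 : ZMod p) = 0
  · refine ⟨p, ⟨mem_range.mpr (Nat.lt_succ_self p), (Yv_iL_p p s).mpr h⟩, ?_⟩
    rintro y ⟨_, hy⟩
    by_contra hne
    rw [Yv_iL_ne hne, h, mul_zero] at hy
    exact hs ⟨hy, h⟩
  · have hv : ((((s.1 : ZMod p) * (s.2 : ZMod p)⁻¹).val : ℕ) : ZMod p)
        = (s.1 : ZMod p) * (s.2 : ZMod p)⁻¹ := ZMod.natCast_zmod_val _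
    refine ⟨((s.1 : ZMod p) * (s.2 : ZMod p)⁻¹).val,
      ⟨mem_range.mpr ((ZMod.val_lt _).trans (Nat.lt_succ_self p)), ?_⟩, ?_⟩
    · rw [Yv_iL_ne (Yv_val_ne hp _), hv, mul_assoc, inv_mul_cancel₀ h, mul_one]
    · rintro y ⟨hy1, hy⟩
      have hne : y ≠ p := by
        rintro rfl
        exact h ((Yv_iL_p _ s).mp hy)
      have hlt : y < p := lt_of_le_of_ne (Nat.lt_succ_iff.mp (mem_range.mp hy1)) hne
      rw [Yv_iL_ne hne] at hy
      rw [hy, mul_assoc, mul_inv_cancel₀ h, mul_one, ZMod.val_natCast_of_lt hlt]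

theorem iL_dt {p y : ℕ} (hp : SP p) (hy : y < p + 1) {s : ℤ × ℤ}
    (hs : ¬ ((p : ℤ) ∣ s.1 ∧ (p : ℤ) ∣ s.2)) (h : iL p y s) (t : ℤ × ℤ) :
    iL p y t ↔ (p : ℤ) ∣ dt s t := by
  have : Fact p.Prime := ⟨hp.1⟩
  rw [Yv_dvd, Yv_dvd] at hs
  rw [Yv_dvd]
  unfold dt
  push_cast
  by_cases hne : y = p
  · subst hne
    rw [Yv_iL_p] at h ⊢
    have h1 : (s.1 : ZMod y) ≠ 0 := fun h' => hs ⟨h', h⟩
    rw [h, mul_zero, sub_zero, mul_eq_zero]
    exact ⟨fun h' => Or.inr h', fun h' => h'.resolve_left h1⟩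
  · rw [Yv_iL_ne hne] at h ⊢
    have h2 : (s.2 : ZMod p) ≠ 0 := by
      intro h'
      apply hs
      rw [h', mul_zero] at h
      exact ⟨h, h'⟩
    rw [h]
    constructor
    · intro h'
      rw [h']
      ring
    · intro h'
      apply mul_right_cancel₀ h2
      linear_combination - h'

end Pool.Agent.Lib.MP_d57abb_nt.TA
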