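import Pool.Agent.Lib.MP_d57abb_nt.TA.AllGood
import Pool.Agent.Lib.MP_d57abb_nt.TA.NPrim

/-!
# JOB Decouple: the decoupling theorem (about 250 lines)

`γ = γ₀ + 4`, `A = 2^i`, `r = ρ - γ`, `j = i + r`, `N = n 2^ρ`, `S = PS (PP e ρ)`.  As in `AllGood`: `4^ρ |CC A| ≤ 4^γ 4^j`.  For `p ∈ S`, with the weight `W x = μ x.1 Wh (ll x.1 / 2^j) (ll x.2 / 2^j) / 4^j`:
`p GP = p ∑_{x ∈ pr, Ip x.1, Ip x.2} W x aa aa`.
(1) NOT PRIMITIVE pairs: `nonprim` (`W ≠ 0` gives `2^j / 4 ≤ ll x.1 ≤ 4 · 2^j`), `|W| ≤ B / 4^j`: contribution `≤ B ε₁`.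
(2) PRIMITIVE pairs: `pp2` with `Ip x.1` (`Ip_snd`).  Not `gd`: `W ≤ 2 B Dw (2^(γ₀+1)) .. / 4^j` (`le_Dw`, `hx`, `Y = 2^γ₀`), `all_good`: the sum over `p` is `≤ 2 B ε₁ (1 + MI ρ / (δ 4^ρ)) |S|`.
(3) `gd`: `cell_sum` with `f x = if Ip p x.1 then W x aa aa else 0` (support as in `AllGood`: `W ≠ 0` gives `1/4 ≤ x`, here `hx` gives even `ll x.1 ≥ 2^j / 2 > 2^i`): `p ∑_{C ∈ CB} ∑_{x ∈ pp2 N p, iL} μ (em C x.1) Wh (..) (..) / 4^j aa aa`.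
Replace `μ (em C x.1)` by `μ (C.1 + C.2)` (`GM.sv`: error `c_n / A`; `Qd_em`, `InC_em`): total error `≤ p |CC A| (c_n / A) c / 4^j` (`GI_bound`) `≤ 4^γ c_n c / A → 0`.  We get `∑_C (μ_C / 4^j) p GI`, `0 ≤ μ_C ≤ 1`.
(4) `ty_approx`: `GI → FF`: error `∑_C p (c/K') / 4^j ≤ 4^γ c / K'`.  `info_cell`: `∑_p`: `‖∑_C (μ_C / 4^j) ∑_p p (FF - FM)‖ ≤ 4^(-j) ε₁ (1 + ..) 4^ρ |S| |CC A| ≤ 4^γ ε₁ (1 + ..) |S|`.
`p FM = (p / (p+1)) (p+1) FM`, `(p+1) FM → Gc`: error `∑_C (c/K') 4^ρ / 4^j ≤ 4^γ c / K'`; `(p / (p+1)) Gc → Gc`: error `∑_C ‖Gc‖ / ((p+1) 4^j) ≤ 4^γ c / p` (`GI_bound`).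
What remains is `∑_C (μ_C / 4^j) Gc = TC`.
Order of choices: `ε₁`, then `n₀, e₀` from `all_good`; for `n ≥ n₀`, `e ≥ e₀`: the constants `c`, then `K'`, then `δ` (minimum of the two `δ`s of `all_good` and `info_cell`; the right side is monotone in `1/δ`, `MI ≥ 0`:
`MI_nonneg`), `ρ₀`, `i₀`.
-/

namespace Pool.Agent.Lib.MP_d57abb_nt.TA

open Finset Pool.Agent.Lib.MP_d57abb_nt

private theorem Decouple_core {ι : Type} {S : Finset ℕ} {T : Finset ι}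
    {B ε₁ M X R G Cc a3 a4 c : ℝ}
    (hε : 0 < ε₁) (hM : 0 ≤ M) (hX : 0 < X) (hR : 0 < R) (hG : 0 < G) (hB : 0 ≤ B)
    (ha3 : 0 ≤ a3) (ha4 : 0 ≤ a4)
    (hT : (T.card : ℝ) ≤ Cc) (hRC : R * Cc ≤ G * X)
    (hp : ∀ p ∈ S, 1 ≤ p ∧ (p : ℝ) ≤ R)
    (GP U1 U2 : ℕ → ℂ) (V GI FF FM Gc : ι → ℕ → ℂ) (m : ι → ℝ)
    (hm : ∀ C ∈ T, 0 ≤ m C ∧ m C ≤ 1)
    (hGP : ∀ p ∈ S, GP p = U1 p + U2 p + ∑ C ∈ T, V C p)
    (h1 : ∀ p ∈ S, (p : ℝ) * ‖U1 p‖ ≤ B * ε₁)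
    (h2 : ∑ p ∈ S, (p : ℝ) * ‖U2 p‖ ≤ 2 * B * ε₁ * (1 + M) * S.card)
    (h3 : ∀ p ∈ S, ∀ C ∈ T, ‖V C p - ((m C / X : ℝ) : ℂ) * GI C p‖ ≤ a3 / X)
    (h3' : G * a3 ≤ ε₁)
    (h4 : ∀ p ∈ S, ∀ C ∈ T, ‖GI C p - FF C p‖ ≤ a4) (h4' : G * a4 ≤ ε₁)
    (h5 : ∑ C ∈ T, ‖∑ p ∈ S, (p : ℂ) * (FF C p - FM C p)‖ ≤
      ε₁ * (1 + M) * R * S.card * Cc)
    (h6 : ∀ p ∈ S, ∀ C ∈ T, ‖Gc C p - (p + 1) * FM C p‖ ≤ a4 * R)
    (h7 : ∀ p ∈ S, ∀ C ∈ T, ‖Gc C p‖ ≤ c * R) (h7' : ∀ p ∈ S, G * c ≤ ε₁ * p) :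
    ‖∑ p ∈ S, ((p : ℂ) * GP p - ∑ C ∈ T, ((m C / X : ℝ) : ℂ) * Gc C p)‖ ≤
      ε₁ * (3 * B + 4 + G) * (1 + M) * S.card := by
  have hS0 : (0 : ℝ) ≤ S.card := Nat.cast_nonneg _
  have hT0 : (0 : ℝ) ≤ T.card := Nat.cast_nonneg _
  have hCc : 0 ≤ Cc := le_trans hT0 hT
  have e0 : ∑ p ∈ S, ((p : ℂ) * GP p - ∑ C ∈ T, ((m C / X : ℝ) : ℂ) * Gc C p) =
      ∑ p ∈ S, (p : ℂ) * U1 p + ∑ p ∈ S, (p : ℂ) * U2 p +
      ∑ p ∈ S, (p : ℂ) * ∑ C ∈ T, (V C p - ((m C / X : ℝ) : ℂ) * GI C p) +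
      ∑ C ∈ T, ((m C / X : ℝ) : ℂ) * (∑ p ∈ S, (p : ℂ) * (GI C p - FF C p) +
        ∑ p ∈ S, (p : ℂ) * (FF C p - FM C p) + ∑ p ∈ S, ((p : ℂ) * FM C p - Gc C p)) := by
    have e1 : ∑ C ∈ T, ((m C / X : ℝ) : ℂ) * (∑ p ∈ S, (p : ℂ) * (GI C p - FF C p) +
        ∑ p ∈ S, (p : ℂ) * (FF C p - FM C p) + ∑ p ∈ S, ((p : ℂ) * FM C p - Gc C p)) =
        ∑ p ∈ S, ∑ C ∈ T, ((m C / X : ℝ) : ℂ) * ((p : ℂ) * GI C p - Gc C p) := by
      rw [Finset.sum_comm]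
      refine Finset.sum_congr rfl fun C _ => ?_
      rw [← Finset.sum_add_distrib, ← Finset.sum_add_distrib, Finset.mul_sum]
      refine Finset.sum_congr rfl fun p _ => ?_
      ring
    rw [e1, ← Finset.sum_add_distrib, ← Finset.sum_add_distrib, ← Finset.sum_add_distrib]
    refine Finset.sum_congr rfl fun p hpS => ?_
    rw [hGP p hpS]
    have e2 : (p : ℂ) * ∑ C ∈ T, (V C p - ((m C / X : ℝ) : ℂ) * GI C p) +
        ∑ C ∈ T, ((m C / X : ℝ) : ℂ) * ((p : ℂ) * GI C p - Gc C p) =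
        (p : ℂ) * ∑ C ∈ T, V C p - ∑ C ∈ T, ((m C / X : ℝ) : ℂ) * Gc C p := by
      rw [Finset.mul_sum, Finset.mul_sum, ← Finset.sum_add_distrib, ← Finset.sum_sub_distrib]
      refine Finset.sum_congr rfl fun C _ => ?_
      ring
    linear_combination - e2
  have b1 : ‖∑ p ∈ S, (p : ℂ) * U1 p‖ ≤ S.card * (B * ε₁) := by
    refine (norm_sum_le _ _).trans ?_
    rw [← nsmul_eq_mul]
    refine Finset.sum_le_card_nsmul _ _ _ fun p hpS => ?_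
    rw [norm_mul, Complex.norm_natCast]
    exact h1 p hpS
  have b2 : ‖∑ p ∈ S, (p : ℂ) * U2 p‖ ≤ 2 * B * ε₁ * (1 + M) * S.card := by
    refine (norm_sum_le _ _).trans (le_trans (le_of_eq ?_) h2)
    refine Finset.sum_congr rfl fun p _ => ?_
    rw [norm_mul, Complex.norm_natCast]
  have hRCX : R * Cc / X ≤ G := by
    rw [div_le_iff₀ hX]; exact hRC
  have b3 : ‖∑ p ∈ S, (p : ℂ) * ∑ C ∈ T, (V C p - ((m C / X : ℝ) : ℂ) * GI C p)‖ ≤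
      S.card * ε₁ := by
    refine (norm_sum_le _ _).trans ?_
    rw [← nsmul_eq_mul]
    refine Finset.sum_le_card_nsmul _ _ _ fun p hpS => ?_
    rw [norm_mul, Complex.norm_natCast]
    have e1 : ‖∑ C ∈ T, (V C p - ((m C / X : ℝ) : ℂ) * GI C p)‖ ≤ T.card * (a3 / X) := by
      refine (norm_sum_le _ _).trans ?_
      rw [← nsmul_eq_mul]
      exact Finset.sum_le_card_nsmul _ _ _ fun C hC => h3 p hpS C hC
    have e2 : (T.card : ℝ) * (a3 / X) ≤ Cc * (a3 / X) :=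
      mul_le_mul_of_nonneg_right hT (div_nonneg ha3 hX.le)
    have e3 : (p : ℝ) * ‖∑ C ∈ T, (V C p - ((m C / X : ℝ) : ℂ) * GI C p)‖ ≤
        R * (Cc * (a3 / X)) :=
      mul_le_mul (hp p hpS).2 (e1.trans e2) (norm_nonneg _) hR.le
    have e4 : R * (Cc * (a3 / X)) = R * Cc / X * a3 := by ring
    have e5 : R * Cc / X * a3 ≤ G * a3 := mul_le_mul_of_nonneg_right hRCX ha3
    linarith
  have b4 : ‖∑ C ∈ T, ((m C / X : ℝ) : ℂ) * (∑ p ∈ S, (p : ℂ) * (GI C p - FF C p) +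
        ∑ p ∈ S, (p : ℂ) * (FF C p - FM C p) + ∑ p ∈ S, ((p : ℂ) * FM C p - Gc C p))‖ ≤
      S.card * (3 * ε₁) + G * ε₁ * (1 + M) * S.card := by
    have t1 : ∀ C ∈ T, ‖((m C / X : ℝ) : ℂ) * (∑ p ∈ S, (p : ℂ) * (GI C p - FF C p) +
        ∑ p ∈ S, (p : ℂ) * (FF C p - FM C p) + ∑ p ∈ S, ((p : ℂ) * FM C p - Gc C p))‖ ≤
        1 / X * (S.card * (R * (2 * a4 + ε₁ / G)) +
          ‖∑ p ∈ S, (p : ℂ) * (FF C p - FM C p)‖) := by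
      intro C hC
      rw [norm_mul, Complex.norm_real, Real.norm_of_nonneg (div_nonneg (hm C hC).1 hX.le)]
      have s1 : m C / X ≤ 1 / X := div_le_div_of_nonneg_right (hm C hC).2 hX.le
      refine mul_le_mul s1 ?_ (norm_nonneg _) (by positivity)
      have s2 : ‖∑ p ∈ S, (p : ℂ) * (GI C p - FF C p)‖ ≤ S.card * (R * a4) := by
        refine (norm_sum_le _ _).trans ?_
        rw [← nsmul_eq_mul]
        refine Finset.sum_le_card_nsmul _ _ _ fun p hpS => ?_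
        rw [norm_mul, Complex.norm_natCast]
        exact mul_le_mul (hp p hpS).2 (h4 p hpS C hC) (norm_nonneg _) hR.le
      have s3 : ‖∑ p ∈ S, ((p : ℂ) * FM C p - Gc C p)‖ ≤ S.card * (R * (a4 + ε₁ / G)) := by
        refine (norm_sum_le _ _).trans ?_
        rw [← nsmul_eq_mul]
        refine Finset.sum_le_card_nsmul _ _ _ fun p hpS => ?_
        have hp1 : (1 : ℝ) ≤ p := by exact_mod_cast (hp p hpS).1
        have hp2 : (0 : ℝ) < (p : ℝ) + 1 := by linarith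
        have hp3 : ((p : ℂ) + 1) ≠ 0 := by exact_mod_cast (Nat.succ_ne_zero p)
        have r1 : (p : ℂ) * FM C p - Gc C p =
            -(((p / (p + 1) : ℝ) : ℂ) * (Gc C p - (p + 1) * FM C p)) -
              (((1 / (p + 1) : ℝ) : ℂ)) * Gc C p := by
          push_cast
          field_simp
          ring
        rw [r1]
        refine (norm_sub_le _ _).trans ?_
        rw [norm_neg, norm_mul, norm_mul, Complex.norm_real, Complex.norm_real,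
          Real.norm_of_nonneg (by positivity), Real.norm_of_nonneg (by positivity)]
        have r2 : (p : ℝ) / (p + 1) ≤ 1 := by
          rw [div_le_one hp2]; linarith
        have r3 : (p : ℝ) / (p + 1) * ‖Gc C p - (p + 1) * FM C p‖ ≤ 1 * (a4 * R) :=
          mul_le_mul r2 (h6 p hpS C hC) (norm_nonneg _) zero_le_one
        have r4 : 1 / ((p : ℝ) + 1) * ‖Gc C p‖ ≤ R * (ε₁ / G) := by
          rw [div_mul_eq_mul_div, one_mul, div_le_iff₀ hp2]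
          have r5 := h7 p hpS C hC
          have r6 := h7' p hpS
          have r7 : c ≤ ε₁ / G * p := by
            rw [div_mul_eq_mul_div, le_div_iff₀ hG]; linarith
          have r8 : ε₁ / G * p ≤ ε₁ / G * (p + 1) :=
            mul_le_mul_of_nonneg_left (by linarith) (by positivity)
          have r9 : c * R ≤ ε₁ / G * (p + 1) * R :=
            mul_le_mul_of_nonneg_right (r7.trans r8) hR.le
          linarith
        linarith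
      have s4 := norm_add_le (∑ p ∈ S, (p : ℂ) * (GI C p - FF C p) +
        ∑ p ∈ S, (p : ℂ) * (FF C p - FM C p)) (∑ p ∈ S, ((p : ℂ) * FM C p - Gc C p))
      have s5 := norm_add_le (∑ p ∈ S, (p : ℂ) * (GI C p - FF C p))
        (∑ p ∈ S, (p : ℂ) * (FF C p - FM C p))
      have s6 : (S.card : ℝ) * (R * (2 * a4 + ε₁ / G)) =
        S.card * (R * a4) + S.card * (R * (a4 + ε₁ / G)) := by ring
      linarith
    refine (norm_sum_le _ _).trans ((Finset.sum_le_sum t1).trans ?_)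
    rw [← Finset.mul_sum, Finset.sum_add_distrib, Finset.sum_const, nsmul_eq_mul]
    have t2 : (T.card : ℝ) * (S.card * (R * (2 * a4 + ε₁ / G))) ≤
        Cc * (S.card * (R * (2 * a4 + ε₁ / G))) :=
      mul_le_mul_of_nonneg_right hT (by positivity)
    have t3 : 1 / X * ((T.card : ℝ) * (S.card * (R * (2 * a4 + ε₁ / G))) +
        ∑ C ∈ T, ‖∑ p ∈ S, (p : ℂ) * (FF C p - FM C p)‖) ≤
        1 / X * (Cc * (S.card * (R * (2 * a4 + ε₁ / G))) +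
          ε₁ * (1 + M) * R * S.card * Cc) :=
      mul_le_mul_of_nonneg_left (by linarith) (by positivity)
    refine t3.trans ?_
    have t4 : 1 / X * (Cc * (S.card * (R * (2 * a4 + ε₁ / G))) +
          ε₁ * (1 + M) * R * S.card * Cc) =
        R * Cc / X * (S.card * (2 * a4 + ε₁ / G + ε₁ * (1 + M))) := by ring
    have t5 : R * Cc / X * (S.card * (2 * a4 + ε₁ / G + ε₁ * (1 + M))) ≤
        G * (S.card * (2 * a4 + ε₁ / G + ε₁ * (1 + M))) :=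
      mul_le_mul_of_nonneg_right hRCX (by positivity)
    have t6 : G * (S.card * (2 * a4 + ε₁ / G + ε₁ * (1 + M))) =
        S.card * (2 * (G * a4) + ε₁) + G * ε₁ * (1 + M) * S.card := by
      field_simp
    have t7 : (S.card : ℝ) * (2 * (G * a4) + ε₁) ≤ S.card * (3 * ε₁) :=
      mul_le_mul_of_nonneg_left (by linarith) hS0
    linarith
  rw [e0]
  have n1 := norm_add_le (∑ p ∈ S, (p : ℂ) * U1 p + ∑ p ∈ S, (p : ℂ) * U2 p +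
      ∑ p ∈ S, (p : ℂ) * ∑ C ∈ T, (V C p - ((m C / X : ℝ) : ℂ) * GI C p))
      (∑ C ∈ T, ((m C / X : ℝ) : ℂ) * (∑ p ∈ S, (p : ℂ) * (GI C p - FF C p) +
        ∑ p ∈ S, (p : ℂ) * (FF C p - FM C p) + ∑ p ∈ S, ((p : ℂ) * FM C p - Gc C p)))
  have n2 := norm_add_le (∑ p ∈ S, (p : ℂ) * U1 p + ∑ p ∈ S, (p : ℂ) * U2 p)
      (∑ p ∈ S, (p : ℂ) * ∑ C ∈ T, (V C p - ((m C / X : ℝ) : ℂ) * GI C p))
  have n3 := norm_add_le (∑ p ∈ S, (p : ℂ) * U1 p) (∑ p ∈ S, (p : ℂ) * U2 p)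
  have n4 : (S.card : ℝ) * (B * ε₁) + S.card * ε₁ + S.card * (3 * ε₁) ≤
      (B + 4) * ε₁ * (1 + M) * S.card := by
    have : 0 ≤ (B + 4) * ε₁ * M * S.card := by positivity
    nlinarith
  have n5 : ε₁ * (3 * B + 4 + G) * (1 + M) * S.card = (B + 4) * ε₁ * (1 + M) * S.card +
    2 * B * ε₁ * (1 + M) * S.card + G * ε₁ * (1 + M) * S.card := by ring
  linarith


private noncomputable def Decouple_g (μ : ℤ × ℤ → ℝ) (Wh : ℝ → ℝ → ℝ) (z : ℂ) (j : ℕ)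
    (x : (ℤ × ℤ) × (ℤ × ℤ)) : ℂ :=
  ((μ x.1 * Wh (ll x.1 / 2 ^ j) (ll x.2 / 2 ^ j) / 4 ^ j : ℝ) : ℂ) * aa z x.1 * aa z x.2

open Classical in
private theorem Decouple_split (μ : ℤ × ℤ → ℝ) (Wh : ℝ → ℝ → ℝ) (z : ℂ) (γ j n A : ℕ) {p : ℕ}
    (hp : SP p) :
    GP μ Wh z γ p j =
      ∑ x ∈ (pr (2 ^ (γ + j)) p).filter (fun x => (Ip p x.1 ∧ Ip p x.2) ∧
        ¬ (IsCoprime x.1.1 x.1.2 ∧ IsCoprime x.2.1 x.2.2)), Decouple_g μ Wh z j x +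
      ∑ x ∈ (pp2 (2 ^ (γ + j)) p).filter (fun x => Ip p x.1 ∧ ¬ gd n A x),
        Decouple_g μ Wh z j x +
      ∑ x ∈ (pp2 (2 ^ (γ + j)) p).filter (gd n A),
        (if Ip p x.1 then Decouple_g μ Wh z j x else 0) := by
  have h1 := Finset.sum_filter_add_sum_filter_not
    ((pr (2 ^ (γ + j)) p).filter (fun x => Ip p x.1 ∧ Ip p x.2))
    (fun x => IsCoprime x.1.1 x.1.2 ∧ IsCoprime x.2.1 x.2.2) (Decouple_g μ Wh z j)
  have h2 : ((pr (2 ^ (γ + j)) p).filter (fun x => Ip p x.1 ∧ Ip p x.2)).filter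
      (fun x => IsCoprime x.1.1 x.1.2 ∧ IsCoprime x.2.1 x.2.2) =
      (pp2 (2 ^ (γ + j)) p).filter (fun x => Ip p x.1) := by
    ext x
    simp only [pr, pp2, mem_filter]
    constructor
    · rintro ⟨⟨⟨a, b⟩, c, d⟩, e, f⟩
      exact ⟨⟨a, b, e, f⟩, c⟩
    · rintro ⟨⟨a, b, e, f⟩, c⟩
      exact ⟨⟨⟨a, b⟩, c, Ip_snd hp e b c⟩, e, f⟩
  have h3 := Finset.sum_filter_add_sum_filter_not
    ((pp2 (2 ^ (γ + j)) p).filter (fun x => Ip p x.1)) (gd n A) (Decouple_g μ Wh z j)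
  have h4 : ((pp2 (2 ^ (γ + j)) p).filter (fun x => Ip p x.1)).filter (gd n A) =
      ((pp2 (2 ^ (γ + j)) p).filter (gd n A)).filter (fun x => Ip p x.1) :=
    Finset.filter_comm _ _ _
  rw [h4, Finset.sum_filter (fun x : (ℤ × ℤ) × (ℤ × ℤ) => Ip p x.1)] at h3
  rw [Finset.filter_filter] at h3
  rw [h2, Finset.filter_filter] at h1
  unfold GP
  change ∑ x ∈ (pr (2 ^ (γ + j)) p).filter (fun x => Ip p x.1 ∧ Ip p x.2),
    Decouple_g μ Wh z j x = _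
  rw [← h1, ← h3]
  ring

private theorem Decouple_qd {N : ℕ} {m : ℕ} (hm : 1 ≤ m) {x : (ℤ × ℤ) × (ℤ × ℤ)}
    (hx : x.1 ∈ Bx N) (hd : dt x.1 x.2 = m) : Qd x.1 := by
  unfold Bx at hx
  rw [mem_product, mem_Icc, mem_Icc] at hx
  refine ⟨hx.1.1, hx.2.1, ?_⟩
  intro h0
  rw [h0] at hd
  simp [dt] at hd
  omega

private theorem Decouple_norm {q : ℕ} (hq : 1 ≤ q) {z : ℂ} (hz : z ^ q = 1) {μ : ℤ × ℤ → ℝ}
    (hμ : GM μ) {Wh : ℝ → ℝ → ℝ} {Y B L : ℝ} (hW : GW Wh Y B L) (j : ℕ)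
    {x : (ℤ × ℤ) × (ℤ × ℤ)} (hx : Qd x.1) :
    ‖Decouple_g μ Wh z j x‖ ≤ Wh (ll x.1 / 2 ^ j) (ll x.2 / 2 ^ j) / 4 ^ j := by
  unfold Decouple_g
  rw [norm_mul, norm_mul, norm_aa hq hz, norm_aa hq hz, mul_one, mul_one, Complex.norm_real,
    Real.norm_of_nonneg (div_nonneg (mul_nonneg (hμ.nn _ hx) (hW.nn _ _)) (by positivity))]
  refine div_le_div_of_nonneg_right ?_ (by positivity)
  have h1 := mul_le_mul_of_nonneg_right (hμ.le _ hx) (hW.nn (ll x.1 / 2 ^ j) (ll x.2 / 2 ^ j))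
  rwa [one_mul] at h1

open Classical in
private theorem Decouple_U1 {q : ℕ} (hq : 1 ≤ q) {z : ℂ} (hz : z ^ q = 1) {μ : ℤ × ℤ → ℝ}
    (hμ : GM μ) {Wh : ℝ → ℝ → ℝ} {Y B L : ℝ} (hB : 0 ≤ B) (hW : GW Wh Y B L) (γ j : ℕ) {p : ℕ}
    (hp : 1 ≤ p) {ε₁ : ℝ}
    (h : (p : ℝ) * (((pr (2 ^ (γ + j)) p).filter (fun x => (Ip p x.1 ∧ Ip p x.2) ∧
      ¬ (IsCoprime x.1.1 x.1.2 ∧ IsCoprime x.2.1 x.2.2) ∧
      (2 : ℝ) ^ j / 4 ≤ ll x.1 ∧ (ll x.1 : ℝ) ≤ 4 * 2 ^ j)).card : ℝ) ≤ ε₁ * 4 ^ j) :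
    (p : ℝ) * ‖∑ x ∈ (pr (2 ^ (γ + j)) p).filter (fun x => (Ip p x.1 ∧ Ip p x.2) ∧
        ¬ (IsCoprime x.1.1 x.1.2 ∧ IsCoprime x.2.1 x.2.2)), Decouple_g μ Wh z j x‖ ≤ B * ε₁ := by
  have h2j : (0 : ℝ) < 2 ^ j := by positivity
  have h4j : (0 : ℝ) < 4 ^ j := by positivity
  have h1 : ‖∑ x ∈ (pr (2 ^ (γ + j)) p).filter (fun x => (Ip p x.1 ∧ Ip p x.2) ∧
        ¬ (IsCoprime x.1.1 x.1.2 ∧ IsCoprime x.2.1 x.2.2)), Decouple_g μ Wh z j x‖ ≤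
      (((pr (2 ^ (γ + j)) p).filter (fun x => (Ip p x.1 ∧ Ip p x.2) ∧
      ¬ (IsCoprime x.1.1 x.1.2 ∧ IsCoprime x.2.1 x.2.2) ∧
      (2 : ℝ) ^ j / 4 ≤ ll x.1 ∧ (ll x.1 : ℝ) ≤ 4 * 2 ^ j)).card : ℝ) * (B / 4 ^ j) := by
    refine (norm_sum_le _ _).trans ?_
    have h3 : ∀ x ∈ (pr (2 ^ (γ + j)) p).filter (fun x => (Ip p x.1 ∧ Ip p x.2) ∧
        ¬ (IsCoprime x.1.1 x.1.2 ∧ IsCoprime x.2.1 x.2.2)), ‖Decouple_g μ Wh z j x‖ ≤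
        if ((2 : ℝ) ^ j / 4 ≤ ll x.1 ∧ (ll x.1 : ℝ) ≤ 4 * 2 ^ j) then B / 4 ^ j else 0 := by
      intro x hx
      rw [mem_filter, pr, mem_filter, mem_product] at hx
      have hq1 := Decouple_qd hp hx.1.1.1 hx.1.2
      have h5 := Decouple_norm hq hz hμ hW j hq1
      split_ifs with h6
      · exact h5.trans (div_le_div_of_nonneg_right (hW.le _ _) h4j.le)
      · refine h5.trans ?_
        have h7 : Wh (ll x.1 / 2 ^ j) (ll x.2 / 2 ^ j) = 0 := by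
          by_contra h8
          obtain ⟨h9, h10⟩ := hW.sx _ _ h8
          apply h6
          rw [le_div_iff₀ h2j] at h9
          rw [div_le_iff₀ h2j] at h10
          exact ⟨by linarith, h10⟩
        rw [h7, zero_div]
    refine (Finset.sum_le_sum h3).trans ?_
    rw [← Finset.sum_filter, Finset.sum_const, nsmul_eq_mul]
    refine mul_le_mul_of_nonneg_right ?_ (by positivity)
    exact_mod_cast Finset.card_le_card (by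
      intro x hx
      simp only [mem_filter] at hx ⊢
      exact ⟨hx.1.1, hx.1.2.1, hx.1.2.2, hx.2⟩)
  have hp0 : (0 : ℝ) ≤ p := Nat.cast_nonneg _
  have h2 := mul_le_mul_of_nonneg_left h1 hp0
  refine h2.trans ?_
  rw [← mul_assoc]
  refine (mul_le_mul_of_nonneg_right h (by positivity)).trans (le_of_eq ?_)
  field_simp

open Classical in
private theorem Decouple_U2 {q : ℕ} (hq : 1 ≤ q) {z : ℂ} (hz : z ^ q = 1) {μ : ℤ × ℤ → ℝ}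
    (hμ : GM μ) {Wh : ℝ → ℝ → ℝ} {γ₀ : ℕ} {B L : ℝ} (hB : 0 ≤ B) (hW : GW Wh (2 ^ γ₀) B L)
    (hx : ∀ x y, Wh x y ≠ 0 → 1 / 2 ≤ x ∧ x ≤ 2) (γ j n A : ℕ) {S : Finset ℕ}
    (hS : ∀ p ∈ S, 1 ≤ p) {E : ℝ}
    (h : ∑ p ∈ S, (p : ℝ) * ∑ x ∈ (pp2 (2 ^ (γ + j)) p).filter
          (fun x => Ip p x.1 ∧ ¬ gd n A x),
          Dw (2 ^ (γ₀ + 1)) (ll x.1 / 2 ^ j) (ll x.2 / 2 ^ j) ≤ E * 4 ^ j) :
    ∑ p ∈ S, (p : ℝ) * ‖∑ x ∈ (pp2 (2 ^ (γ + j)) p).filter (fun x => Ip p x.1 ∧ ¬ gd n A x),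
        Decouple_g μ Wh z j x‖ ≤ 2 * B * E := by
  have h4j : (0 : ℝ) < 4 ^ j := by positivity
  have h1 : ∀ p ∈ S, (p : ℝ) * ‖∑ x ∈ (pp2 (2 ^ (γ + j)) p).filter
      (fun x => Ip p x.1 ∧ ¬ gd n A x), Decouple_g μ Wh z j x‖ ≤
      2 * B / 4 ^ j * ((p : ℝ) * ∑ x ∈ (pp2 (2 ^ (γ + j)) p).filter
          (fun x => Ip p x.1 ∧ ¬ gd n A x),
          Dw (2 ^ (γ₀ + 1)) (ll x.1 / 2 ^ j) (ll x.2 / 2 ^ j)) := by
    intro p hp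
    have h2 : ‖∑ x ∈ (pp2 (2 ^ (γ + j)) p).filter
        (fun x => Ip p x.1 ∧ ¬ gd n A x), Decouple_g μ Wh z j x‖ ≤
        2 * B / 4 ^ j * ∑ x ∈ (pp2 (2 ^ (γ + j)) p).filter
          (fun x => Ip p x.1 ∧ ¬ gd n A x),
          Dw (2 ^ (γ₀ + 1)) (ll x.1 / 2 ^ j) (ll x.2 / 2 ^ j) := by
      refine (norm_sum_le _ _).trans ?_
      rw [Finset.mul_sum]
      refine Finset.sum_le_sum fun x hx' => ?_
      rw [mem_filter, pp2, mem_filter, mem_product] at hx'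
      have hq1 := Decouple_qd (hS p hp) hx'.1.1.1 hx'.1.2.1
      refine (Decouple_norm hq hz hμ hW j hq1).trans ?_
      rw [div_mul_eq_mul_div]
      refine div_le_div_of_nonneg_right ?_ h4j.le
      have h3 := le_Dw hW hB hx (K := 2 ^ (γ₀ + 1)) (by
        push_cast
        rw [pow_succ]
        linarith) (ll x.1 / 2 ^ j) (ll x.2 / 2 ^ j)
      push_cast at h3
      exact h3
    refine (mul_le_mul_of_nonneg_left h2 (Nat.cast_nonneg p)).trans (le_of_eq ?_)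
    ring
  refine (Finset.sum_le_sum h1).trans ?_
  rw [← Finset.mul_sum]
  refine (mul_le_mul_of_nonneg_left h (by positivity)).trans (le_of_eq ?_)
  field_simp

private theorem Decouple_fr {n A : ℕ} {C : (ℤ × ℤ) × (ℤ × ℤ)} (hC : C ∈ CB n A) : Fr C := by
  rw [CB, mem_filter] at hC
  exact (mem_CC.1 hC.1).1

open Classical in
private theorem Decouple_cell {Wh : ℝ → ℝ → ℝ} {γ₀ : ℕ} {B L : ℝ} (hW : GW Wh (2 ^ γ₀) B L)
    (hx : ∀ x y, Wh x y ≠ 0 → 1 / 2 ≤ x ∧ x ≤ 2) (μ : ℤ × ℤ → ℝ) (z : ℂ) {ρ : ℕ} (n i : ℕ)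
    (hρ : γ₀ + 4 + 2 ≤ ρ) {p : ℕ} (hp : SP p) :
    ∑ x ∈ (pp2 (2 ^ (γ₀ + 4 + (i + (ρ - (γ₀ + 4))))) p).filter (gd n (2 ^ i)),
        (if Ip p x.1 then Decouple_g μ Wh z (i + (ρ - (γ₀ + 4))) x else 0) =
      ∑ C ∈ CB n (2 ^ i), ∑ x ∈ (pp2 (n * 2 ^ ρ) p).filter (fun x => iL p (yv p C) x.1),
        Decouple_g μ Wh z (i + (ρ - (γ₀ + 4))) (em C x.1, em C x.2) := by
  obtain ⟨r, rfl⟩ : ∃ r, ρ = γ₀ + 4 + 2 + r := ⟨ρ - (γ₀ + 4 + 2), by omega⟩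
  have hj : i + (γ₀ + 4 + 2 + r - (γ₀ + 4)) = i + (2 + r) := by omega
  rw [hj]
  have h2j : (0 : ℝ) < 2 ^ (i + (2 + r)) := by positivity
  rw [cell_sum (n := n) (A := 2 ^ i) (ρ := γ₀ + 4 + 2 + r) (le_of_eq (by rw [← pow_add]; congr 1; omega))
    (fun x => if Ip p x.1 then Decouple_g μ Wh z (i + (2 + r)) x else 0) ?_]
  · refine Finset.sum_congr rfl fun C hC => ?_
    rw [Finset.sum_filter]
    refine Finset.sum_congr rfl fun x _ => ?_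
    exact if_congr (iL_iff hp (Decouple_fr hC).2.2 x.1) rfl rfl
  · intro x h0
    have h1 : Decouple_g μ Wh z (i + (2 + r)) x ≠ 0 := by
      intro h2
      apply h0
      rw [h2, ite_self]
    have h2 : Wh (ll x.1 / 2 ^ (i + (2 + r))) (ll x.2 / 2 ^ (i + (2 + r))) ≠ 0 := by
      intro h3
      apply h1
      unfold Decouple_g
      rw [h3]
      simp
    obtain ⟨a1, a2⟩ := hx _ _ h2
    obtain ⟨a3, a4⟩ := hW.sy _ _ h2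
    rw [div_le_iff₀ h2j] at a2 a4
    rw [le_div_iff₀ h2j] at a1
    have b0 : (0 : ℝ) < 2 ^ i := by positivity
    have b1 : (1 : ℝ) ≤ 2 ^ r := one_le_pow₀ (by norm_num)
    have b2 : (1 : ℝ) ≤ 2 ^ γ₀ := one_le_pow₀ (by norm_num)
    have b3 : (2 : ℝ) ^ (i + (2 + r)) = 2 ^ i * (4 * 2 ^ r) := by
      rw [pow_add, pow_add]; norm_num
    have b4 : (2 : ℝ) ^ (γ₀ + 4 + 2 + r) = 2 ^ γ₀ * (64 * 2 ^ r) := by
      rw [pow_add, pow_add, pow_add]; ring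
    have b5 : (2 : ℝ) ^ i ≤ 2 ^ i * 2 ^ r := le_mul_of_one_le_right b0.le b1
    have b6 : (2 : ℝ) ^ i * 2 ^ r ≤ 2 ^ γ₀ * (2 ^ i * 2 ^ r) :=
      le_mul_of_one_le_left (by positivity) b2
    have b7 : (0 : ℝ) < 2 ^ i * 2 ^ r := by positivity
    rw [b3] at a1 a2 a4
    refine ⟨?_, ?_, ?_⟩
    · have : ((2 ^ i : ℕ) : ℝ) < (ll x.1 : ℝ) := by
        push_cast
        nlinarith
      exact_mod_cast this
    · have : (ll x.1 : ℝ) ≤ 2 ^ (γ₀ + 4 + 2 + r) * ((2 ^ i : ℕ) : ℝ) := by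
        push_cast
        rw [b4]
        nlinarith
      exact_mod_cast this
    · have : (ll x.2 : ℝ) ≤ 2 ^ (γ₀ + 4 + 2 + r) * ((2 ^ i : ℕ) : ℝ) := by
        push_cast
        rw [b4]
        nlinarith
      exact_mod_cast this

open Classical in
private theorem Decouple_V {q : ℕ} (hq : 1 ≤ q) {z : ℂ} (hz : z ^ q = 1) {μ : ℤ × ℤ → ℝ}
    {Wh : ℝ → ℝ → ℝ} {Y B L : ℝ} (hW : GW Wh Y B L) (N j : ℕ)
    {p : ℕ} (hp : 1 ≤ p) {C : (ℤ × ℤ) × (ℤ × ℤ)} (hC : Fr C) {a c : ℝ} (ha : 0 ≤ a)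
    (h1 : ∀ v, Qd v → InC C v → |μ v - μ (C.1 + C.2)| ≤ a)
    (h2 : ∑ x ∈ (pp2 N p).filter (fun x => iL p (yv p C) x.1),
          Wh (ll (em C x.1) / 2 ^ j) (ll (em C x.2) / 2 ^ j) ≤ c) :
    ‖∑ x ∈ (pp2 N p).filter (fun x => iL p (yv p C) x.1),
        Decouple_g μ Wh z j (em C x.1, em C x.2) -
      ((μ (C.1 + C.2) / 4 ^ j : ℝ) : ℂ) * GI Wh z N j C p‖ ≤ a * c / 4 ^ j := by
  have h4j : (0 : ℝ) < 4 ^ j := by positivity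
  unfold GI
  rw [Finset.mul_sum, ← Finset.sum_sub_distrib]
  refine (norm_sum_le _ _).trans ?_
  have h3 : a * c / 4 ^ j = a / 4 ^ j * c := by ring
  rw [h3]
  refine le_trans ?_ (mul_le_mul_of_nonneg_left h2 (by positivity))
  rw [Finset.mul_sum]
  refine Finset.sum_le_sum fun x hx => ?_
  rw [mem_filter, pp2, mem_filter, mem_product] at hx
  have hq1 := Decouple_qd hp hx.1.1.1 hx.1.2.1
  have hq2 : Qd (em C x.1) := Qd_em hC hq1.1 hq1.2.1 hq1.2.2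
  have hq3 : InC C (em C x.1) := InC_em hC.2.2 hq1.1 hq1.2.1
  have h5 := h1 _ hq2 hq3
  have h6 : Decouple_g μ Wh z j (em C x.1, em C x.2) -
      ((μ (C.1 + C.2) / 4 ^ j : ℝ) : ℂ) *
        (((Wh (ll (em C x.1) / 2 ^ j) (ll (em C x.2) / 2 ^ j) : ℝ) : ℂ) *
          aa z (em C x.1) * aa z (em C x.2)) =
      (((μ (em C x.1) - μ (C.1 + C.2)) / 4 ^ j *
        Wh (ll (em C x.1) / 2 ^ j) (ll (em C x.2) / 2 ^ j) : ℝ) : ℂ) *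
          aa z (em C x.1) * aa z (em C x.2) := by
    unfold Decouple_g
    push_cast
    ring
  rw [h6, norm_mul, norm_mul, norm_aa hq hz, norm_aa hq hz, mul_one, mul_one,
    Complex.norm_real, Real.norm_eq_abs, abs_mul, abs_div, abs_of_pos h4j,
    abs_of_nonneg (hW.nn _ _)]
  exact mul_le_mul_of_nonneg_right (div_le_div_of_nonneg_right h5 h4j.le) (hW.nn _ _)

open Classical in
private theorem Decouple_PS {e ρ p Q : ℕ} (hρ : e + Q + 1 ≤ ρ) (hp : p ∈ PS (PP e ρ)) :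
    SP p ∧ Q < p ∧ (p : ℝ) ≤ 4 ^ ρ := by
  rw [PS, mem_filter, mem_Ioc] at hp
  refine ⟨hp.2, ?_, ?_⟩
  · have h1 : Q ≤ PP e ρ / 2 := by
      rw [Nat.le_div_iff_mul_le (by norm_num), PP]
      have h2 : Q < 2 ^ Q := Nat.lt_two_pow_self
      have h3 : 2 ^ (Q + 1) ≤ 2 ^ (2 * ρ - e) := Nat.pow_le_pow_right (by norm_num) (by omega)
      rw [pow_succ] at h3
      omega
    omega
  · have h1 : p ≤ 4 ^ ρ := by
      refine hp.1.2.trans ?_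
      rw [PP, show (4 : ℕ) = 2 ^ 2 by norm_num, ← pow_mul]
      exact Nat.pow_le_pow_right (by norm_num) (by omega)
    exact_mod_cast h1

theorem decouple {q : ℕ} (hq : 1 ≤ q) {z : ℂ} (hz : z ^ q = 1) {μ : ℤ × ℤ → ℝ} (hμ : GM μ)
    {Wh : ℝ → ℝ → ℝ} {γ₀ : ℕ} {B L : ℝ} (hB : 0 ≤ B) (hL : 0 ≤ L) (hW : GW Wh (2 ^ γ₀) B L)
    (hx : ∀ x y, Wh x y ≠ 0 → 1 / 2 ≤ x ∧ x ≤ 2) {ε : ℝ} (hε : 0 < ε) :
    ∃ n₀ e₀ : ℕ, ∀ n : ℕ, n₀ ≤ n → ∀ e : ℕ, e₀ ≤ e → ∃ δ : ℝ, 0 < δ ∧ ∃ ρ₀ : ℕ, ∀ ρ : ℕ, ρ₀ ≤ ρ →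
      ∃ i₀ : ℕ, ∀ i : ℕ, i₀ ≤ i →
      ‖∑ p ∈ PS (PP e ρ), ((p : ℂ) * GP μ Wh z (γ₀ + 4) p (i + (ρ - (γ₀ + 4))) -
          TC μ Wh z n (n * 2 ^ ρ) (2 ^ i) (i + (ρ - (γ₀ + 4))) p)‖ ≤
        ε * (1 + MI q e ρ (2 ^ i) * ρ / (δ * 4 ^ ρ)) * (PS (PP e ρ)).card := by
  classical
  have hG : (0 : ℝ) < 4 ^ (γ₀ + 4) := by positivity
  set G : ℝ := 4 ^ (γ₀ + 4) with hGdef
  set ε₁ : ℝ := ε / (3 * B + 4 + G) with hε₁def
  have hden : (0 : ℝ) < 3 * B + 4 + G := by positivity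
  have hε₁ : 0 < ε₁ := div_pos hε hden
  have hεε : ε₁ * (3 * B + 4 + G) = ε := div_mul_cancel₀ _ hden.ne'
  have hW' : GW Wh (2 ^ (γ₀ + 4)) B L := hW.mono (pow_le_pow_right₀ (by norm_num) (by omega))
  obtain ⟨n₀, e₀, hall⟩ := all_good hq γ₀ hε₁
  obtain ⟨P₀, hP₀⟩ := nonprim (γ₀ + 4) hε₁
  refine ⟨max n₀ 1, e₀, fun n hn e he => ?_⟩
  have hn₀ : n₀ ≤ n := le_trans (le_max_left _ _) hn
  have hn1 : 1 ≤ n := le_trans (le_max_right _ _) hn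
  obtain ⟨δ₁, hδ₁, ρ₁, hall⟩ := hall n hn₀ e he
  obtain ⟨c₂, hc₂, hty⟩ := ty_approx hq hz (γ₀ + 4) n e (by omega) hL hW'
  obtain ⟨c₃, hc₃, hgi⟩ := GI_bound hq hz (γ₀ + 4) n e hB hW'
  obtain ⟨cn, hcn⟩ := hμ.sv n hn1
  obtain ⟨K', hK'⟩ := exists_nat_gt (G * c₂ / ε₁)
  have hK0 : (0 : ℝ) < K' := lt_of_le_of_lt (by positivity) hK'
  have hK1 : 1 ≤ K' := by exact_mod_cast hK0
  obtain ⟨δ₂, hδ₂, ρ₂, hinfo⟩ := info_cell hq hz hB hW' (γ₀ + 4) n e K' hK1 hε₁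
  obtain ⟨Q₁, hQ₁⟩ := exists_nat_gt (G * c₃ / ε₁)
  refine ⟨min δ₁ δ₂, lt_min hδ₁ hδ₂, max (max ρ₁ ρ₂) (max (γ₀ + 4 + 2) (e + max P₀ Q₁ + 1)),
    fun ρ hρ => ?_⟩
  have hρ1 : ρ₁ ≤ ρ := le_trans (le_trans (le_max_left _ _) (le_max_left _ _)) hρ
  have hρ2 : ρ₂ ≤ ρ := le_trans (le_trans (le_max_right _ _) (le_max_left _ _)) hρ
  have hρ3 : γ₀ + 4 + 2 ≤ ρ := le_trans (le_trans (le_max_left _ _) (le_max_right _ _)) hρ
  have hρ4 : e + max P₀ Q₁ + 1 ≤ ρ := le_trans (le_trans (le_max_right _ _) (le_max_right _ _)) hρ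
  obtain ⟨i₁, hall⟩ := hall ρ hρ1
  obtain ⟨A₀, hinfo⟩ := hinfo ρ hρ2
  obtain ⟨i₂, hi₂⟩ := exists_nat_gt (G * (max cn 0 * c₃) / ε₁)
  refine ⟨max i₁ (max A₀ i₂), fun i hi => ?_⟩
  have hi1 : i₁ ≤ i := le_trans (le_max_left _ _) hi
  have hi2 : A₀ ≤ i := le_trans (le_trans (le_max_left _ _) (le_max_right _ _)) hi
  have hi3 : i₂ ≤ i := le_trans (le_trans (le_max_right _ _) (le_max_right _ _)) hi
  have h2i : i < 2 ^ i := Nat.lt_two_pow_self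
  have hall := hall i hi1
  have hinfo := hinfo (2 ^ i) (by omega)
  have hPS : ∀ p ∈ PS (PP e ρ), SP p ∧ max P₀ Q₁ < p ∧ (p : ℝ) ≤ 4 ^ ρ :=
    fun p hp => Decouple_PS hρ4 hp
  have hcard : ((CC (2 ^ i)).card : ℝ) ≤ 4 ^ i := by
    have h1 := card_le_sq (2 ^ i)
    have h2 : (((CC (2 ^ i)).card : ℕ) : ℝ) ≤ (((2 ^ i) ^ 2 : ℕ) : ℝ) := by exact_mod_cast h1
    refine h2.trans (le_of_eq ?_)
    push_cast
    rw [← pow_mul, mul_comm, pow_mul]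
    norm_num
  have hMI := MI_nonneg q e ρ (2 ^ i)
  have hM : ∀ δ' : ℝ, min δ₁ δ₂ ≤ δ' → MI q e ρ (2 ^ i) * ρ / (δ' * 4 ^ ρ) ≤
      MI q e ρ (2 ^ i) * ρ / (min δ₁ δ₂ * 4 ^ ρ) := by
    intro δ' hδ'
    refine div_le_div_of_nonneg_left (by positivity) (mul_pos (lt_min hδ₁ hδ₂) (by positivity))
      (mul_le_mul_of_nonneg_right hδ' (by positivity))
  have hS0 : (0 : ℝ) ≤ (PS (PP e ρ)).card := Nat.cast_nonneg _
  rw [← hεε]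
  refine Decouple_core (T := CB n (2 ^ i)) (X := 4 ^ (i + (ρ - (γ₀ + 4)))) (R := 4 ^ ρ)
    (Cc := (CC (2 ^ i)).card) (a3 := max cn 0 / ((2 ^ i : ℕ) : ℝ) * c₃) (a4 := c₂ / K') (c := c₃)
    hε₁ (by
      refine div_nonneg (by positivity) ?_
      exact (mul_pos (lt_min hδ₁ hδ₂) (by positivity)).le) (by positivity) (by positivity) hG hB
    (by positivity) (by positivity) ?_ ?_ ?_ _
    (fun p => ∑ x ∈ (pr (2 ^ (γ₀ + 4 + (i + (ρ - (γ₀ + 4))))) p).filter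
      (fun x => (Ip p x.1 ∧ Ip p x.2) ∧
        ¬ (IsCoprime x.1.1 x.1.2 ∧ IsCoprime x.2.1 x.2.2)),
      Decouple_g μ Wh z (i + (ρ - (γ₀ + 4))) x)
    (fun p => ∑ x ∈ (pp2 (2 ^ (γ₀ + 4 + (i + (ρ - (γ₀ + 4))))) p).filter
      (fun x => Ip p x.1 ∧ ¬ gd n (2 ^ i) x),
        Decouple_g μ Wh z (i + (ρ - (γ₀ + 4))) x)
    (fun C p => ∑ x ∈ (pp2 (n * 2 ^ ρ) p).filter (fun x => iL p (yv p C) x.1),
        Decouple_g μ Wh z (i + (ρ - (γ₀ + 4))) (em C x.1, em C x.2))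
    (fun C p => GI Wh z (n * 2 ^ ρ) (i + (ρ - (γ₀ + 4))) C p)
    (fun C p => FF Wh z (n * 2 ^ ρ) K' (ρ - (γ₀ + 4)) p (XX q (2 ^ ρ) (2 ^ i) C)
      (ty K' (2 ^ i) C) (yv p C))
    (fun C p => FM Wh z (n * 2 ^ ρ) K' (ρ - (γ₀ + 4)) p (XX q (2 ^ ρ) (2 ^ i) C)
      (ty K' (2 ^ i) C))
    (fun C p => Gc Wh z (n * 2 ^ ρ) (i + (ρ - (γ₀ + 4))) C p) (fun C => μ (C.1 + C.2))
    ?_ ?_ ?_ ?_ ?_ ?_ ?_ ?_ ?_ ?_ ?_ ?_
  · exact_mod_cast Finset.card_le_card (Finset.filter_subset _ _)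
  · have h1 : (4 : ℝ) ^ ρ = 4 ^ (γ₀ + 4) * 4 ^ (ρ - (γ₀ + 4)) := by
      rw [← pow_add]; congr 1; omega
    rw [h1, pow_add 4 i, hGdef]
    have h2 : (4 : ℝ) ^ (γ₀ + 4) * 4 ^ (ρ - (γ₀ + 4)) * (CC (2 ^ i)).card ≤
        4 ^ (γ₀ + 4) * 4 ^ (ρ - (γ₀ + 4)) * 4 ^ i :=
      mul_le_mul_of_nonneg_left hcard (by positivity)
    linarith
  · intro p hp
    have h1 := hPS p hp
    exact ⟨by have := h1.2.1; omega, h1.2.2⟩
  · intro C hC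
    have hfr := Decouple_fr hC
    have h1 := hfr.1.add hfr.2.1
    exact ⟨hμ.nn _ h1, hμ.le _ h1⟩
  · intro p hp
    rw [Decouple_split μ Wh z (γ₀ + 4) (i + (ρ - (γ₀ + 4))) n (2 ^ i) (hPS p hp).1,
      Decouple_cell hW hx μ z n i hρ3 (hPS p hp).1]
  · intro p hp
    have h1 := hPS p hp
    refine Decouple_U1 hq hz hμ hB hW _ _ (by have := h1.2.1; omega) ?_
    exact hP₀ p (by have := h1.2.1; have := le_max_left P₀ Q₁; omega) h1.1 _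
  · have h1 := Decouple_U2 hq hz hμ hB hW hx (γ₀ + 4) (i + (ρ - (γ₀ + 4))) n (2 ^ i)
      (S := PS (PP e ρ)) (fun p hp => by have := (hPS p hp).2.1; omega) hall
    refine h1.trans ?_
    have h2 := hM δ₁ (min_le_left _ _)
    have h3 : ε₁ * (1 + MI q e ρ (2 ^ i) * ρ / (δ₁ * 4 ^ ρ)) * (PS (PP e ρ)).card ≤
        ε₁ * (1 + MI q e ρ (2 ^ i) * ρ / (min δ₁ δ₂ * 4 ^ ρ)) * (PS (PP e ρ)).card := by
      refine mul_le_mul_of_nonneg_right (mul_le_mul_of_nonneg_left ?_ hε₁.le) hS0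
      linarith
    have h4 := mul_le_mul_of_nonneg_left h3 (show (0 : ℝ) ≤ 2 * B by positivity)
    refine h4.trans (le_of_eq ?_)
    ring
  · intro p hp C hC
    have h1 := hPS p hp
    have hfr := Decouple_fr hC
    refine Decouple_V hq hz hW' _ _ (by have := h1.2.1; omega) hfr (by positivity) ?_
      ((hgi ρ i (by omega) (by omega)).1 p hp C hC)
    intro v hv hv'
    refine (hcn (2 ^ i) (Nat.one_le_two_pow) C hC v hv hv').trans ?_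
    exact div_le_div_of_nonneg_right (le_max_left _ _) (by positivity)
  · have h1 : (0 : ℝ) < ((2 ^ i : ℕ) : ℝ) := by positivity
    have h2 : ((i₂ : ℕ) : ℝ) < ((2 ^ i : ℕ) : ℝ) := by exact_mod_cast (by omega)
    have h3 : G * (max cn 0 / ((2 ^ i : ℕ) : ℝ) * c₃) =
        G * (max cn 0 * c₃) / ((2 ^ i : ℕ) : ℝ) := by ring
    rw [h3, div_le_iff₀ h1]
    rw [div_lt_iff₀ hε₁] at hi₂
    nlinarith
  · intro p hp C hC
    exact (hty K' hK1 ρ i (by omega) (by omega) p hp C hC).1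
  · rw [← mul_div_assoc, div_le_iff₀ hK0]
    rw [div_lt_iff₀ hε₁] at hK'
    linarith
  · refine hinfo.trans ?_
    have h2 := hM δ₂ (min_le_right _ _)
    have h3 : ε₁ * (1 + MI q e ρ (2 ^ i) * ρ / (δ₂ * 4 ^ ρ)) ≤
        ε₁ * (1 + MI q e ρ (2 ^ i) * ρ / (min δ₁ δ₂ * 4 ^ ρ)) :=
      mul_le_mul_of_nonneg_left (by linarith) hε₁.le
    refine mul_le_mul_of_nonneg_right (mul_le_mul_of_nonneg_right
      (mul_le_mul_of_nonneg_right h3 (by positivity)) hS0) (Nat.cast_nonneg _)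
  · intro p hp C hC
    exact (hty K' hK1 ρ i (by omega) (by omega) p hp C hC).2
  · intro p hp C hC
    exact (hgi ρ i (by omega) (by omega)).2 p C hC
  · intro p hp
    have h1 := (hPS p hp).2.1
    have h2 : ((Q₁ : ℕ) : ℝ) < (p : ℝ) := by
      exact_mod_cast (lt_of_le_of_lt (le_max_right P₀ Q₁) h1)
    rw [div_lt_iff₀ hε₁] at hQ₁
    nlinarith
end Pool.Agent.Lib.MP_d57abb_nt.TA
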