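import Pool.Agent.Lib.MP_d57abb_nt.TA.Cone

/-!
# JOB Line: counting vectors on lines (about 150 lines)

For `v` primitive in the quadrant and `m : ℤ` the integer vectors `w` with `dt v w = m` are `w₀ + k v`, `k : ℤ` (if `dt v w = dt v w'` then `dt v (w - w') = 0`, and `w - w'` is a multiple of the
primitive vector `v`).  So `ll` is injective on them and its values are congruent modulo `ll v`: the number with `0 ≤ ll w ≤ Z` is `≤ Z / ll v + 1` (floor).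
Same thing for `{v | dt v z = m}` (`dt v z = - dt z v`).
* `card_ball`: for every `l` the number of `v` in the quadrant with `ll v = l` is `l + 1`; `∑_{l ≤ Z} (l + 1) ≤ 2 Z²` for `Z ≥ 1` without the origin.
* `sum_inv_ball`: `∑ 1 / ll v = ∑_{1 ≤ l ≤ Z} (l + 1) / l ≤ 2 Z`.
* `card_pairs`: number of `v` times number of `w`: `ll v ≥ X / 4`, so `#w ≤ 4 Y + 1`, `#v ≤ 2 (4 X)²`.
All the sets are finite sets of vectors of a box `Bx N` (any `N`), the bounds do not depend on `N`.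
-/

namespace Pool.Agent.Lib.MP_d57abb_nt.TA

open Finset Pool.Agent.Lib.MP_d57abb_nt

private theorem Line_ap {α : Type*} (S : Finset α) (f : α → ℤ) (M : ℤ) (hM : 0 < M) {Z : ℝ} (hZ : 0 ≤ Z)
    (inj : ∀ a ∈ S, ∀ b ∈ S, f a = f b → a = b) (hmod : ∀ a ∈ S, ∀ b ∈ S, M ∣ f a - f b)
    (h0 : ∀ a ∈ S, 0 ≤ f a) (h1 : ∀ a ∈ S, (f a : ℝ) ≤ Z) : (S.card : ℝ) ≤ Z / M + 1 := by
  have hMr : (0 : ℝ) < (M : ℝ) := by exact_mod_cast hM
  rcases S.eq_empty_or_nonempty with rfl | hne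
  · simp only [Finset.card_empty, Nat.cast_zero]
    positivity
  obtain ⟨a0, ha0, hmin⟩ := S.exists_min_image f hne
  have key : S.card ≤ (Finset.Icc (0 : ℤ) ⌊Z / M⌋).card := by
    refine Finset.card_le_card_of_injOn (fun a => (f a - f a0) / M) ?_ ?_
    · intro a ha
      have ha' : a ∈ S := ha
      rw [Finset.mem_coe, Finset.mem_Icc]
      constructor
      · exact Int.ediv_nonneg (by have := hmin a ha'; omega) hM.le
      · rw [Int.le_floor, le_div_iff₀ hMr]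
        obtain ⟨k, hk⟩ := hmod a ha' a0 ha0
        have e1 : (f a - f a0) / M = k := by
          rw [hk]
          exact Int.mul_ediv_cancel_left k hM.ne'
        have e2 : ((f a - f a0 : ℤ) : ℝ) = (M : ℝ) * k := by
          rw [hk]; push_cast; ring
        have e3 : (0 : ℝ) ≤ (f a0 : ℝ) := by exact_mod_cast h0 a0 ha0
        have e4 := h1 a ha'
        show (((f a - f a0) / M : ℤ) : ℝ) * (M : ℝ) ≤ Z
        rw [e1]
        push_cast at e2
        linarith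
    · intro a ha b hb hab
      have ha' : a ∈ S := ha
      have hb' : b ∈ S := hb
      obtain ⟨k, hk⟩ := hmod a ha' a0 ha0
      obtain ⟨k', hk'⟩ := hmod b hb' a0 ha0
      have e1 : (f a - f a0) / M = k := by
        rw [hk]; exact Int.mul_ediv_cancel_left k hM.ne'
      have e2 : (f b - f a0) / M = k' := by
        rw [hk']; exact Int.mul_ediv_cancel_left k' hM.ne'
      have e3 : k = k' := by
        have : (f a - f a0) / M = (f b - f a0) / M := hab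
        rw [e1, e2] at this
        exact this
      refine inj a ha' b hb' ?_
      rw [e3] at hk
      omega
  have hfl : (0 : ℤ) ≤ ⌊Z / M⌋ := Int.floor_nonneg.2 (by positivity)
  have hc : ((Finset.Icc (0 : ℤ) ⌊Z / M⌋).card : ℤ) = ⌊Z / M⌋ + 1 := by
    rw [Int.card_Icc, Int.toNat_of_nonneg (by omega)]
    omega
  have h3 : (S.card : ℤ) ≤ ⌊Z / M⌋ + 1 := by
    rw [← hc]
    exact_mod_cast key
  have h4 : ((S.card : ℤ) : ℝ) ≤ ((⌊Z / M⌋ + 1 : ℤ) : ℝ) := by exact_mod_cast h3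
  have h5 := Int.floor_le (Z / M)
  push_cast at h4
  linarith

private theorem Line_par {v u : ℤ × ℤ} (hc : IsCoprime v.1 v.2) (h : v.1 * u.2 - u.1 * v.2 = 0) :
    ∃ k : ℤ, u.1 = k * v.1 ∧ u.2 = k * v.2 := by
  obtain ⟨a, b, hab⟩ := hc
  refine ⟨a * u.1 + b * u.2, ?_, ?_⟩
  · linear_combination (-u.1) * hab - b * h
  · linear_combination (-u.2) * hab + a * h

private theorem Line_mem {N : ℕ} {v : ℤ × ℤ} : v ∈ Bx N ↔ (0 ≤ v.1 ∧ v.1 ≤ N) ∧ (0 ≤ v.2 ∧ v.2 ≤ N) := by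
  unfold Bx
  rw [Finset.mem_product, Finset.mem_Icc, Finset.mem_Icc]

private theorem Line_gen {v : ℤ × ℤ} (hv : Qd v) (S : Finset (ℤ × ℤ)) (c : ℤ) (hcp : 0 < c)
    {Z : ℝ} (hZ : 0 ≤ Z)
    (hpar : ∀ w ∈ S, ∀ w' ∈ S, ∃ k : ℤ, w.1 - w'.1 = k * v.1 ∧ w.2 - w'.2 = k * v.2 ∧ c ∣ k)
    (h0 : ∀ w ∈ S, 0 ≤ w.1 ∧ 0 ≤ w.2) (h1 : ∀ w ∈ S, (ll w : ℝ) ≤ Z) :
    (S.card : ℝ) ≤ Z / (((c * ll v : ℤ)) : ℝ) + 1 := by
  have hl := hv.ll_pos
  have hll : ∀ w ∈ S, ∀ w' ∈ S, ∀ k : ℤ, w.1 - w'.1 = k * v.1 → w.2 - w'.2 = k * v.2 →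
      ll w - ll w' = k * ll v := by
    intro w _ w' _ k e1 e2
    unfold ll
    linear_combination e1 + e2
  refine Line_ap S ll (c * ll v) (mul_pos hcp hl) hZ ?_ ?_ ?_ h1
  · intro w hw w' hw' he
    obtain ⟨k, e1, e2, _⟩ := hpar w hw w' hw'
    have e3 := hll w hw w' hw' k e1 e2
    rw [he, sub_self] at e3
    have hk : k = 0 := by
      rcases mul_eq_zero.1 e3.symm with h | h
      · exact h
      · omega
    rw [hk, zero_mul] at e1 e2
    exact Prod.ext (by omega) (by omega)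
  · intro w hw w' hw'
    obtain ⟨k, e1, e2, e3⟩ := hpar w hw w' hw'
    rw [hll w hw w' hw' k e1 e2]
    exact mul_dvd_mul_right e3 _
  · intro w hw
    have := h0 w hw
    unfold ll
    omega

open Classical in
theorem card_line {v : ℤ × ℤ} (hv : Qd v) (hc : IsCoprime v.1 v.2) (m : ℤ) (N : ℕ) {Z : ℝ} (hZ : 0 ≤ Z) :
    (((Bx N).filter (fun w => dt v w = m ∧ (ll w : ℝ) ≤ Z)).card : ℝ) ≤ Z / ll v + 1 := by
  have h := Line_gen hv ((Bx N).filter (fun w => dt v w = m ∧ (ll w : ℝ) ≤ Z)) 1 one_pos hZ ?_ ?_ ?_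
  · rw [one_mul] at h
    exact h
  · intro w hw w' hw'
    rw [Finset.mem_filter] at hw hw'
    have e : v.1 * (w.2 - w'.2) - (w.1 - w'.1) * v.2 = 0 := by
      have e1 := hw.2.1
      have e2 := hw'.2.1
      unfold dt at e1 e2
      linear_combination e1 - e2
    obtain ⟨k, e1, e2⟩ := Line_par (u := (w.1 - w'.1, w.2 - w'.2)) hc e
    exact ⟨k, e1, e2, one_dvd _⟩
  · intro w hw
    rw [Finset.mem_filter, Line_mem] at hw
    exact ⟨hw.1.1.1, hw.1.2.1⟩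
  · intro w hw
    exact (Finset.mem_filter.1 hw).2.2

open Classical in
theorem card_line' {z : ℤ × ℤ} (hz : Qd z) (hc : IsCoprime z.1 z.2) (m : ℤ) (N : ℕ) {Z : ℝ} (hZ : 0 ≤ Z) :
    (((Bx N).filter (fun v => dt v z = m ∧ (ll v : ℝ) ≤ Z)).card : ℝ) ≤ Z / ll z + 1 := by
  have h := card_line hz hc (-m) N hZ
  have e : (Bx N).filter (fun v => dt v z = m ∧ (ll v : ℝ) ≤ Z) =
      (Bx N).filter (fun w => dt z w = -m ∧ (ll w : ℝ) ≤ Z) := by
    refine Finset.filter_congr fun v _ => ?_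
    rw [dt_swap v z]
    constructor
    · rintro ⟨h1, h2⟩
      exact ⟨by omega, h2⟩
    · rintro ⟨h1, h2⟩
      exact ⟨by omega, h2⟩
  rw [e]
  exact h

open Classical in
/-- the vectors of the line `dt v w = m` in a residue class modulo `p` -/
theorem card_line_class {v : ℤ × ℤ} (hv : Qd v) (hc : IsCoprime v.1 v.2) (m : ℤ) (N : ℕ) {Z : ℝ} (hZ : 0 ≤ Z)
    {p : ℕ} (hp : p.Prime) (r : ℤ) (hr : ¬ (p : ℤ) ∣ v.1 + r * v.2) :
    (((Bx N).filter (fun w => dt v w = m ∧ (ll w : ℝ) ≤ Z ∧ (p : ℤ) ∣ w.1 + r * w.2)).card : ℝ) ≤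
      Z / (p * ll v) + 1 := by
  have h := Line_gen hv ((Bx N).filter (fun w => dt v w = m ∧ (ll w : ℝ) ≤ Z ∧ (p : ℤ) ∣ w.1 + r * w.2))
    (p : ℤ) (by exact_mod_cast hp.pos) hZ ?_ ?_ ?_
  · have e : (((p : ℤ) * ll v : ℤ) : ℝ) = (p : ℝ) * ll v := by push_cast; ring
    rw [e] at h
    exact h
  · intro w hw w' hw'
    rw [Finset.mem_filter] at hw hw'
    have e : v.1 * (w.2 - w'.2) - (w.1 - w'.1) * v.2 = 0 := by
      have e1 := hw.2.1
      have e2 := hw'.2.1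
      unfold dt at e1 e2
      linear_combination e1 - e2
    obtain ⟨k, e1, e2⟩ := Line_par (u := (w.1 - w'.1, w.2 - w'.2)) hc e
    refine ⟨k, e1, e2, ?_⟩
    have e3 : (p : ℤ) ∣ k * (v.1 + r * v.2) := by
      have e4 : k * (v.1 + r * v.2) = (w.1 + r * w.2) - (w'.1 + r * w'.2) := by
        have e5 : w.1 - w'.1 = k * v.1 := e1
        have e6 : w.2 - w'.2 = k * v.2 := e2
        linear_combination -e5 - r * e6
      rw [e4]
      exact dvd_sub hw.2.2.2 hw'.2.2.2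
    rcases (Nat.prime_iff_prime_int.mp hp).dvd_or_dvd e3 with h | h
    · exact h
    · exact absurd h hr
  · intro w hw
    rw [Finset.mem_filter, Line_mem] at hw
    exact ⟨hw.1.1.1, hw.1.2.1⟩
  · intro w hw
    exact (Finset.mem_filter.1 hw).2.2.1

open Classical in
theorem card_line_class' {z : ℤ × ℤ} (hz : Qd z) (hc : IsCoprime z.1 z.2) (m : ℤ) (N : ℕ) {Z : ℝ} (hZ : 0 ≤ Z)
    {p : ℕ} (hp : p.Prime) (r : ℤ) (hr : ¬ (p : ℤ) ∣ z.1 + r * z.2) :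
    (((Bx N).filter (fun v => dt v z = m ∧ (ll v : ℝ) ≤ Z ∧ (p : ℤ) ∣ v.1 + r * v.2)).card : ℝ) ≤
      Z / (p * ll z) + 1 := by
  have h := card_line_class hz hc (-m) N hZ hp r hr
  have e : (Bx N).filter (fun v => dt v z = m ∧ (ll v : ℝ) ≤ Z ∧ (p : ℤ) ∣ v.1 + r * v.2) =
      (Bx N).filter (fun w => dt z w = -m ∧ (ll w : ℝ) ≤ Z ∧ (p : ℤ) ∣ w.1 + r * w.2) := by
    refine Finset.filter_congr fun v _ => ?_
    rw [dt_swap v z]
    constructor
    · rintro ⟨h1, h2⟩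
      exact ⟨by omega, h2⟩
    · rintro ⟨h1, h2⟩
      exact ⟨by omega, h2⟩
  rw [e]
  exact h

private theorem Line_fib (S : Finset (ℤ × ℤ)) (hS : ∀ v ∈ S, 0 ≤ v.1 ∧ 0 ≤ v.2) (l : ℕ) :
    (S.filter (fun v => ll v = (l : ℤ))).card ≤ l + 1 := by
  have h : (S.filter (fun v => ll v = (l : ℤ))).card ≤ (Finset.Icc (0 : ℤ) (l : ℤ)).card := by
    refine Finset.card_le_card_of_injOn (fun v => v.1) ?_ ?_
    · intro v hv
      have hv' := Finset.mem_filter.1 hv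
      have h1 := hS v hv'.1
      have h2 := hv'.2
      unfold ll at h2
      rw [Finset.mem_coe, Finset.mem_Icc]
      show 0 ≤ v.1 ∧ v.1 ≤ (l : ℤ)
      omega
    · intro v hv w hw he
      have hv' := (Finset.mem_filter.1 hv).2
      have hw' := (Finset.mem_filter.1 hw).2
      unfold ll at hv' hw'
      have he' : v.1 = w.1 := he
      exact Prod.ext he' (by omega)
  rw [Int.card_Icc] at h
  omega

private theorem Line_maps (S : Finset (ℤ × ℤ)) {Z : ℝ}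
    (hS : ∀ v ∈ S, Qd v ∧ (ll v : ℝ) ≤ Z) : ∀ v ∈ S, (ll v).toNat ∈ Finset.Icc 1 ⌊Z⌋₊ := by
  intro v hv
  obtain ⟨h1, h2⟩ := hS v hv
  have h3 := h1.ll_pos
  rw [Finset.mem_Icc]
  refine ⟨by omega, Nat.le_floor ?_⟩
  have h4 : (((ll v).toNat : ℤ) : ℝ) = (ll v : ℝ) := by
    rw [Int.toNat_of_nonneg h3.le]
  have h5 : (((ll v).toNat : ℕ) : ℝ) = (ll v : ℝ) := by
    rw [← h4]; push_cast; rfl
  rw [h5]
  exact h2

open Classical in
private theorem Line_fib' (S : Finset (ℤ × ℤ)) (hS : ∀ v ∈ S, Qd v) (l : ℕ) :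
    (S.filter (fun v => (ll v).toNat = l)).card ≤ l + 1 := by
  refine le_trans (Finset.card_le_card ?_) (Line_fib S (fun v hv => ⟨(hS v hv).1, (hS v hv).2.1⟩) l)
  intro v hv
  rw [Finset.mem_filter] at hv ⊢
  have := (hS v hv.1).ll_pos
  exact ⟨hv.1, by omega⟩

private theorem Line_sum (n : ℕ) : ∑ l ∈ Finset.Icc 1 n, (l + 1) ≤ 2 * n ^ 2 := by
  induction n with
  | zero => simp
  | succ n ih =>
    rw [Finset.sum_Icc_succ_top (by omega)]
    nlinarith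

open Classical in
theorem card_ball (N : ℕ) {Z : ℝ} (hZ : 0 ≤ Z) :
    (((Bx N).filter (fun v => Qd v ∧ (ll v : ℝ) ≤ Z)).card : ℝ) ≤ 2 * Z ^ 2 := by
  set S := (Bx N).filter (fun v => Qd v ∧ (ll v : ℝ) ≤ Z) with hSdef
  have hS : ∀ v ∈ S, Qd v ∧ (ll v : ℝ) ≤ Z := fun v hv => (Finset.mem_filter.1 hv).2
  have h1 : S.card = ∑ l ∈ Finset.Icc 1 ⌊Z⌋₊, (S.filter (fun v => (ll v).toNat = l)).card :=
    Finset.card_eq_sum_card_fiberwise (Line_maps S hS)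
  have h2 : S.card ≤ 2 * ⌊Z⌋₊ ^ 2 := by
    rw [h1]
    exact (Finset.sum_le_sum fun l _ => Line_fib' S (fun v hv => (hS v hv).1) l).trans (Line_sum _)
  have h3 : (S.card : ℝ) ≤ ((2 * ⌊Z⌋₊ ^ 2 : ℕ) : ℝ) := by exact_mod_cast h2
  have h4 : (⌊Z⌋₊ : ℝ) ≤ Z := Nat.floor_le hZ
  have h5 : (⌊Z⌋₊ : ℝ) ^ 2 ≤ Z ^ 2 := pow_le_pow_left₀ (Nat.cast_nonneg _) h4 2
  push_cast at h3
  linarith

open Classical in
theorem sum_inv_ball (N : ℕ) {Z : ℝ} (hZ : 0 ≤ Z) :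
    ∑ v ∈ (Bx N).filter (fun v => Qd v ∧ (ll v : ℝ) ≤ Z), (1 : ℝ) / ll v ≤ 2 * Z := by
  set S := (Bx N).filter (fun v => Qd v ∧ (ll v : ℝ) ≤ Z) with hSdef
  have hS : ∀ v ∈ S, Qd v ∧ (ll v : ℝ) ≤ Z := fun v hv => (Finset.mem_filter.1 hv).2
  rw [← Finset.sum_fiberwise_of_maps_to (Line_maps S hS)]
  have h1 : ∀ l ∈ Finset.Icc 1 ⌊Z⌋₊,
      ∑ v ∈ S.filter (fun v => (ll v).toNat = l), (1 : ℝ) / ll v ≤ 2 := by
    intro l hl
    rw [Finset.mem_Icc] at hl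
    have hl0 : (1 : ℝ) ≤ (l : ℝ) := by exact_mod_cast hl.1
    have h2 : ∀ v ∈ S.filter (fun v => (ll v).toNat = l), (1 : ℝ) / ll v = 1 / (l : ℝ) := by
      intro v hv
      rw [Finset.mem_filter] at hv
      have h3 := (hS v hv.1).1.ll_pos
      have h4 : ll v = (l : ℤ) := by omega
      rw [h4]
      push_cast
      rfl
    rw [Finset.sum_congr rfl h2, Finset.sum_const, nsmul_eq_mul]
    have h5 : ((S.filter (fun v => (ll v).toNat = l)).card : ℝ) ≤ (l : ℝ) + 1 := by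
      exact_mod_cast Line_fib' S (fun v hv => (hS v hv).1) l
    calc ((S.filter (fun v => (ll v).toNat = l)).card : ℝ) * (1 / (l : ℝ))
        ≤ ((l : ℝ) + 1) * (1 / (l : ℝ)) := mul_le_mul_of_nonneg_right h5 (by positivity)
      _ ≤ 2 := by
          rw [mul_one_div, div_le_iff₀ (by linarith)]
          linarith
  refine (Finset.sum_le_sum h1).trans ?_
  rw [Finset.sum_const, nsmul_eq_mul, Nat.card_Icc]
  have h4 : (⌊Z⌋₊ : ℝ) ≤ Z := Nat.floor_le hZ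
  have h6 : ((⌊Z⌋₊ + 1 - 1 : ℕ) : ℝ) = (⌊Z⌋₊ : ℝ) := by
    rw [Nat.add_sub_cancel]
  rw [h6]
  linarith

open Classical in
theorem card_pairs (N m : ℕ) {X Y : ℝ} (hX : 0 < X) (hY : 0 ≤ Y) :
    (((pp2 N m).filter (fun x => X / 4 ≤ ll x.1 ∧ (ll x.1 : ℝ) ≤ 4 * X ∧ (ll x.2 : ℝ) ≤ Y * X)).card : ℝ) ≤
      32 * (4 * Y + 1) * X ^ 2 := by
  set T := (pp2 N m).filter (fun x => X / 4 ≤ ll x.1 ∧ (ll x.1 : ℝ) ≤ 4 * X ∧ (ll x.2 : ℝ) ≤ Y * X)
    with hT
  set V := (Bx N).filter (fun v => Qd v ∧ (ll v : ℝ) ≤ 4 * X) with hV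
  have hTm : ∀ x ∈ T, (x.1 ∈ Bx N ∧ x.2 ∈ Bx N) ∧ dt x.1 x.2 = m ∧ IsCoprime x.1.1 x.1.2 ∧
      X / 4 ≤ ll x.1 ∧ (ll x.1 : ℝ) ≤ 4 * X ∧ (ll x.2 : ℝ) ≤ Y * X := by
    intro x hx
    rw [hT, Finset.mem_filter, pp2, Finset.mem_filter, Finset.mem_product] at hx
    exact ⟨hx.1.1, hx.1.2.1, hx.1.2.2.1, hx.2⟩
  have hQ : ∀ x ∈ T, Qd x.1 := by
    intro x hx
    obtain ⟨⟨h1, _⟩, _, h3, _⟩ := hTm x hx
    rw [Line_mem] at h1
    refine ⟨h1.1.1, h1.2.1, ?_⟩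
    intro h0
    rw [h0] at h3
    exact not_isCoprime_zero_zero h3
  have hmaps : ∀ x ∈ T, x.1 ∈ V := by
    intro x hx
    obtain ⟨⟨h1, _⟩, _, _, _, h5, _⟩ := hTm x hx
    rw [hV, Finset.mem_filter]
    exact ⟨h1, hQ x hx, h5⟩
  have h1 : T.card = ∑ v ∈ V, (T.filter (fun x => x.1 = v)).card :=
    Finset.card_eq_sum_card_fiberwise hmaps
  have h2 : ∀ v ∈ V, ((T.filter (fun x => x.1 = v)).card : ℝ) ≤ 4 * Y + 1 := by
    intro v hv
    rcases (T.filter (fun x => x.1 = v)).eq_empty_or_nonempty with h0 | ⟨x0, hx0⟩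
    · rw [h0, Finset.card_empty, Nat.cast_zero]
      positivity
    · rw [Finset.mem_filter] at hx0
      obtain ⟨hx0, hx0v⟩ := hx0
      obtain ⟨_, _, c3, c4, _, _⟩ := hTm x0 hx0
      have cQ := hQ x0 hx0
      rw [hx0v] at c3 c4 cQ
      have h3 : (T.filter (fun x => x.1 = v)).card ≤
          ((Bx N).filter (fun w => dt v w = (m : ℤ) ∧ (ll w : ℝ) ≤ Y * X)).card := by
        refine Finset.card_le_card_of_injOn (fun x => x.2) ?_ ?_
        · intro x hx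
          have hx' := Finset.mem_filter.1 hx
          obtain ⟨⟨_, d2⟩, d3, _, _, _, d6⟩ := hTm x hx'.1
          have hxv : x.1 = v := hx'.2
          rw [hxv] at d3
          rw [Finset.mem_coe, Finset.mem_filter]
          exact ⟨d2, d3, d6⟩
        · intro x hx y hy he
          have hx' : x.1 = v := (Finset.mem_filter.1 hx).2
          have hy' : y.1 = v := (Finset.mem_filter.1 hy).2
          exact Prod.ext (hx'.trans hy'.symm) he
      have h4 := card_line cQ c3 (m : ℤ) N (Z := Y * X) (by positivity)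
      have h5 : ((T.filter (fun x => x.1 = v)).card : ℝ) ≤
          (((Bx N).filter (fun w => dt v w = (m : ℤ) ∧ (ll w : ℝ) ≤ Y * X)).card : ℝ) := by
        exact_mod_cast h3
      have h6 : (0 : ℝ) < (ll v : ℝ) := by exact_mod_cast cQ.ll_pos
      have h7 : Y * X / (ll v : ℝ) ≤ 4 * Y := by
        rw [div_le_iff₀ h6]
        nlinarith
      linarith
  have h3 : (T.card : ℝ) = ∑ v ∈ V, ((T.filter (fun x => x.1 = v)).card : ℝ) := by
    rw [h1]; push_cast; rfl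
  rw [h3]
  refine (Finset.sum_le_sum h2).trans ?_
  rw [Finset.sum_const, nsmul_eq_mul]
  have h4 : (V.card : ℝ) ≤ 2 * (4 * X) ^ 2 := card_ball N (by positivity)
  have h5 : (0 : ℝ) ≤ 4 * Y + 1 := by positivity
  calc (V.card : ℝ) * (4 * Y + 1) ≤ 2 * (4 * X) ^ 2 * (4 * Y + 1) :=
        mul_le_mul_of_nonneg_right h4 h5
    _ = 32 * (4 * Y + 1) * X ^ 2 := by ring

end Pool.Agent.Lib.MP_d57abb_nt.TA
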