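import Pool.Agent.Lib.MP_d57abb_nt.TA.Yv
import Pool.Agent.Lib.MP_d57abb_nt.TA.Line
import Pool.Agent.Lib.MP_d57abb_nt.TA.Defs2

/-!
# JOB Fb: the number of bases of a lattice of index `p` in a box is bounded (about 130 lines)

`N = n 2^ρ`, `p ∈ (P / 2, P]`, `P = 2^(2ρ - e)`, `2 ρ ≥ e + 1`: `p > 2^(2ρ - e - 1)`, i.e. `2^(e+1) p > 4^ρ`.  Let `κ = 2^(e+2) n + 1`.
(1) If `s ≠ s'` are primitive vectors of the box `[0, N]²` with `iL p y s`, `iL p y s'`, then `κ |s.1 - s'.1| ≥ 2^ρ` or `κ |s.2 - s'.2| ≥ 2^ρ`: put `λ = s - s'`; otherwise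
`|dt λ s| ≤ |λ.1| |s.2| + |s.1| |λ.2| ≤ 2 (2^ρ / κ) n 2^ρ = 2 n 4^ρ / κ < p`, and `p ∣ dt s' s = dt λ s` up to sign (`iL_dt`: `p` does not divide both coordinates of the primitive vector `s`), so
`dt s' s = 0` and `s = s'` (`eq_of_dt_zero'`).  So `s ↦ (κ s.1 / 2^ρ, κ s.2 / 2^ρ)` (floors) is injective on these vectors: their number is `≤ (κ n + 1)²`.
(2) For given primitive `s` with `2^(γ+2) ll s ≥ 2^ρ` the number of `t ∈ [0, N]²` with `dt s t = p` is `≤ 2 N / ll s + 1 ≤ n 2^(γ+3) + 1` (`card_line` with `Z = 2 N`).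
So `M = (κ n + 1)² (n 2^(γ+3) + 1)`.
`card_all`: number of all pairs: `∑_s (2 N / ll s + 1)`, at most `(N+1)² (n 2^(γ+3) + 1) ≤ C 4^ρ`.
-/

namespace Pool.Agent.Lib.MP_d57abb_nt.TA

open Finset Pool.Agent.Lib.MP_d57abb_nt

private theorem Fb_Bx {N : ℕ} {s : ℤ × ℤ} :
    s ∈ Bx N ↔ (0 ≤ s.1 ∧ s.1 ≤ (N : ℤ)) ∧ (0 ≤ s.2 ∧ s.2 ≤ (N : ℤ)) := by
  unfold Bx
  rw [Finset.mem_product, Finset.mem_Icc, Finset.mem_Icc]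

private theorem Fb_pp2 {N : ℕ} {m : ℤ} {x : (ℤ × ℤ) × (ℤ × ℤ)} :
    x ∈ pp2 N m ↔ (x.1 ∈ Bx N ∧ x.2 ∈ Bx N) ∧ dt x.1 x.2 = m ∧ IsCoprime x.1.1 x.1.2 ∧
      IsCoprime x.2.1 x.2.2 := by
  unfold pp2
  rw [Finset.mem_filter, Finset.mem_product]

private theorem Fb_Qd {N : ℕ} {s : ℤ × ℤ} (h : s ∈ Bx N) (hc : IsCoprime s.1 s.2) : Qd s := by
  obtain ⟨⟨h1, _⟩, ⟨h2, _⟩⟩ := Fb_Bx.1 h
  refine ⟨h1, h2, ?_⟩
  rintro rfl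
  obtain ⟨a, b, hab⟩ := hc
  simp at hab

private theorem Fb_fib (n γ ρ : ℕ) (m : ℤ) {s : ℤ × ℤ} (hs : Qd s) (hc : IsCoprime s.1 s.2)
    (h : (2 : ℤ) ^ ρ ≤ 2 ^ (γ + 2) * ll s) :
    ((Bx (n * 2 ^ ρ)).filter (fun t => dt s t = m)).card ≤ n * 2 ^ (γ + 3) + 1 := by
  have h1 := card_line hs hc m (n * 2 ^ ρ) (Z := 2 * ((n * 2 ^ ρ : ℕ) : ℝ)) (by positivity)
  have h3 : ((((Bx (n * 2 ^ ρ)).filter (fun t => dt s t = m)).card : ℕ) : ℝ) ≤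
      2 * ((n * 2 ^ ρ : ℕ) : ℝ) / ll s + 1 := by
    refine le_trans (Nat.cast_le.2 (Finset.card_le_card ?_)) h1
    intro w hw
    rw [Finset.mem_filter] at hw ⊢
    refine ⟨hw.1, hw.2, ?_⟩
    obtain ⟨⟨_, h4⟩, ⟨_, h5⟩⟩ := Fb_Bx.1 hw.1
    have h6 : ll w ≤ 2 * ((n * 2 ^ ρ : ℕ) : ℤ) := by
      unfold ll
      linarith
    have h7 : ((ll w : ℤ) : ℝ) ≤ ((2 * ((n * 2 ^ ρ : ℕ) : ℤ) : ℤ) : ℝ) := Int.cast_le.2 h6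
    rw [Int.cast_mul, Int.cast_natCast] at h7
    exact_mod_cast h7
  have hl : (0 : ℝ) < ((ll s : ℤ) : ℝ) := by exact_mod_cast hs.ll_pos
  have hR : (2 : ℝ) ^ ρ ≤ 2 ^ (γ + 2) * ((ll s : ℤ) : ℝ) := by exact_mod_cast h
  have h4 : 2 * ((n * 2 ^ ρ : ℕ) : ℝ) / ll s ≤ (n : ℝ) * 2 ^ (γ + 3) := by
    rw [div_le_iff₀ hl]
    have hn : (0 : ℝ) ≤ 2 * (n : ℝ) := by positivity
    have h5 := mul_le_mul_of_nonneg_left hR hn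
    calc 2 * ((n * 2 ^ ρ : ℕ) : ℝ) = 2 * (n : ℝ) * 2 ^ ρ := by push_cast; ring
      _ ≤ 2 * (n : ℝ) * (2 ^ (γ + 2) * ((ll s : ℤ) : ℝ)) := h5
      _ = (n : ℝ) * 2 ^ (γ + 3) * ((ll s : ℤ) : ℝ) := by ring
  have h5 : ((((Bx (n * 2 ^ ρ)).filter (fun t => dt s t = m)).card : ℕ) : ℝ) ≤
      ((n * 2 ^ (γ + 3) + 1 : ℕ) : ℝ) := by
    push_cast
    linarith
  exact_mod_cast h5

private theorem Fb_image (n γ ρ : ℕ) (m : ℤ) (F : Finset ((ℤ × ℤ) × (ℤ × ℤ)))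
    (hF : ∀ x ∈ F, x ∈ pp2 (n * 2 ^ ρ) m ∧ (2 : ℤ) ^ ρ ≤ 2 ^ (γ + 2) * ll x.1) :
    F.card ≤ (n * 2 ^ (γ + 3) + 1) * (F.image Prod.fst).card := by
  apply Finset.card_le_mul_card_image
  intro a ha
  obtain ⟨x, hx, rfl⟩ := Finset.mem_image.1 ha
  obtain ⟨h1, h2⟩ := hF x hx
  obtain ⟨⟨h3, _⟩, _, h5, _⟩ := Fb_pp2.1 h1
  refine le_trans ?_ (Fb_fib n γ ρ m (Fb_Qd h3 h5) h5 h2)
  refine Finset.card_le_card_of_injOn Prod.snd ?_ ?_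
  · intro u hu
    have hu' := Finset.mem_filter.1 (Finset.mem_coe.1 hu)
    obtain ⟨h6, _⟩ := hF u hu'.1
    obtain ⟨⟨_, h7⟩, h8, _⟩ := Fb_pp2.1 h6
    refine Finset.mem_coe.2 (Finset.mem_filter.2 ⟨h7, ?_⟩)
    rw [← hu'.2]
    exact h8
  · intro u hu v hv huv
    have hu' := Finset.mem_filter.1 (Finset.mem_coe.1 hu)
    have hv' := Finset.mem_filter.1 (Finset.mem_coe.1 hv)
    exact Prod.ext (hu'.2.trans hv'.2.symm) huv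

private theorem Fb_div {κ a b c : ℤ} (hc : 0 < c) (h : κ * a / c = κ * b / c) :
    |κ * (a - b)| < c := by
  have h1 := Int.ediv_mul_add_emod (κ * a) c
  have h2 := Int.ediv_mul_add_emod (κ * b) c
  have h3 := Int.emod_nonneg (κ * a) hc.ne'
  have h4 := Int.emod_lt_of_pos (κ * a) hc
  have h5 := Int.emod_nonneg (κ * b) hc.ne'
  have h6 := Int.emod_lt_of_pos (κ * b) hc
  rw [h] at h1
  have e : κ * (a - b) = (κ * a) % c - (κ * b) % c := by linarith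
  rw [e, abs_lt]
  constructor <;> linarith

private theorem Fb_inj (n e ρ p y : ℕ) (he : e + 1 ≤ 2 * ρ) (hp : p ∈ PS (PP e ρ)) (hy : y < p + 1)
    {s s' : ℤ × ℤ} (hs : s ∈ Bx (n * 2 ^ ρ)) (hs' : s' ∈ Bx (n * 2 ^ ρ))
    (hc : IsCoprime s.1 s.2) (hc' : IsCoprime s'.1 s'.2) (hi : iL p y s) (hi' : iL p y s')
    (h1 : (2 ^ (e + 2) * n + 1 : ℤ) * s.1 / 2 ^ ρ = (2 ^ (e + 2) * n + 1 : ℤ) * s'.1 / 2 ^ ρ)
    (h2 : (2 ^ (e + 2) * n + 1 : ℤ) * s.2 / 2 ^ ρ = (2 ^ (e + 2) * n + 1 : ℤ) * s'.2 / 2 ^ ρ) :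
    s = s' := by
  have hpp : PP e ρ / 2 < p ∧ SP p := by
    classical
    unfold PS at hp
    rw [Finset.mem_filter] at hp
    exact ⟨(Finset.mem_Ioc.1 hp.1).1, hp.2⟩
  obtain ⟨hp1, hSP⟩ := hpp
  have hpr : p.Prime := hSP.1
  have hp4 : (4 : ℤ) ^ ρ < 2 ^ (e + 1) * (p : ℤ) := by
    obtain ⟨k, hk⟩ : ∃ k, 2 * ρ - e = k + 1 := ⟨2 * ρ - e - 1, by omega⟩
    have h3 : 2 ^ k < p := by
      unfold PP at hp1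
      rw [hk, pow_succ, Nat.mul_div_cancel _ (by norm_num)] at hp1
      exact hp1
    have h4 : (4 : ℕ) ^ ρ = 2 ^ (e + 1) * 2 ^ k := by
      rw [← pow_add, show (4 : ℕ) = 2 ^ 2 from by norm_num, ← pow_mul]
      congr 1
      omega
    have h5 : 4 ^ ρ < 2 ^ (e + 1) * p := by
      rw [h4]
      exact Nat.mul_lt_mul_of_pos_left h3 (by positivity)
    exact_mod_cast h5
  have hnd : ∀ u : ℤ × ℤ, IsCoprime u.1 u.2 → ¬ ((p : ℤ) ∣ u.1 ∧ (p : ℤ) ∣ u.2) := by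
    rintro u ⟨a, b, hab⟩ ⟨h3, h4⟩
    have h5 : (p : ℤ) ∣ 1 := by
      rw [← hab]
      exact dvd_add (Dvd.dvd.mul_left h3 a) (Dvd.dvd.mul_left h4 b)
    have h6 : p ∣ 1 := by exact_mod_cast h5
    exact hpr.one_lt.ne' (Nat.dvd_one.1 h6)
  have hdvd : (p : ℤ) ∣ dt s' s := (iL_dt hSP hy (hnd s' hc') hi' s).1 hi
  have h2r : (0 : ℤ) < 2 ^ ρ := by positivity
  have d1 := Fb_div h2r h1
  have d2 := Fb_div h2r h2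
  obtain ⟨⟨a1, a2⟩, ⟨a3, a4⟩⟩ := Fb_Bx.1 hs
  obtain ⟨⟨b1, b2⟩, ⟨b3, b4⟩⟩ := Fb_Bx.1 hs'
  set κ : ℤ := 2 ^ (e + 2) * n + 1 with hκ
  have hκ0 : 0 < κ := by positivity
  have hD : κ * dt s' s = s'.1 * (κ * (s.2 - s'.2)) - (κ * (s.1 - s'.1)) * s'.2 := by
    unfold dt
    ring
  have hN : (((n * 2 ^ ρ : ℕ)) : ℤ) = (n : ℤ) * 2 ^ ρ := by push_cast; ring
  rw [hN] at a2 a4 b2 b4
  have hb : |κ * dt s' s| ≤ 2 * ((n : ℤ) * 2 ^ ρ) * 2 ^ ρ := by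
    rw [hD]
    refine (abs_sub _ _).trans ?_
    rw [abs_mul, abs_mul (κ * (s.1 - s'.1)), abs_of_nonneg b1, abs_of_nonneg b3]
    have e1 : s'.1 * |κ * (s.2 - s'.2)| ≤ ((n : ℤ) * 2 ^ ρ) * 2 ^ ρ :=
      mul_le_mul b2 d2.le (abs_nonneg _) (by positivity)
    have e2 : |κ * (s.1 - s'.1)| * s'.2 ≤ 2 ^ ρ * ((n : ℤ) * 2 ^ ρ) :=
      mul_le_mul d1.le b4 b3 (by positivity)
    linarith
  have h44 : (2 : ℤ) ^ ρ * 2 ^ ρ = 4 ^ ρ := by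
    rw [← mul_pow]
    norm_num
  have hlt : |κ * dt s' s| < κ * (p : ℤ) := by
    refine hb.trans_lt ?_
    have hp0 : (0 : ℤ) < (p : ℤ) := by exact_mod_cast hpr.pos
    have hn0 : (0 : ℤ) ≤ 2 * (n : ℤ) := by positivity
    have e3 : 2 * (n : ℤ) * 4 ^ ρ ≤ 2 * (n : ℤ) * (2 ^ (e + 1) * (p : ℤ)) :=
      mul_le_mul_of_nonneg_left hp4.le hn0
    calc 2 * ((n : ℤ) * 2 ^ ρ) * 2 ^ ρ = 2 * (n : ℤ) * 4 ^ ρ := by rw [← h44]; ring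
      _ ≤ 2 * (n : ℤ) * (2 ^ (e + 1) * (p : ℤ)) := e3
      _ < 2 * (n : ℤ) * (2 ^ (e + 1) * (p : ℤ)) + (p : ℤ) := by linarith
      _ = κ * (p : ℤ) := by rw [hκ]; ring
  rw [abs_mul, abs_of_pos hκ0] at hlt
  have hlt' : |dt s' s| < (p : ℤ) := lt_of_mul_lt_mul_left hlt hκ0.le
  have hz : dt s' s = 0 := Int.eq_zero_of_abs_lt_dvd hdvd hlt'
  exact (eq_of_dt_zero' (Fb_Qd hs' hc') (Fb_Qd hs hc) hc' hc hz).symm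

open Classical in
theorem F_count (n e γ : ℕ) : ∃ M : ℕ, ∀ ρ : ℕ, e + 1 ≤ 2 * ρ → ∀ p ∈ PS (PP e ρ), ∀ y < p + 1,
    ((pp2 (n * 2 ^ ρ) p).filter
      (fun x => iL p y x.1 ∧ (2 : ℤ) ^ ρ ≤ 2 ^ (γ + 2) * ll x.1)).card ≤ M := by
  refine ⟨(n * 2 ^ (γ + 3) + 1) * (((2 ^ (e + 2) * n + 1) * n + 1) * ((2 ^ (e + 2) * n + 1) * n + 1)),
    fun ρ hρ p hp y hy => ?_⟩
  have h0 : ∀ x ∈ ((pp2 (n * 2 ^ ρ) p).filter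
      (fun x => iL p y x.1 ∧ (2 : ℤ) ^ ρ ≤ 2 ^ (γ + 2) * ll x.1)),
      x ∈ pp2 (n * 2 ^ ρ) p ∧ (2 : ℤ) ^ ρ ≤ 2 ^ (γ + 2) * ll x.1 := by
    intro x hx
    obtain ⟨h1, h2⟩ := Finset.mem_filter.1 hx
    exact ⟨h1, h2.2⟩
  refine (Fb_image n γ ρ p _ h0).trans (Nat.mul_le_mul_left _ ?_)
  set κ : ℤ := 2 ^ (e + 2) * n + 1 with hκ
  have hκ0 : 0 < κ := by positivity
  have h2r : (0 : ℤ) < 2 ^ ρ := by positivity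
  have hcard : ((Finset.Icc (0 : ℤ) (κ * n)) ×ˢ (Finset.Icc (0 : ℤ) (κ * n))).card
      = ((2 ^ (e + 2) * n + 1) * n + 1) * ((2 ^ (e + 2) * n + 1) * n + 1) := by
    rw [Finset.card_product, Int.card_Icc]
    have : (κ * n + 1 - 0).toNat = (2 ^ (e + 2) * n + 1) * n + 1 := by
      have h5 : κ * n + 1 - 0 = (((2 ^ (e + 2) * n + 1) * n + 1 : ℕ) : ℤ) := by
        rw [hκ]
        push_cast
        ring
      rw [h5, Int.toNat_natCast]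
    rw [this]
  rw [← hcard]
  refine Finset.card_le_card_of_injOn (fun s => (κ * s.1 / 2 ^ ρ, κ * s.2 / 2 ^ ρ)) ?_ ?_
  · intro s hs
    obtain ⟨x, hx, rfl⟩ := Finset.mem_image.1 (Finset.mem_coe.1 hs)
    obtain ⟨h1, _⟩ := Finset.mem_filter.1 hx
    obtain ⟨⟨h3, _⟩, _⟩ := Fb_pp2.1 h1
    obtain ⟨⟨a1, a2⟩, ⟨a3, a4⟩⟩ := Fb_Bx.1 h3
    have hN : (((n * 2 ^ ρ : ℕ)) : ℤ) = (n : ℤ) * 2 ^ ρ := by push_cast; ring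
    rw [hN] at a2 a4
    have key : ∀ z : ℤ, 0 ≤ z → z ≤ (n : ℤ) * 2 ^ ρ → κ * z / 2 ^ ρ ∈ Finset.Icc (0 : ℤ) (κ * n) := by
      intro z z0 z1
      rw [Finset.mem_Icc]
      constructor
      · exact Int.ediv_nonneg (mul_nonneg hκ0.le z0) h2r.le
      · apply Int.ediv_le_of_le_mul h2r
        calc κ * z ≤ κ * ((n : ℤ) * 2 ^ ρ) := mul_le_mul_of_nonneg_left z1 hκ0.le
          _ = κ * n * 2 ^ ρ := by ring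
    exact Finset.mem_coe.2 (Finset.mem_product.2 ⟨key _ a1 a2, key _ a3 a4⟩)
  · intro s hs s' hs' heq
    obtain ⟨x, hx, rfl⟩ := Finset.mem_image.1 (Finset.mem_coe.1 hs)
    obtain ⟨x', hx', rfl⟩ := Finset.mem_image.1 (Finset.mem_coe.1 hs')
    obtain ⟨h1, h2⟩ := Finset.mem_filter.1 hx
    obtain ⟨h1', h2'⟩ := Finset.mem_filter.1 hx'
    obtain ⟨⟨h3, _⟩, _, h4, _⟩ := Fb_pp2.1 h1
    obtain ⟨⟨h3', _⟩, _, h4', _⟩ := Fb_pp2.1 h1'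
    have heq1 := congrArg Prod.fst heq
    have heq2 := congrArg Prod.snd heq
    exact Fb_inj n e ρ p y hρ hp hy h3 h3' h4 h4' h2.1 h2'.1 heq1 heq2

open Classical in
theorem card_all (n γ : ℕ) : ∃ M : ℕ, ∀ ρ m : ℕ,
    ((pp2 (n * 2 ^ ρ) m).filter
      (fun x => (2 : ℤ) ^ ρ ≤ 2 ^ (γ + 2) * ll x.1)).card ≤ M * 4 ^ ρ := by
  refine ⟨(n * 2 ^ (γ + 3) + 1) * ((n + 1) * (n + 1)), fun ρ m => ?_⟩
  have h0 : ∀ x ∈ ((pp2 (n * 2 ^ ρ) m).filter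
      (fun x => (2 : ℤ) ^ ρ ≤ 2 ^ (γ + 2) * ll x.1)),
      x ∈ pp2 (n * 2 ^ ρ) m ∧ (2 : ℤ) ^ ρ ≤ 2 ^ (γ + 2) * ll x.1 := by
    intro x hx
    exact Finset.mem_filter.1 hx
  refine (Fb_image n γ ρ m _ h0).trans ?_
  rw [mul_assoc]
  refine Nat.mul_le_mul_left _ ?_
  have h1 : ((((pp2 (n * 2 ^ ρ) m).filter
      (fun x => (2 : ℤ) ^ ρ ≤ 2 ^ (γ + 2) * ll x.1))).image Prod.fst).card ≤ (Bx (n * 2 ^ ρ)).card := by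
    refine Finset.card_le_card ?_
    intro s hs
    obtain ⟨x, hx, rfl⟩ := Finset.mem_image.1 hs
    exact (Fb_pp2.1 (Finset.mem_filter.1 hx).1).1.1
  refine h1.trans ?_
  have h2 : (Bx (n * 2 ^ ρ)).card = (n * 2 ^ ρ + 1) * (n * 2 ^ ρ + 1) := by
    unfold Bx
    rw [Finset.card_product, Int.card_Icc]
    have : (((n * 2 ^ ρ : ℕ) : ℤ) + 1 - 0).toNat = n * 2 ^ ρ + 1 := by omega
    rw [this]
  rw [h2]
  have h3 : 1 ≤ 2 ^ ρ := Nat.one_le_two_pow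
  have h4 : n * 2 ^ ρ + 1 ≤ (n + 1) * 2 ^ ρ := by
    rw [add_mul, one_mul]
    omega
  calc (n * 2 ^ ρ + 1) * (n * 2 ^ ρ + 1) ≤ ((n + 1) * 2 ^ ρ) * ((n + 1) * 2 ^ ρ) := Nat.mul_le_mul h4 h4
    _ = (n + 1) * (n + 1) * 4 ^ ρ := by
      have h5 : (4 : ℕ) ^ ρ = 2 ^ ρ * 2 ^ ρ := by
        rw [← mul_pow]
        norm_num
      rw [h5]
      ring

end Pool.Agent.Lib.MP_d57abb_nt.TA
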