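import Pool.Agent.Lib.MP_d57abb_nt.TA.Cells
import Pool.Agent.Lib.MP_d57abb_nt.TA.Cnt
import Pool.Agent.Lib.MP_d57abb_nt.TA.Fb
import Pool.Agent.Lib.MP_d57abb_nt.TA.Tree
import Pool.Agent.Lib.MP_d57abb_nt.TA.Wt
import Pool.Agent.Lib.MP_d57abb_nt.KT.Kernel

/-!
# JOB Ker: application of the kernel theorem in every cell (about 250 lines)

`KT.kernel` with `N = n 2^ρ`, `P = PP e ρ = 2^(2 ρ - e)`, `K = n² 2^e`: `P ≤ N²` (`n ≥ 1`) and `N² = n² 4^ρ ≤ K P` (for `2 ρ ≥ e` equality).  `PS P = KT.PP P` (`ext`; `SP` and `R5` are the same condition), `W = primorial w`, `NN = KT.NN W P`.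
Fix the cell `C`, `j = i + (ρ - γ)`, `u s = ll (em C s) / 2^j ≥ 0`, `G s t = Wh (u s) (u t) aa z (em C s) aa z (em C t)`, `‖aa‖ = 1` (`norm_aa`).
(1) `(∑_{p ∈ PS} Gc p) / |PS| - (∑_{m ∈ NN} Gc m) / |NN| = ∑_{s, t ∈ KT.box N} G s t * KT.ff W P (dt s t)`: `pp2 N m` is the set of the `(s, t)` in `box N × box N` with `dt s t = m` (`Int.isCoprime_iff_gcd_eq_one`), exchange the sums (`m` ranges over a finite set; for `dt s t ≤ 0` both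
sides see nothing: elements of `PS`, `NN` are positive).
(2) STEP FUNCTION.  `M ≥ 1` integer, `a s = ⌊M u s⌋₊`.  `|Wh (u s) (u t) - Wh (a s / M) (a t / M)| ≤ 2 L / M` (`GW.lip`), and if the difference is not zero then `u s ≥ 1/4` (`sx`; `a s / M ≤ u s`), so `2^j / 4 ≤ ll (em C s) ≤ 2^i ll s`, so
`2^ρ ≤ 2^(γ+2) ll s` (`ll_em`, `ll C.1, ll C.2 ≤ 2^i`; `2^j 2^γ ≥ 2^(i+ρ)`).  `card_all n γ`: at most `M' 4^ρ` such pairs in `pp2 N m`, for each `m`.  `∑_m |fN m| ≤ 2` (`KT.abs_fN_le`).  So replacing `Wh (u s) (u t)` by `Wh (a s / M) (a t / M)` costs at most `(4 L M' / M) 4^ρ`.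
(3) `∑_{s,t} Wh (a s / M) (a t / M) aa aa ff = ∑_{a ≤ 4 M} ∑_{b ≤ 2^γ M} Wh (a / M) (b / M) ∑_{s,t} (1_{a s = a} aa z (em C s)) (1_{a t = b} aa z (em C t)) ff` (`sx`, `sy`: the other `a, b` have `Wh = 0`), each inner sum is `≤ ε₁ N²` by the kernel theorem.
Total `≤ (4 M + 1) (2^γ M + 1) B ε₁ n² 4^ρ`.
Choose `M` with `4 L M' / M ≤ ε / 2`, then `ε₁`.
`ker_app`: `‖∑_C (μ_C / 4^j) (...)‖ ≤ |CC| ε₂ 4^ρ / 4^j ≤ 4^i ε₂ 4^ρ / 4^j ≤ 4^γ ε₂` for `ρ ≥ γ` (`card_le_sq`, `GM.nn`, `GM.le`, `Qd.add`), use `ker_cell` with `ε₂ = ε / 4^γ`.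
-/

namespace Pool.Agent.Lib.MP_d57abb_nt.TA

open Finset Pool.Agent.Lib.MP_d57abb_nt

private theorem Ker_box (N : ℕ) {E : Type*} [AddCommMonoid E] (S : Finset ℕ) (hS : 0 ∉ S)
    (g : (ℤ × ℤ) × (ℤ × ℤ) → E) :
    ∑ m ∈ S, ∑ x ∈ pp2 N m, g x =
      ∑ x ∈ KT.box N ×ˢ KT.box N, if (dt x.1 x.2).toNat ∈ S then g x else 0 := by
  classical
  have h1 : ∀ m : ℕ, pp2 N m = (KT.box N ×ˢ KT.box N).filter (fun x => dt x.1 x.2 = (m : ℤ)) := by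
    intro m
    ext x
    simp only [pp2, KT.box, Bx, mem_filter, mem_product, Int.isCoprime_iff_gcd_eq_one]
    tauto
  have h2 : ∀ m ∈ S, ∑ x ∈ pp2 N m, g x =
      ∑ x ∈ KT.box N ×ˢ KT.box N, if dt x.1 x.2 = (m : ℤ) then g x else 0 := by
    intro m _
    rw [h1, Finset.sum_filter]
  rw [Finset.sum_congr rfl h2, Finset.sum_comm]
  refine Finset.sum_congr rfl fun x _ => ?_
  by_cases h : (dt x.1 x.2).toNat ∈ S
  · rw [if_pos h, Finset.sum_eq_single_of_mem _ h]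
    · refine if_pos ?_
      have h3 : (dt x.1 x.2).toNat ≠ 0 := fun h0 => hS (h0 ▸ h)
      omega
    · intro m _ hm
      refine if_neg fun h4 => hm ?_
      omega
  · rw [if_neg h]
    refine Finset.sum_eq_zero fun m hm => if_neg fun h4 => h ?_
    have h5 : (dt x.1 x.2).toNat = m := by omega
    rw [h5]
    exact hm

private theorem Ker_PS (P : ℕ) : PS P = KT.PP P := by
  ext p
  unfold PS KT.PP SP KT.R5
  simp only [mem_filter]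

private theorem Ker_zero_PP (P : ℕ) : 0 ∉ KT.PP P := by
  intro h
  have h1 := (KT.mem_PP.1 h).1.1
  omega

private theorem Ker_zero_NN (W P : ℕ) : 0 ∉ KT.NN W P := by
  intro h
  have h1 := (KT.mem_NN.1 h).1.1
  omega

private theorem Ker_id (W P N : ℕ) (g : (ℤ × ℤ) × (ℤ × ℤ) → ℂ) :
    (∑ p ∈ PS P, ∑ x ∈ pp2 N p, g x) / ((PS P).card : ℂ) -
      (∑ m ∈ KT.NN W P, ∑ x ∈ pp2 N m, g x) / ((KT.NN W P).card : ℂ) =
    ∑ x ∈ KT.box N ×ˢ KT.box N, g x * ((KT.ff W P (dt x.1 x.2) : ℝ) : ℂ) := by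
  rw [Ker_PS, Ker_box N _ (Ker_zero_PP P) g, Ker_box N _ (Ker_zero_NN W P) g, Finset.sum_div, Finset.sum_div,
    ← Finset.sum_sub_distrib]
  refine Finset.sum_congr rfl fun x _ => ?_
  unfold KT.ff KT.fN
  split_ifs <;> push_cast <;> ring

private theorem Ker_mass1 (N : ℕ) (S : Finset ℕ) (hS : 0 ∉ S) (c : (ℤ × ℤ) × (ℤ × ℤ) → Prop) [DecidablePred c]
    (R : ℝ) (hR : ∀ m : ℕ, (((pp2 N m).filter c).card : ℝ) ≤ R) :
    ∑ x ∈ (KT.box N ×ˢ KT.box N).filter c, (if (dt x.1 x.2).toNat ∈ S then 1 / (S.card : ℝ) else 0) ≤ R := by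
  have h0 : 0 ≤ R := le_trans (Nat.cast_nonneg _) (hR 0)
  have h1 : ∑ x ∈ (KT.box N ×ˢ KT.box N).filter c, (if (dt x.1 x.2).toNat ∈ S then 1 / (S.card : ℝ) else 0) =
      ∑ m ∈ S, ∑ x ∈ pp2 N m, (if c x then 1 / (S.card : ℝ) else 0) := by
    rw [Ker_box N S hS (fun x => if c x then 1 / (S.card : ℝ) else 0), Finset.sum_filter]
    refine Finset.sum_congr rfl fun x _ => ?_
    split_ifs <;> rfl
  rw [h1]
  have h2 : ∀ m ∈ S, ∑ x ∈ pp2 N m, (if c x then 1 / (S.card : ℝ) else 0) ≤ R * (1 / (S.card : ℝ)) := by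
    intro m _
    rw [← Finset.sum_filter, Finset.sum_const, nsmul_eq_mul]
    exact mul_le_mul_of_nonneg_right (hR m) (by positivity)
  refine (Finset.sum_le_sum h2).trans ?_
  rw [Finset.sum_const, nsmul_eq_mul]
  rcases Nat.eq_zero_or_pos S.card with h | h
  · rw [h]
    simpa using h0
  · have h3 : (0 : ℝ) < S.card := by exact_mod_cast h
    refine le_of_eq ?_
    field_simp

private theorem Ker_mass (W P N : ℕ) (c : (ℤ × ℤ) × (ℤ × ℤ) → Prop) [DecidablePred c]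
    (R : ℝ) (hR : ∀ m : ℕ, (((pp2 N m).filter c).card : ℝ) ≤ R) :
    ∑ x ∈ (KT.box N ×ˢ KT.box N).filter c, |KT.ff W P (dt x.1 x.2)| ≤ 2 * R := by
  have h1 := Ker_mass1 N (KT.PP P) (Ker_zero_PP P) c R hR
  have h2 := Ker_mass1 N (KT.NN W P) (Ker_zero_NN W P) c R hR
  calc ∑ x ∈ (KT.box N ×ˢ KT.box N).filter c, |KT.ff W P (dt x.1 x.2)|
      ≤ ∑ x ∈ (KT.box N ×ˢ KT.box N).filter c,
        ((if (dt x.1 x.2).toNat ∈ KT.PP P then 1 / ((KT.PP P).card : ℝ) else 0) +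
          (if (dt x.1 x.2).toNat ∈ KT.NN W P then 1 / ((KT.NN W P).card : ℝ) else 0)) :=
        Finset.sum_le_sum fun x _ => KT.abs_fN_le W P (dt x.1 x.2).toNat
    _ ≤ 2 * R := by
        rw [Finset.sum_add_distrib]
        linarith

/-- the step function part: a sum over the classes of the rounded sizes -/
private theorem Ker_step (N Na Nb : ℕ) (F : ℕ → ℕ → ℝ) (B : ℝ) (hF : ∀ a b, |F a b| ≤ B)
    (hFa : ∀ a b, F a b ≠ 0 → a < Na ∧ b < Nb) (al : ℤ × ℤ → ℕ) (A : ℤ × ℤ → ℂ) (hA : ∀ v, ‖A v‖ ≤ 1)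
    (k : ℤ × ℤ → ℤ × ℤ → ℂ) (D : ℝ) (hk : ∀ A B : ℤ × ℤ → ℂ, (∀ v, ‖A v‖ ≤ 1) → (∀ v, ‖B v‖ ≤ 1) →
      ‖∑ s ∈ KT.box N, ∑ t ∈ KT.box N, A s * B t * k s t‖ ≤ D) :
    ‖∑ x ∈ KT.box N ×ˢ KT.box N, ((F (al x.1) (al x.2) : ℝ) : ℂ) * A x.1 * A x.2 * k x.1 x.2‖ ≤
      (Na : ℝ) * (Nb : ℝ) * (B * D) := by
  classical
  have hD : 0 ≤ D := le_trans (norm_nonneg _) (hk (fun _ => 0) (fun _ => 0) (by simp) (by simp))
  have hB : 0 ≤ B := le_trans (abs_nonneg _) (hF 0 0)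
  have h1 : ∀ x : (ℤ × ℤ) × (ℤ × ℤ), ((F (al x.1) (al x.2) : ℝ) : ℂ) * A x.1 * A x.2 * k x.1 x.2 =
      ∑ a ∈ range Na, ∑ b ∈ range Nb, ((F a b : ℝ) : ℂ) *
        ((if al x.1 = a then A x.1 else 0) * (if al x.2 = b then A x.2 else 0) * k x.1 x.2) := by
    intro x
    by_cases h0 : F (al x.1) (al x.2) = 0
    · rw [h0, Complex.ofReal_zero, zero_mul, zero_mul, zero_mul]
      symm
      refine Finset.sum_eq_zero fun a _ => Finset.sum_eq_zero fun b _ => ?_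
      by_cases ha : al x.1 = a
      · by_cases hb : al x.2 = b
        · rw [← ha, ← hb, h0, Complex.ofReal_zero, zero_mul]
        · rw [if_neg hb, mul_zero, zero_mul, mul_zero]
      · rw [if_neg ha, zero_mul, zero_mul, mul_zero]
    · obtain ⟨ha, hb⟩ := hFa _ _ h0
      rw [Finset.sum_eq_single_of_mem (al x.1) (mem_range.2 ha), Finset.sum_eq_single_of_mem (al x.2) (mem_range.2 hb)]
      · rw [if_pos rfl, if_pos rfl]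
        ring
      · intro b _ hb'
        rw [if_neg (fun h : al x.2 = b => hb' h.symm), mul_zero, zero_mul, mul_zero]
      · intro a _ ha'
        refine Finset.sum_eq_zero fun b _ => ?_
        rw [if_neg (fun h : al x.1 = a => ha' h.symm), zero_mul, zero_mul, mul_zero]
  rw [Finset.sum_congr rfl fun x _ => h1 x, Finset.sum_comm]
  rw [Finset.sum_congr rfl fun a _ => Finset.sum_comm]
  refine (norm_sum_le _ _).trans ?_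
  have h2 : ∀ a ∈ range Na, ‖∑ b ∈ range Nb, ∑ x ∈ KT.box N ×ˢ KT.box N, ((F a b : ℝ) : ℂ) *
        ((if al x.1 = a then A x.1 else 0) * (if al x.2 = b then A x.2 else 0) * k x.1 x.2)‖ ≤
      (Nb : ℝ) * (B * D) := by
    intro a _
    refine (norm_sum_le _ _).trans ?_
    have h3 : ∀ b ∈ range Nb, ‖∑ x ∈ KT.box N ×ˢ KT.box N, ((F a b : ℝ) : ℂ) *
        ((if al x.1 = a then A x.1 else 0) * (if al x.2 = b then A x.2 else 0) * k x.1 x.2)‖ ≤ B * D := by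
      intro b _
      rw [← Finset.mul_sum, norm_mul, Complex.norm_real, Real.norm_eq_abs, Finset.sum_product]
      refine mul_le_mul (hF a b) (hk (fun v => if al v = a then A v else 0) (fun v => if al v = b then A v else 0)
        ?_ ?_) (norm_nonneg _) hB
      · intro v
        show ‖(if al v = a then A v else 0)‖ ≤ 1
        split_ifs
        · exact hA v
        · simp
      · intro v
        show ‖(if al v = b then A v else 0)‖ ≤ 1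
        split_ifs
        · exact hA v
        · simp
    refine (Finset.sum_le_sum h3).trans (le_of_eq ?_)
    rw [Finset.sum_const, card_range, nsmul_eq_mul]
  refine (Finset.sum_le_sum h2).trans (le_of_eq ?_)
  rw [Finset.sum_const, card_range, nsmul_eq_mul]
  ring

/-- one cell, with a fixed step -/
private theorem Ker_one {q : ℕ} (hq : 1 ≤ q) {z : ℂ} (hz : z ^ q = 1) {Wh : ℝ → ℝ → ℝ} {γ : ℕ} {B L : ℝ}
    (hL : 0 ≤ L) (hW : GW Wh (2 ^ γ) B L) {n ρ i W P M : ℕ} (hM : 1 ≤ M) {R D : ℝ}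
    (hR : ∀ m : ℕ, (((pp2 (n * 2 ^ ρ) m).filter
      (fun x => (2 : ℤ) ^ ρ ≤ 2 ^ (γ + 2) * ll x.1)).card : ℝ) ≤ R)
    (hk : ∀ A B : ℤ × ℤ → ℂ, (∀ v, ‖A v‖ ≤ 1) → (∀ v, ‖B v‖ ≤ 1) →
      ‖∑ s ∈ KT.box (n * 2 ^ ρ), ∑ t ∈ KT.box (n * 2 ^ ρ), A s * B t * ((KT.ff W P (dt s t) : ℝ) : ℂ)‖ ≤ D)
    {C : (ℤ × ℤ) × (ℤ × ℤ)} (hC : C ∈ CB n (2 ^ i)) :
    ‖(∑ p ∈ PS P, Gc Wh z (n * 2 ^ ρ) (i + (ρ - γ)) C p) / ((PS P).card : ℂ) -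
        (∑ m ∈ KT.NN W P, Gc Wh z (n * 2 ^ ρ) (i + (ρ - γ)) C m) / ((KT.NN W P).card : ℂ)‖ ≤
      (2 * L / M) * (2 * R) + (((4 * M + 1 : ℕ) : ℝ) * ((2 ^ γ * M + 1 : ℕ) : ℝ) * (B * D)) := by
  classical
  have hM0 : (0 : ℝ) < M := by exact_mod_cast hM
  obtain ⟨j, hj⟩ : ∃ j, j = i + (ρ - γ) := ⟨_, rfl⟩
  rw [← hj]
  obtain ⟨N, hN⟩ : ∃ N, N = n * 2 ^ ρ := ⟨_, rfl⟩
  rw [← hN] at hR hk ⊢
  obtain ⟨hCC, -⟩ := Finset.mem_filter.1 hC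
  obtain ⟨hFr, hl1, hl2, -⟩ := mem_CC.1 hCC
  have hp1 := hFr.1.ll_pos
  have hp2 := hFr.2.1.ll_pos
  have h2j : (0 : ℝ) < 2 ^ j := by positivity
  obtain ⟨u, hu⟩ : ∃ u : ℤ × ℤ → ℝ, u = fun s => (ll (em C s) : ℝ) / 2 ^ j := ⟨_, rfl⟩
  obtain ⟨al, hal⟩ : ∃ al : ℤ × ℤ → ℕ, al = fun s => ⌊(M : ℝ) * u s⌋₊ := ⟨_, rfl⟩
  have hu0 : ∀ s ∈ KT.box N, 0 ≤ u s := by
    intro s hs
    obtain ⟨⟨⟨h1, _⟩, h2, _⟩, _⟩ := KT.mem_box.1 hs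
    rw [hu]
    refine div_nonneg ?_ h2j.le
    have : 0 ≤ ll (em C s) := by
      rw [ll_em]
      exact add_nonneg (mul_nonneg h1 hp1.le) (mul_nonneg h2 hp2.le)
    exact_mod_cast this
  have hal1 : ∀ s ∈ KT.box N, (al s : ℝ) / M ≤ u s ∧ |u s - (al s : ℝ) / M| ≤ 1 / M := by
    intro s hs
    have h1 : (al s : ℝ) ≤ M * u s := by
      rw [hal]
      exact Nat.floor_le (mul_nonneg hM0.le (hu0 s hs))
    have h2 : (M : ℝ) * u s < al s + 1 := by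
      rw [hal]
      exact Nat.lt_floor_add_one _
    have h3 : (al s : ℝ) / M ≤ u s := by
      rw [div_le_iff₀ hM0]
      linarith
    refine ⟨h3, ?_⟩
    rw [abs_of_nonneg (by linarith), sub_le_iff_le_add, ← add_div, le_div_iff₀ hM0]
    linarith
  -- the condition
  have hcond : ∀ s ∈ KT.box N, 1 / 4 ≤ u s → (2 : ℤ) ^ ρ ≤ 2 ^ (γ + 2) * ll s := by
    intro s hs h
    obtain ⟨⟨⟨h1, _⟩, h2, _⟩, _⟩ := KT.mem_box.1 hs
    rw [hu] at h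
    change 1 / 4 ≤ (ll (em C s) : ℝ) / 2 ^ j at h
    rw [le_div_iff₀ h2j] at h
    have h3 : (2 : ℤ) ^ j ≤ 4 * ll (em C s) := by
      have h4 : ((2 : ℝ) ^ j) ≤ 4 * (ll (em C s) : ℝ) := by linarith
      exact_mod_cast h4
    have h5 : ll (em C s) ≤ 2 ^ i * ll s := by
      rw [ll_em]
      have e1 : s.1 * ll C.1 ≤ s.1 * 2 ^ i := mul_le_mul_of_nonneg_left (by exact_mod_cast hl1) h1
      have e2 : s.2 * ll C.2 ≤ s.2 * 2 ^ i := mul_le_mul_of_nonneg_left (by exact_mod_cast hl2) h2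
      calc s.1 * ll C.1 + s.2 * ll C.2 ≤ s.1 * 2 ^ i + s.2 * 2 ^ i := add_le_add e1 e2
        _ = 2 ^ i * ll s := by unfold ll; ring
    have h6 : (2 : ℤ) ^ i * 2 ^ (ρ - γ) ≤ 2 ^ i * (4 * ll s) := by
      rw [← pow_add, ← hj]
      linarith
    have h7 : (2 : ℤ) ^ (ρ - γ) ≤ 4 * ll s := le_of_mul_le_mul_left h6 (by positivity)
    calc (2 : ℤ) ^ ρ ≤ 2 ^ (γ + (ρ - γ)) := pow_le_pow_right₀ (by norm_num) (by omega)
      _ = 2 ^ γ * 2 ^ (ρ - γ) := pow_add _ _ _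
      _ ≤ 2 ^ γ * (4 * ll s) := mul_le_mul_of_nonneg_left h7 (by positivity)
      _ = 2 ^ (γ + 2) * ll s := by rw [pow_add]; ring
  -- the identity
  have hid := Ker_id W P N (fun x => ((Wh (u x.1) (u x.2) : ℝ) : ℂ) * aa z (em C x.1) * aa z (em C x.2))
  have hGc : ∀ m : ℕ, Gc Wh z N j C m =
      ∑ x ∈ pp2 N m, ((Wh (u x.1) (u x.2) : ℝ) : ℂ) * aa z (em C x.1) * aa z (em C x.2) := by
    intro m
    rw [hu]
    rfl
  simp only [hGc]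
  rw [hid]
  -- splitting
  have hsplit : ∑ x ∈ KT.box N ×ˢ KT.box N, ((Wh (u x.1) (u x.2) : ℝ) : ℂ) * aa z (em C x.1) * aa z (em C x.2) *
        ((KT.ff W P (dt x.1 x.2) : ℝ) : ℂ) =
      ∑ x ∈ KT.box N ×ˢ KT.box N, (((Wh (u x.1) (u x.2) - Wh ((al x.1 : ℝ) / M) ((al x.2 : ℝ) / M)) : ℝ) : ℂ) *
        aa z (em C x.1) * aa z (em C x.2) * ((KT.ff W P (dt x.1 x.2) : ℝ) : ℂ) +
      ∑ x ∈ KT.box N ×ˢ KT.box N, ((Wh ((al x.1 : ℝ) / M) ((al x.2 : ℝ) / M) : ℝ) : ℂ) *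
        aa z (em C x.1) * aa z (em C x.2) * ((KT.ff W P (dt x.1 x.2) : ℝ) : ℂ) := by
    rw [← Finset.sum_add_distrib]
    refine Finset.sum_congr rfl fun x _ => ?_
    push_cast
    ring
  rw [hsplit]
  refine (norm_add_le _ _).trans (add_le_add ?_ ?_)
  · -- the error of the step function
    have h1 : ∀ x ∈ KT.box N ×ˢ KT.box N,
        ‖(((Wh (u x.1) (u x.2) - Wh ((al x.1 : ℝ) / M) ((al x.2 : ℝ) / M)) : ℝ) : ℂ) *
          aa z (em C x.1) * aa z (em C x.2) * ((KT.ff W P (dt x.1 x.2) : ℝ) : ℂ)‖ ≤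
        if (2 : ℤ) ^ ρ ≤ 2 ^ (γ + 2) * ll x.1 then (2 * L / M) * |KT.ff W P (dt x.1 x.2)| else 0 := by
      intro x hx
      obtain ⟨hx1, hx2⟩ := Finset.mem_product.1 hx
      rw [norm_mul, norm_mul, norm_mul, Complex.norm_real, Complex.norm_real, norm_aa hq hz, norm_aa hq hz,
        mul_one, mul_one, Real.norm_eq_abs, Real.norm_eq_abs]
      split_ifs with hc
      · refine mul_le_mul_of_nonneg_right ?_ (abs_nonneg _)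
        refine (hW.lip _ _ _ _).trans ?_
        have e1 := (hal1 x.1 hx1).2
        have e2 := (hal1 x.2 hx2).2
        calc L * (|u x.1 - (al x.1 : ℝ) / M| + |u x.2 - (al x.2 : ℝ) / M|) ≤ L * (1 / M + 1 / M) :=
              mul_le_mul_of_nonneg_left (add_le_add e1 e2) hL
          _ = 2 * L / M := by ring
      · have e1 : Wh (u x.1) (u x.2) = 0 := by
          by_contra h0
          exact hc (hcond x.1 hx1 (hW.sx _ _ h0).1)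
        have e2 : Wh ((al x.1 : ℝ) / M) ((al x.2 : ℝ) / M) = 0 := by
          by_contra h0
          exact hc (hcond x.1 hx1 ((hW.sx _ _ h0).1.trans (hal1 x.1 hx1).1))
        rw [e1, e2, sub_self, abs_zero, zero_mul]
    refine (norm_sum_le _ _).trans ((Finset.sum_le_sum h1).trans ?_)
    rw [← Finset.sum_filter, ← Finset.mul_sum]
    exact mul_le_mul_of_nonneg_left (Ker_mass W P N _ R hR) (by positivity)
  · -- the step function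
    have hF : ∀ a b : ℕ, |Wh ((a : ℝ) / M) ((b : ℝ) / M)| ≤ B := by
      intro a b
      rw [abs_of_nonneg (hW.nn _ _)]
      exact hW.le _ _
    have hFa : ∀ a b : ℕ, Wh ((a : ℝ) / M) ((b : ℝ) / M) ≠ 0 → a < 4 * M + 1 ∧ b < 2 ^ γ * M + 1 := by
      intro a b h0
      have e1 := (hW.sx _ _ h0).2
      have e2 := (hW.sy _ _ h0).2
      rw [div_le_iff₀ hM0] at e1 e2
      have e3 : a ≤ 4 * M := by exact_mod_cast e1
      have e4 : b ≤ 2 ^ γ * M := by exact_mod_cast e2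
      omega
    exact Ker_step N (4 * M + 1) (2 ^ γ * M + 1) (fun a b => Wh ((a : ℝ) / M) ((b : ℝ) / M)) B hF hFa al
      (fun v => aa z (em C v)) (fun v => (norm_aa hq hz _).le) (fun s t => ((KT.ff W P (dt s t) : ℝ) : ℂ)) D hk

theorem ker_cell {q : ℕ} (hq : 1 ≤ q) {z : ℂ} (hz : z ^ q = 1) {Wh : ℝ → ℝ → ℝ} {γ : ℕ} {B L : ℝ}
    (hB : 0 ≤ B) (hL : 0 ≤ L) (hW : GW Wh (2 ^ γ) B L) {n : ℕ} (hn : 1 ≤ n) (e : ℕ) {ε : ℝ} (hε : 0 < ε) :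
    ∃ w₀ : ℕ, ∀ w : ℕ, w₀ ≤ w → ∃ ρ₀ : ℕ, ∀ ρ : ℕ, ρ₀ ≤ ρ → ∀ i : ℕ, ∀ C ∈ CB n (2 ^ i),
      ‖(∑ p ∈ PS (PP e ρ), Gc Wh z (n * 2 ^ ρ) (i + (ρ - γ)) C p) / ((PS (PP e ρ)).card : ℂ) -
        (∑ m ∈ KT.NN (primorial w) (PP e ρ), Gc Wh z (n * 2 ^ ρ) (i + (ρ - γ)) C m) /
          ((KT.NN (primorial w) (PP e ρ)).card : ℂ)‖ ≤ ε * 4 ^ ρ := by
  classical
  obtain ⟨M', hM'⟩ := card_all n γ
  obtain ⟨M, hMd⟩ := exists_nat_ge (max 1 (8 * L * M' / ε))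
  have hM1 : (1 : ℝ) ≤ M := (le_max_left _ _).trans hMd
  have hM2 : 8 * L * M' / ε ≤ M := (le_max_right _ _).trans hMd
  have hM : 1 ≤ M := by exact_mod_cast hM1
  have hM0 : (0 : ℝ) < M := by linarith
  have hn0 : (1 : ℝ) ≤ n := by exact_mod_cast hn
  obtain ⟨T, hT⟩ : ∃ T : ℝ, T = ((4 * M + 1 : ℕ) : ℝ) * ((2 ^ γ * M + 1 : ℕ) : ℝ) * (B + 1) * (n : ℝ) ^ 2 := ⟨_, rfl⟩
  have hT0 : 0 < T := by rw [hT]; positivity
  have hK : 1 ≤ n ^ 2 * 2 ^ e := Nat.mul_pos (by positivity) (by positivity)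
  obtain ⟨w₀, hw₀⟩ := KT.kernel (n ^ 2 * 2 ^ e) hK (ε / (2 * T)) (by positivity)
  refine ⟨w₀, fun w hw => ?_⟩
  obtain ⟨N₀, hN₀⟩ := hw₀ w hw
  refine ⟨N₀, fun ρ hρ i C hC => ?_⟩
  have hN : N₀ ≤ n * 2 ^ ρ := by
    calc N₀ ≤ ρ := hρ
      _ ≤ 2 ^ ρ := (Nat.lt_two_pow_self (n := ρ)).le
      _ ≤ n * 2 ^ ρ := Nat.le_mul_of_pos_left _ hn
  have hP1 : PP e ρ ≤ (n * 2 ^ ρ) ^ 2 := by
    unfold PP
    calc 2 ^ (2 * ρ - e) ≤ 2 ^ (2 * ρ) := Nat.pow_le_pow_right (by norm_num) (by omega)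
      _ = 1 * (2 ^ ρ) ^ 2 := by rw [one_mul, ← pow_mul, mul_comm]
      _ ≤ n ^ 2 * (2 ^ ρ) ^ 2 := Nat.mul_le_mul_right _ (Nat.one_le_pow _ _ hn)
      _ = (n * 2 ^ ρ) ^ 2 := by rw [mul_pow]
  have hP2 : (n * 2 ^ ρ) ^ 2 ≤ n ^ 2 * 2 ^ e * PP e ρ := by
    unfold PP
    rw [mul_pow, ← pow_mul, mul_assoc, ← pow_add]
    refine Nat.mul_le_mul_left _ (Nat.pow_le_pow_right (by norm_num) (by omega))
  have hk := hN₀ (n * 2 ^ ρ) hN (PP e ρ) hP1 hP2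
  have hR : ∀ m : ℕ, (((pp2 (n * 2 ^ ρ) m).filter
      (fun x => (2 : ℤ) ^ ρ ≤ 2 ^ (γ + 2) * ll x.1)).card : ℝ) ≤ (M' : ℝ) * 4 ^ ρ := by
    intro m
    have h1 := hM' ρ m
    have h2 : (((pp2 (n * 2 ^ ρ) m).filter
      (fun x => (2 : ℤ) ^ ρ ≤ 2 ^ (γ + 2) * ll x.1)).card : ℝ) ≤ ((M' * 4 ^ ρ : ℕ) : ℝ) := by
      refine le_trans (le_of_eq ?_) (Nat.cast_le.2 h1)
      congr 2
    refine h2.trans (le_of_eq ?_)
    push_cast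
    ring
  refine (Ker_one hq hz hL hW hM hR hk hC).trans ?_
  have h4 : (0 : ℝ) < 4 ^ ρ := by positivity
  have e1 : 2 * L / M * (2 * ((M' : ℝ) * 4 ^ ρ)) ≤ ε / 2 * 4 ^ ρ := by
    have e2 : 8 * L * M' ≤ M * ε := by rwa [div_le_iff₀ hε] at hM2
    have e3 : 2 * L / M * (2 * (M' : ℝ)) ≤ ε / 2 := by
      rw [div_mul_eq_mul_div, div_le_iff₀ hM0]
      linarith
    calc 2 * L / M * (2 * ((M' : ℝ) * 4 ^ ρ)) = 2 * L / M * (2 * (M' : ℝ)) * 4 ^ ρ := by ring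
      _ ≤ ε / 2 * 4 ^ ρ := mul_le_mul_of_nonneg_right e3 h4.le
  have e2 : ((4 * M + 1 : ℕ) : ℝ) * ((2 ^ γ * M + 1 : ℕ) : ℝ) * (B * (ε / (2 * T) * ((n * 2 ^ ρ : ℕ) : ℝ) ^ 2)) ≤
      ε / 2 * 4 ^ ρ := by
    have e4 : ((n * 2 ^ ρ : ℕ) : ℝ) ^ 2 = (n : ℝ) ^ 2 * 4 ^ ρ := by
      push_cast
      rw [mul_pow, ← pow_mul, mul_comm ρ 2, pow_mul]
      norm_num
    have e3 : ((4 * M + 1 : ℕ) : ℝ) * ((2 ^ γ * M + 1 : ℕ) : ℝ) * B * (n : ℝ) ^ 2 ≤ T := by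
      rw [hT]
      gcongr
      linarith
    calc ((4 * M + 1 : ℕ) : ℝ) * ((2 ^ γ * M + 1 : ℕ) : ℝ) * (B * (ε / (2 * T) * ((n * 2 ^ ρ : ℕ) : ℝ) ^ 2))
        = (((4 * M + 1 : ℕ) : ℝ) * ((2 ^ γ * M + 1 : ℕ) : ℝ) * B * (n : ℝ) ^ 2) * (ε / (2 * T)) * 4 ^ ρ := by
          rw [e4]
          ring
      _ ≤ T * (ε / (2 * T)) * 4 ^ ρ := by gcongr
      _ = ε / 2 * 4 ^ ρ := by
          field_simp
  calc _ ≤ ε / 2 * 4 ^ ρ + ε / 2 * 4 ^ ρ := add_le_add e1 e2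
    _ = ε * 4 ^ ρ := by ring

theorem ker_app {q : ℕ} (hq : 1 ≤ q) {z : ℂ} (hz : z ^ q = 1) {μ : ℤ × ℤ → ℝ} (hμ : GM μ)
    {Wh : ℝ → ℝ → ℝ} {γ : ℕ} {B L : ℝ}
    (hB : 0 ≤ B) (hL : 0 ≤ L) (hW : GW Wh (2 ^ γ) B L) {n : ℕ} (hn : 1 ≤ n) (e : ℕ) {ε : ℝ} (hε : 0 < ε) :
    ∃ w₀ : ℕ, ∀ w : ℕ, w₀ ≤ w → ∃ ρ₀ : ℕ, ∀ ρ : ℕ, ρ₀ ≤ ρ → ∀ i : ℕ,
      ‖(∑ p ∈ PS (PP e ρ), TC μ Wh z n (n * 2 ^ ρ) (2 ^ i) (i + (ρ - γ)) p) / ((PS (PP e ρ)).card : ℂ) -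
        (∑ m ∈ KT.NN (primorial w) (PP e ρ), TC μ Wh z n (n * 2 ^ ρ) (2 ^ i) (i + (ρ - γ)) m) /
          ((KT.NN (primorial w) (PP e ρ)).card : ℂ)‖ ≤ ε := by
  classical
  obtain ⟨w₀, hw₀⟩ := ker_cell hq hz hB hL hW hn e (ε := ε / 4 ^ γ) (by positivity)
  refine ⟨w₀, fun w hw => ?_⟩
  obtain ⟨ρ₀, hρ₀⟩ := hw₀ w hw
  refine ⟨ρ₀, fun ρ hρ i => ?_⟩
  have hcell := hρ₀ ρ hρ i
  obtain ⟨j, hj⟩ : ∃ j, j = i + (ρ - γ) := ⟨_, rfl⟩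
  rw [← hj] at hcell ⊢
  have h1 : (∑ p ∈ PS (PP e ρ), TC μ Wh z n (n * 2 ^ ρ) (2 ^ i) j p) / ((PS (PP e ρ)).card : ℂ) -
        (∑ m ∈ KT.NN (primorial w) (PP e ρ), TC μ Wh z n (n * 2 ^ ρ) (2 ^ i) j m) /
          ((KT.NN (primorial w) (PP e ρ)).card : ℂ) =
      ∑ C ∈ CB n (2 ^ i), ((μ (C.1 + C.2) / 4 ^ j : ℝ) : ℂ) *
        ((∑ p ∈ PS (PP e ρ), Gc Wh z (n * 2 ^ ρ) j C p) / ((PS (PP e ρ)).card : ℂ) -
        (∑ m ∈ KT.NN (primorial w) (PP e ρ), Gc Wh z (n * 2 ^ ρ) j C m) /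
          ((KT.NN (primorial w) (PP e ρ)).card : ℂ)) := by
    unfold TC
    rw [Finset.sum_comm, Finset.sum_comm (s := KT.NN (primorial w) (PP e ρ)), Finset.sum_div, Finset.sum_div,
      ← Finset.sum_sub_distrib]
    refine Finset.sum_congr rfl fun C _ => ?_
    rw [← Finset.mul_sum, ← Finset.mul_sum]
    ring
  rw [h1]
  refine (norm_sum_le _ _).trans ?_
  have h2 : ∀ C ∈ CB n (2 ^ i), ‖((μ (C.1 + C.2) / 4 ^ j : ℝ) : ℂ) *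
        ((∑ p ∈ PS (PP e ρ), Gc Wh z (n * 2 ^ ρ) j C p) / ((PS (PP e ρ)).card : ℂ) -
        (∑ m ∈ KT.NN (primorial w) (PP e ρ), Gc Wh z (n * 2 ^ ρ) j C m) /
          ((KT.NN (primorial w) (PP e ρ)).card : ℂ))‖ ≤ 1 / 4 ^ j * (ε / 4 ^ γ * 4 ^ ρ) := by
    intro C hC
    obtain ⟨hCC, -⟩ := Finset.mem_filter.1 hC
    obtain ⟨hFr, -⟩ := mem_CC.1 hCC
    have hQ : Qd (C.1 + C.2) := hFr.1.add hFr.2.1
    rw [norm_mul, Complex.norm_real, Real.norm_of_nonneg (div_nonneg (hμ.nn _ hQ) (by positivity))]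
    refine mul_le_mul ?_ (hcell C hC) (norm_nonneg _) (by positivity)
    exact div_le_div_of_nonneg_right (hμ.le _ hQ) (by positivity)
  refine (Finset.sum_le_sum h2).trans ?_
  rw [Finset.sum_const, nsmul_eq_mul]
  have h3 : ((CB n (2 ^ i)).card : ℝ) ≤ 4 ^ i := by
    have e1 : (CB n (2 ^ i)).card ≤ (2 ^ i) ^ 2 := (Finset.card_filter_le _ _).trans (card_le_sq (2 ^ i))
    have e2 : ((CB n (2 ^ i)).card : ℝ) ≤ (((2 ^ i) ^ 2 : ℕ) : ℝ) := by exact_mod_cast e1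
    refine e2.trans (le_of_eq ?_)
    push_cast
    rw [← pow_mul, mul_comm i 2, pow_mul]
    norm_num
  have h4 : (4 : ℝ) ^ ρ ≤ 4 ^ γ * 4 ^ (ρ - γ) := by
    rw [← pow_add]
    exact pow_le_pow_right₀ (by norm_num) (by omega)
  calc ((CB n (2 ^ i)).card : ℝ) * (1 / 4 ^ j * (ε / 4 ^ γ * 4 ^ ρ))
      ≤ 4 ^ i * (1 / 4 ^ j * (ε / 4 ^ γ * (4 ^ γ * 4 ^ (ρ - γ)))) := by gcongr
    _ = ε := by
        rw [hj, pow_add]
        field_simp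

end Pool.Agent.Lib.MP_d57abb_nt.TA
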