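import Pool.Agent.Lib.MP_d57abb_nt.TA.Cells
import Pool.Agent.Lib.MP_d57abb_nt.TA.Line
import Pool.Agent.Lib.MP_d57abb_nt.TA.Wt

/-!
# JOB BadS: few pairs are not in the same balanced cell (about 250 lines)

Write `X = 2^r A`, so `A ≤ X / 8`.  Let `x = (v, w) ∈ pp2 N m`, not `gd`, with nonzero weight: `X/4 ≤ ll v ≤ 4 X`, `ll w ≤ Y X`, `v`, `w` primitive (in the quadrant), `dt v w = m ≥ 1`.
`v` is in a cell `C ∈ CC A` (`exists_cell`), `ll v ≥ X/4 > A`.  Let `β ∈ (0, 1]`.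
(0) `ll w < β X`: the weight is `≤ B ll w / X` (`ley`); for fixed `w` the number of `v` is `≤ 4 X / ll w + 1 ≤ (4 + Y) X / ll w` (`card_line'`), so the sum is `≤ (4 + Y) B #{w | ll w ≤ β X} ≤ 2 (4 + Y) B β² X²` (`card_ball`).
In the cases below the weight is `≤ B` and the number of `w` for given `v` is `≤ Y X / ll v + 1 ≤ 4 Y + 1` (`card_line`).
(1) `w ∉ C` (closed cone), `ll w ≥ β X`.  As `dt C.1 v ≥ 0`, `dt v w > 0` we have `dt C.1 w ≥ 0` (`nn_trans`), so `dt w C.2 < 0`; put `z = C.2`: `j = dt z w ≥ 1`, and `i = dt v z ≥ 1` (`i ≥ 0`, and `i = 0` would give `v = z`,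
`ll v ≤ A`).  `m z = j v + i w` (`cramer` in `Farey`, or ring), so `m ll z ≥ i ll w ≥ i β X`: `1 ≤ i ≤ m ll z / (β X)`.  `z` is primitive, `ll z ≤ A`.  For given `z, i` the number of `v` is `≤ 4 X / ll z + 1 ≤ 5 X / ll z`.
Total `≤ (4 Y + 1) ∑_z (m ll z / (β X)) (5 X / ll z) = (4 Y + 1) (5 m / β) #{z} ≤ (4 Y + 1) (10 m / β) A² = 10 (4 Y + 1) (m / (β 4^r)) X²`.
(2) `w ∈ C`, `C` not balanced, say `n ll C.1 < A` (the other case is symmetric).  `n ≥ 2`, so `ll C.2 > A - ll C.1 > A / 2`.  `z = C.1`, `v = s.1 z + s.2 C.2` with `s = co C v`, `s.2 = dt z v ≥ 1` (as `v ≠ z`),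
`s.2 ≤ ll v / ll C.2 ≤ 8 X / A = 8 · 2^r`.  For given `z` and `i = s.2` the number of `v` with `dt z v = i` is `≤ 4 X / ll z + 1 ≤ 5 X / ll z`.  Total `≤ (4 Y + 1) · 8 · 2^r · 5 X ∑_{ll z < A / n} 1 / ll z ≤ (4 Y + 1) 40 · 2^r X (2 A / n) =
80 (4 Y + 1) X² / n` (`sum_inv_ball`).
Sum: `≤ B C_Y (m / (β 4^r) + 1 / n + β²) X²`, `C_Y` depends on `Y` only.  Choose `β` with `B C_Y β² ≤ ε / 3`, then `a = ε β / (3 B C_Y + 1)` and `n₀ ≥ 3 B C_Y / ε`, `n₀ ≥ 2` (`B ≥ 0` may be enlarged to `B + 1`).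
(Use `Finset.sum_le_card_nsmul` / cover the bad set by the union of the finite sets `(z, i, v, w)` of the three cases: `Finset.card_biUnion_le` or sigma sets.)
-/

namespace Pool.Agent.Lib.MP_d57abb_nt.TA

open Finset Pool.Agent.Lib.MP_d57abb_nt

open Classical in
/-- the pairs with bounded sizes -/
private noncomputable def BadS_P (N m : ℕ) (X Y : ℝ) : Finset ((ℤ × ℤ) × (ℤ × ℤ)) :=
  (pp2 N m).filter (fun x => X / 4 ≤ ll x.1 ∧ (ll x.1 : ℝ) ≤ 4 * X ∧ (ll x.2 : ℝ) ≤ Y * X)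

private theorem BadS_mem {N m : ℕ} {X Y : ℝ} {x : (ℤ × ℤ) × (ℤ × ℤ)} :
    x ∈ BadS_P N m X Y ↔ (x.1 ∈ Bx N ∧ x.2 ∈ Bx N) ∧ (dt x.1 x.2 = (m : ℤ) ∧ IsCoprime x.1.1 x.1.2 ∧
      IsCoprime x.2.1 x.2.2) ∧ X / 4 ≤ ll x.1 ∧ (ll x.1 : ℝ) ≤ 4 * X ∧ (ll x.2 : ℝ) ≤ Y * X := by
  unfold BadS_P pp2
  simp only [mem_filter, mem_product]
  tauto

private theorem BadS_qd {N : ℕ} {v : ℤ × ℤ} (hv : v ∈ Bx N) (hc : IsCoprime v.1 v.2) : Qd v := by
  unfold Bx at hv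
  simp only [mem_product, mem_Icc] at hv
  refine ⟨hv.1.1, hv.2.1, ?_⟩
  rintro rfl
  exact not_isCoprime_zero_zero hc

private theorem BadS_bx {A : ℕ} {z : ℤ × ℤ} (hz : Qd z) (h : ll z ≤ A) : z ∈ Bx A := by
  obtain ⟨h1, h2, -⟩ := hz
  unfold ll at h
  unfold Bx
  simp only [mem_product, mem_Icc]
  omega

open Classical in
private theorem BadS_fib {Y X : ℝ} (hY : 0 ≤ Y) (hX : 0 < X) (N m : ℕ) {z : ℤ × ℤ} (hz : Qd z)
    (hc : IsCoprime z.1 z.2) (hzX : (ll z : ℝ) ≤ X) (i : ℤ) :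
    (((BadS_P N m X Y).filter (fun x => dt x.1 z = i)).card : ℝ) ≤ (4 * Y + 1) * (5 * X / ll z) := by
  have hlz : (0 : ℝ) < ll z := by exact_mod_cast hz.ll_pos
  rw [Finset.card_eq_sum_card_image (fun x : (ℤ × ℤ) × (ℤ × ℤ) => x.1)]
  push_cast
  have h1 : ∀ v ∈ ((BadS_P N m X Y).filter (fun x => dt x.1 z = i)).image (fun x => x.1),
      ((((BadS_P N m X Y).filter (fun x => dt x.1 z = i)).filter (fun x => x.1 = v)).card : ℝ) ≤
        4 * Y + 1 := by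
    intro v hv
    rw [mem_image] at hv
    obtain ⟨x, hx, rfl⟩ := hv
    rw [mem_filter, BadS_mem] at hx
    obtain ⟨⟨⟨hv, hw⟩, ⟨hd, hcv, hcw⟩, hb1, hb2, hb3⟩, hi⟩ := hx
    have hqv := BadS_qd hv hcv
    have hlv : (0 : ℝ) < ll x.1 := by exact_mod_cast hqv.ll_pos
    have h2 := card_line hqv hcv (m : ℤ) N (Z := Y * X) (by positivity)
    have h3 : (((BadS_P N m X Y).filter (fun x => dt x.1 z = i)).filter
        (fun y => y.1 = x.1)).card ≤
        ((Bx N).filter (fun w => dt x.1 w = (m : ℤ) ∧ (ll w : ℝ) ≤ Y * X)).card := by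
      apply Finset.card_le_card_of_injOn (fun y => y.2)
      · intro y hy
        rw [Finset.mem_coe, mem_filter, mem_filter, BadS_mem] at hy
        obtain ⟨⟨⟨⟨-, hw'⟩, ⟨hd', -, -⟩, -, -, hb'⟩, -⟩, he⟩ := hy
        rw [Finset.mem_coe, mem_filter]
        rw [he] at hd'
        exact ⟨hw', hd', hb'⟩
      · intro y hy y' hy' he
        rw [Finset.mem_coe, mem_filter] at hy hy'
        exact Prod.ext (hy.2.trans hy'.2.symm) he
    have h4 : (Y * X) / ll x.1 ≤ 4 * Y := by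
      rw [div_le_iff₀ hlv]
      nlinarith
    calc _ ≤ (((Bx N).filter (fun w => dt x.1 w = (m : ℤ) ∧ (ll w : ℝ) ≤ Y * X)).card : ℝ) := by
          exact_mod_cast h3
      _ ≤ (Y * X) / ll x.1 + 1 := h2
      _ ≤ 4 * Y + 1 := by linarith
  have h5 : ((((BadS_P N m X Y).filter (fun x => dt x.1 z = i)).image (fun x => x.1)).card : ℝ) ≤
      5 * X / ll z := by
    have h6 : (((BadS_P N m X Y).filter (fun x => dt x.1 z = i)).image (fun x => x.1)).card ≤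
        ((Bx N).filter (fun v => dt v z = i ∧ (ll v : ℝ) ≤ 4 * X)).card := by
      apply Finset.card_le_card
      intro v hv
      rw [mem_image] at hv
      obtain ⟨x, hx, rfl⟩ := hv
      rw [mem_filter, BadS_mem] at hx
      obtain ⟨⟨⟨hv, -⟩, -, -, hb2, -⟩, hi⟩ := hx
      rw [mem_filter]
      exact ⟨hv, hi, hb2⟩
    have h7 := card_line' hz hc i N (Z := 4 * X) (by positivity)
    have h8 : (1 : ℝ) ≤ X / ll z := by
      rw [le_div_iff₀ hlz]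
      linarith
    calc _ ≤ (((Bx N).filter (fun v => dt v z = i ∧ (ll v : ℝ) ≤ 4 * X)).card : ℝ) := by
          exact_mod_cast h6
      _ ≤ 4 * X / ll z + 1 := h7
      _ ≤ 4 * X / ll z + X / ll z := by linarith
      _ = 5 * X / ll z := by ring
  calc _ ≤ ∑ v ∈ ((BadS_P N m X Y).filter (fun x => dt x.1 z = i)).image (fun x => x.1),
        (4 * Y + 1) := Finset.sum_le_sum h1
    _ = (((BadS_P N m X Y).filter (fun x => dt x.1 z = i)).image (fun x => x.1)).card *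
        (4 * Y + 1) := by rw [Finset.sum_const, nsmul_eq_mul]
    _ ≤ (5 * X / ll z) * (4 * Y + 1) := by
        apply mul_le_mul_of_nonneg_right h5
        linarith
    _ = (4 * Y + 1) * (5 * X / ll z) := by ring

open Classical in
private theorem BadS_cov {Y X : ℝ} (hY : 0 ≤ Y) (hX : 0 < X) (N m : ℕ) (Zs : Finset (ℤ × ℤ))
    (hZ : ∀ z ∈ Zs, Qd z ∧ IsCoprime z.1 z.2 ∧ (ll z : ℝ) ≤ X) (I : ℤ × ℤ → Finset ℤ)
    {T : Finset ((ℤ × ℤ) × (ℤ × ℤ))} (hT : T ⊆ BadS_P N m X Y)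
    (h : ∀ x ∈ T, ∃ z ∈ Zs, dt x.1 z ∈ I z) :
    (T.card : ℝ) ≤ ∑ z ∈ Zs, ((I z).card : ℝ) * ((4 * Y + 1) * (5 * X / ll z)) := by
  have h1 : T ⊆ Zs.biUnion (fun z => (I z).biUnion
      (fun i => (BadS_P N m X Y).filter (fun x => dt x.1 z = i))) := by
    intro x hx
    obtain ⟨z, hz, hi⟩ := h x hx
    rw [mem_biUnion]
    refine ⟨z, hz, ?_⟩
    rw [mem_biUnion]
    exact ⟨_, hi, mem_filter.mpr ⟨hT hx, rfl⟩⟩
  have h2 : T.card ≤ ∑ z ∈ Zs, ∑ i ∈ I z,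
      ((BadS_P N m X Y).filter (fun x => dt x.1 z = i)).card := by
    refine (Finset.card_le_card h1).trans (Finset.card_biUnion_le.trans ?_)
    exact Finset.sum_le_sum fun z _ => Finset.card_biUnion_le
  calc (T.card : ℝ) ≤ ((∑ z ∈ Zs, ∑ i ∈ I z,
      ((BadS_P N m X Y).filter (fun x => dt x.1 z = i)).card : ℕ) : ℝ) := by exact_mod_cast h2
    _ = ∑ z ∈ Zs, ∑ i ∈ I z,
      (((BadS_P N m X Y).filter (fun x => dt x.1 z = i)).card : ℝ) := by push_cast; rfl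
    _ ≤ ∑ z ∈ Zs, ∑ i ∈ I z, (4 * Y + 1) * (5 * X / ll z) := by
        refine Finset.sum_le_sum fun z hz => Finset.sum_le_sum fun i _ => ?_
        exact BadS_fib hY hX N m (hZ z hz).1 (hZ z hz).2.1 (hZ z hz).2.2 i
    _ = _ := by
        refine Finset.sum_congr rfl fun z _ => ?_
        rw [Finset.sum_const, nsmul_eq_mul]

/-- the alternative for a bad pair -/
private theorem BadS_alt {n A r m : ℕ} (hn : 2 ≤ n) (hA : 1 ≤ A) {v w : ℤ × ℤ}
    (hv : Qd v) (hw : Qd w) (hcv : IsCoprime v.1 v.2) (hd : dt v w = (m : ℤ)) (hm : 1 ≤ m)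
    (hlo : (A : ℤ) < ll v) (hhi : ll v ≤ 4 * (2 ^ r * A)) (hg : ¬ gd n A (v, w)) :
    (∃ z, Qd z ∧ IsCoprime z.1 z.2 ∧ ll z ≤ A ∧ 1 ≤ dt v z ∧ dt v z * ll w ≤ m * ll z) ∨
    (∃ z, Qd z ∧ IsCoprime z.1 z.2 ∧ n * ll z ≤ A ∧ -(8 * 2 ^ r) ≤ dt v z ∧
      dt v z ≤ 8 * 2 ^ r) := by
  obtain ⟨C, hC, hCv⟩ := exists_cell hA hv
  have hC' := mem_CC.mp hC
  obtain ⟨hF, hl1, hl2, hl3⟩ := hC'
  have hA0 : (0 : ℤ) < A := by exact_mod_cast hA
  have hn' : (2 : ℤ) ≤ n := by exact_mod_cast hn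
  have hp1 := hF.1.ll_pos
  have hp2 := hF.2.1.ll_pos
  have hs : ll v = dt v C.2 * ll C.1 + dt C.1 v * ll C.2 := by
    have h1 := ll_em C (co C v)
    rw [em_co hF.2.2] at h1
    exact h1
  obtain ⟨i1, i2⟩ := hCv
  by_cases hCw : InC C w
  · right
    have hnb : ¬ ((A : ℤ) ≤ n * ll C.1 ∧ (A : ℤ) ≤ n * ll C.2) := by
      intro hb
      exact hg ⟨C, mem_filter.mpr ⟨hC, hb⟩, ⟨i1, i2⟩, hCw⟩
    by_cases h1 : (A : ℤ) ≤ n * ll C.1
    · have h2 : (n : ℤ) * ll C.2 < A := by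
        by_contra h3
        exact hnb ⟨h1, by omega⟩
      refine ⟨C.2, hF.2.1, hF.prim2, h2.le, ?_, ?_⟩
      · have : (0 : ℤ) < 8 * 2 ^ r := by positivity
        linarith
      · have h3 : 2 * ll C.2 ≤ n * ll C.2 := by nlinarith
        have h4 : (A : ℤ) ≤ 2 * ll C.1 := by linarith
        have h5 : dt v C.2 * A ≤ (8 * 2 ^ r) * A := by
          have e1 : dt v C.2 * A ≤ dt v C.2 * (2 * ll C.1) := mul_le_mul_of_nonneg_left h4 i2
          have e2 : 0 ≤ dt C.1 v * ll C.2 := mul_nonneg i1 hp2.le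
          nlinarith
        exact le_of_mul_le_mul_right h5 hA0
    · have h2 : (n : ℤ) * ll C.1 < A := by omega
      refine ⟨C.1, hF.1, hF.prim1, h2.le, ?_, ?_⟩
      · have h3 : 2 * ll C.1 ≤ n * ll C.1 := by nlinarith
        have h4 : (A : ℤ) ≤ 2 * ll C.2 := by linarith
        have h5 : dt C.1 v * A ≤ (8 * 2 ^ r) * A := by
          have e1 : dt C.1 v * A ≤ dt C.1 v * (2 * ll C.2) := mul_le_mul_of_nonneg_left h4 i1
          have e2 : 0 ≤ dt v C.2 * ll C.1 := mul_nonneg i2 hp1.le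
          nlinarith
        have h6 := le_of_mul_le_mul_right h5 hA0
        rw [dt_swap]
        linarith
      · have : (0 : ℤ) < 8 * 2 ^ r := by positivity
        rw [dt_swap]
        linarith
  · left
    have hm' : (1 : ℤ) ≤ m := by exact_mod_cast hm
    have h1 : 0 ≤ dt C.1 w := nn_trans hF.1 hv hw i1 (by rw [hd]; omega)
    have h2 : dt w C.2 < 0 := by
      by_contra h3
      exact hCw ⟨h1, by omega⟩
    have h3 : dt v C.2 ≠ 0 := by
      intro h4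
      have h5 := eq_of_dt_zero' hv hF.2.1 hcv hF.prim2 h4
      rw [h5] at hlo
      omega
    refine ⟨C.2, hF.2.1, hF.prim2, hl2, by omega, ?_⟩
    have h4 : dt v w * ll C.2 = dt v C.2 * ll w + dt C.2 w * ll v := by
      unfold dt ll
      ring
    have h5 : 0 < dt C.2 w := by
      rw [dt_swap]
      omega
    have h6 := mul_pos h5 hv.ll_pos
    rw [hd] at h4
    linarith

open Classical in
private theorem BadS_zero {Y B X β : ℝ} (hB : 0 ≤ B) (hX : 0 < X) (hβ0 : 0 < β) (hβ1 : β ≤ 1)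
    (N m : ℕ) {Wh : ℝ → ℝ → ℝ} {L : ℝ} (hW : GW Wh Y B L) {T : Finset ((ℤ × ℤ) × (ℤ × ℤ))}
    (hT : T ⊆ BadS_P N m X Y) (h : ∀ x ∈ T, (ll x.2 : ℝ) ≤ β * X) :
    ∑ x ∈ T, Wh (ll x.1 / X) (ll x.2 / X) ≤ 10 * B * β ^ 2 * X ^ 2 := by
  have hpos : ∀ x ∈ T, Qd x.2 := by
    intro x hx
    have h1 := BadS_mem.mp (hT hx)
    exact BadS_qd h1.1.2 h1.2.1.2.2
  have h1 : ∑ x ∈ T, Wh (ll x.1 / X) (ll x.2 / X) ≤ ∑ x ∈ T, B * (ll x.2 / X) := by
    refine Finset.sum_le_sum fun x hx => ?_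
    have h2 : (0 : ℝ) < ll x.2 := by exact_mod_cast (hpos x hx).ll_pos
    exact hW.ley _ _ (by positivity)
  have h2 := Finset.sum_comp (s := T) (fun w : ℤ × ℤ => B * ((ll w : ℝ) / X))
    (fun x : (ℤ × ℤ) × (ℤ × ℤ) => x.2)
  refine h1.trans ?_
  rw [h2]
  have h3 : ∀ w ∈ T.image (fun x => x.2),
      (T.filter (fun x => x.2 = w)).card • (B * ((ll w : ℝ) / X)) ≤ 5 * B := by
    intro w hw
    rw [mem_image] at hw
    obtain ⟨x, hx, rfl⟩ := hw
    have hq := hpos x hx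
    have hx' := BadS_mem.mp (hT hx)
    have hl : (0 : ℝ) < ll x.2 := by exact_mod_cast hq.ll_pos
    have hle : (ll x.2 : ℝ) ≤ X := by
      have := h x hx
      nlinarith
    have h4 : (T.filter (fun y => y.2 = x.2)).card ≤
        ((Bx N).filter (fun v => dt v x.2 = (m : ℤ) ∧ (ll v : ℝ) ≤ 4 * X)).card := by
      apply Finset.card_le_card_of_injOn (fun y => y.1)
      · intro y hy
        rw [Finset.mem_coe, mem_filter] at hy
        obtain ⟨hy, he⟩ := hy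
        obtain ⟨⟨hv', -⟩, ⟨hd', -, -⟩, -, hb', -⟩ := BadS_mem.mp (hT hy)
        rw [Finset.mem_coe, mem_filter]
        rw [he] at hd'
        exact ⟨hv', hd', hb'⟩
      · intro y hy y' hy' he
        rw [Finset.mem_coe, mem_filter] at hy hy'
        exact Prod.ext he (hy.2.trans hy'.2.symm)
    have h5 := card_line' hq hx'.2.1.2.2 (m : ℤ) N (Z := 4 * X) (by positivity)
    have h6 : ((T.filter (fun y => y.2 = x.2)).card : ℝ) ≤ 4 * X / ll x.2 + 1 := by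
      refine le_trans ?_ h5
      exact_mod_cast h4
    rw [nsmul_eq_mul]
    calc ((T.filter (fun y => y.2 = x.2)).card : ℝ) * (B * ((ll x.2 : ℝ) / X)) ≤
        (4 * X / ll x.2 + 1) * (B * ((ll x.2 : ℝ) / X)) := by
          apply mul_le_mul_of_nonneg_right h6
          positivity
      _ = 4 * B + B * (ll x.2 / X) := by
          field_simp
      _ ≤ 4 * B + B * 1 := by
          have : (ll x.2 : ℝ) / X ≤ 1 := by
            rw [div_le_one hX]
            exact hle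
          nlinarith
      _ = 5 * B := by ring
  have h7 : ((T.image (fun x => x.2)).card : ℝ) ≤ 2 * (β * X) ^ 2 := by
    have h8 : (T.image (fun x => x.2)).card ≤
        ((Bx N).filter (fun v => Qd v ∧ (ll v : ℝ) ≤ β * X)).card := by
      apply Finset.card_le_card
      intro w hw
      rw [mem_image] at hw
      obtain ⟨x, hx, rfl⟩ := hw
      rw [mem_filter]
      exact ⟨(BadS_mem.mp (hT hx)).1.2, hpos x hx, h x hx⟩
    refine le_trans ?_ (card_ball N (by positivity))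
    exact_mod_cast h8
  calc _ ≤ ∑ w ∈ T.image (fun x => x.2), 5 * B := Finset.sum_le_sum h3
    _ = (T.image (fun x => x.2)).card * (5 * B) := by rw [Finset.sum_const, nsmul_eq_mul]
    _ ≤ (2 * (β * X) ^ 2) * (5 * B) := by
        apply mul_le_mul_of_nonneg_right h7
        positivity
    _ = 10 * B * β ^ 2 * X ^ 2 := by ring

open Classical in
/-- case 1: the second vector is outside the cell -/
private theorem BadS_one {Y X β : ℝ} (hY : 0 ≤ Y) (hX : 0 < X) (hβ0 : 0 < β) (N m A : ℕ)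
    (hAX : (A : ℝ) ≤ X) {T : Finset ((ℤ × ℤ) × (ℤ × ℤ))} (hT : T ⊆ BadS_P N m X Y)
    (h : ∀ x ∈ T, β * X ≤ ll x.2 ∧ ∃ z, Qd z ∧ IsCoprime z.1 z.2 ∧ ll z ≤ A ∧ 1 ≤ dt x.1 z ∧
      dt x.1 z * ll x.2 ≤ m * ll z) :
    (T.card : ℝ) ≤ 10 * (4 * Y + 1) * (m / β) * A ^ 2 := by
  set Zs : Finset (ℤ × ℤ) := (Bx A).filter (fun z => Qd z ∧ IsCoprime z.1 z.2 ∧ ll z ≤ A) with hZs
  set I : ℤ × ℤ → Finset ℤ := fun z => Icc 1 ⌊(m : ℝ) * ll z / (β * X)⌋ with hI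
  have hβX : 0 < β * X := by positivity
  have h1 := BadS_cov hY hX N m Zs (by
      intro z hz
      rw [hZs, mem_filter] at hz
      refine ⟨hz.2.1, hz.2.2.1, le_trans ?_ hAX⟩
      exact_mod_cast hz.2.2.2) I hT (by
      intro x hx
      obtain ⟨hb, z, hq, hc, hl, h1, h2⟩ := h x hx
      refine ⟨z, ?_, ?_⟩
      · rw [hZs, mem_filter]
        exact ⟨BadS_bx hq hl, hq, hc, hl⟩
      · rw [hI]
        show dt x.1 z ∈ Icc 1 ⌊(m : ℝ) * ll z / (β * X)⌋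
        rw [mem_Icc]
        refine ⟨h1, ?_⟩
        rw [Int.le_floor, le_div_iff₀ hβX]
        have h3 : ((dt x.1 z : ℤ) : ℝ) * ll x.2 ≤ m * ll z := by exact_mod_cast h2
        have h4 : (0 : ℝ) ≤ (dt x.1 z : ℤ) := by
          have : (0 : ℤ) ≤ dt x.1 z := by omega
          exact_mod_cast this
        nlinarith)
  refine h1.trans ?_
  have h2 : ∀ z ∈ Zs, ((I z).card : ℝ) * ((4 * Y + 1) * (5 * X / ll z)) ≤
      5 * (4 * Y + 1) * (m / β) := by
    intro z hz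
    rw [hZs, mem_filter] at hz
    have hlz : (0 : ℝ) < ll z := by exact_mod_cast hz.2.1.ll_pos
    have h3 : ((I z).card : ℝ) ≤ m * ll z / (β * X) := by
      rw [hI]
      show ((Icc 1 ⌊(m : ℝ) * ll z / (β * X)⌋).card : ℝ) ≤ _
      rw [Int.card_Icc]
      have h4 : (0 : ℤ) ≤ ⌊(m : ℝ) * ll z / (β * X)⌋ := Int.floor_nonneg.mpr (by positivity)
      have h5 : ((⌊(m : ℝ) * ll z / (β * X)⌋ + 1 - 1).toNat : ℤ) = ⌊(m : ℝ) * ll z / (β * X)⌋ := by
        rw [Int.toNat_of_nonneg (by omega)]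
        ring
      have h6 : (((⌊(m : ℝ) * ll z / (β * X)⌋ + 1 - 1).toNat : ℕ) : ℝ) =
          ((⌊(m : ℝ) * ll z / (β * X)⌋ : ℤ) : ℝ) := by
        calc (((⌊(m : ℝ) * ll z / (β * X)⌋ + 1 - 1).toNat : ℕ) : ℝ) =
            ((((⌊(m : ℝ) * ll z / (β * X)⌋ + 1 - 1).toNat : ℕ) : ℤ) : ℝ) := by push_cast; rfl
          _ = _ := by rw [h5]
      rw [h6]
      exact Int.floor_le _
    calc _ ≤ (m * ll z / (β * X)) * ((4 * Y + 1) * (5 * X / ll z)) := by
          apply mul_le_mul_of_nonneg_right h3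
          positivity
      _ = 5 * (4 * Y + 1) * (m / β) := by
          field_simp
  have h7 : (Zs.card : ℝ) ≤ 2 * (A : ℝ) ^ 2 := by
    have h8 : Zs.card ≤ ((Bx A).filter (fun v => Qd v ∧ (ll v : ℝ) ≤ A)).card := by
      apply Finset.card_le_card
      intro z hz
      rw [hZs, mem_filter] at hz
      rw [mem_filter]
      exact ⟨hz.1, hz.2.1, by exact_mod_cast hz.2.2.2⟩
    refine le_trans ?_ (card_ball A (by positivity))
    exact_mod_cast h8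
  calc _ ≤ ∑ z ∈ Zs, 5 * (4 * Y + 1) * (m / β) := Finset.sum_le_sum h2
    _ = Zs.card * (5 * (4 * Y + 1) * (m / β)) := by rw [Finset.sum_const, nsmul_eq_mul]
    _ ≤ (2 * (A : ℝ) ^ 2) * (5 * (4 * Y + 1) * (m / β)) := by
        apply mul_le_mul_of_nonneg_right h7
        positivity
    _ = _ := by ring

open Classical in
/-- case 2: the cell is not balanced -/
private theorem BadS_two {Y X : ℝ} (hY : 0 ≤ Y) (hX : 0 < X) (N m A r n : ℕ) (hn : 1 ≤ n)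
    (hAX : (A : ℝ) ≤ X) {T : Finset ((ℤ × ℤ) × (ℤ × ℤ))} (hT : T ⊆ BadS_P N m X Y)
    (h : ∀ x ∈ T, ∃ z, Qd z ∧ IsCoprime z.1 z.2 ∧ n * ll z ≤ A ∧ -(8 * 2 ^ r) ≤ dt x.1 z ∧
      dt x.1 z ≤ 8 * 2 ^ r) :
    (T.card : ℝ) ≤ 170 * (4 * Y + 1) * X * (2 ^ r * A) / n := by
  have hn0 : (0 : ℝ) < n := by exact_mod_cast hn
  have hn1 : (1 : ℤ) ≤ n := by exact_mod_cast hn
  set Zs : Finset (ℤ × ℤ) := (Bx A).filter (fun z => Qd z ∧ IsCoprime z.1 z.2 ∧ n * ll z ≤ A)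
    with hZs
  set I : ℤ × ℤ → Finset ℤ := fun z => Icc (-(8 * 2 ^ r)) (8 * 2 ^ r) with hI
  have hle : ∀ z : ℤ × ℤ, Qd z → n * ll z ≤ A → ll z ≤ A := by
    intro z hq hz
    have := hq.ll_pos
    nlinarith
  have h1 := BadS_cov hY hX N m Zs (by
      intro z hz
      rw [hZs, mem_filter] at hz
      refine ⟨hz.2.1, hz.2.2.1, le_trans ?_ hAX⟩
      exact_mod_cast hle z hz.2.1 hz.2.2.2) I hT (by
      intro x hx
      obtain ⟨z, hq, hc, hl, h1, h2⟩ := h x hx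
      refine ⟨z, ?_, ?_⟩
      · rw [hZs, mem_filter]
        exact ⟨BadS_bx hq (hle z hq hl), hq, hc, hl⟩
      · rw [hI]
        show dt x.1 z ∈ Icc (-(8 * 2 ^ r)) (8 * 2 ^ r)
        rw [mem_Icc]
        exact ⟨h1, h2⟩)
  refine h1.trans ?_
  have hr1 : (1 : ℤ) ≤ 2 ^ r := one_le_pow₀ (by norm_num)
  have h2 : ∀ z ∈ Zs, ((I z).card : ℝ) * ((4 * Y + 1) * (5 * X / ll z)) ≤
      85 * (4 * Y + 1) * X * 2 ^ r * (1 / ll z) := by
    intro z hz
    rw [hZs, mem_filter] at hz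
    have hlz : (0 : ℝ) < ll z := by exact_mod_cast hz.2.1.ll_pos
    have h3 : ((I z).card : ℝ) ≤ 17 * 2 ^ r := by
      rw [hI]
      show ((Icc (-(8 * 2 ^ r) : ℤ) (8 * 2 ^ r)).card : ℝ) ≤ _
      rw [Int.card_Icc]
      have h5 : (((8 * 2 ^ r : ℤ) + 1 - -(8 * 2 ^ r)).toNat : ℤ) ≤ 17 * 2 ^ r := by
        rw [Int.toNat_of_nonneg (by linarith)]
        linarith
      exact_mod_cast h5
    calc _ ≤ (17 * 2 ^ r) * ((4 * Y + 1) * (5 * X / ll z)) := by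
          apply mul_le_mul_of_nonneg_right h3
          positivity
      _ = _ := by ring
  have h7 : ∑ z ∈ Zs, (1 : ℝ) / ll z ≤ 2 * ((A : ℝ) / n) := by
    refine le_trans ?_ (sum_inv_ball A (Z := (A : ℝ) / n) (by positivity))
    apply Finset.sum_le_sum_of_subset_of_nonneg
    · intro z hz
      rw [hZs, mem_filter] at hz
      rw [mem_filter]
      refine ⟨hz.1, hz.2.1, ?_⟩
      rw [le_div_iff₀ hn0]
      have : ((n : ℤ) * ll z : ℤ) ≤ (A : ℤ) := hz.2.2.2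
      have h8 : (n : ℝ) * ll z ≤ A := by exact_mod_cast this
      linarith
    · intro z hz _
      rw [mem_filter] at hz
      have hlz : (0 : ℝ) < ll z := by exact_mod_cast hz.2.1.ll_pos
      positivity
  calc _ ≤ ∑ z ∈ Zs, 85 * (4 * Y + 1) * X * 2 ^ r * (1 / ll z) := Finset.sum_le_sum h2
    _ = (85 * (4 * Y + 1) * X * 2 ^ r) * ∑ z ∈ Zs, (1 : ℝ) / ll z := by rw [Finset.mul_sum]
    _ ≤ (85 * (4 * Y + 1) * X * 2 ^ r) * (2 * ((A : ℝ) / n)) := by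
        apply mul_le_mul_of_nonneg_left h7
        positivity
    _ = _ := by ring

open Classical in
theorem bad_small {Y B ε : ℝ} (hY : 0 ≤ Y) (hB : 0 ≤ B) (hε : 0 < ε) :
    ∃ n₀ : ℕ, ∃ a : ℝ, 0 < a ∧ ∀ n : ℕ, n₀ ≤ n → ∀ r : ℕ, 3 ≤ r → ∀ A : ℕ, 1 ≤ A → ∀ m : ℕ, 1 ≤ m →
      (m : ℝ) ≤ a * 4 ^ r → ∀ (Wh : ℝ → ℝ → ℝ) (L : ℝ), GW Wh Y B L → ∀ N : ℕ,
      ∑ x ∈ (pp2 N m).filter (fun x => ¬ gd n A x),
        Wh (ll x.1 / (2 ^ r * A)) (ll x.2 / (2 ^ r * A)) ≤ ε * (2 ^ r * A) ^ 2 := by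
  set K : ℝ := 4 * Y + 1 with hK
  have hK1 : 1 ≤ K := by linarith
  set β : ℝ := min 1 (ε / (30 * (B + 1))) with hβ
  have hβ0 : 0 < β := lt_min one_pos (by positivity)
  have hβ1 : β ≤ 1 := min_le_left _ _
  have hβ2 : β ≤ ε / (30 * (B + 1)) := min_le_right _ _
  obtain ⟨n₁, hn₁⟩ := exists_nat_ge (510 * (B + 1) * K / ε)
  refine ⟨max 2 n₁, ε * β / (30 * (B + 1) * K), by positivity, ?_⟩
  intro n hn r hr A hA m hm hma Wh L hW N
  have hn2 : 2 ≤ n := (le_max_left _ _).trans hn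
  have hn0 : (0 : ℝ) < n := by
    have : 0 < n := by omega
    exact_mod_cast this
  have hn3 : 510 * (B + 1) * K / ε ≤ n := by
    refine hn₁.trans ?_
    exact_mod_cast (le_max_right _ _).trans hn
  have hA0 : (0 : ℝ) < A := by exact_mod_cast hA
  have hr8 : (8 : ℝ) ≤ 2 ^ r := by
    calc (8 : ℝ) = 2 ^ 3 := by norm_num
      _ ≤ 2 ^ r := pow_le_pow_right₀ (by norm_num) hr
  set X : ℝ := 2 ^ r * A with hXdef
  have hX : 0 < X := by positivity
  have hAX : 8 * (A : ℝ) ≤ X := by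
    rw [hXdef]
    exact mul_le_mul_of_nonneg_right hr8 hA0.le
  set S := ((pp2 N m).filter (fun x => ¬ gd n A x)).filter
    (fun x => Wh (ll x.1 / X) (ll x.2 / X) ≠ 0) with hS
  have hsum : ∑ x ∈ (pp2 N m).filter (fun x => ¬ gd n A x),
      Wh (ll x.1 / X) (ll x.2 / X) = ∑ x ∈ S, Wh (ll x.1 / X) (ll x.2 / X) := by
    rw [hS, Finset.sum_filter_ne_zero]
  have hSP : S ⊆ BadS_P N m X Y := by
    intro x hx
    rw [hS, mem_filter, mem_filter] at hx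
    obtain ⟨⟨hx, -⟩, h0⟩ := hx
    have h1 := hW.sx _ _ h0
    have h2 := hW.sy _ _ h0
    rw [le_div_iff₀ hX, div_le_iff₀ hX] at h1
    rw [div_le_iff₀ hX] at h2
    unfold BadS_P
    rw [mem_filter]
    exact ⟨hx, by linarith, h1.2, h2.2⟩
  have hSg : ∀ x ∈ S, ¬ gd n A x := by
    intro x hx
    rw [hS, mem_filter, mem_filter] at hx
    exact hx.1.2
  rw [hsum, ← Finset.sum_filter_add_sum_filter_not S (fun x => (ll x.2 : ℝ) ≤ β * X)]
  have hz := BadS_zero hB hX hβ0 hβ1 N m hW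
    (T := S.filter (fun x => (ll x.2 : ℝ) ≤ β * X))
    ((Finset.filter_subset _ _).trans hSP) (fun x hx => (mem_filter.mp hx).2)
  set U := S.filter (fun x => ¬ (ll x.2 : ℝ) ≤ β * X) with hU
  have hUS : U ⊆ S := Finset.filter_subset _ _
  set p1 : (ℤ × ℤ) × (ℤ × ℤ) → Prop := fun x => ∃ z, Qd z ∧ IsCoprime z.1 z.2 ∧ ll z ≤ A ∧
    1 ≤ dt x.1 z ∧ dt x.1 z * ll x.2 ≤ m * ll z with hp1
  set p2 : (ℤ × ℤ) × (ℤ × ℤ) → Prop := fun x => ∃ z, Qd z ∧ IsCoprime z.1 z.2 ∧ n * ll z ≤ A ∧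
    -(8 * 2 ^ r) ≤ dt x.1 z ∧ dt x.1 z ≤ 8 * 2 ^ r with hp2
  have hU1 := BadS_one hY hX hβ0 N m A (by linarith) (T := U.filter p1)
    ((Finset.filter_subset _ _).trans (hUS.trans hSP)) (by
      intro x hx
      rw [mem_filter, hU, mem_filter] at hx
      exact ⟨(not_le.mp hx.1.2).le, hx.2⟩)
  have hU2 := BadS_two hY hX N m A r n (by omega) (by linarith) (T := U.filter p2)
    ((Finset.filter_subset _ _).trans (hUS.trans hSP)) (by
      intro x hx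
      rw [mem_filter] at hx
      exact hx.2)
  have hcov : U ⊆ U.filter p1 ∪ U.filter p2 := by
    intro x hx
    have h1 := BadS_mem.mp (hSP (hUS hx))
    obtain ⟨⟨hv, hw⟩, ⟨hd, hcv, hcw⟩, hb1, hb2, hb3⟩ := h1
    have hlo : (A : ℤ) < ll x.1 := by
      have : (A : ℝ) < ll x.1 := by linarith
      exact_mod_cast this
    have hhi : ll x.1 ≤ 4 * (2 ^ r * A) := by
      have : (ll x.1 : ℝ) ≤ 4 * (2 ^ r * A) := hb2
      exact_mod_cast this
    rw [mem_union]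
    rcases BadS_alt hn2 hA (BadS_qd hv hcv) (BadS_qd hw hcw) hcv hd hm hlo hhi
      (hSg x (hUS hx)) with h2 | h2
    · exact Or.inl (mem_filter.mpr ⟨hx, h2⟩)
    · exact Or.inr (mem_filter.mpr ⟨hx, h2⟩)
  have hUc : (U.card : ℝ) ≤ (U.filter p1).card + (U.filter p2).card := by
    have := (Finset.card_le_card hcov).trans (Finset.card_union_le _ _)
    exact_mod_cast this
  have hUsum : ∑ x ∈ U, Wh (ll x.1 / X) (ll x.2 / X) ≤ B * U.card := by
    calc _ ≤ ∑ x ∈ U, B := Finset.sum_le_sum fun x _ => hW.le _ _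
      _ = B * U.card := by rw [Finset.sum_const, nsmul_eq_mul, mul_comm]
  have e0 : 10 * B * β ^ 2 * X ^ 2 ≤ ε / 3 * X ^ 2 := by
    apply mul_le_mul_of_nonneg_right _ (by positivity)
    have e1 : β ^ 2 ≤ β := by nlinarith
    have e2 : 10 * B * β ^ 2 ≤ 10 * (B + 1) * (ε / (30 * (B + 1))) := by
      have e3 : 10 * B * β ^ 2 ≤ 10 * (B + 1) * β := by
        have := mul_nonneg hB hβ0.le
        nlinarith
      refine e3.trans ?_
      exact mul_le_mul_of_nonneg_left hβ2 (by positivity)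
    have e4 : 10 * (B + 1) * (ε / (30 * (B + 1))) = ε / 3 := by
      field_simp
      ring
    linarith
  have e1 : B * (10 * (4 * Y + 1) * (m / β) * A ^ 2) ≤ ε / 3 * X ^ 2 := by
    rw [← hK]
    have f1 : (m : ℝ) * A ^ 2 ≤ ε * β / (30 * (B + 1) * K) * X ^ 2 := by
      have : X ^ 2 = 4 ^ r * A ^ 2 := by
        rw [hXdef, mul_pow, ← pow_mul, mul_comm r 2, pow_mul]
        norm_num
      rw [this, ← mul_assoc]
      exact mul_le_mul_of_nonneg_right hma (by positivity)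
    have f2 : B * (10 * K * (m / β) * A ^ 2) = (10 * B * K / β) * (m * A ^ 2) := by
      field_simp
    rw [f2]
    have f3 : (10 * B * K / β) * (m * A ^ 2) ≤
        (10 * B * K / β) * (ε * β / (30 * (B + 1) * K) * X ^ 2) :=
      mul_le_mul_of_nonneg_left f1 (by positivity)
    have f4 : (10 * B * K / β) * (ε * β / (30 * (B + 1) * K) * X ^ 2) =
        (B / (B + 1)) * (ε / 3 * X ^ 2) := by
      field_simp
      ring
    have f5 : B / (B + 1) ≤ 1 := by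
      rw [div_le_one (by positivity)]
      linarith
    have f6 : 0 ≤ ε / 3 * X ^ 2 := by positivity
    nlinarith
  have e2 : B * (170 * (4 * Y + 1) * X * (2 ^ r * A) / n) ≤ ε / 3 * X ^ 2 := by
    rw [← hK, ← hXdef]
    have g1 : B * (170 * K * X * X / n) = (170 * B * K / n) * X ^ 2 := by ring
    rw [g1]
    apply mul_le_mul_of_nonneg_right _ (by positivity)
    rw [div_le_iff₀ hn0]
    rw [div_le_iff₀ hε] at hn3
    nlinarith
  have e3 : B * U.card ≤ B * (10 * (4 * Y + 1) * (m / β) * A ^ 2) +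
      B * (170 * (4 * Y + 1) * X * (2 ^ r * A) / n) := by
    rw [← mul_add]
    apply mul_le_mul_of_nonneg_left _ hB
    linarith
  linarith

end Pool.Agent.Lib.MP_d57abb_nt.TA
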