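import Pool.Agent.Lib.MP_d57abb_nt.TA.Fb
import Pool.Agent.Lib.MP_d57abb_nt.TA.Tree
import Pool.Agent.Lib.MP_d57abb_nt.TA.Wt

/-!
# JOB TyA: rounding the shape of the cells (about 180 lines)

`A = 2^i`, `r = ρ - γ`, `j = i + r`, `N = n 2^ρ`, `θ = ty K A C`, `T = XX q (2^ρ) A C`.  Compare the terms of `GI` (exact) and `FF` (rounded) for `x = (s, t) ∈ pp2 N p`.
(1) `|ll (em C s) / 2^j - xs K r θ s| ≤ (s.1 + s.2) / (K 2^r) ≤ 2 N / (K 2^r) = 2 n 2^γ / K`: `ll (em C s) / 2^j = (s.1 ll C.1 + s.2 ll C.2) / (2^r A)` (`ll_em`) and `0 ≤ K ll C.i / A - θ.i < 1` (floor; the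
integer division is of nonnegative numbers).  So the two weights differ by at most `4 L n 2^γ / K`.
(2) If the exact weight is nonzero then `ll (em C s), ll (em C t) ≤ 2^γ 2^j = 2^ρ A` (`sx`: `≤ 4 · 2^j ≤ 2^γ 2^j` as `γ ≥ 2`; `sy`), so `zz z (look T s) = aa z (em C s)` (`look_XX`, `aa_eq`), same for `t`, and the terms differ by
at most the difference of the weights.  If the exact weight is zero, the difference is at most the rounded weight = difference of the weights.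
(3) If one of the weights is nonzero then `2^ρ ≤ 2^(γ+2) ll s`: exact: `2^j / 4 ≤ s.1 ll C.1 + s.2 ll C.2 ≤ A ll s`; rounded: `K 2^r / 4 ≤ s.1 θ.1 + s.2 θ.2 ≤ K ll s` (`θ.i ≤ K`).  Number of such
`x` with `iL p y x.1`: `≤ M` (`F_count`, `yv_lt`); all such `x`: `≤ M' 4^ρ` (`card_all`).  So `c = 4 L n 2^γ (M + M')`.
`GI_bound`, `Gc_bound`: number of nonzero terms times `B`.
-/

namespace Pool.Agent.Lib.MP_d57abb_nt.TA

open Finset Pool.Agent.Lib.MP_d57abb_nt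

open Classical in
/-- the part of `Gc` in the prime ideal -/
noncomputable def GI (Wh : ℝ → ℝ → ℝ) (z : ℂ) (N j : ℕ) (C : (ℤ × ℤ) × (ℤ × ℤ)) (p : ℕ) : ℂ :=
  ∑ x ∈ (pp2 N p).filter (fun x => iL p (yv p C) x.1),
    ((Wh (ll (em C x.1) / 2 ^ j) (ll (em C x.2) / 2 ^ j) : ℝ) : ℂ) *
    aa z (em C x.1) * aa z (em C x.2)

private theorem TyA_CB {n A : ℕ} {C : (ℤ × ℤ) × (ℤ × ℤ)} (hC : C ∈ CB n A) :
    Fr C ∧ 0 ≤ ll C.1 ∧ ll C.1 ≤ A ∧ 0 ≤ ll C.2 ∧ ll C.2 ≤ A := by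
  unfold CB CC at hC
  rw [mem_filter, mem_filter, mem_product] at hC
  obtain ⟨⟨⟨h1, h2⟩, hdt, hl1, hl2, -⟩, -⟩ := hC
  unfold Bx at h1 h2
  rw [mem_product, mem_Icc, mem_Icc] at h1 h2
  have hn1 : C.1 ≠ 0 := by
    intro h
    rw [h] at hdt
    simp [dt] at hdt
  have hn2 : C.2 ≠ 0 := by
    intro h
    rw [h] at hdt
    simp [dt] at hdt
  refine ⟨⟨⟨h1.1.1, h1.2.1, hn1⟩, ⟨h2.1.1, h2.2.1, hn2⟩, hdt⟩, ?_, hl1, ?_, hl2⟩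
  · unfold ll
    have := h1.1.1
    have := h1.2.1
    omega
  · unfold ll
    have := h2.1.1
    have := h2.2.1
    omega

private theorem TyA_pp {N : ℕ} {m : ℤ} {x : (ℤ × ℤ) × (ℤ × ℤ)} (hx : x ∈ pp2 N m) :
    (0 ≤ x.1.1 ∧ x.1.1 ≤ N ∧ 0 ≤ x.1.2 ∧ x.1.2 ≤ N ∧ IsCoprime x.1.1 x.1.2) ∧
    (0 ≤ x.2.1 ∧ x.2.1 ≤ N ∧ 0 ≤ x.2.2 ∧ x.2.2 ≤ N ∧ IsCoprime x.2.1 x.2.2) := by
  unfold pp2 at hx
  rw [mem_filter, mem_product] at hx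
  obtain ⟨⟨h1, h2⟩, -, hc1, hc2⟩ := hx
  unfold Bx at h1 h2
  rw [mem_product, mem_Icc, mem_Icc] at h1 h2
  exact ⟨⟨h1.1.1, h1.1.2, h1.2.1, h1.2.2, hc1⟩, ⟨h2.1.1, h2.1.2, h2.2.1, h2.2.2, hc2⟩⟩

/-- the rounding of one length -/
private theorem TyA_floor {K A : ℕ} (hK : 1 ≤ K) (hA : 1 ≤ A) {l : ℤ} (h0 : 0 ≤ l) (hl : l ≤ A) :
    (((K * l / A).toNat : ℕ) : ℝ) / K ≤ (l : ℝ) / A ∧
    (l : ℝ) / A ≤ (((K * l / A).toNat : ℕ) : ℝ) / K + 1 / K ∧ (((K * l / A).toNat : ℕ) : ℝ) ≤ K := by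
  have hA' : (0 : ℤ) < A := by exact_mod_cast hA
  have hAr : (0 : ℝ) < A := by exact_mod_cast hA
  have hKr : (0 : ℝ) < K := by exact_mod_cast hK
  have h1 : 0 ≤ (K : ℤ) * l / A := Int.ediv_nonneg (by positivity) hA'.le
  have h2 : (((K * l / A).toNat : ℕ) : ℤ) = (K : ℤ) * l / A := Int.toNat_of_nonneg h1
  have h3 : (((K * l / A).toNat : ℕ) : ℝ) = (((K : ℤ) * l / A : ℤ) : ℝ) := by
    rw [← h2]
    push_cast
    rfl
  rw [h3]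
  have h4 : (K : ℤ) * l / A * A ≤ K * l := Int.ediv_mul_le _ hA'.ne'
  have h5 : (K : ℤ) * l < ((K : ℤ) * l / A + 1) * A := Int.lt_ediv_add_one_mul_self _ hA'
  have h4' : (((K : ℤ) * l / A : ℤ) : ℝ) * A ≤ K * l := by exact_mod_cast h4
  have h5' : (K : ℝ) * l < ((((K : ℤ) * l / A : ℤ) : ℝ) + 1) * A := by exact_mod_cast h5
  have hl' : (l : ℝ) ≤ A := by exact_mod_cast hl
  refine ⟨?_, ?_, ?_⟩
  · rw [div_le_div_iff₀ hKr hAr]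
    linarith
  · rw [← add_div, div_le_div_iff₀ hAr hKr]
    linarith
  · by_contra hcon
    push Not at hcon
    have : (K : ℝ) * A < (((K : ℤ) * l / A : ℤ) : ℝ) * A := mul_lt_mul_of_pos_right hcon hAr
    have h6 : (K : ℝ) * l ≤ K * A := mul_le_mul_of_nonneg_left hl' hKr.le
    linarith

/-- comparison of the arguments, one vector -/
private theorem TyA_arg {n K i ρ γ : ℕ} (hK : 1 ≤ K) (hγ : γ ≤ ρ) {C : (ℤ × ℤ) × (ℤ × ℤ)}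
    (hC : C ∈ CB n (2 ^ i)) {s : ℤ × ℤ} (h1 : 0 ≤ s.1) (h1' : s.1 ≤ (n * 2 ^ ρ : ℕ)) (h2 : 0 ≤ s.2)
    (h2' : s.2 ≤ (n * 2 ^ ρ : ℕ)) :
    |(ll (em C s) : ℝ) / 2 ^ (i + (ρ - γ)) - xs K (ρ - γ) (ty K (2 ^ i) C) s| ≤
      2 * n * 2 ^ γ / K ∧
    (ll (em C s) : ℝ) ≤ 2 ^ i * ll s ∧
    xs K (ρ - γ) (ty K (2 ^ i) C) s ≤ ll s / 2 ^ (ρ - γ) := by
  obtain ⟨-, hl1, hl1', hl2, hl2'⟩ := TyA_CB hC
  have hA : 1 ≤ 2 ^ i := Nat.one_le_two_pow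
  obtain ⟨a1, a2, a3⟩ := TyA_floor hK hA hl1 hl1'
  obtain ⟨b1, b2, b3⟩ := TyA_floor hK hA hl2 hl2'
  have hKr : (0 : ℝ) < K := by exact_mod_cast hK
  have hAr : (0 : ℝ) < ((2 ^ i : ℕ) : ℝ) := by positivity
  set r := ρ - γ with hr
  have hρ : ρ = γ + r := by omega
  have hs1 : (0 : ℝ) ≤ s.1 := by exact_mod_cast h1
  have hs2 : (0 : ℝ) ≤ s.2 := by exact_mod_cast h2
  have hs1' : (s.1 : ℝ) ≤ n * 2 ^ ρ := by exact_mod_cast h1'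
  have hs2' : (s.2 : ℝ) ≤ n * 2 ^ ρ := by exact_mod_cast h2'
  have hem : (ll (em C s) : ℝ) = s.1 * ll C.1 + s.2 * ll C.2 := by
    rw [ll_em]
    push_cast
    ring
  set u1 : ℝ := (ll C.1 : ℝ) / ((2 ^ i : ℕ) : ℝ) with hu1
  set u2 : ℝ := (ll C.2 : ℝ) / ((2 ^ i : ℕ) : ℝ) with hu2
  have hX : (ll (em C s) : ℝ) / 2 ^ (i + r) = (s.1 * u1 + s.2 * u2) / 2 ^ r := by
    rw [hem, hu1, hu2, pow_add]
    push_cast
    field_simp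
  have hxs : xs K r (ty K (2 ^ i) C) s =
      (s.1 * ((((K * ll C.1 / ((2 ^ i : ℕ) : ℤ)).toNat : ℕ) : ℝ) / K) +
        s.2 * ((((K * ll C.2 / ((2 ^ i : ℕ) : ℤ)).toNat : ℕ) : ℝ) / K)) / 2 ^ r := by
    unfold xs ty
    simp only
    field_simp
  set v1 : ℝ := ((((K * ll C.1 / ((2 ^ i : ℕ) : ℤ)).toNat : ℕ) : ℝ) / K) with hv1
  set v2 : ℝ := ((((K * ll C.2 / ((2 ^ i : ℕ) : ℤ)).toNat : ℕ) : ℝ) / K) with hv2
  have h2r : (0 : ℝ) < 2 ^ r := by positivity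
  have hv1' : v1 ≤ 1 := by
    rw [hv1, div_le_one hKr]
    exact a3
  have hv2' : v2 ≤ 1 := by
    rw [hv2, div_le_one hKr]
    exact b3
  refine ⟨?_, ?_, ?_⟩
  · rw [hX, hxs, ← sub_div, abs_of_nonneg, div_le_iff₀ h2r]
    · have e1 : (s.1 : ℝ) * (u1 - v1) ≤ (n * 2 ^ ρ) * (1 / K) :=
        mul_le_mul hs1' (by linarith) (by linarith) (by positivity)
      have e2 : (s.2 : ℝ) * (u2 - v2) ≤ (n * 2 ^ ρ) * (1 / K) :=
        mul_le_mul hs2' (by linarith) (by linarith) (by positivity)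
      have e3 : 2 * (n : ℝ) * 2 ^ γ / K * 2 ^ r = 2 * ((n * 2 ^ ρ) * (1 / K)) := by
        rw [hρ, pow_add]
        ring
      rw [e3]
      linarith
    · apply div_nonneg _ h2r.le
      have e1 : 0 ≤ (s.1 : ℝ) * (u1 - v1) := mul_nonneg hs1 (by linarith)
      have e2 : 0 ≤ (s.2 : ℝ) * (u2 - v2) := mul_nonneg hs2 (by linarith)
      linarith
  · rw [hem]
    have hll : (ll s : ℝ) = s.1 + s.2 := by
      unfold ll
      push_cast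
      ring
    rw [hll]
    have c1 : (ll C.1 : ℝ) ≤ 2 ^ i := by exact_mod_cast hl1'
    have c2 : (ll C.2 : ℝ) ≤ 2 ^ i := by exact_mod_cast hl2'
    have e1 := mul_le_mul_of_nonneg_left c1 hs1
    have e2 := mul_le_mul_of_nonneg_left c2 hs2
    linarith
  · rw [hxs]
    apply div_le_div_of_nonneg_right _ h2r.le
    have hll : (ll s : ℝ) = s.1 + s.2 := by
      unfold ll
      push_cast
      ring
    rw [hll]
    have e1 := mul_le_mul_of_nonneg_left hv1' hs1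
    have e2 := mul_le_mul_of_nonneg_left hv2' hs2
    linarith

/-- size of the first vector when the exact weight is nonzero -/
private theorem TyA_size {i ρ γ : ℕ} (hγ : γ ≤ ρ) {C : (ℤ × ℤ) × (ℤ × ℤ)} {s : ℤ × ℤ}
    (h : (ll (em C s) : ℝ) ≤ 2 ^ i * ll s) (h4 : 1 / 4 ≤ (ll (em C s) : ℝ) / 2 ^ (i + (ρ - γ))) :
    (2 : ℤ) ^ ρ ≤ 2 ^ (γ + 2) * ll s := by
  rw [le_div_iff₀ (by positivity), pow_add] at h4
  have h5 : (2 : ℝ) ^ i * (2 ^ (ρ - γ) / 4) ≤ 2 ^ i * ll s := by linarith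
  have h6 : (2 : ℝ) ^ (ρ - γ) / 4 ≤ ll s := le_of_mul_le_mul_left h5 (by positivity)
  have h7 : (2 : ℝ) ^ ρ ≤ 2 ^ (γ + 2) * ll s := by
    have e : (2 : ℝ) ^ ρ = 2 ^ γ * 2 ^ (ρ - γ) := by
      rw [← pow_add]
      congr 1
      omega
    rw [e, pow_add]
    have h8 := mul_le_mul_of_nonneg_left h6 (show (0 : ℝ) ≤ 2 ^ γ * 4 by positivity)
    linarith
  exact_mod_cast h7

private theorem TyA_size' {ρ γ : ℕ} (hγ : γ ≤ ρ) {s : ℤ × ℤ} {x : ℝ}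
    (h : x ≤ (ll s : ℝ) / 2 ^ (ρ - γ)) (h4 : 1 / 4 ≤ x) :
    (2 : ℤ) ^ ρ ≤ 2 ^ (γ + 2) * ll s := by
  have h5 := h4.trans h
  rw [le_div_iff₀ (by positivity)] at h5
  have h7 : (2 : ℝ) ^ ρ ≤ 2 ^ (γ + 2) * ll s := by
    have e : (2 : ℝ) ^ ρ = 2 ^ γ * 2 ^ (ρ - γ) := by
      rw [← pow_add]
      congr 1
      omega
    rw [e, pow_add]
    have h8 := mul_le_mul_of_nonneg_left h5 (show (0 : ℝ) ≤ 2 ^ γ * 4 by positivity)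
    linarith
  exact_mod_cast h7

/-- comparison of the terms -/
private theorem TyA_term {q : ℕ} (hq : 1 ≤ q) {z : ℂ} (hz : z ^ q = 1) {Wh : ℝ → ℝ → ℝ} {B L : ℝ}
    {γ n K ρ i : ℕ} (hγ2 : 2 ≤ γ) (hL : 0 ≤ L) (hW : GW Wh (2 ^ γ) B L) (hK : 1 ≤ K) (hγ : γ ≤ ρ)
    {C : (ℤ × ℤ) × (ℤ × ℤ)} (hC : C ∈ CB n (2 ^ i)) {m : ℤ} {x : (ℤ × ℤ) × (ℤ × ℤ)}
    (hx : x ∈ pp2 (n * 2 ^ ρ) m) :
    ‖((Wh (ll (em C x.1) / 2 ^ (i + (ρ - γ))) (ll (em C x.2) / 2 ^ (i + (ρ - γ))) : ℝ) : ℂ) *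
        aa z (em C x.1) * aa z (em C x.2) -
      ((Wh (xs K (ρ - γ) (ty K (2 ^ i) C) x.1) (xs K (ρ - γ) (ty K (2 ^ i) C) x.2) : ℝ) : ℂ) *
        zz z (look (XX q (2 ^ ρ) (2 ^ i) C) x.1) * zz z (look (XX q (2 ^ ρ) (2 ^ i) C) x.2)‖ ≤
      if (2 : ℤ) ^ ρ ≤ 2 ^ (γ + 2) * ll x.1 then 4 * L * n * 2 ^ γ / K else 0 := by
  obtain ⟨hs, ht⟩ := TyA_pp hx
  obtain ⟨a1, a2, a3⟩ := TyA_arg hK hγ hC hs.1 hs.2.1 hs.2.2.1 hs.2.2.2.1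
  obtain ⟨b1, b2, b3⟩ := TyA_arg hK hγ hC ht.1 ht.2.1 ht.2.2.1 ht.2.2.2.1
  have hFr := (TyA_CB hC).1
  set X1 : ℝ := (ll (em C x.1) : ℝ) / 2 ^ (i + (ρ - γ)) with hX1
  set X2 : ℝ := (ll (em C x.2) : ℝ) / 2 ^ (i + (ρ - γ)) with hX2
  set Y1 : ℝ := xs K (ρ - γ) (ty K (2 ^ i) C) x.1 with hY1
  set Y2 : ℝ := xs K (ρ - γ) (ty K (2 ^ i) C) x.2 with hY2
  have hlip : |Wh X1 X2 - Wh Y1 Y2| ≤ 4 * L * n * 2 ^ γ / K := by
    refine (hW.lip X1 X2 Y1 Y2).trans ?_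
    have h1 := mul_le_mul_of_nonneg_left (add_le_add a1 b1) hL
    refine h1.trans (le_of_eq ?_)
    ring
  -- both weights vanish for small vectors
  have hexact : Wh X1 X2 ≠ 0 → (2 : ℤ) ^ ρ ≤ 2 ^ (γ + 2) * ll x.1 := fun h =>
    TyA_size hγ a2 (hW.sx _ _ h).1
  have hround : Wh Y1 Y2 ≠ 0 → (2 : ℤ) ^ ρ ≤ 2 ^ (γ + 2) * ll x.1 := fun h =>
    TyA_size' hγ a3 (hW.sx _ _ h).1
  have hmain : ‖((Wh X1 X2 : ℝ) : ℂ) * aa z (em C x.1) * aa z (em C x.2) -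
      ((Wh Y1 Y2 : ℝ) : ℂ) * zz z (look (XX q (2 ^ ρ) (2 ^ i) C) x.1) *
        zz z (look (XX q (2 ^ ρ) (2 ^ i) C) x.2)‖ ≤ |Wh X1 X2 - Wh Y1 Y2| := by
    by_cases h0 : Wh X1 X2 = 0
    · rw [h0]
      simp only [Complex.ofReal_zero, zero_mul, zero_sub, norm_neg, norm_mul, norm_zz hq hz,
        mul_one, abs_neg, Complex.norm_real, Real.norm_eq_abs]
      exact le_refl _
    · have hpow : (2 : ℝ) ^ (i + (ρ - γ)) * 2 ^ γ = ((2 ^ ρ * 2 ^ i : ℕ) : ℝ) := by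
        push_cast
        rw [← pow_add, ← pow_add]
        congr 1
        omega
      have hp0 : (0 : ℝ) < 2 ^ (i + (ρ - γ)) := by positivity
      have h4γ : (4 : ℝ) ≤ 2 ^ γ := by
        calc (4 : ℝ) = 2 ^ 2 := by norm_num
          _ ≤ 2 ^ γ := pow_le_pow_right₀ (by norm_num) hγ2
      have e1 : ll (em C x.1) ≤ ((2 ^ ρ * 2 ^ i : ℕ) : ℤ) := by
        have h1 := (hW.sx _ _ h0).2.trans h4γ
        rw [hX1, div_le_iff₀ hp0, mul_comm, hpow] at h1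
        exact_mod_cast h1
      have e2 : ll (em C x.2) ≤ ((2 ^ ρ * 2 ^ i : ℕ) : ℤ) := by
        have h1 := (hW.sy _ _ h0).2
        rw [hX2, div_le_iff₀ hp0, mul_comm, hpow] at h1
        exact_mod_cast h1
      rw [look_XX hFr hs.1 hs.2.2.1 hs.2.2.2.2 e1, look_XX hFr ht.1 ht.2.2.1 ht.2.2.2.2 e2,
        ← aa_eq hq hz, ← aa_eq hq hz, ← sub_mul, ← sub_mul, norm_mul, norm_mul, norm_aa hq hz,
        norm_aa hq hz, mul_one, mul_one, ← Complex.ofReal_sub, Complex.norm_real, Real.norm_eq_abs]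
  split_ifs with hif
  · exact hmain.trans hlip
  · have h1 : Wh X1 X2 = 0 := by
      by_contra h
      exact hif (hexact h)
    have h2 : Wh Y1 Y2 = 0 := by
      by_contra h
      exact hif (hround h)
    refine hmain.trans ?_
    rw [h1, h2]
    simp

private theorem TyA_sum {α : Type} (S : Finset α) (P : α → Prop) [DecidablePred P] (f g : α → ℂ) {δ M : ℝ} (hδ : 0 ≤ δ)
    (h : ∀ x ∈ S, ‖f x - g x‖ ≤ if P x then δ else 0) (hM : ((S.filter P).card : ℝ) ≤ M) :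
    ‖∑ x ∈ S, f x - ∑ x ∈ S, g x‖ ≤ M * δ := by
  rw [← Finset.sum_sub_distrib]
  refine (norm_sum_le _ _).trans ((Finset.sum_le_sum h).trans ?_)
  rw [← Finset.sum_filter, Finset.sum_const, nsmul_eq_mul]
  exact mul_le_mul_of_nonneg_right hM hδ

theorem ty_approx {q : ℕ} (hq : 1 ≤ q) {z : ℂ} (hz : z ^ q = 1) {Wh : ℝ → ℝ → ℝ} {B L : ℝ} (γ n e : ℕ)
    (hγ : 2 ≤ γ) (hL : 0 ≤ L) (hW : GW Wh (2 ^ γ) B L) :
    ∃ c : ℝ, 0 ≤ c ∧ ∀ K : ℕ, 1 ≤ K → ∀ ρ i : ℕ, γ ≤ ρ → e + 1 ≤ 2 * ρ → ∀ p ∈ PS (PP e ρ),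
      ∀ C ∈ CB n (2 ^ i),
      ‖GI Wh z (n * 2 ^ ρ) (i + (ρ - γ)) C p -
        FF Wh z (n * 2 ^ ρ) K (ρ - γ) p (XX q (2 ^ ρ) (2 ^ i) C) (ty K (2 ^ i) C) (yv p C)‖ ≤ c / K ∧
      ‖Gc Wh z (n * 2 ^ ρ) (i + (ρ - γ)) C p - (p + 1) *
        FM Wh z (n * 2 ^ ρ) K (ρ - γ) p (XX q (2 ^ ρ) (2 ^ i) C) (ty K (2 ^ i) C)‖ ≤ c / K * 4 ^ ρ := by
  obtain ⟨M, hM⟩ := F_count n e γ
  obtain ⟨M', hM'⟩ := card_all n γ
  refine ⟨4 * L * n * 2 ^ γ * (M + M'), by positivity, ?_⟩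
  intro K hK ρ i hρ he p hp C hC
  classical
  have hSP : SP p := by
    unfold PS at hp
    exact (mem_filter.1 hp).2
  have hδ : 0 ≤ 4 * L * n * 2 ^ γ / K := by positivity
  constructor
  · unfold GI FF
    refine (TyA_sum _ (fun x => (2 : ℤ) ^ ρ ≤ 2 ^ (γ + 2) * ll x.1) _ _ (M := M) hδ ?_ ?_).trans ?_
    · intro x hx
      exact TyA_term (K := K) hq hz hγ hL hW hK hρ hC (mem_filter.1 hx).1
    · rw [Finset.filter_filter]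
      exact_mod_cast hM ρ he p hp (yv p C) (yv_lt hSP C)
    · have h2 : (4 * L * n * 2 ^ γ * ((M : ℝ) + M')) / K =
          (M + M') * (4 * L * n * 2 ^ γ / K) := by ring
      rw [h2]
      exact mul_le_mul_of_nonneg_right (by linarith [(Nat.cast_nonneg M' : (0 : ℝ) ≤ M')]) hδ
  · unfold Gc FM
    have hp1 : ((p : ℂ) + 1) ≠ 0 := by exact_mod_cast Nat.succ_ne_zero p
    rw [mul_div_cancel₀ _ hp1]
    refine (TyA_sum _ (fun x => (2 : ℤ) ^ ρ ≤ 2 ^ (γ + 2) * ll x.1) _ _ (M := M' * 4 ^ ρ)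
      hδ ?_ ?_).trans ?_
    · intro x hx
      exact TyA_term (K := K) hq hz hγ hL hW hK hρ hC hx
    · exact_mod_cast hM' ρ p
    · have h2 : (4 * L * n * 2 ^ γ * ((M : ℝ) + M')) / K * 4 ^ ρ =
          (M + M') * 4 ^ ρ * (4 * L * n * 2 ^ γ / K) := by ring
      rw [h2]
      apply mul_le_mul_of_nonneg_right _ hδ
      apply mul_le_mul_of_nonneg_right _ (by positivity)
      linarith [(Nat.cast_nonneg M : (0 : ℝ) ≤ M)]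

open Classical in
theorem GI_bound {q : ℕ} (hq : 1 ≤ q) {z : ℂ} (hz : z ^ q = 1) {Wh : ℝ → ℝ → ℝ} {B L : ℝ} (γ n e : ℕ)
    (hB : 0 ≤ B) (hW : GW Wh (2 ^ γ) B L) :
    ∃ c : ℝ, 0 ≤ c ∧ ∀ ρ i : ℕ, γ ≤ ρ → e + 1 ≤ 2 * ρ →
      (∀ p ∈ PS (PP e ρ), ∀ C ∈ CB n (2 ^ i),
        ∑ x ∈ (pp2 (n * 2 ^ ρ) p).filter (fun x => iL p (yv p C) x.1),
          Wh (ll (em C x.1) / 2 ^ (i + (ρ - γ))) (ll (em C x.2) / 2 ^ (i + (ρ - γ))) ≤ c) ∧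
      (∀ m : ℕ, ∀ C ∈ CB n (2 ^ i), ‖Gc Wh z (n * 2 ^ ρ) (i + (ρ - γ)) C m‖ ≤ c * 4 ^ ρ) := by
  obtain ⟨M, hM⟩ := F_count n e γ
  obtain ⟨M', hM'⟩ := card_all n γ
  refine ⟨(M + M') * B, by positivity, ?_⟩
  intro ρ i hρ he
  have hterm : ∀ (m : ℤ), ∀ C ∈ CB n (2 ^ i), ∀ x ∈ pp2 (n * 2 ^ ρ) m,
      Wh (ll (em C x.1) / 2 ^ (i + (ρ - γ))) (ll (em C x.2) / 2 ^ (i + (ρ - γ))) ≤
        if (2 : ℤ) ^ ρ ≤ 2 ^ (γ + 2) * ll x.1 then B else 0 := by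
    intro m C hC x hx
    obtain ⟨hs, ht⟩ := TyA_pp hx
    obtain ⟨-, a2, -⟩ := TyA_arg (K := 1) le_rfl hρ hC hs.1 hs.2.1 hs.2.2.1 hs.2.2.2.1
    split_ifs with hif
    · exact hW.le _ _
    · by_contra hcon
      push Not at hcon
      exact hif (TyA_size hρ a2 (hW.sx _ _ hcon.ne').1)
  constructor
  · intro p hp C hC
    have hSP : SP p := by
      unfold PS at hp
      exact (mem_filter.1 hp).2
    refine (Finset.sum_le_sum (fun x hx => hterm p C hC x (mem_filter.1 hx).1)).trans ?_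
    rw [← Finset.sum_filter, Finset.sum_const, nsmul_eq_mul, Finset.filter_filter]
    apply mul_le_mul_of_nonneg_right _ hB
    have h1 := hM ρ he p hp (yv p C) (yv_lt hSP C)
    have h2 : (((pp2 (n * 2 ^ ρ) p).filter
      (fun x => iL p (yv p C) x.1 ∧ (2 : ℤ) ^ ρ ≤ 2 ^ (γ + 2) * ll x.1)).card : ℝ) ≤ M := by
      exact_mod_cast h1
    linarith [(Nat.cast_nonneg M' : (0 : ℝ) ≤ M')]
  · intro m C hC
    unfold Gc
    have h1 : ∀ x ∈ pp2 (n * 2 ^ ρ) m,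
        ‖((Wh (ll (em C x.1) / 2 ^ (i + (ρ - γ))) (ll (em C x.2) / 2 ^ (i + (ρ - γ))) : ℝ) : ℂ) *
          aa z (em C x.1) * aa z (em C x.2)‖ ≤
        if (2 : ℤ) ^ ρ ≤ 2 ^ (γ + 2) * ll x.1 then B else 0 := by
      intro x hx
      rw [norm_mul, norm_mul, norm_aa hq hz, norm_aa hq hz, mul_one, mul_one, Complex.norm_real,
        Real.norm_eq_abs, abs_of_nonneg (hW.nn _ _)]
      exact hterm m C hC x hx
    refine (norm_sum_le _ _).trans ((Finset.sum_le_sum h1).trans ?_)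
    rw [← Finset.sum_filter, Finset.sum_const, nsmul_eq_mul]
    have h2 : (((pp2 (n * 2 ^ ρ) m).filter
      (fun x => (2 : ℤ) ^ ρ ≤ 2 ^ (γ + 2) * ll x.1)).card : ℝ) ≤ M' * 4 ^ ρ := by
      exact_mod_cast hM' ρ m
    have h3 : ((M : ℝ) + M') * B * 4 ^ ρ = (M + M') * 4 ^ ρ * B := by ring
    rw [h3]
    apply mul_le_mul_of_nonneg_right _ hB
    refine h2.trans ?_
    apply mul_le_mul_of_nonneg_right _ (by positivity)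
    linarith [(Nat.cast_nonneg M : (0 : ℝ) ≤ M)]

end Pool.Agent.Lib.MP_d57abb_nt.TA
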