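import Pool.Agent.Lib.MP_d57abb_nt.TA.CellSum
import Pool.Agent.Lib.MP_d57abb_nt.TA.BadS
import Pool.Agent.Lib.MP_d57abb_nt.TA.TyA
import Pool.Agent.Lib.MP_d57abb_nt.TA.Cnt
import Pool.Agent.Lib.MP_d57abb_nt.TA.Defs3

/-!
# JOB MCell: the total over the balanced cells and the sum over all primitive pairs of determinant `m` (about 180 lines)

`r = ρ - γ`, `A = 2^i`, `j = i + r`, `2^r A = 2^j`, `N = n 2^ρ`, `1 ≤ m ≤ PP e ρ ≤ 4^ρ / 2^e`.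
(1) `Bm m = ∑_{x ∈ pp2 (2^(γ+j)) m} (μ x.1 Wh (ll x.1 / 2^j) (ll x.2 / 2^j) / 4^j) aa aa = ∑_{gd} + ∑_{not gd}`; `0 ≤ μ ≤ 1` on the quadrant (`GM`; vectors of a pair of determinant `m ≥ 1` of the box are in the quadrant), so by `bad_small` (`Y = 2^γ`, with `ε / 2`) the second sum is `≤ ε / 2`
in absolute value, when `n ≥ n₀` and `m ≤ a 4^r`, true if `2^(-e) ≤ a 4^(-γ)`, i.e. `e ≥ e₀`, `ρ ≥ γ + 3`.
(2) `cell_sum` with `M = 2^(γ+j) = 2^ρ A` and `f x = (μ x.1 Wh .. / 4^j) aa aa` on pairs of the quadrant (put `f x = 0` if `x.1` is not in the quadrant, or just use the formula): `f x ≠ 0` gives `1/4 ≤ ll x.1 / 2^j ≤ 4` (`sx`), so `ll x.1 ≥ 2^j / 4 > A` (`ρ ≥ γ + 3`) and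
`ll x.1 ≤ 4 · 2^j ≤ 2^γ 2^j` (`γ ≥ 2`), `ll x.2 ≤ 2^γ 2^j` (`sy`).  So `∑_{gd} = ∑_{C ∈ CB} ∑_{x ∈ pp2 N m} (μ (em C x.1) Wh (..) (..) / 4^j) aa (em C x.1) aa (em C x.2)`.
(3) Replace `μ (em C x.1)` by `μ (C.1 + C.2)`: `|..| ≤ c_n / A` (`GM.sv` with `n ≥ 1`; `Qd_em`, `InC_em`: `x.1` has nonnegative coordinates and is not `0`).  Error `≤ (c_n / A) (1 / 4^j) ∑_{C ∈ CB} ∑_{x ∈ pp2 N m} Wh (..) (..) ≤ (c_n / A) (1 / 4^j) 4^i c 4^ρ ≤ c_n c 4^γ / A → 0` (`GI_bound` second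
part with `q = 1`, `z = 1`: the norm of `Gc Wh 1` is the sum of the weights; `card_le_sq`, `CB ⊆ CC`; this needs `e + 1 ≤ 2 ρ`).
-/

namespace Pool.Agent.Lib.MP_d57abb_nt.TA

open Finset Pool.Agent.Lib.MP_d57abb_nt

private theorem MCell_Qd {v w : ℤ × ℤ} {m : ℤ} (h1 : 0 ≤ v.1) (h2 : 0 ≤ v.2) (hd : dt v w = m)
    (hm : m ≠ 0) : Qd v := by
  refine ⟨h1, h2, ?_⟩
  rintro rfl
  apply hm
  rw [← hd]
  unfold dt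
  simp

private theorem MCell_mem {N : ℕ} {m : ℤ} {x : (ℤ × ℤ) × (ℤ × ℤ)} (hx : x ∈ pp2 N m) (hm : m ≠ 0) :
    Qd x.1 ∧ Qd x.2 := by
  unfold pp2 Bx at hx
  simp only [mem_filter, mem_product, mem_Icc] at hx
  obtain ⟨⟨⟨⟨a1, -⟩, a2, -⟩, ⟨a3, -⟩, a4, -⟩, hd, c1, c2⟩ := hx
  refine ⟨MCell_Qd a1 a2 hd hm, a3, a4, ?_⟩
  intro h0
  rw [h0] at c2
  have h1 : IsCoprime (0 : ℤ) 0 := c2
  rw [isCoprime_zero_left] at h1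
  exact absurd h1 (by decide)

private theorem MCell_norm {q : ℕ} (hq : 1 ≤ q) {z : ℂ} (hz : z ^ q = 1) (a b : ℝ) (hb : 0 ≤ b)
    (hab : |a| ≤ b) (v w : ℤ × ℤ) : ‖((a : ℝ) : ℂ) * aa z v * aa z w‖ ≤ b := by
  rw [norm_mul, norm_mul, norm_aa hq hz, norm_aa hq hz, mul_one, mul_one, Complex.norm_real]
  exact hab

open Classical in
/-- the sum over the bad pairs -/
private theorem MCell_bad {q : ℕ} (hq : 1 ≤ q) {z : ℂ} (hz : z ^ q = 1) {μ : ℤ × ℤ → ℝ} (hμ : GM μ)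
    {Wh : ℝ → ℝ → ℝ} {Y B L : ℝ} (hW : GW Wh Y B L) {j n A N m : ℕ} (hm : 1 ≤ m) {δ X : ℝ}
    (hX : X = 2 ^ j)
    (hbad : ∑ x ∈ (pp2 N m).filter (fun x => ¬ gd n A x), Wh (ll x.1 / X) (ll x.2 / X) ≤ δ * X ^ 2) :
    ‖∑ x ∈ (pp2 N m).filter (fun x => ¬ gd n A x),
      ((μ x.1 * Wh (ll x.1 / 2 ^ j) (ll x.2 / 2 ^ j) / 4 ^ j : ℝ) : ℂ) * aa z x.1 * aa z x.2‖ ≤ δ := by
  have h4 : (0 : ℝ) < 4 ^ j := by positivity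
  have hX2 : X ^ 2 = 4 ^ j := by
    rw [hX, ← pow_mul, mul_comm j 2, pow_mul]
    norm_num
  rw [hX] at hbad
  rw [← hX, hX2, hX] at hbad
  calc ‖∑ x ∈ (pp2 N m).filter (fun x => ¬ gd n A x),
      ((μ x.1 * Wh (ll x.1 / 2 ^ j) (ll x.2 / 2 ^ j) / 4 ^ j : ℝ) : ℂ) * aa z x.1 * aa z x.2‖
      ≤ ∑ x ∈ (pp2 N m).filter (fun x => ¬ gd n A x),
        Wh (ll x.1 / 2 ^ j) (ll x.2 / 2 ^ j) / 4 ^ j := by
        refine norm_sum_le_of_le _ fun x hx => ?_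
        have hx1 := (mem_filter.1 hx).1
        have hQ := (MCell_mem hx1 (by exact_mod_cast (by omega : m ≠ 0))).1
        have hWn := hW.nn (ll x.1 / 2 ^ j) (ll x.2 / 2 ^ j)
        have hb : 0 ≤ Wh (ll x.1 / 2 ^ j) (ll x.2 / 2 ^ j) / 4 ^ j := by positivity
        refine MCell_norm hq hz _ _ hb ?_ _ _
        rw [abs_of_nonneg (div_nonneg (mul_nonneg (hμ.nn _ hQ) hWn) h4.le)]
        refine div_le_div_of_nonneg_right ?_ h4.le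
        exact mul_le_of_le_one_left hWn (hμ.le _ hQ)
    _ = (∑ x ∈ (pp2 N m).filter (fun x => ¬ gd n A x),
        Wh (ll x.1 / 2 ^ j) (ll x.2 / 2 ^ j)) / 4 ^ j := by rw [Finset.sum_div]
    _ ≤ δ * 4 ^ j / 4 ^ j := div_le_div_of_nonneg_right hbad h4.le
    _ = δ := by field_simp

/-- the norm of the trivial sum -/
private theorem MCell_Gc {Wh : ℝ → ℝ → ℝ} {Y B L : ℝ} (hW : GW Wh Y B L) (N j m : ℕ)
    (C : (ℤ × ℤ) × (ℤ × ℤ)) : ‖Gc Wh 1 N j C m‖ =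
      ∑ x ∈ pp2 N m, Wh (ll (em C x.1) / 2 ^ j) (ll (em C x.2) / 2 ^ j) := by
  have h1 : Gc Wh 1 N j C m =
      ((∑ x ∈ pp2 N m, Wh (ll (em C x.1) / 2 ^ j) (ll (em C x.2) / 2 ^ j) : ℝ) : ℂ) := by
    unfold Gc
    rw [Complex.ofReal_sum]
    refine sum_congr rfl fun x _ => ?_
    unfold aa
    rw [one_pow, one_pow, mul_one, mul_one]
  rw [h1, Complex.norm_real, Real.norm_of_nonneg]
  exact sum_nonneg fun x _ => hW.nn _ _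

/-- replacing the multiplier by its value at the centre of the cell -/
private theorem MCell_rep {q : ℕ} (hq : 1 ≤ q) {z : ℂ} (hz : z ^ q = 1) {μ : ℤ × ℤ → ℝ}
    {Wh : ℝ → ℝ → ℝ} {Y B L : ℝ} (hW : GW Wh Y B L) {j n A N m : ℕ} (hm : 1 ≤ m) {cn S : ℝ}
    (hcn : 0 ≤ cn)
    (hsv : ∀ C ∈ CB n A, ∀ v, Qd v → InC C v → |μ v - μ (C.1 + C.2)| ≤ cn)
    (hS : ∀ C ∈ CB n A, ‖Gc Wh 1 N j C m‖ ≤ S) :
    ‖TC μ Wh z n N A j m - ∑ C ∈ CB n A, ∑ x ∈ pp2 N m,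
      ((μ (em C x.1) * Wh (ll (em C x.1) / 2 ^ j) (ll (em C x.2) / 2 ^ j) / 4 ^ j : ℝ) : ℂ) *
        aa z (em C x.1) * aa z (em C x.2)‖ ≤ (CB n A).card * (cn * S / 4 ^ j) := by
  have h4 : (0 : ℝ) < 4 ^ j := by positivity
  have e1 : TC μ Wh z n N A j m - ∑ C ∈ CB n A, ∑ x ∈ pp2 N m,
      ((μ (em C x.1) * Wh (ll (em C x.1) / 2 ^ j) (ll (em C x.2) / 2 ^ j) / 4 ^ j : ℝ) : ℂ) *
        aa z (em C x.1) * aa z (em C x.2) = ∑ C ∈ CB n A, ∑ x ∈ pp2 N m,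
      (((μ (C.1 + C.2) - μ (em C x.1)) * Wh (ll (em C x.1) / 2 ^ j) (ll (em C x.2) / 2 ^ j) / 4 ^ j :
        ℝ) : ℂ) * aa z (em C x.1) * aa z (em C x.2) := by
    unfold TC Gc
    rw [← Finset.sum_sub_distrib]
    refine sum_congr rfl fun C _ => ?_
    rw [Finset.mul_sum, ← Finset.sum_sub_distrib]
    refine sum_congr rfl fun x _ => ?_
    push_cast
    ring
  rw [e1]
  have key : ∀ C ∈ CB n A, ‖∑ x ∈ pp2 N m,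
      (((μ (C.1 + C.2) - μ (em C x.1)) * Wh (ll (em C x.1) / 2 ^ j) (ll (em C x.2) / 2 ^ j) / 4 ^ j :
        ℝ) : ℂ) * aa z (em C x.1) * aa z (em C x.2)‖ ≤ cn * S / 4 ^ j := by
    intro C hC
    have hC1 := (mem_filter.1 hC).1
    obtain ⟨hF, -, -, -⟩ := mem_CC.1 hC1
    have h1 : ‖∑ x ∈ pp2 N m,
        (((μ (C.1 + C.2) - μ (em C x.1)) * Wh (ll (em C x.1) / 2 ^ j) (ll (em C x.2) / 2 ^ j) / 4 ^ j :
          ℝ) : ℂ) * aa z (em C x.1) * aa z (em C x.2)‖ ≤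
        ∑ x ∈ pp2 N m, cn * Wh (ll (em C x.1) / 2 ^ j) (ll (em C x.2) / 2 ^ j) / 4 ^ j := by
      refine norm_sum_le_of_le _ fun x hx => ?_
      obtain ⟨hQ1, -⟩ := MCell_mem hx (by exact_mod_cast (by omega : m ≠ 0))
      have hWn := hW.nn (ll (em C x.1) / 2 ^ j) (ll (em C x.2) / 2 ^ j)
      have hb : 0 ≤ cn * Wh (ll (em C x.1) / 2 ^ j) (ll (em C x.2) / 2 ^ j) / 4 ^ j := by positivity
      refine MCell_norm hq hz _ _ hb ?_ _ _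
      rw [abs_div, abs_mul, abs_of_nonneg hWn, abs_of_pos h4]
      refine div_le_div_of_nonneg_right ?_ h4.le
      refine mul_le_mul_of_nonneg_right ?_ hWn
      rw [abs_sub_comm]
      exact hsv C hC _ (Qd_em hF hQ1.1 hQ1.2.1 hQ1.2.2) (InC_em hF.2.2 hQ1.1 hQ1.2.1)
    have h2 : ∑ x ∈ pp2 N m, cn * Wh (ll (em C x.1) / 2 ^ j) (ll (em C x.2) / 2 ^ j) / 4 ^ j =
        cn * ‖Gc Wh 1 N j C m‖ / 4 ^ j := by
      rw [MCell_Gc hW, Finset.mul_sum, Finset.sum_div]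
    rw [h2] at h1
    refine h1.trans (div_le_div_of_nonneg_right ?_ h4.le)
    exact mul_le_mul_of_nonneg_left (hS C hC) hcn
  calc ‖∑ C ∈ CB n A, ∑ x ∈ pp2 N m,
      (((μ (C.1 + C.2) - μ (em C x.1)) * Wh (ll (em C x.1) / 2 ^ j) (ll (em C x.2) / 2 ^ j) / 4 ^ j :
        ℝ) : ℂ) * aa z (em C x.1) * aa z (em C x.2)‖ ≤ ∑ _C ∈ CB n A, cn * S / 4 ^ j :=
        norm_sum_le_of_le _ key
    _ = (CB n A).card * (cn * S / 4 ^ j) := by rw [sum_const, nsmul_eq_mul]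

private theorem MCell_supp {Wh : ℝ → ℝ → ℝ} {γ ρ i : ℕ} {B L : ℝ} (hγ : 2 ≤ γ) (hρ : γ + 3 ≤ ρ)
    (hW : GW Wh (2 ^ γ) B L) (v w : ℤ × ℤ)
    (h : Wh (ll v / 2 ^ (i + (ρ - γ))) (ll w / 2 ^ (i + (ρ - γ))) ≠ 0) :
    ((2 ^ i : ℕ) : ℤ) < ll v ∧ ll v ≤ 2 ^ ρ * ((2 ^ i : ℕ) : ℤ) ∧ ll w ≤ 2 ^ ρ * ((2 ^ i : ℕ) : ℤ) := by
  have hj : (0 : ℝ) < 2 ^ (i + (ρ - γ)) := by positivity
  obtain ⟨h1, h2⟩ := hW.sx _ _ h
  obtain ⟨-, h3⟩ := hW.sy _ _ h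
  rw [le_div_iff₀ hj] at h1
  rw [div_le_iff₀ hj] at h2 h3
  obtain ⟨r, hr⟩ : ∃ r, ρ = γ + 3 + r := ⟨ρ - (γ + 3), by omega⟩
  have e1 : i + (ρ - γ) = i + 3 + r := by omega
  have e2 : (2 : ℝ) ^ (i + (ρ - γ)) = 8 * 2 ^ i * 2 ^ r := by
    rw [e1, pow_add, pow_add]
    ring
  have e3 : (2 : ℝ) ^ ρ = 8 * 2 ^ γ * 2 ^ r := by
    rw [hr, pow_add, pow_add]
    ring
  rw [e2] at h1 h2 h3
  have hi : (0 : ℝ) < 2 ^ i := by positivity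
  have hr1 : (1 : ℝ) ≤ 2 ^ r := one_le_pow₀ (by norm_num)
  have hg : (4 : ℝ) ≤ 2 ^ γ := by
    have : (2 : ℝ) ^ 2 ≤ 2 ^ γ := pow_le_pow_right₀ (by norm_num) hγ
    linarith
  refine ⟨?_, ?_, ?_⟩
  · have h5 : (2 : ℝ) ^ i < ll v := by nlinarith
    exact_mod_cast h5
  · have h5 : (ll v : ℝ) ≤ 2 ^ ρ * 2 ^ i := by
      rw [e3]
      have : 4 * (8 * 2 ^ i * 2 ^ r) ≤ 2 ^ γ * (8 * (2 : ℝ) ^ i * 2 ^ r) :=
        mul_le_mul_of_nonneg_right hg (by positivity)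
      linarith
    exact_mod_cast h5
  · have h5 : (ll w : ℝ) ≤ 2 ^ ρ * 2 ^ i := by
      rw [e3]
      linarith
    exact_mod_cast h5

theorem model_cells {q : ℕ} (hq : 1 ≤ q) {z : ℂ} (hz : z ^ q = 1) {μ : ℤ × ℤ → ℝ} (hμ : GM μ)
    {Wh : ℝ → ℝ → ℝ} {γ : ℕ} {B L : ℝ} (hγ : 2 ≤ γ) (hB : 0 ≤ B) (hL : 0 ≤ L) (hW : GW Wh (2 ^ γ) B L)
    {ε : ℝ} (hε : 0 < ε) :
    ∃ n₀ e₀ : ℕ, ∀ n : ℕ, n₀ ≤ n → ∀ e : ℕ, e₀ ≤ e → ∃ ρ₀ : ℕ, ∀ ρ : ℕ, ρ₀ ≤ ρ →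
      ∃ i₀ : ℕ, ∀ i : ℕ, i₀ ≤ i → ∀ m : ℕ, 1 ≤ m → m ≤ PP e ρ →
      ‖TC μ Wh z n (n * 2 ^ ρ) (2 ^ i) (i + (ρ - γ)) m - Bm μ Wh z γ (i + (ρ - γ)) m‖ ≤ ε := by
  classical
  have h2γ : (0 : ℝ) ≤ 2 ^ γ := by positivity
  obtain ⟨n₁, a, ha, hbad⟩ := bad_small h2γ hB (half_pos hε)
  obtain ⟨e₀, he₀⟩ : ∃ e₀ : ℕ, 4 ^ γ / a ≤ (2 : ℝ) ^ e₀ := by
    obtain ⟨k, hk⟩ := pow_unbounded_of_one_lt (4 ^ γ / a) (by norm_num : (1 : ℝ) < 2)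
    exact ⟨k, hk.le⟩
  refine ⟨max n₁ 1, e₀, ?_⟩
  intro n hn e he
  have hn1 : n₁ ≤ n := (le_max_left _ _).trans hn
  have hn2 : 1 ≤ n := (le_max_right _ _).trans hn
  obtain ⟨cn', hcn'⟩ := hμ.sv n hn2
  obtain ⟨cn, hcn⟩ : ∃ cn, cn = max cn' 0 := ⟨_, rfl⟩
  have hcn0 : 0 ≤ cn := by rw [hcn]; exact le_max_right _ _
  obtain ⟨c, hc, hGI⟩ := GI_bound (q := 1) le_rfl (z := 1) (one_pow 1) γ n e hB hW
  refine ⟨γ + 3 + e, ?_⟩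
  intro ρ hρ
  have hργ : γ ≤ ρ := by omega
  have hρ3 : γ + 3 ≤ ρ := by omega
  have hρe : e + 1 ≤ 2 * ρ := by omega
  obtain ⟨i₀, hi₀⟩ : ∃ i₀ : ℕ, cn * c * 4 ^ γ / (ε / 2) ≤ (2 : ℝ) ^ i₀ := by
    obtain ⟨k, hk⟩ := pow_unbounded_of_one_lt (cn * c * 4 ^ γ / (ε / 2)) (by norm_num : (1 : ℝ) < 2)
    exact ⟨k, hk.le⟩
  refine ⟨i₀, ?_⟩
  intro i hi m hm hmP
  obtain ⟨hG1, hG2⟩ := hGI ρ i hργ hρe
  have hA1 : 1 ≤ 2 ^ i := Nat.one_le_two_pow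
  have hAr : ((2 ^ i : ℕ) : ℝ) = 2 ^ i := by push_cast; rfl
  -- the bad pairs
  have hma : (m : ℝ) ≤ a * 4 ^ (ρ - γ) := by
    have h1 : (m : ℝ) ≤ (PP e ρ : ℝ) := by exact_mod_cast hmP
    have h2 : (PP e ρ : ℝ) * 2 ^ e = 4 ^ (ρ - γ) * 4 ^ γ := by
      unfold PP
      push_cast
      rw [← pow_add, ← pow_add, Nat.sub_add_cancel hργ, Nat.sub_add_cancel (by omega : e ≤ 2 * ρ),
        pow_mul]
      norm_num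
    have h3 : (4 : ℝ) ^ γ / a ≤ 2 ^ e := he₀.trans (pow_le_pow_right₀ (by norm_num) he)
    rw [div_le_iff₀ ha] at h3
    have h4 : (0 : ℝ) < 2 ^ e := by positivity
    have h5 : (m : ℝ) * 2 ^ e ≤ a * 4 ^ (ρ - γ) * 2 ^ e := by
      calc (m : ℝ) * 2 ^ e ≤ (PP e ρ : ℝ) * 2 ^ e := mul_le_mul_of_nonneg_right h1 h4.le
        _ = 4 ^ (ρ - γ) * 4 ^ γ := h2
        _ ≤ 4 ^ (ρ - γ) * (2 ^ e * a) := mul_le_mul_of_nonneg_left h3 (by positivity)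
        _ = a * 4 ^ (ρ - γ) * 2 ^ e := by ring
    exact le_of_mul_le_mul_right h5 h4
  have hX : (2 : ℝ) ^ (ρ - γ) * ((2 ^ i : ℕ) : ℝ) = 2 ^ (i + (ρ - γ)) := by
    rw [hAr, pow_add]
    ring
  have hb1 := hbad n hn1 (ρ - γ) (by omega) (2 ^ i) hA1 m hm hma Wh L hW (2 ^ (γ + (i + (ρ - γ))))
  have hb2 := MCell_bad hq hz hμ hW hm hX hb1
  -- the good pairs
  have hM : 2 ^ ρ * 2 ^ i ≤ 2 ^ (γ + (i + (ρ - γ))) := by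
    rw [← pow_add]
    exact Nat.pow_le_pow_right (by norm_num) (by omega)
  have hgd := cell_sum (n := n) (A := 2 ^ i) (ρ := ρ) (M := 2 ^ (γ + (i + (ρ - γ)))) (m := m) hM
    (fun x => ((μ x.1 * Wh (ll x.1 / 2 ^ (i + (ρ - γ))) (ll x.2 / 2 ^ (i + (ρ - γ))) /
      4 ^ (i + (ρ - γ)) : ℝ) : ℂ) * aa z x.1 * aa z x.2) (by
    intro x hx
    have hW0 : Wh (ll x.1 / 2 ^ (i + (ρ - γ))) (ll x.2 / 2 ^ (i + (ρ - γ))) ≠ 0 := by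
      intro h0
      apply hx
      simp only [h0, mul_zero, zero_div, Complex.ofReal_zero, zero_mul]
    exact MCell_supp hγ hρ3 hW _ _ hW0)
  have hrep := MCell_rep hq hz hW (j := i + (ρ - γ)) (n := n) (A := 2 ^ i) (N := n * 2 ^ ρ) hm
    (cn := cn / ((2 ^ i : ℕ) : ℝ)) (S := c * 4 ^ ρ) (μ := μ) (by positivity) (by
      intro C hC v hv hCv
      refine (hcn' (2 ^ i) hA1 C hC v hv hCv).trans ?_
      refine div_le_div_of_nonneg_right ?_ (by positivity)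
      rw [hcn]
      exact le_max_left _ _) (fun C hC => hG2 m C hC)
  -- the decomposition
  have hBm : Bm μ Wh z γ (i + (ρ - γ)) m =
      ∑ x ∈ (pp2 (2 ^ (γ + (i + (ρ - γ)))) m).filter (gd n (2 ^ i)),
        ((μ x.1 * Wh (ll x.1 / 2 ^ (i + (ρ - γ))) (ll x.2 / 2 ^ (i + (ρ - γ))) /
          4 ^ (i + (ρ - γ)) : ℝ) : ℂ) * aa z x.1 * aa z x.2 +
      ∑ x ∈ (pp2 (2 ^ (γ + (i + (ρ - γ)))) m).filter (fun x => ¬ gd n (2 ^ i) x),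
        ((μ x.1 * Wh (ll x.1 / 2 ^ (i + (ρ - γ))) (ll x.2 / 2 ^ (i + (ρ - γ))) /
          4 ^ (i + (ρ - γ)) : ℝ) : ℂ) * aa z x.1 * aa z x.2 := by
    unfold Bm
    exact (Finset.sum_filter_add_sum_filter_not _ _ _).symm
  have hcard : ((CB n (2 ^ i)).card : ℝ) ≤ 4 ^ i := by
    have h1 : (CB n (2 ^ i)).card ≤ (CC (2 ^ i)).card := card_le_card (filter_subset _ _)
    have h2 := h1.trans (card_le_sq (2 ^ i))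
    have h3 : ((2 ^ i) ^ 2 : ℕ) = 4 ^ i := by
      rw [← pow_mul, mul_comm i 2, pow_mul]
      norm_num
    rw [h3] at h2
    exact_mod_cast h2
  have hfin : ((CB n (2 ^ i)).card : ℝ) * (cn / ((2 ^ i : ℕ) : ℝ) * (c * 4 ^ ρ) /
      4 ^ (i + (ρ - γ))) ≤ ε / 2 := by
    have h1 : cn / ((2 ^ i : ℕ) : ℝ) * (c * 4 ^ ρ) / 4 ^ (i + (ρ - γ)) =
        cn * c * 4 ^ γ / 2 ^ i / 4 ^ i := by
      have e1 : (4 : ℝ) ^ ρ = 4 ^ (ρ - γ) * 4 ^ γ := by rw [← pow_add, Nat.sub_add_cancel hργ]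
      rw [hAr, pow_add, e1]
      have h4r : (4 : ℝ) ^ (ρ - γ) ≠ 0 := by positivity
      have h4i : (4 : ℝ) ^ i ≠ 0 := by positivity
      have h2i : (2 : ℝ) ^ i ≠ 0 := by positivity
      field_simp
    rw [h1]
    have h4i : (0 : ℝ) < 4 ^ i := by positivity
    have h5 : cn * c * 4 ^ γ / 2 ^ i ≤ ε / 2 := by
      have h6 : cn * c * 4 ^ γ / (ε / 2) ≤ (2 : ℝ) ^ i :=
        hi₀.trans (pow_le_pow_right₀ (by norm_num) hi)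
      rw [div_le_iff₀ (by positivity)] at h6 ⊢
      linarith
    have h0 : 0 ≤ cn * c * 4 ^ γ / 2 ^ i := by positivity
    calc ((CB n (2 ^ i)).card : ℝ) * (cn * c * 4 ^ γ / 2 ^ i / 4 ^ i)
        ≤ 4 ^ i * (cn * c * 4 ^ γ / 2 ^ i / 4 ^ i) := mul_le_mul_of_nonneg_right hcard (by positivity)
      _ = cn * c * 4 ^ γ / 2 ^ i := mul_div_cancel₀ _ h4i.ne'
      _ ≤ ε / 2 := h5
  rw [hBm, hgd, ← sub_sub]
  calc _ ≤ _ := norm_sub_le _ _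
    _ ≤ ε / 2 + ε / 2 := add_le_add (hrep.trans hfin) hb2
    _ = ε := by ring

end Pool.Agent.Lib.MP_d57abb_nt.TA
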