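import Pool.Agent.Lib.MP_d57abb_nt.TA.InfoC
import Pool.Agent.Lib.MP_d57abb_nt.TA.TyA
import Pool.Agent.Lib.MP_d57abb_nt.TA.TotL
import Pool.Agent.Lib.MP_d57abb_nt.TA.BadS
import Pool.Agent.Lib.MP_d57abb_nt.TA.CellSum

/-!
# JOB AllGood: the pairs of the prime ideal which are not in a balanced cell are few (about 250 lines)

`K = 2^(γ₀+1)`, `γ = γ₀ + 4` (so `4 (K + 1) ≤ 2^γ`), `A = 2^i`, `r = ρ - γ`, `j = i + r`, `N = n 2^ρ`, `S = PS (PP e ρ)`, `D (x) = Dw K (ll x.1 / 2^j) (ll x.2 / 2^j)`, `GW_Dw` (`GW.mono`: `4 (K+1) ≤ 2^γ` as reals).  `4^j = 4^i 4^ρ / 4^γ`,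
`|CB n A| ≤ |CC A| ≤ A² = 4^i` (`card_le_sq`), so `4^ρ |CC A| ≤ 4^γ 4^j`.  `2^r A = 2^j`.
Let `ε₁ > 0` be small.  (1) `totP`: `all_p := p ∑_{x ∈ pp2, Ip} D ≤ K Hs j + ε₁ 4^j` for all `p ∈ S`, `i ≥ i₀(ρ)` (finite set `S`).
(2) `good_p := p ∑_{x ∈ pp2, Ip, gd} D = p ∑_{C ∈ CB} GI (Dw K) 1 N j C p` (real numbers, `aa 1 = 1`): `cell_sum` with `f x = if Ip p x.1 then D x else 0` (`D x ≠ 0` gives `ll x.1 > 2^j / 4 ≥ 2^i` for `ρ ≥ γ + 2`, strict by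
`hw_supp`, and `ll x.1 < 4 · 2^j`, `ll x.2 ≤ 4 (K+1) 2^j ≤ 2^γ 2^j = 2^ρ A`; `2^(γ+j) = 2^(ρ + i)`) and `iL_iff` (`dt C.1 C.2 = 1`).
(3) `ty_approx` (with `z = 1`, resolution `K'`): `|GI - FF| ≤ c / K'`, `|Gc - (p+1) FM| ≤ (c / K') 4^ρ`.  `info_cell` (with `z = 1`, `ε₁`): `∑_C |∑_p p (FF - FM)| ≤ E := ε₁ (1 + MI ρ / (δ 4^ρ)) 4^ρ |S| |CC A|`.
So `∑_p good_p ≥ ∑_C ∑_p p FM - E - ∑_p p |CC A| c / K'` and `∑_C p FM ≥ (p / (p+1)) (∑_C Gc - |CC A| (c/K') 4^ρ)`, `p ≤ 4^ρ`.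
(4) `∑_C Gc (Dw K) 1 N j C p = ∑_{x ∈ pp2, gd} D` (`cell_sum`) `= ∑_{pp2} D - ∑_{pp2, not gd} D ≥ K Hs j - ε₁ 4^j - ε₁ 4^j` by `totL` (`p > PP / 2` large) and `bad_small` (`m = p ≤ 4^ρ / 2^e ≤ a 4^r` if `e ≥ e₀`: `2^(-e) ≤ a 4^(-γ)`).
(5) The quantity to bound is `∑_p (all_p - good_p) ≤ |S| [K Hs j + ε₁ 4^j - (1 - 1/p)(K Hs j - 2 ε₁ 4^j)] + E + 2 |S| |CC A| 4^ρ c / K'`, and `K Hs j / p ≤ 32 K 4^j / p ≤ ε₁ 4^j` for large `ρ`.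
Order of choices: `ε₁` (`6 ε₁ + 4^γ ε₁ ≤ ε / 2`), `n₀, a` from `bad_small`, `e₀`; for given `n, e`: `c` from `ty_approx`, `K'`, then `δ, ρ₀` from `info_cell`, then `i₀`.
-/

namespace Pool.Agent.Lib.MP_d57abb_nt.TA

open Finset Pool.Agent.Lib.MP_d57abb_nt

private theorem AllGood_core {ι : Type*} (S : Finset ℕ) (T : Finset ι) (gi gc : ι → ℕ → ℝ)
    (FFv FMv : ι → ℕ → ℂ) (al' : ℕ → ℝ) {κ R E H X ε₁ : ℝ}
    (h1 : ∀ p ∈ S, ∀ C ∈ T, ‖((gi C p : ℝ) : ℂ) - FFv C p‖ ≤ κ)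
    (h2 : ∀ p ∈ S, ∀ C ∈ T, ‖((gc C p : ℝ) : ℂ) - (p + 1) * FMv C p‖ ≤ κ * R)
    (h3 : ∑ C ∈ T, ‖∑ p ∈ S, (p : ℂ) * (FFv C p - FMv C p)‖ ≤ E)
    (hκ : 0 ≤ κ) (h4 : ∀ p ∈ S, (p : ℝ) ≤ R)
    (h5 : ∀ p ∈ S, H - 2 * (ε₁ * X) ≤ ∑ C ∈ T, gc C p)
    (h6 : ∀ p ∈ S, H ≤ ε₁ * X * (p + 1)) (hX : 0 ≤ ε₁ * X)
    (h7 : ∀ p ∈ S, al' p ≤ H + ε₁ * X) :
    ∑ p ∈ S, (al' p - p * ∑ C ∈ T, gi C p) ≤
      4 * (ε₁ * X) * S.card + E + 2 * (κ * R) * S.card * T.card := by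
  have key : ∀ C ∈ T, ∑ p ∈ S, (p : ℝ) / (p + 1) * gc C p -
      ‖∑ p ∈ S, (p : ℂ) * (FFv C p - FMv C p)‖ - 2 * (κ * R) * S.card ≤
        ∑ p ∈ S, (p : ℝ) * gi C p := by
    intro C hC
    have e : ((∑ p ∈ S, (p : ℝ) * gi C p - ∑ p ∈ S, (p : ℝ) / (p + 1) * gc C p : ℝ) : ℂ) =
        ∑ p ∈ S, (p : ℂ) * (((gi C p : ℝ) : ℂ) - FFv C p) +
          ∑ p ∈ S, (p : ℂ) * (FFv C p - FMv C p) +
          ∑ p ∈ S, (- ((p : ℂ) / (p + 1)) * (((gc C p : ℝ) : ℂ) - (p + 1) * FMv C p)) := by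
      push_cast
      rw [← Finset.sum_sub_distrib, ← Finset.sum_add_distrib, ← Finset.sum_add_distrib]
      refine Finset.sum_congr rfl fun p _ => ?_
      have hp : (p : ℂ) + 1 ≠ 0 := Nat.cast_add_one_ne_zero p
      field_simp
      ring
    have b1 : ‖∑ p ∈ S, (p : ℂ) * (((gi C p : ℝ) : ℂ) - FFv C p)‖ ≤ S.card * (κ * R) := by
      refine (norm_sum_le _ _).trans ?_
      rw [← nsmul_eq_mul]
      refine Finset.sum_le_card_nsmul _ _ _ fun p hp => ?_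
      rw [norm_mul, Complex.norm_natCast, mul_comm]
      exact mul_le_mul (h1 p hp C hC) (h4 p hp) (Nat.cast_nonneg p) hκ
    have b3 : ‖∑ p ∈ S, (- ((p : ℂ) / (p + 1)) * (((gc C p : ℝ) : ℂ) - (p + 1) * FMv C p))‖ ≤
        S.card * (κ * R) := by
      refine (norm_sum_le _ _).trans ?_
      rw [← nsmul_eq_mul]
      refine Finset.sum_le_card_nsmul _ _ _ fun p hp => ?_
      rw [norm_mul]
      have hn : ‖-((p : ℂ) / (p + 1))‖ ≤ 1 := by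
        rw [norm_neg, norm_div, Complex.norm_natCast]
        have : ‖(p : ℂ) + 1‖ = (p : ℝ) + 1 := by
          have := Complex.norm_natCast (p + 1)
          push_cast at this
          exact this
        rw [this, div_le_one (by positivity)]
        linarith
      calc _ ≤ 1 * (κ * R) := mul_le_mul hn (h2 p hp C hC) (norm_nonneg _) zero_le_one
        _ = κ * R := one_mul _
    have h8 := norm_add_le (∑ p ∈ S, (p : ℂ) * (((gi C p : ℝ) : ℂ) - FFv C p) +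
          ∑ p ∈ S, (p : ℂ) * (FFv C p - FMv C p))
          (∑ p ∈ S, (- ((p : ℂ) / (p + 1)) * (((gc C p : ℝ) : ℂ) - (p + 1) * FMv C p)))
    have h9 := norm_add_le (∑ p ∈ S, (p : ℂ) * (((gi C p : ℝ) : ℂ) - FFv C p))
          (∑ p ∈ S, (p : ℂ) * (FFv C p - FMv C p))
    rw [← e, Complex.norm_real, Real.norm_eq_abs] at h8
    have h10 := neg_abs_le (∑ p ∈ S, (p : ℝ) * gi C p - ∑ p ∈ S, (p : ℝ) / (p + 1) * gc C p)
    linarith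
  have s1 : ∑ p ∈ S, (p : ℝ) * ∑ C ∈ T, gi C p = ∑ C ∈ T, ∑ p ∈ S, (p : ℝ) * gi C p := by
    rw [Finset.sum_comm]
    refine Finset.sum_congr rfl fun p _ => ?_
    rw [Finset.mul_sum]
  have s2 : ∑ C ∈ T, ∑ p ∈ S, (p : ℝ) / (p + 1) * gc C p =
      ∑ p ∈ S, (p : ℝ) / (p + 1) * ∑ C ∈ T, gc C p := by
    rw [Finset.sum_comm]
    refine Finset.sum_congr rfl fun p _ => ?_
    rw [Finset.mul_sum]
  have s3 := Finset.sum_le_sum key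
  rw [Finset.sum_sub_distrib, Finset.sum_sub_distrib, Finset.sum_const, nsmul_eq_mul, s2, ← s1] at s3
  have s4 : ∑ p ∈ S, (H - 3 * (ε₁ * X)) ≤ ∑ p ∈ S, (p : ℝ) / (p + 1) * ∑ C ∈ T, gc C p := by
    refine Finset.sum_le_sum fun p hp => ?_
    have hp1 : (0 : ℝ) < (p : ℝ) + 1 := by positivity
    have t1 : (p : ℝ) / (p + 1) * (H - 2 * (ε₁ * X)) ≤ (p : ℝ) / (p + 1) * ∑ C ∈ T, gc C p :=
      mul_le_mul_of_nonneg_left (h5 p hp) (by positivity)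
    refine le_trans ?_ t1
    have t2 : (p : ℝ) / (p + 1) * (H - 2 * (ε₁ * X)) =
        H - 2 * (ε₁ * X) - (H - 2 * (ε₁ * X)) / (p + 1) := by
      field_simp
      ring
    rw [t2]
    have t3 : (H - 2 * (ε₁ * X)) / (p + 1) ≤ ε₁ * X := by
      rw [div_le_iff₀ hp1]
      have := h6 p hp
      linarith
    linarith
  rw [Finset.sum_const, nsmul_eq_mul] at s4
  have s5 : ∑ p ∈ S, al' p ≤ S.card * (H + ε₁ * X) := by
    rw [← nsmul_eq_mul]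
    exact Finset.sum_le_card_nsmul _ _ _ h7
  rw [Finset.sum_sub_distrib]
  have s6 : (T.card : ℝ) * (2 * (κ * R) * S.card) = 2 * (κ * R) * S.card * T.card := by ring
  rw [s6] at s3
  have s7 : (S.card : ℝ) * (H + ε₁ * X) - S.card * (H - 3 * (ε₁ * X)) = 4 * (ε₁ * X) * S.card := by
    ring
  linarith

private theorem AllGood_aa (v : ℤ × ℤ) : aa 1 v = 1 := by
  simp [aa]

open Classical in
private theorem AllGood_GI (Wh : ℝ → ℝ → ℝ) (N j : ℕ) (C : (ℤ × ℤ) × (ℤ × ℤ)) (p : ℕ) :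
    GI Wh 1 N j C p = ((∑ x ∈ (pp2 N p).filter (fun x => iL p (yv p C) x.1),
      Wh (ll (em C x.1) / 2 ^ j) (ll (em C x.2) / 2 ^ j) : ℝ) : ℂ) := by
  unfold GI
  rw [Complex.ofReal_sum]
  refine Finset.sum_congr rfl fun x _ => ?_
  rw [AllGood_aa, AllGood_aa, mul_one, mul_one]

private theorem AllGood_Gc (Wh : ℝ → ℝ → ℝ) (N j : ℕ) (C : (ℤ × ℤ) × (ℤ × ℤ)) (p : ℕ) :
    Gc Wh 1 N j C p = ((∑ x ∈ pp2 N p,
      Wh (ll (em C x.1) / 2 ^ j) (ll (em C x.2) / 2 ^ j) : ℝ) : ℂ) := by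
  unfold Gc
  rw [Complex.ofReal_sum]
  refine Finset.sum_congr rfl fun x _ => ?_
  rw [AllGood_aa, AllGood_aa, mul_one, mul_one]

private theorem AllGood_supp {K γ : ℕ} {L : ℝ} (hγ : 2 ≤ γ) (hW : GW (Dw K) (2 ^ γ) 4 L) {ρ i : ℕ}
    (hρ : γ + 2 ≤ ρ) {a b : ℤ}
    (h : Dw K ((a : ℝ) / 2 ^ (i + (ρ - γ))) ((b : ℝ) / 2 ^ (i + (ρ - γ))) ≠ 0) :
    (((2 ^ i : ℕ) : ℤ)) < a ∧ a ≤ 2 ^ ρ * ((2 ^ i : ℕ) : ℤ) ∧ b ≤ 2 ^ ρ * ((2 ^ i : ℕ) : ℤ) := by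
  have hj0 : (0 : ℝ) < 2 ^ (i + (ρ - γ)) := by positivity
  have h1 : hw ((a : ℝ) / 2 ^ (i + (ρ - γ))) ≠ 0 := by
    intro h0
    apply h
    unfold Dw
    rw [h0, zero_mul]
  obtain ⟨h2, h3⟩ := hw_supp h1
  rw [lt_div_iff₀ hj0] at h2
  rw [div_lt_iff₀ hj0] at h3
  have h4 := (hW.sy _ _ h).2
  rw [div_le_iff₀ hj0, ← pow_add] at h4
  have e1 : γ + (i + (ρ - γ)) = ρ + i := by omega
  rw [e1] at h4
  refine ⟨?_, ?_, ?_⟩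
  · have h5 : (2 : ℝ) ^ (i + 2) ≤ 2 ^ (i + (ρ - γ)) :=
      pow_le_pow_right₀ (by norm_num) (by omega)
    have h6 : (2 : ℝ) ^ i < a := by
      rw [pow_add] at h5
      linarith
    exact_mod_cast h6
  · have h5 : (4 : ℝ) * 2 ^ (i + (ρ - γ)) ≤ 2 ^ (ρ + i) := by
      have h6 : (4 : ℝ) * 2 ^ (i + (ρ - γ)) = 2 ^ (i + (ρ - γ) + 2) := by
        rw [pow_add _ _ 2]; ring
      rw [h6]
      exact pow_le_pow_right₀ (by norm_num) (by omega)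
    have h6 : (a : ℝ) ≤ 2 ^ ρ * 2 ^ i := by
      rw [← pow_add]
      linarith
    exact_mod_cast h6
  · have h6 : (b : ℝ) ≤ 2 ^ ρ * 2 ^ i := by
      rw [← pow_add]
      exact h4
    exact_mod_cast h6

open Classical in
private theorem AllGood_sumI {K γ : ℕ} {L : ℝ} (hγ : 2 ≤ γ) (hW : GW (Dw K) (2 ^ γ) 4 L)
    {n ρ i p : ℕ} (hρ : γ + 2 ≤ ρ) (hp : SP p) :
    ∑ x ∈ ((pp2 (2 ^ (γ + (i + (ρ - γ)))) p).filter (fun x => Ip p x.1)).filter (gd n (2 ^ i)),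
        Dw K (ll x.1 / 2 ^ (i + (ρ - γ))) (ll x.2 / 2 ^ (i + (ρ - γ))) =
      ∑ C ∈ CB n (2 ^ i), ∑ x ∈ (pp2 (n * 2 ^ ρ) p).filter (fun x => iL p (yv p C) x.1),
        Dw K (ll (em C x.1) / 2 ^ (i + (ρ - γ))) (ll (em C x.2) / 2 ^ (i + (ρ - γ))) := by
  classical
  have hM : 2 ^ ρ * 2 ^ i ≤ 2 ^ (γ + (i + (ρ - γ))) := by
    rw [← pow_add]
    exact Nat.pow_le_pow_right (by norm_num) (by omega)
  have h := cell_sum (n := n) (A := 2 ^ i) (ρ := ρ) (M := 2 ^ (γ + (i + (ρ - γ)))) (m := p) hM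
    (fun x => if Ip p x.1 then
      ((Dw K (ll x.1 / 2 ^ (i + (ρ - γ))) (ll x.2 / 2 ^ (i + (ρ - γ))) : ℝ) : ℂ) else 0) (by
      intro x hx
      have hx' : Dw K (ll x.1 / 2 ^ (i + (ρ - γ))) (ll x.2 / 2 ^ (i + (ρ - γ))) ≠ 0 := by
        intro h0
        apply hx
        simp only [h0, Complex.ofReal_zero, ite_self]
      exact AllGood_supp hγ hW hρ hx')
  have h1 : ((∑ x ∈ ((pp2 (2 ^ (γ + (i + (ρ - γ)))) p).filter (fun x => Ip p x.1)).filter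
        (gd n (2 ^ i)),
        Dw K (ll x.1 / 2 ^ (i + (ρ - γ))) (ll x.2 / 2 ^ (i + (ρ - γ))) : ℝ) : ℂ) =
      ((∑ C ∈ CB n (2 ^ i), ∑ x ∈ (pp2 (n * 2 ^ ρ) p).filter (fun x => iL p (yv p C) x.1),
        Dw K (ll (em C x.1) / 2 ^ (i + (ρ - γ))) (ll (em C x.2) / 2 ^ (i + (ρ - γ))) : ℝ) : ℂ) := by
    rw [Finset.filter_comm, Finset.sum_filter, Complex.ofReal_sum]
    have e1 : ∀ x : (ℤ × ℤ) × (ℤ × ℤ), (((if Ip p x.1 then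
        Dw K (ll x.1 / 2 ^ (i + (ρ - γ))) (ll x.2 / 2 ^ (i + (ρ - γ))) else 0 : ℝ)) : ℂ) =
        (if Ip p x.1 then
      ((Dw K (ll x.1 / 2 ^ (i + (ρ - γ))) (ll x.2 / 2 ^ (i + (ρ - γ))) : ℝ) : ℂ) else 0) := by
      intro x
      split_ifs
      · rfl
      · exact Complex.ofReal_zero
    rw [Finset.sum_congr rfl (fun x _ => e1 x)]
    refine h.trans ?_
    rw [Complex.ofReal_sum]
    refine Finset.sum_congr rfl fun C hC => ?_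
    have hdt : dt C.1 C.2 = 1 := (mem_CC.1 (Finset.mem_filter.1 hC).1).1.2.2
    rw [Finset.sum_filter, Complex.ofReal_sum]
    refine Finset.sum_congr rfl fun x _ => ?_
    simp only [iL_iff hp hdt]
    split_ifs
    · rfl
    · exact Complex.ofReal_zero.symm
  exact_mod_cast h1

open Classical in
private theorem AllGood_sumC {K γ : ℕ} {L : ℝ} (hγ : 2 ≤ γ) (hW : GW (Dw K) (2 ^ γ) 4 L)
    {n ρ i p : ℕ} (hρ : γ + 2 ≤ ρ) :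
      ∑ x ∈ (pp2 (2 ^ (γ + (i + (ρ - γ)))) p).filter (gd n (2 ^ i)),
        Dw K (ll x.1 / 2 ^ (i + (ρ - γ))) (ll x.2 / 2 ^ (i + (ρ - γ))) =
      ∑ C ∈ CB n (2 ^ i), ∑ x ∈ pp2 (n * 2 ^ ρ) p,
        Dw K (ll (em C x.1) / 2 ^ (i + (ρ - γ))) (ll (em C x.2) / 2 ^ (i + (ρ - γ))) := by
  classical
  have hM : 2 ^ ρ * 2 ^ i ≤ 2 ^ (γ + (i + (ρ - γ))) := by
    rw [← pow_add]
    exact Nat.pow_le_pow_right (by norm_num) (by omega)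
  have h := cell_sum (n := n) (A := 2 ^ i) (ρ := ρ) (M := 2 ^ (γ + (i + (ρ - γ)))) (m := p) hM
    (fun x => ((Dw K (ll x.1 / 2 ^ (i + (ρ - γ))) (ll x.2 / 2 ^ (i + (ρ - γ))) : ℝ) : ℂ)) (by
      intro x hx
      have hx' : Dw K (ll x.1 / 2 ^ (i + (ρ - γ))) (ll x.2 / 2 ^ (i + (ρ - γ))) ≠ 0 := by
        intro h0
        apply hx
        simp only [h0, Complex.ofReal_zero]
      exact AllGood_supp hγ hW hρ hx')
  exact_mod_cast h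

open Classical in
private theorem AllGood_split {α : Type*} (S : Finset α) (P Q : α → Prop) (D : α → ℝ) :
      ∑ x ∈ S.filter (fun x => P x ∧ ¬ Q x), D x =
        ∑ x ∈ S.filter P, D x - ∑ x ∈ (S.filter P).filter Q, D x := by
  classical
  rw [eq_sub_iff_add_eq, ← Finset.sum_filter_add_sum_filter_not (S.filter P) Q D, add_comm,
    Finset.filter_filter (fun x => P x) (fun x => ¬ Q x)]

private theorem AllGood_bound (S : Finset ℕ) (f : ℕ → ℕ) : ∃ N : ℕ, ∀ p ∈ S, f p ≤ N :=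
  ⟨S.sup f, fun _ hp => Finset.le_sup (f := f) hp⟩

private theorem AllGood_PP {e ρ p : ℕ} (h : e + 1 ≤ 2 * ρ) (hp : p ∈ PS (PP e ρ)) :
    SP p ∧ 2 ^ (2 * ρ - e - 1) < p ∧ p ≤ 2 ^ (2 * ρ - e) := by
  classical
  unfold PS PP at hp
  rw [Finset.mem_filter, Finset.mem_Ioc] at hp
  refine ⟨hp.2, ?_, hp.1.2⟩
  have h1 : 2 ^ (2 * ρ - e) / 2 = 2 ^ (2 * ρ - e - 1) := by
    have h2 : 2 * ρ - e = (2 * ρ - e - 1) + 1 := by omega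
    conv_lhs => rw [h2, pow_succ]
    exact Nat.mul_div_cancel _ (by norm_num)
  rw [← h1]
  exact hp.1.1

open Classical in
theorem all_good {q : ℕ} (hq : 1 ≤ q) (γ₀ : ℕ) {ε : ℝ} (hε : 0 < ε) :
    ∃ n₀ e₀ : ℕ, ∀ n : ℕ, n₀ ≤ n → ∀ e : ℕ, e₀ ≤ e → ∃ δ : ℝ, 0 < δ ∧ ∃ ρ₀ : ℕ, ∀ ρ : ℕ, ρ₀ ≤ ρ →
      ∃ i₀ : ℕ, ∀ i : ℕ, i₀ ≤ i →
      ∑ p ∈ PS (PP e ρ), (p : ℝ) *
        ∑ x ∈ (pp2 (2 ^ (γ₀ + 4 + (i + (ρ - (γ₀ + 4))))) p).filter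
          (fun x => Ip p x.1 ∧ ¬ gd n (2 ^ i) x),
          Dw (2 ^ (γ₀ + 1)) (ll x.1 / 2 ^ (i + (ρ - (γ₀ + 4)))) (ll x.2 / 2 ^ (i + (ρ - (γ₀ + 4)))) ≤
        ε * (1 + MI q e ρ (2 ^ i) * ρ / (δ * 4 ^ ρ)) * (PS (PP e ρ)).card *
          4 ^ (i + (ρ - (γ₀ + 4))) := by
  classical
  set γ : ℕ := γ₀ + 4 with hγdef
  set K : ℕ := 2 ^ (γ₀ + 1) with hKdef
  have hγ2 : 2 ≤ γ := by omega
  have hK1 : 1 ≤ K := Nat.one_le_two_pow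
  have hKγ : 4 * (K + 1) ≤ 2 ^ γ := by
    have h1 : 2 ^ γ = 8 * 2 ^ (γ₀ + 1) := by
      rw [hγdef, show γ₀ + 4 = (γ₀ + 1) + 3 by ring, pow_add]
      ring
    rw [h1, ← hKdef]
    omega
  have hKr : ((2 : ℝ) ^ (γ₀ + 1)) = (K : ℝ) := by rw [hKdef]; push_cast; rfl
  rw [hKr]
  obtain ⟨L, hL, hW0⟩ := GW_Dw K hK1
  have hW : GW (Dw K) (2 ^ γ) 4 L := hW0.mono (by exact_mod_cast hKγ)
  have h4γ : (0 : ℝ) < 4 ^ γ := by positivity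
  obtain ⟨n₀, a, ha, hbad⟩ := bad_small (Y := 2 ^ γ) (B := 4) (ε := ε / 16) (by positivity)
    (by norm_num) (by positivity)
  obtain ⟨e₀, he₀⟩ := exists_nat_ge ((4 : ℝ) ^ γ / a)
  refine ⟨n₀, e₀, fun n hn e he => ?_⟩
  obtain ⟨c, hc, hty⟩ := ty_approx hq (one_pow q) γ n e hγ2 hL hW
  obtain ⟨K', hK'⟩ := exists_nat_ge (8 * 4 ^ γ * c / ε + 1)
  have hK'1 : 1 ≤ K' := by
    have h1 : (0 : ℝ) ≤ 8 * 4 ^ γ * c / ε := by positivity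
    have h2 : (1 : ℝ) ≤ K' := by linarith
    exact_mod_cast h2
  have hK'0 : (0 : ℝ) < K' := by exact_mod_cast hK'1
  have hcK : 2 * (c / K') * 4 ^ γ ≤ ε / 4 := by
    have h1 : 8 * 4 ^ γ * c / ε ≤ K' := by linarith
    rw [div_le_iff₀ hε] at h1
    have h2 : 2 * (c / K') * 4 ^ γ = (8 * 4 ^ γ * c) / K' / 4 := by
      field_simp
      ring
    rw [h2]
    have h3 : (8 * 4 ^ γ * c) / K' ≤ ε := by
      rw [div_le_iff₀ hK'0]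
      linarith
    linarith
  obtain ⟨δ, hδ, ρ₀, hinfo⟩ := info_cell hq (one_pow q) (Y := 2 ^ γ) (by norm_num : (0 : ℝ) ≤ 4)
    hW γ n e K' hK'1 (ε := ε / (4 * 4 ^ γ)) (by positivity)
  obtain ⟨P₀, hP₀⟩ := totL K hK1 γ hKγ (ε := ε / 16) (by positivity)
  obtain ⟨P₁, hP₁⟩ := exists_nat_ge (32 * (K : ℝ) / (ε / 16))
  refine ⟨δ, hδ, ρ₀ + γ + 3 + e + 1 + P₀ + P₁, fun ρ hρ => ?_⟩
  have hρ0 : ρ₀ ≤ ρ := by omega
  have hργ : γ + 3 ≤ ρ := by omega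
  have hρe : e + 1 ≤ 2 * ρ := by omega
  obtain ⟨A₀, hA₀⟩ := hinfo ρ hρ0
  set S := PS (PP e ρ) with hS
  have hSP : ∀ p ∈ S, SP p ∧ 2 ^ (2 * ρ - e - 1) < p ∧ p ≤ 2 ^ (2 * ρ - e) := fun p hp =>
    AllGood_PP hρe hp
  have hbig : ∀ p ∈ S, P₀ ≤ p ∧ P₁ ≤ p := by
    intro p hp
    have h1 := (hSP p hp).2.1
    have h2 : 2 * ρ - e - 1 < 2 ^ (2 * ρ - e - 1) := Nat.lt_two_pow_self
    omega
  -- thresholds
  have hj1 : ∀ p : ℕ, ∃ j₀ : ℕ, p ∈ S → ∀ j : ℕ, j₀ ≤ j →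
      (p : ℝ) * ∑ x ∈ (pp2 (2 ^ (γ + j)) p).filter (fun x => Ip p x.1),
        Dw K (ll x.1 / 2 ^ j) (ll x.2 / 2 ^ j) ≤ K * Hs j + ε / 16 * 4 ^ j := by
    intro p
    by_cases hp : p ∈ S
    · obtain ⟨j₀, hj₀⟩ := totP K hK1 γ (hSP p hp).1 (ε := ε / 16) (by positivity)
      exact ⟨j₀, fun _ => hj₀⟩
    · exact ⟨0, fun h => absurd h hp⟩
  have hj2 : ∀ p : ℕ, ∃ j₀ : ℕ, p ∈ S → ∀ j : ℕ, j₀ ≤ j →
      K * Hs j - ε / 16 * 4 ^ j ≤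
        ∑ x ∈ pp2 (2 ^ (γ + j)) p, Dw K (ll x.1 / 2 ^ j) (ll x.2 / 2 ^ j) := by
    intro p
    by_cases hp : p ∈ S
    · obtain ⟨j₀, hj₀⟩ := hP₀ p (hbig p hp).1 (hSP p hp).1.1
      exact ⟨j₀, fun _ => hj₀⟩
    · exact ⟨0, fun h => absurd h hp⟩
  choose f1 hf1 using hj1
  choose f2 hf2 using hj2
  obtain ⟨N1, hN1⟩ := AllGood_bound S f1
  obtain ⟨N2, hN2⟩ := AllGood_bound S f2
  refine ⟨A₀ + N1 + N2, fun i hi => ?_⟩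
  have hA : A₀ ≤ 2 ^ i := by
    have h1 : i < 2 ^ i := Nat.lt_two_pow_self
    omega
  set j : ℕ := i + (ρ - γ) with hj
  have hX4 : (4 : ℝ) ^ j = (2 ^ (ρ - γ) * ((2 ^ i : ℕ) : ℝ)) ^ 2 := by
    push_cast
    rw [← pow_add, ← pow_mul, hj, show (ρ - γ + i) * 2 = 2 * (i + (ρ - γ)) by ring, pow_mul]
    norm_num
  have h2j : (2 : ℝ) ^ j = 2 ^ (ρ - γ) * ((2 ^ i : ℕ) : ℝ) := by
    push_cast
    rw [← pow_add, hj, add_comm]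
  have h4j : (4 : ℝ) ^ γ * 4 ^ j = 4 ^ ρ * 4 ^ i := by
    rw [← pow_add, ← pow_add]
    congr 1
    omega
  have hX0 : (0 : ℝ) < 4 ^ j := by positivity
  have hp4 : ∀ p ∈ S, (p : ℝ) ≤ 4 ^ ρ := by
    intro p hp
    have h1 := (hSP p hp).2.2
    have h2 : 2 ^ (2 * ρ - e) ≤ 2 ^ (2 * ρ) := Nat.pow_le_pow_right (by norm_num) (by omega)
    have h3 : p ≤ 4 ^ ρ := by
      rw [pow_mul] at h2
      exact h1.trans h2
    exact_mod_cast h3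
  have hpa : ∀ p ∈ S, (p : ℝ) ≤ a * 4 ^ (ρ - γ) := by
    intro p hp
    have h1 : (p : ℝ) ≤ 2 ^ (2 * ρ - e) := by exact_mod_cast (hSP p hp).2.2
    have h2 : (4 : ℝ) ^ γ / a ≤ 2 ^ e := by
      refine he₀.trans ?_
      have h3 : e₀ ≤ 2 ^ e := he.trans (Nat.lt_two_pow_self).le
      exact_mod_cast h3
    rw [div_le_iff₀ ha] at h2
    have h3 : (2 : ℝ) ^ (2 * ρ - e) * 2 ^ e = 4 ^ (ρ - γ) * 4 ^ γ := by
      rw [← pow_add, ← pow_add, show 2 * ρ - e + e = 2 * ρ by omega,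
        show ρ - γ + γ = ρ by omega, pow_mul]
      norm_num
    have h4 : (2 : ℝ) ^ (2 * ρ - e) * 2 ^ e ≤ (a * 4 ^ (ρ - γ)) * 2 ^ e := by
      rw [h3]
      calc (4 : ℝ) ^ (ρ - γ) * 4 ^ γ ≤ 4 ^ (ρ - γ) * (2 ^ e * a) :=
            mul_le_mul_of_nonneg_left h2 (by positivity)
        _ = (a * 4 ^ (ρ - γ)) * 2 ^ e := by ring
    exact h1.trans (le_of_mul_le_mul_right h4 (by positivity))
  have hcore := AllGood_core S (CB n (2 ^ i))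
    (fun C p => ∑ x ∈ (pp2 (n * 2 ^ ρ) p).filter (fun x => iL p (yv p C) x.1),
        Dw K (ll (em C x.1) / 2 ^ j) (ll (em C x.2) / 2 ^ j))
    (fun C p => ∑ x ∈ pp2 (n * 2 ^ ρ) p,
        Dw K (ll (em C x.1) / 2 ^ j) (ll (em C x.2) / 2 ^ j))
    (fun C p => FF (Dw K) 1 (n * 2 ^ ρ) K' (ρ - γ) p (XX q (2 ^ ρ) (2 ^ i) C) (ty K' (2 ^ i) C)
      (yv p C))
    (fun C p => FM (Dw K) 1 (n * 2 ^ ρ) K' (ρ - γ) p (XX q (2 ^ ρ) (2 ^ i) C) (ty K' (2 ^ i) C))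
    (fun p => (p : ℝ) * ∑ x ∈ (pp2 (2 ^ (γ + j)) p).filter (fun x => Ip p x.1),
        Dw K (ll x.1 / 2 ^ j) (ll x.2 / 2 ^ j))
    (κ := c / K') (R := 4 ^ ρ)
    (E := ε / (4 * 4 ^ γ) * (1 + MI q e ρ (2 ^ i) * ρ / (δ * 4 ^ ρ)) * 4 ^ ρ * S.card *
      (CC (2 ^ i)).card) (H := K * Hs j) (X := 4 ^ j) (ε₁ := ε / 16)
    (by
      intro p hp C hC
      have h1 := (hty K' hK'1 ρ i (by omega) hρe p hp C hC).1
      rw [AllGood_GI] at h1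
      exact h1)
    (by
      intro p hp C hC
      have h1 := (hty K' hK'1 ρ i (by omega) hρe p hp C hC).2
      rw [AllGood_Gc] at h1
      exact h1)
    (hA₀ (2 ^ i) hA)
    (by positivity) hp4
    (by
      intro p hp
      have h1 := hf2 p hp j (by have := hN2 p hp; omega)
      have h2 := AllGood_sumC (n := n) (i := i) (p := p) hγ2 hW (show γ + 2 ≤ ρ by omega)
      have h3 := hbad n hn (ρ - γ) (by omega) (2 ^ i) Nat.one_le_two_pow p (hSP p hp).1.1.one_le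
        (hpa p hp) (Dw K) L hW (2 ^ (γ + j))
      rw [← hX4, ← h2j] at h3
      have h4 := Finset.sum_filter_add_sum_filter_not (pp2 (2 ^ (γ + j)) p) (gd n (2 ^ i))
        (fun x => Dw K (ll x.1 / 2 ^ j) (ll x.2 / 2 ^ j))
      show _ ≤ ∑ C ∈ CB n (2 ^ i), ∑ x ∈ pp2 (n * 2 ^ ρ) p,
        Dw K (ll (em C x.1) / 2 ^ j) (ll (em C x.2) / 2 ^ j)
      rw [← h2]
      linarith)
    (by
      intro p hp
      have h1 := Hs_le j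
      have h2 : 32 * (K : ℝ) / (ε / 16) ≤ (p : ℝ) + 1 := by
        have h3 : (P₁ : ℝ) ≤ p := by exact_mod_cast (hbig p hp).2
        linarith
      rw [div_le_iff₀ (by positivity)] at h2
      have h3 : (K : ℝ) * Hs j ≤ K * (32 * 4 ^ j) := mul_le_mul_of_nonneg_left h1 (by positivity)
      have h4 : 32 * (K : ℝ) * 4 ^ j ≤ ((p : ℝ) + 1) * (ε / 16) * 4 ^ j :=
        mul_le_mul_of_nonneg_right h2 hX0.le
      linarith)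
    (by positivity)
    (fun p hp => hf1 p hp j (by have := hN1 p hp; omega))
  have hLHS : ∑ p ∈ S, (p : ℝ) *
        ∑ x ∈ (pp2 (2 ^ (γ + j)) p).filter
          (fun x => Ip p x.1 ∧ ¬ gd n (2 ^ i) x),
          Dw K (ll x.1 / 2 ^ j) (ll x.2 / 2 ^ j) =
      ∑ p ∈ S, ((p : ℝ) * ∑ x ∈ (pp2 (2 ^ (γ + j)) p).filter (fun x => Ip p x.1),
        Dw K (ll x.1 / 2 ^ j) (ll x.2 / 2 ^ j) -
        p * ∑ C ∈ CB n (2 ^ i), ∑ x ∈ (pp2 (n * 2 ^ ρ) p).filter (fun x => iL p (yv p C) x.1),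
        Dw K (ll (em C x.1) / 2 ^ j) (ll (em C x.2) / 2 ^ j)) := by
    refine Finset.sum_congr rfl fun p hp => ?_
    have h2 := AllGood_sumI (n := n) (i := i) (p := p) hγ2 hW (show γ + 2 ≤ ρ by omega)
      (hSP p hp).1
    have h3 := AllGood_split (pp2 (2 ^ (γ + j)) p) (fun x => Ip p x.1) (gd n (2 ^ i))
      (fun x => Dw K (ll x.1 / 2 ^ j) (ll x.2 / 2 ^ j))
    rw [h2] at h3
    rw [h3, mul_sub]
  rw [hLHS]
  refine hcore.trans ?_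
  -- final arithmetic
  set Z : ℝ := MI q e ρ (2 ^ i) * ρ / (δ * 4 ^ ρ) with hZ
  have hZ0 : 0 ≤ Z := by
    have := MI_nonneg q e ρ (2 ^ i)
    positivity
  have hCC : ((CC (2 ^ i)).card : ℝ) * 4 ^ ρ ≤ 4 ^ γ * 4 ^ j := by
    have h1 := card_le_sq (2 ^ i)
    have h2 : ((CC (2 ^ i)).card : ℝ) ≤ 4 ^ i := by
      have h3 : (CC (2 ^ i)).card ≤ 4 ^ i := by
        rw [← pow_mul, mul_comm i 2, pow_mul] at h1
        exact h1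
      exact_mod_cast h3
    rw [h4j, mul_comm]
    exact mul_le_mul_of_nonneg_left h2 (by positivity)
  have hCB : ((CB n (2 ^ i)).card : ℝ) * 4 ^ ρ ≤ 4 ^ γ * 4 ^ j := by
    have h1 : (CB n (2 ^ i)).card ≤ (CC (2 ^ i)).card := Finset.card_filter_le _ _
    have h2 : ((CB n (2 ^ i)).card : ℝ) ≤ (CC (2 ^ i)).card := by exact_mod_cast h1
    exact (mul_le_mul_of_nonneg_right h2 (by positivity)).trans hCC
  have hS0 : (0 : ℝ) ≤ S.card := Nat.cast_nonneg _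
  have hc0 : 0 ≤ c / K' := by positivity
  have f1' : ε / (4 * 4 ^ γ) * (1 + Z) * 4 ^ ρ * S.card * (CC (2 ^ i)).card ≤
      ε / 4 * (1 + Z) * S.card * 4 ^ j := by
    have h1 : ε / (4 * 4 ^ γ) * (1 + Z) * 4 ^ ρ * S.card * (CC (2 ^ i)).card =
        (ε / (4 * 4 ^ γ) * (1 + Z) * S.card) * (((CC (2 ^ i)).card : ℝ) * 4 ^ ρ) := by ring
    have h2 : ε / 4 * (1 + Z) * S.card * 4 ^ j =
        (ε / (4 * 4 ^ γ) * (1 + Z) * S.card) * (4 ^ γ * 4 ^ j) := by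
      field_simp
    rw [h1, h2]
    exact mul_le_mul_of_nonneg_left hCC (by positivity)
  have f2' : 2 * (c / K' * 4 ^ ρ) * S.card * (CB n (2 ^ i)).card ≤ ε / 4 * S.card * 4 ^ j := by
    have h1 : 2 * (c / K' * 4 ^ ρ) * S.card * (CB n (2 ^ i)).card =
        (2 * (c / K') * S.card) * (((CB n (2 ^ i)).card : ℝ) * 4 ^ ρ) := by ring
    rw [h1]
    calc (2 * (c / K') * S.card) * (((CB n (2 ^ i)).card : ℝ) * 4 ^ ρ) ≤
          (2 * (c / K') * S.card) * (4 ^ γ * 4 ^ j) :=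
          mul_le_mul_of_nonneg_left hCB (by positivity)
      _ = (2 * (c / K') * 4 ^ γ) * (S.card * 4 ^ j) := by ring
      _ ≤ ε / 4 * (S.card * 4 ^ j) := mul_le_mul_of_nonneg_right hcK (by positivity)
      _ = ε / 4 * S.card * 4 ^ j := by ring
  have hSX : 0 ≤ (S.card : ℝ) * 4 ^ j := by positivity
  have f3 : ε * (1 + Z) * S.card * 4 ^ j =
      4 * (ε / 16 * 4 ^ j) * S.card + ε / 4 * (1 + Z) * S.card * 4 ^ j +
        ε / 4 * S.card * 4 ^ j + (ε / 4 + 3 / 4 * ε * Z) * (S.card * 4 ^ j) := by ring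
  have f4 : 0 ≤ (ε / 4 + 3 / 4 * ε * Z) * (S.card * 4 ^ j) := by positivity
  rw [f3]
  linarith

end Pool.Agent.Lib.MP_d57abb_nt.TA
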