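import Pool.Agent.Lib.MP_d57abb_nt.TA.Cone

/-!
# JOB Cells: the partition into cells (about 180 lines)

All facts on the order `0 ≤ dt u v` of directions are in `Cone` (`nn_trans`, `pos_trans`, `dt_swap`, `not_InO`, `eq_of_dt_zero'`, `mem_CC`).

`exists_cell`.  Claim: for every frame `C` with `ll C.1 ≤ A`, `ll C.2 ≤ A`, `InC C v` there is `C' ∈ CC A` with `InC C' v`.  Strong induction on
`(2 A - ll C.1 - ll C.2).toNat`.  If `A < ll C.1 + ll C.2`: `C' = C`.  Otherwise `m = C.1 + C.2`; if `0 ≤ dt m v` then `InC (Rt C) v`, otherwise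
`0 ≤ dt v m` and `InC (Lf C) v`; `Lf C`, `Rt C` are frames (`Fr.Lf`, `Fr.Rt`) with larger size sum.  Start with `C = ((1,0),(0,1))`.

`cell_unique`.  `v` is primitive with `ll v > A`, so `v ≠ C.1` and `dt C.1 v ≠ 0` by `eq_of_dt_zero'` (`C.1` is primitive): `InO C v`, `InO C' v`.
`ll C.1 ≤ A < ll C'.1 + ll C'.2`, so `¬ InO C' C.1` (`not_InO`).  `dt C.1 v > 0`, `dt v C'.2 > 0` give `dt C.1 C'.2 > 0`, so `dt C'.1 C.1 ≤ 0`; by
symmetry `dt C.1 C'.1 ≤ 0`, so `dt C.1 C'.1 = 0` and `C.1 = C'.1`.  In the same way `C.2 = C'.2`.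

`Sb_iff`.  For `C ∈ CC A`, `C' ∈ CC A'`, `A ≤ A'`, `v = C'.1 + C'.2`: `Sb C C' ↔ InC C v`.  `→`: `dt C.1 C'.1 ≥ 0`, `dt C'.1 v = 1`; `dt v C'.2 = 1`, `dt C'.2 C.2 ≥ 0`.
`←`: if `dt C.1 C'.1 < 0` then `dt C'.1 C.1 > 0`; `dt C.1 v ≥ 0` and `dt v C'.2 = 1` give `dt C.1 C'.2 > 0`, so `InO C' C.1`, against `not_InO`
(`ll C.1 ≤ A ≤ A' < ll C'.1 + ll C'.2`).  In the same way for `C.2`.

`parent`.  `v = C'.1 + C'.2` is primitive (`Fr.primm`) with `ll v > A' ≥ A`: `exists_cell`, `cell_unique`, `Sb_iff`.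

`sum_cells`: `Finset.sum_comm` type: both sides are `∑ C', ∑ C, if Sb C C' then f C' else 0` and the inner sum has exactly one term.
`card_cells` is the case `f = 1`.
-/

namespace Pool.Agent.Lib.MP_d57abb_nt.TA

open Finset Pool.Agent.Lib.MP_d57abb_nt

private theorem Cells_dt_self (v : ℤ × ℤ) : dt v v = 0 := by
  unfold dt; ring

private theorem Cells_ex {A : ℕ} {v : ℤ × ℤ} : ∀ (n : ℕ) (C : (ℤ × ℤ) × (ℤ × ℤ)),
    Fr C → ll C.1 ≤ A → ll C.2 ≤ A → InC C v → (2 * (A : ℤ) - ll C.1 - ll C.2).toNat ≤ n →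
    ∃ C' ∈ CC A, InC C' v := by
  intro n
  induction n with
  | zero =>
    intro C hC h1 h2 hi hn
    have p1 := hC.1.ll_pos
    have p2 := hC.2.1.ll_pos
    exact ⟨C, mem_CC.2 ⟨hC, h1, h2, by omega⟩, hi⟩
  | succ n ih =>
    intro C hC h1 h2 hi hn
    have p1 := hC.1.ll_pos
    have p2 := hC.2.1.ll_pos
    by_cases hA : (A : ℤ) < ll C.1 + ll C.2
    · exact ⟨C, mem_CC.2 ⟨hC, h1, h2, hA⟩, hi⟩
    · have hm := ll_add C.1 C.2
      rcases le_total 0 (dt (C.1 + C.2) v) with h | h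
      · refine ih (TA.Rt C) hC.Rt ?_ h2 ⟨h, hi.2⟩ ?_
        · show ll (C.1 + C.2) ≤ A
          omega
        · show (2 * (A : ℤ) - ll (C.1 + C.2) - ll C.2).toNat ≤ n
          omega
      · refine ih (TA.Lf C) hC.Lf h1 ?_ ⟨hi.1, ?_⟩ ?_
        · show ll (C.1 + C.2) ≤ A
          omega
        · show 0 ≤ dt v (C.1 + C.2)
          rw [dt_swap (C.1 + C.2) v]
          omega
        · show (2 * (A : ℤ) - ll C.1 - ll (C.1 + C.2)).toNat ≤ n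
          omega

theorem exists_cell {A : ℕ} (hA : 1 ≤ A) {v : ℤ × ℤ} (hv : Qd v) : ∃ C ∈ CC A, InC C v := by
  have hA' : (1 : ℤ) ≤ A := by exact_mod_cast hA
  refine Cells_ex _ ((1, 0), (0, 1)) ⟨⟨by norm_num, by norm_num, ?_⟩, ⟨by norm_num, by norm_num, ?_⟩, ?_⟩
    ?_ ?_ ⟨?_, ?_⟩ le_rfl
  · intro h
    have := congrArg Prod.fst h
    simp at this
  · intro h
    have := congrArg Prod.snd h
    simp at this
  · simp [dt]
  · simpa [ll] using hA'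
  · simpa [ll] using hA'
  · simpa [dt] using hv.2.1
  · simpa [dt] using hv.1

private theorem Cells_InO {A : ℕ} {C : (ℤ × ℤ) × (ℤ × ℤ)} (hC : C ∈ CC A) {v : ℤ × ℤ}
    (hv : Qd v) (hc : IsCoprime v.1 v.2) (hl : (A : ℤ) < ll v) (h : InC C v) : InO C v := by
  obtain ⟨hF, h1, h2, h3⟩ := mem_CC.1 hC
  refine ⟨lt_of_le_of_ne h.1 fun h0 => ?_, lt_of_le_of_ne h.2 fun h0 => ?_⟩
  · have e := eq_of_dt_zero' hF.1 hv hF.prim1 hc h0.symm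
    rw [e] at h1
    omega
  · have e := eq_of_dt_zero' hv hF.2.1 hc hF.prim2 h0.symm
    rw [← e] at h2
    omega

private theorem Cells_fst {A : ℕ} {C C' : (ℤ × ℤ) × (ℤ × ℤ)} (hC : C ∈ CC A) (hC' : C' ∈ CC A)
    {v : ℤ × ℤ} (hv : Qd v) (h : InO C v) (h' : InO C' v) : 0 ≤ dt C.1 C'.1 := by
  obtain ⟨hF, h1, h2, h3⟩ := mem_CC.1 hC
  obtain ⟨hF', h1', h2', h3'⟩ := mem_CC.1 hC'
  by_contra hn
  refine not_InO hF' (z := C.1) (by omega) ⟨?_, ?_⟩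
  · rw [dt_swap C.1 C'.1]
    omega
  · exact pos_trans hF.1 hv hF'.2.1 h.1 h'.2.le

private theorem Cells_snd {A : ℕ} {C C' : (ℤ × ℤ) × (ℤ × ℤ)} (hC : C ∈ CC A) (hC' : C' ∈ CC A)
    {v : ℤ × ℤ} (hv : Qd v) (h : InO C v) (h' : InO C' v) : 0 ≤ dt C'.2 C.2 := by
  obtain ⟨hF, h1, h2, h3⟩ := mem_CC.1 hC
  obtain ⟨hF', h1', h2', h3'⟩ := mem_CC.1 hC'
  by_contra hn
  refine not_InO hF' (z := C.2) (by omega) ⟨?_, ?_⟩
  · exact pos_trans hF'.1 hv hF.2.1 h'.1 h.2.le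
  · rw [dt_swap C'.2 C.2]
    omega

theorem cell_unique {A : ℕ} {C C' : (ℤ × ℤ) × (ℤ × ℤ)} (hC : C ∈ CC A) (hC' : C' ∈ CC A) {v : ℤ × ℤ}
    (hv : Qd v) (hc : IsCoprime v.1 v.2) (hl : (A : ℤ) < ll v) (h : InC C v) (h' : InC C' v) :
    C = C' := by
  have o := Cells_InO hC hv hc hl h
  have o' := Cells_InO hC' hv hc hl h'
  obtain ⟨hF, -, -, -⟩ := mem_CC.1 hC
  obtain ⟨hF', -, -, -⟩ := mem_CC.1 hC'
  have a1 := Cells_fst hC hC' hv o o'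
  have a2 := Cells_fst hC' hC hv o' o
  have b1 := Cells_snd hC hC' hv o o'
  have b2 := Cells_snd hC' hC hv o' o
  rw [dt_swap C.1 C'.1] at a2
  rw [dt_swap C.2 C'.2] at b1
  have e1 : C.1 = C'.1 := eq_of_dt_zero' hF.1 hF'.1 hF.prim1 hF'.prim1 (by omega)
  have e2 : C.2 = C'.2 := eq_of_dt_zero' hF.2.1 hF'.2.1 hF.prim2 hF'.prim2 (by omega)
  exact Prod.ext e1 e2

theorem InO_of_prim {A : ℕ} {C : (ℤ × ℤ) × (ℤ × ℤ)} (hC : C ∈ CC A) {v : ℤ × ℤ}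
    (hv : Qd v) (hc : IsCoprime v.1 v.2) (hl : (A : ℤ) < ll v) (h : InC C v) : InO C v :=
  Cells_InO hC hv hc hl h

theorem Sb_iff {A A' : ℕ} (h : A ≤ A') {C C' : (ℤ × ℤ) × (ℤ × ℤ)} (hC : C ∈ CC A)
    (hC' : C' ∈ CC A') : Sb C C' ↔ InC C (C'.1 + C'.2) := by
  obtain ⟨hF, h1, h2, h3⟩ := mem_CC.1 hC
  obtain ⟨hF', h1', h2', h3'⟩ := mem_CC.1 hC'
  have hA : (A : ℤ) ≤ A' := by exact_mod_cast h
  have hv : Qd (C'.1 + C'.2) := hF'.1.add hF'.2.1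
  have d1 : dt C'.1 (C'.1 + C'.2) = 1 := by
    rw [dt_add_right, Cells_dt_self, hF'.2.2, zero_add]
  have d2 : dt (C'.1 + C'.2) C'.2 = 1 := by
    rw [dt_add_left, Cells_dt_self, hF'.2.2, add_zero]
  constructor
  · rintro ⟨a, b⟩
    exact ⟨nn_trans hF.1 hF'.1 hv a (by omega), nn_trans hv hF'.2.1 hF.2.1 (by omega) b⟩
  · rintro ⟨a, b⟩
    refine ⟨?_, ?_⟩
    · by_contra hn
      refine not_InO hF' (z := C.1) (by omega) ⟨?_, ?_⟩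
      · rw [dt_swap C.1 C'.1]
        omega
      · exact pos_trans' hF.1 hv hF'.2.1 a (by omega)
    · by_contra hn
      refine not_InO hF' (z := C.2) (by omega) ⟨?_, ?_⟩
      · exact pos_trans hF'.1 hv hF.2.1 (by omega) b
      · rw [dt_swap C'.2 C.2]
        omega

theorem parent {A A' : ℕ} (hA : 1 ≤ A) (h : A ≤ A') {C' : (ℤ × ℤ) × (ℤ × ℤ)} (hC' : C' ∈ CC A') :
    ∃! C, C ∈ CC A ∧ Sb C C' := by
  obtain ⟨hF', h1', h2', h3'⟩ := mem_CC.1 hC'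
  have hAA : (A : ℤ) ≤ A' := by exact_mod_cast h
  have hv : Qd (C'.1 + C'.2) := hF'.1.add hF'.2.1
  obtain ⟨C, hC, hi⟩ := exists_cell hA hv
  refine ⟨C, ⟨hC, (Sb_iff h hC hC').2 hi⟩, ?_⟩
  rintro D ⟨hD, hs⟩
  refine cell_unique hD hC hv hF'.primm ?_ ((Sb_iff h hD hC').1 hs) hi
  rw [ll_add]
  omega

open Classical in
theorem sum_cells {A A' : ℕ} (hA : 1 ≤ A) (h : A ≤ A') (f : (ℤ × ℤ) × (ℤ × ℤ) → ℝ) :
    ∑ C' ∈ CC A', f C' = ∑ C ∈ CC A, ∑ C' ∈ (CC A').filter (Sb C), f C' := by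
  have e : ∀ C ∈ CC A, ∑ C' ∈ (CC A').filter (Sb C), f C' =
      ∑ C' ∈ CC A', if Sb C C' then f C' else 0 := fun C _ => Finset.sum_filter _ _
  rw [Finset.sum_congr rfl e, Finset.sum_comm]
  refine Finset.sum_congr rfl fun C' hC' => ?_
  obtain ⟨C, ⟨hC, hs⟩, hu⟩ := parent hA h hC'
  rw [Finset.sum_eq_single C]
  · rw [if_pos hs]
  · intro D hD hne
    rw [if_neg]
    intro hs'
    exact hne (hu D ⟨hD, hs'⟩)
  · intro hn
    exact absurd hC hn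

theorem CC_nonempty {A : ℕ} (hA : 1 ≤ A) : (CC A).Nonempty := by
  obtain ⟨C, hC, -⟩ := exists_cell hA (v := (1, 0))
    ⟨by norm_num, by norm_num, fun h => by
      have := congrArg Prod.fst h
      simp at this⟩
  exact ⟨C, hC⟩

end Pool.Agent.Lib.MP_d57abb_nt.TA
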