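import Pool.Agent.Lib.MP_d57abb_nt.TA.Rec
import Pool.Agent.Lib.MP_d57abb_nt.TA.Tree

/-!
# JOB Code: coding trees (about 150 lines)

`QQ P yl yr T y` is the probability that the following random process produces the tree `T`: with probability `1/2` output a tree with the law `P · y`, with
probability `1/2` output a node whose halves are produced in the same way, with the parameters `yl y`, `yr y`.

`QQ_sum`.  Define the depth of a tree (`lf` 0, `nd l r`: `max + 1`).  Prove by induction on `n`: for all `y` and all finite sets `F` of trees of depth `≤ n`,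
`∑ T ∈ F, QQ T y ≤ 1`.  `QQ T y = P T y / 2 + (T = nd l r ? QQ l (yl y) * QQ r (yr y) / 2 : 0)`.  The first terms sum to `≤ 1/2` (`h1`).  For the second:
the trees of `F` of the form `nd l r` inject into `Fl × Fr` (`Fl`, `Fr` = images: the left, right halves), of depth `≤ n - 1`, so the sum is
`≤ (1/2) (∑ l ∈ Fl, QQ l (yl y)) (∑ r ∈ Fr, QQ r (yr y)) ≤ 1/2`.  (For `n = 0` there are no nodes.)  Nonnegativity `QQ_nonneg` by induction on the tree.

`QQ_bound`.  `frame_induction` (file `Rec`) for the property: `- log QQ (tr q L N C) (Y C) ≤ ∑ C' ∈ (CC A').filter (Sb C), (2 log 2 - log (P (tr q L N C') (Y C'))) - log 2`.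
`C ∈ CC A'`: `sum_leaf`; `QQ T y ≥ P T y / 2`, `- log (P / 2) = log 2 - log P`.  Node (`ll C.1 + ll C.2 ≤ A' ≤ L`): `tr_nd`, `QQ (nd l r) y ≥ QQ l (yl y) * QQ r (yr y) / 2`, `Y (Lf C) = yl (Y C)`,
`Y (Rt C) = yr (Y C)`, `sum_node`; `log 2 + (Σ₁ - log 2) + (Σ₂ - log 2) = Σ - log 2`.  Positivity of `QQ (tr q L N C) (Y C)` has to be carried along in the induction.
-/

namespace Pool.Agent.Lib.MP_d57abb_nt.TA

open Finset Pool.Agent.Lib.MP_d57abb_nt

/-- the law of the random tree -/
noncomputable def QQ {β γ : Type} (P : Tr β → γ → ℝ) (yl yr : γ → γ) : Tr β → γ → ℝ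
  | Tr.lf b, y => P (Tr.lf b) y / 2
  | Tr.nd l r, y => P (Tr.nd l r) y / 2 + QQ P yl yr l (yl y) * QQ P yl yr r (yr y) / 2

theorem QQ_nonneg {β γ : Type} {P : Tr β → γ → ℝ} (h0 : ∀ T y, 0 ≤ P T y) (yl yr : γ → γ)
    (T : Tr β) (y : γ) : 0 ≤ QQ P yl yr T y := by
  induction T generalizing y with
  | lf b => simp only [QQ]; have := h0 (Tr.lf b) y; positivity
  | nd l r ihl ihr =>
    simp only [QQ]
    have h1 := h0 (Tr.nd l r) y
    have h2 := ihl (yl y)
    have h3 := ihr (yr y)
    positivity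

private def Code_dep {β : Type} : Tr β → ℕ
  | Tr.lf _ => 0
  | Tr.nd l r => max (Code_dep l) (Code_dep r) + 1

private def Code_lh {β : Type} : Tr β → Tr β
  | Tr.lf b => Tr.lf b
  | Tr.nd l _ => l

private def Code_rh {β : Type} : Tr β → Tr β
  | Tr.lf b => Tr.lf b
  | Tr.nd _ r => r

private def Code_isnd {β : Type} : Tr β → Prop
  | Tr.lf _ => False
  | Tr.nd _ _ => True

private theorem Code_sum_aux {β γ : Type} {P : Tr β → γ → ℝ} (h0 : ∀ T y, 0 ≤ P T y)
    (h1 : ∀ y, ∀ F : Finset (Tr β), ∑ T ∈ F, P T y ≤ 1) (yl yr : γ → γ) (n : ℕ) :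
    ∀ y : γ, ∀ F : Finset (Tr β), (∀ T ∈ F, Code_dep T < n) → ∑ T ∈ F, QQ P yl yr T y ≤ 1 := by
  classical
  induction n with
  | zero =>
    intro y F hF
    have : F = ∅ := by
      rw [Finset.eq_empty_iff_forall_notMem]
      intro T hT
      exact absurd (hF T hT) (Nat.not_lt_zero _)
    rw [this]
    simp
  | succ n ih =>
    intro y F hF
    set Fn := F.filter Code_isnd with hFn
    set g : Tr β × Tr β → ℝ := fun p => QQ P yl yr p.1 (yl y) * QQ P yl yr p.2 (yr y) / 2 with hg
    have hg0 : ∀ p, 0 ≤ g p := by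
      intro p
      have h2 := QQ_nonneg h0 yl yr p.1 (yl y)
      have h3 := QQ_nonneg h0 yl yr p.2 (yr y)
      simp only [hg]
      positivity
    -- decomposition of the terms
    have hdec : ∀ T, QQ P yl yr T y =
        P T y / 2 + (if Code_isnd T then g (Code_lh T, Code_rh T) else 0) := by
      intro T
      cases T with
      | lf b => simp [QQ, Code_isnd]
      | nd l r => simp [QQ, Code_isnd, Code_lh, Code_rh, hg]
    have hsum : ∑ T ∈ F, QQ P yl yr T y =
        (∑ T ∈ F, P T y) / 2 + ∑ T ∈ Fn, g (Code_lh T, Code_rh T) := by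
      rw [Finset.sum_congr rfl (fun T _ => hdec T), Finset.sum_add_distrib, Finset.sum_div,
        ← Finset.sum_filter]
    have hinj : Set.InjOn (fun T : Tr β => (Code_lh T, Code_rh T)) (Fn : Set (Tr β)) := by
      intro T hT T' hT' h
      have hTn : Code_isnd T := (Finset.mem_filter.mp (Finset.mem_coe.mp hT)).2
      have hTn' : Code_isnd T' := (Finset.mem_filter.mp (Finset.mem_coe.mp hT')).2
      cases T with
      | lf b => exact absurd hTn (by simp [Code_isnd])
      | nd l r =>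
        cases T' with
        | lf b => exact absurd hTn' (by simp [Code_isnd])
        | nd l' r' =>
          simp only [Code_lh, Code_rh, Prod.mk.injEq] at h
          rw [h.1, h.2]
    have hle : ∑ T ∈ Fn, g (Code_lh T, Code_rh T) ≤
        ∑ p ∈ (Fn.image Code_lh) ×ˢ (Fn.image Code_rh), g p := by
      rw [← Finset.sum_image (f := g) (g := fun T : Tr β => (Code_lh T, Code_rh T)) hinj]
      apply Finset.sum_le_sum_of_subset_of_nonneg
      · intro p hp
        obtain ⟨T, hT, rfl⟩ := Finset.mem_image.mp hp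
        exact Finset.mem_product.mpr ⟨Finset.mem_image_of_mem _ hT, Finset.mem_image_of_mem _ hT⟩
      · intro p _ _
        exact hg0 p
    have hprod : ∑ p ∈ (Fn.image Code_lh) ×ˢ (Fn.image Code_rh), g p =
        (∑ l ∈ Fn.image Code_lh, QQ P yl yr l (yl y)) *
          (∑ r ∈ Fn.image Code_rh, QQ P yl yr r (yr y)) / 2 := by
      rw [Finset.sum_mul_sum, Finset.sum_product, Finset.sum_div]
      apply Finset.sum_congr rfl
      intro l _
      rw [Finset.sum_div]
    have hdl : ∀ T ∈ Fn.image Code_lh, Code_dep T < n := by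
      intro T hT
      obtain ⟨T', hT', rfl⟩ := Finset.mem_image.mp hT
      have hm := Finset.mem_filter.mp hT'
      have h2 := hF T' hm.1
      cases T' with
      | lf b => exact absurd hm.2 (by simp [Code_isnd])
      | nd l r =>
        simp only [Code_dep] at h2
        simp only [Code_lh]
        have := le_max_left (Code_dep l) (Code_dep r)
        omega
    have hdr : ∀ T ∈ Fn.image Code_rh, Code_dep T < n := by
      intro T hT
      obtain ⟨T', hT', rfl⟩ := Finset.mem_image.mp hT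
      have hm := Finset.mem_filter.mp hT'
      have h2 := hF T' hm.1
      cases T' with
      | lf b => exact absurd hm.2 (by simp [Code_isnd])
      | nd l r =>
        simp only [Code_dep] at h2
        simp only [Code_rh]
        have := le_max_right (Code_dep l) (Code_dep r)
        omega
    have hl := ih (yl y) _ hdl
    have hr := ih (yr y) _ hdr
    have hl0 : 0 ≤ ∑ l ∈ Fn.image Code_lh, QQ P yl yr l (yl y) :=
      Finset.sum_nonneg (fun l _ => QQ_nonneg h0 yl yr l (yl y))
    have hr0 : 0 ≤ ∑ r ∈ Fn.image Code_rh, QQ P yl yr r (yr y) :=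
      Finset.sum_nonneg (fun r _ => QQ_nonneg h0 yl yr r (yr y))
    have h5 : (∑ l ∈ Fn.image Code_lh, QQ P yl yr l (yl y)) *
          (∑ r ∈ Fn.image Code_rh, QQ P yl yr r (yr y)) ≤ 1 := mul_le_one₀ hl hr0 hr
    have h6 := h1 y F
    rw [hsum]
    linarith

theorem QQ_sum {β γ : Type} {P : Tr β → γ → ℝ} (h0 : ∀ T y, 0 ≤ P T y)
    (h1 : ∀ y, ∀ F : Finset (Tr β), ∑ T ∈ F, P T y ≤ 1) (yl yr : γ → γ) (y : γ)
    (F : Finset (Tr β)) : ∑ T ∈ F, QQ P yl yr T y ≤ 1 := by
  apply Code_sum_aux h0 h1 yl yr (F.sup Code_dep + 1) y F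
  intro T hT
  have := Finset.le_sup (f := Code_dep) hT
  omega

open Classical in
theorem QQ_bound {γ : Type} {q : ℕ} {P : Tr (ZMod q × ZMod q) → γ → ℝ} (h0 : ∀ T y, 0 ≤ P T y)
    {yl yr : γ → γ} {Y : (ℤ × ℤ) × (ℤ × ℤ) → γ} (hl : ∀ C, Fr C → Y (Lf C) = yl (Y C))
    (hr : ∀ C, Fr C → Y (Rt C) = yr (Y C)) {A' : ℕ} {L : ℤ} (hL : (A' : ℤ) ≤ L) {N : ℕ} (hN : L ≤ N)
    (hP : ∀ C ∈ CC A', 0 < P (tr q L N C) (Y C)) {C : (ℤ × ℤ) × (ℤ × ℤ)} (hC : Fr C)
    (hC1 : ll C.1 ≤ A') (hC2 : ll C.2 ≤ A') :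
    0 < QQ P yl yr (tr q L N C) (Y C) ∧
    - Real.log (QQ P yl yr (tr q L N C) (Y C)) ≤ ∑ C' ∈ (CC A').filter (Sb C),
      (2 * Real.log 2 - Real.log (P (tr q L N C') (Y C'))) := by
  have hlog2 : 0 < Real.log 2 := Real.log_pos (by norm_num)
  have key : ∀ C : (ℤ × ℤ) × (ℤ × ℤ), Fr C → ll C.1 ≤ A' → ll C.2 ≤ A' →
      (0 < QQ P yl yr (tr q L N C) (Y C) ∧
      - Real.log (QQ P yl yr (tr q L N C) (Y C)) ≤ ∑ C' ∈ (CC A').filter (Sb C),
        (2 * Real.log 2 - Real.log (P (tr q L N C') (Y C'))) - Real.log 2) := by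
    apply frame_induction (fun C => (0 < QQ P yl yr (tr q L N C) (Y C) ∧
      - Real.log (QQ P yl yr (tr q L N C) (Y C)) ≤ ∑ C' ∈ (CC A').filter (Sb C),
        (2 * Real.log 2 - Real.log (P (tr q L N C') (Y C'))) - Real.log 2))
    · intro C hC
      have hpos := hP C hC
      have hge : P (tr q L N C) (Y C) / 2 ≤ QQ P yl yr (tr q L N C) (Y C) := by
        generalize tr q L N C = T
        generalize Y C = y
        cases T with
        | lf b => simp only [QQ]; exact le_rfl
        | nd l r =>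
          simp only [QQ]
          have h2 := QQ_nonneg h0 yl yr l (yl y)
          have h3 := QQ_nonneg h0 yl yr r (yr y)
          have h4 : 0 ≤ QQ P yl yr l (yl y) * QQ P yl yr r (yr y) / 2 := by positivity
          linarith
      have hpos2 : 0 < P (tr q L N C) (Y C) / 2 := by positivity
      refine ⟨lt_of_lt_of_le hpos2 hge, ?_⟩
      rw [sum_leaf hC]
      have h5 := Real.log_le_log hpos2 hge
      rw [Real.log_div hpos.ne' (by norm_num)] at h5
      linarith
    · intro C hC hle hL1 hR1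
      have hle' : ll C.1 + ll C.2 ≤ L := hle.trans hL
      have htr : tr q L N C = Tr.nd (tr q L N (Lf C)) (tr q L N (Rt C)) := tr_nd hN hC hle'
      rw [hl C hC] at hL1
      rw [hr C hC] at hR1
      have hge : QQ P yl yr (tr q L N (Lf C)) (yl (Y C)) * QQ P yl yr (tr q L N (Rt C)) (yr (Y C)) / 2
          ≤ QQ P yl yr (tr q L N C) (Y C) := by
        rw [htr]
        simp only [QQ]
        have := h0 (Tr.nd (tr q L N (Lf C)) (tr q L N (Rt C))) (Y C)
        linarith
      have hpos2 : 0 < QQ P yl yr (tr q L N (Lf C)) (yl (Y C)) *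
          QQ P yl yr (tr q L N (Rt C)) (yr (Y C)) / 2 := by
        have := hL1.1
        have := hR1.1
        positivity
      refine ⟨lt_of_lt_of_le hpos2 hge, ?_⟩
      have h5 := Real.log_le_log hpos2 hge
      rw [Real.log_div (mul_pos hL1.1 hR1.1).ne' (by norm_num),
        Real.log_mul hL1.1.ne' hR1.1.ne'] at h5
      rw [sum_node hC hle]
      have h6 := hL1.2
      have h7 := hR1.2
      linarith
  obtain ⟨h1, h2⟩ := key C hC hC1 hC2
  exact ⟨h1, by linarith⟩

end Pool.Agent.Lib.MP_d57abb_nt.TA
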