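import Pool.Agent.Lib.MP_d57abb_nt.TA.Defs

/-!
# JOB Ent: entropy on a finite set with the uniform measure (about 200 lines)

`fib S f x = #{y ∈ S | f y = f x}`, `Ht S f = (1/|S|) ∑ log (|S| / fib f x)`, `Hc S f g = (1/|S|) ∑ log (fib g x / fib (f,g) x)`.  For `x ∈ S` all the fibre
sizes are `≥ 1` and `≤ |S|` and `fib (f,g) x ≤ fib f x, fib g x`.

* `chain`: `log (|S| / fib (f,g)) = log (|S| / fib g) + log (fib g / fib (f,g))` term by term.
* `Ht_swap`, `Hc_congr`, `Ht_congr`: the fibre sizes are equal.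
* `gibbs`: `log (fib g x / fib (f,g) x) + log (Q (f x) (g x)) ≤ Q (f x) (g x) fib g x / fib (f,g) x - 1` (`Real.log_le_sub_one_of_pos`).  Sum over `x ∈ S`: group
  `x` by the value `(t, y)` of `(f x, g x)` (`Finset.sum_fiberwise_of_maps_to`, image of `(f, g)`): the sum over the fibre of `(t, y)` is
  `Q t y * n_y` (`n_y` = size of the fibre of `y` under `g`), the sum over `t` is `≤ n_y` by `hQ`, and `∑ n_y = |S|`.  So the total is `≤ |S| - |S| = 0`.
* `Hc_le_Ht`: `gibbs` with `Q t y = P(f = t) = #{f = t} / |S|` (the sum over any finite set of `t` is `≤ 1`).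
* `Ht_le_log`: `Ht = Hc S f (fun _ => ())`, `gibbs` with `Q t y = 1 / |T|` for `t ∈ T`, `0` otherwise.  `Hc_le_log` in the same way.
* `Hc_mono_left`: `f' = φ ∘ f` on `S`, so `fib (f', g) ≥ fib (f, g)`.
* `Hc_anti`: `g = φ ∘ g'`: `Hc S f g' ≤ Hc S f g`: `gibbs` for `f` given `g'` with `Q t y' = #{f = t, g = φ y'} / #{g = φ y'}` (`0` if the denominator is `0`).
* `Hc_pair_ge`: `Hc (f | g, h) = H(f, g, h) - H(g, h) ≥ H(f, g) - H(g) - H(h|g)` from `chain`:
  `H((f, g), h) ≥ H(f, g)` and `H(g, h) = H(g) + Hc h g ≤ H(g) + log |T|`.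
* `mi_symm`: both sides are `Ht f + Ht g - Ht (f, g)`.
-/

namespace Pool.Agent.Lib.MP_d57abb_nt.TA

open Finset Pool.Agent.Lib.MP_d57abb_nt

variable {ι α β γ : Type*}

theorem fib_pos {S : Finset ι} (f : ι → α) {x : ι} (hx : x ∈ S) : 0 < fib S f x := by
  classical
  unfold fib
  exact card_pos.mpr ⟨x, mem_filter.mpr ⟨hx, rfl⟩⟩

theorem fib_le (S : Finset ι) (f : ι → α) (x : ι) : fib S f x ≤ S.card := by
  classical
  unfold fib
  exact card_le_card (filter_subset _ _)

private theorem Ent_mono {S : Finset ι} {f : ι → α} {g : ι → β} {x : ι}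
    (h : ∀ y ∈ S, f y = f x → g y = g x) : fib S f x ≤ fib S g x := by
  classical
  unfold fib
  apply card_le_card
  intro y hy
  rw [mem_filter] at hy ⊢
  exact ⟨hy.1, h y hy.1 hy.2⟩

private theorem Ent_eq {S : Finset ι} {f : ι → α} {g : ι → β} {x : ι}
    (h : ∀ y ∈ S, f y = f x ↔ g y = g x) : fib S f x = fib S g x :=
  le_antisymm (Ent_mono (fun y hy => (h y hy).mp)) (Ent_mono (fun y hy => (h y hy).mpr))

private theorem Ent_card {S : Finset ι} {P : ι → Prop} [DecidablePred P] {f : ι → α} {x : ι}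
    (h : ∀ y ∈ S, P y ↔ f y = f x) : (S.filter P).card = fib S f x := by
  classical
  unfold fib
  apply le_antisymm
  · apply card_le_card
    intro y hy
    rw [mem_filter] at hy ⊢
    exact ⟨hy.1, (h y hy.1).mp hy.2⟩
  · apply card_le_card
    intro y hy
    rw [mem_filter] at hy ⊢
    exact ⟨hy.1, (h y hy.1).mpr hy.2⟩

private theorem Ent_sum (S : Finset ι) (f : ι → α) (F : Finset α)
    [∀ t, DecidablePred (fun x => f x = t)] :
    ∑ t ∈ F, (S.filter (fun x => f x = t)).card ≤ S.card := by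
  classical
  rw [← card_biUnion]
  · exact card_le_card (biUnion_subset.mpr (fun t _ => filter_subset _ _))
  · intro t _ t' _ hne
    exact disjoint_left.mpr (fun x hx hx' => hne ((mem_filter.mp hx).2.symm.trans (mem_filter.mp hx').2))

private theorem Ent_posR {S : Finset ι} (f : ι → α) {x : ι} (hx : x ∈ S) :
    (0 : ℝ) < (fib S f x : ℝ) := by
  exact_mod_cast fib_pos f hx

private theorem Ent_cardR {S : Finset ι} {x : ι} (hx : x ∈ S) : (0 : ℝ) < (S.card : ℝ) := by
  exact_mod_cast card_pos.mpr ⟨x, hx⟩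

theorem fib_pair_le (S : Finset ι) (f : ι → α) (g : ι → β) (x : ι) :
    fib S (fun y => (f y, g y)) x ≤ fib S g x := by
  exact Ent_mono (fun y _ h => (Prod.ext_iff.mp h).2)

theorem Ht_nonneg (S : Finset ι) (f : ι → α) : 0 ≤ Ht S f := by
  unfold Ht
  refine div_nonneg (sum_nonneg (fun x hx => Real.log_nonneg ?_)) (Nat.cast_nonneg _)
  rw [one_le_div (Ent_posR f hx)]
  exact_mod_cast fib_le S f x

theorem Hc_nonneg (S : Finset ι) (f : ι → α) (g : ι → β) : 0 ≤ Hc S f g := by
  unfold Hc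
  refine div_nonneg (sum_nonneg (fun x hx => Real.log_nonneg ?_)) (Nat.cast_nonneg _)
  rw [one_le_div (Ent_posR _ hx)]
  exact_mod_cast fib_pair_le S f g x

theorem chain (S : Finset ι) (f : ι → α) (g : ι → β) :
    Ht S (fun y => (f y, g y)) = Ht S g + Hc S f g := by
  unfold Ht Hc
  rw [← add_div, ← sum_add_distrib]
  congr 1
  apply sum_congr rfl
  intro x hx
  have h1 := Ent_cardR hx
  have h2 := Ent_posR g hx
  have h3 := Ent_posR (fun y => (f y, g y)) hx
  rw [Real.log_div h1.ne' h3.ne', Real.log_div h1.ne' h2.ne', Real.log_div h2.ne' h3.ne']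
  ring

theorem Ht_swap (S : Finset ι) (f : ι → α) (g : ι → β) :
    Ht S (fun y => (f y, g y)) = Ht S (fun y => (g y, f y)) := by
  unfold Ht
  congr 1
  apply sum_congr rfl
  intro x hx
  have h : fib S (fun y => (f y, g y)) x = fib S (fun y => (g y, f y)) x := by
    apply Ent_eq
    intro y _
    rw [Prod.mk.injEq, Prod.mk.injEq]
    exact and_comm
  rw [h]

theorem Ht_congr {S : Finset ι} {f : ι → α} {f' : ι → β}
    (h : ∀ x ∈ S, ∀ y ∈ S, f x = f y ↔ f' x = f' y) : Ht S f = Ht S f' := by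
  unfold Ht
  congr 1
  apply sum_congr rfl
  intro x hx
  rw [Ent_eq (fun y hy => h y hy x hx)]

theorem Hc_congr {α' β' : Type*} {S : Finset ι} {f : ι → α} {g : ι → β} {f' : ι → α'} {g' : ι → β'}
    (h : ∀ x ∈ S, ∀ y ∈ S, f x = f y ↔ f' x = f' y) (h' : ∀ x ∈ S, ∀ y ∈ S, g x = g y ↔ g' x = g' y) :
    Hc S f g = Hc S f' g' := by
  unfold Hc
  congr 1
  apply sum_congr rfl
  intro x hx
  have h1 : fib S (fun y => (f y, g y)) x = fib S (fun y => (f' y, g' y)) x := by
    apply Ent_eq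
    intro y hy
    rw [Prod.mk.injEq, Prod.mk.injEq]
    exact and_congr (h y hy x hx) (h' y hy x hx)
  rw [h1, Ent_eq (fun y hy => h' y hy x hx)]

theorem gibbs {S : Finset ι} (hS : S.Nonempty) (f : ι → α) (g : ι → β) (Q : α → β → ℝ)
    (h0 : ∀ t y, 0 ≤ Q t y) (h1 : ∀ y, ∀ F : Finset α, ∑ t ∈ F, Q t y ≤ 1)
    (hp : ∀ x ∈ S, 0 < Q (f x) (g x)) :
    Hc S f g ≤ (∑ x ∈ S, - Real.log (Q (f x) (g x))) / (S.card : ℝ) := by
  classical
  obtain ⟨x₀, hx₀⟩ := hS
  have hcard := Ent_cardR hx₀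
  unfold Hc
  rw [div_le_div_iff_of_pos_right hcard]
  have key : ∑ x ∈ S, Q (f x) (g x) * ((fib S g x : ℝ) / (fib S (fun y => (f y, g y)) x : ℝ)) ≤
      (S.card : ℝ) := by
    set N : α × β → ℕ := fun b => (S.filter (fun y => (f y, g y) = b)).card with hN
    set n : β → ℕ := fun y => (S.filter (fun x => g x = y)).card with hn
    have e1 : ∀ x ∈ S, Q (f x) (g x) * ((fib S g x : ℝ) / (fib S (fun y => (f y, g y)) x : ℝ)) =
        (fun b : α × β => Q b.1 b.2 * ((n b.2 : ℝ) / (N b : ℝ))) ((fun y => (f y, g y)) x) := by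
      intro x _
      have b1 : n (g x) = fib S g x := Ent_card (fun _ _ => Iff.rfl)
      have b2 : N (f x, g x) = fib S (fun y => (f y, g y)) x := Ent_card (fun _ _ => Iff.rfl)
      show _ = Q (f x) (g x) * ((n (g x) : ℝ) / (N (f x, g x) : ℝ))
      rw [b1, b2]
    rw [sum_congr rfl e1, sum_comp (fun b : α × β => Q b.1 b.2 * ((n b.2 : ℝ) / (N b : ℝ)))
      (fun y => (f y, g y))]
    have e2 : ∀ b ∈ S.image (fun y => (f y, g y)),
        (S.filter (fun y => (f y, g y) = b)).card • (Q b.1 b.2 * ((n b.2 : ℝ) / (N b : ℝ))) =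
        Q b.1 b.2 * (n b.2 : ℝ) := by
      intro b hb
      obtain ⟨x, hx, hxb⟩ := mem_image.mp hb
      have hpos : 0 < N b := card_pos.mpr ⟨x, mem_filter.mpr ⟨hx, hxb⟩⟩
      have hpos' : (0 : ℝ) < (N b : ℝ) := by exact_mod_cast hpos
      rw [nsmul_eq_mul]
      show (N b : ℝ) * (Q b.1 b.2 * ((n b.2 : ℝ) / (N b : ℝ))) = _
      field_simp
    rw [sum_congr rfl e2]
    have e3 : S.image (fun y => (f y, g y)) ⊆ S.image f ×ˢ S.image g := by
      intro b hb
      obtain ⟨x, hx, hxb⟩ := mem_image.mp hb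
      rw [← hxb]
      exact mem_product.mpr ⟨mem_image_of_mem f hx, mem_image_of_mem g hx⟩
    refine (sum_le_sum_of_subset_of_nonneg e3 (fun b _ _ =>
      mul_nonneg (h0 _ _) (Nat.cast_nonneg _))).trans ?_
    rw [sum_product_right]
    have e4 : ∀ y ∈ S.image g, ∑ t ∈ S.image f, Q t y * (n y : ℝ) ≤ (n y : ℝ) := by
      intro y _
      rw [← sum_mul]
      calc (∑ t ∈ S.image f, Q t y) * (n y : ℝ) ≤ 1 * (n y : ℝ) :=
            mul_le_mul_of_nonneg_right (h1 y _) (Nat.cast_nonneg _)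
        _ = n y := one_mul _
    refine (sum_le_sum e4).trans (le_of_eq ?_)
    rw [← Nat.cast_sum]
    exact congrArg _ (card_eq_sum_card_image g S).symm
  have h2 : ∀ x ∈ S, Real.log ((fib S g x : ℝ) / (fib S (fun y => (f y, g y)) x : ℝ)) ≤
      - Real.log (Q (f x) (g x)) +
        (Q (f x) (g x) * ((fib S g x : ℝ) / (fib S (fun y => (f y, g y)) x : ℝ)) - 1) := by
    intro x hx
    have a1 := hp x hx
    have a2 : 0 < (fib S g x : ℝ) / (fib S (fun y => (f y, g y)) x : ℝ) :=
      div_pos (Ent_posR _ hx) (Ent_posR _ hx)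
    have a3 := Real.log_le_sub_one_of_pos (mul_pos a1 a2)
    rw [Real.log_mul a1.ne' a2.ne'] at a3
    linarith
  refine (sum_le_sum h2).trans ?_
  rw [sum_add_distrib, sum_sub_distrib, sum_const, nsmul_eq_mul, mul_one]
  linarith

theorem Hc_le_Ht (S : Finset ι) (f : ι → α) (g : ι → β) : Hc S f g ≤ Ht S f := by
  classical
  rcases S.eq_empty_or_nonempty with hS | hS
  · subst hS
    simp [Hc, Ht]
  have hcard : (0 : ℝ) < (S.card : ℝ) := by exact_mod_cast card_pos.mpr hS
  have h := gibbs hS f g (fun t _ => ((S.filter (fun x => f x = t)).card : ℝ) / (S.card : ℝ))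
    (fun t _ => by positivity) (fun _ F => ?_) (fun x hx => ?_)
  · refine h.trans (le_of_eq ?_)
    unfold Ht
    congr 1
    apply sum_congr rfl
    intro x hx
    have h1 : ((S.filter (fun y => f y = f x)).card : ℝ) = (fib S f x : ℝ) := rfl
    have h2 := Ent_posR f hx
    show - Real.log (((S.filter (fun y => f y = f x)).card : ℝ) / (S.card : ℝ)) = _
    rw [h1, Real.log_div h2.ne' hcard.ne', Real.log_div hcard.ne' h2.ne']
    ring
  · show ∑ t ∈ F, ((S.filter (fun x => f x = t)).card : ℝ) / (S.card : ℝ) ≤ 1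
    rw [← sum_div, div_le_one hcard, ← Nat.cast_sum]
    exact_mod_cast Ent_sum S f F
  · exact div_pos (Ent_posR f hx) hcard

theorem Hc_unit (S : Finset ι) (f : ι → α) : Hc S f (fun _ => ()) = Ht S f := by
  unfold Hc Ht
  congr 1
  apply sum_congr rfl
  intro x hx
  have h1 : fib S (fun _ : ι => ()) x = S.card := by
    rw [← Ent_card (S := S) (P := fun _ : ι => True) (f := fun _ : ι => ()) (x := x)
      (fun _ _ => ⟨fun _ => rfl, fun _ => trivial⟩)]
    rw [filter_true_of_mem (fun _ _ => trivial)]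
  have h2 : fib S (fun y => (f y, ())) x = fib S f x := by
    apply Ent_eq
    intro y _
    rw [Prod.mk.injEq]
    simp
  rw [h1, h2]

theorem Ht_le_log {S : Finset ι} (hS : S.Nonempty) (f : ι → α) {T : Finset α}
    (hT : ∀ x ∈ S, f x ∈ T) : Ht S f ≤ Real.log T.card := by
  classical
  obtain ⟨x₀, hx₀⟩ := hS
  have hT0 : (0 : ℝ) < (T.card : ℝ) := by
    exact_mod_cast card_pos.mpr ⟨f x₀, hT x₀ hx₀⟩
  have hcard := Ent_cardR hx₀
  rw [← Hc_unit]
  have h := gibbs ⟨x₀, hx₀⟩ f (fun _ : ι => ()) (fun t _ => if t ∈ T then 1 / (T.card : ℝ) else 0)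
    (fun t _ => by split_ifs <;> positivity) (fun _ F => ?_) (fun x hx => ?_)
  · refine h.trans ?_
    have h1 : ∀ x ∈ S, - Real.log ((fun (t : α) (_ : Unit) => if t ∈ T then 1 / (T.card : ℝ) else 0)
        (f x) ((fun _ : ι => ()) x)) = Real.log T.card := by
      intro x hx
      show - Real.log (if f x ∈ T then 1 / (T.card : ℝ) else 0) = _
      rw [if_pos (hT x hx), one_div, Real.log_inv, neg_neg]
    rw [sum_congr rfl h1, sum_const, nsmul_eq_mul]
    rw [mul_comm, mul_div_assoc, div_self hcard.ne', mul_one]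
  · show ∑ t ∈ F, (if t ∈ T then 1 / (T.card : ℝ) else 0) ≤ 1
    rw [← sum_filter, sum_const, nsmul_eq_mul, mul_one_div, div_le_one hT0]
    have h3 : (F.filter (fun t => t ∈ T)).card ≤ T.card := by
      apply card_le_card
      intro t ht
      exact (mem_filter.mp ht).2
    exact_mod_cast h3
  · show 0 < (if f x ∈ T then 1 / (T.card : ℝ) else 0)
    rw [if_pos (hT x hx)]
    positivity

theorem Hc_le_log {S : Finset ι} (hS : S.Nonempty) (f : ι → α) (g : ι → β) {T : Finset α}
    (hT : ∀ x ∈ S, f x ∈ T) : Hc S f g ≤ Real.log T.card := by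
  exact (Hc_le_Ht S f g).trans (Ht_le_log hS f hT)

theorem Ht_le_pair (S : Finset ι) (f : ι → α) (g : ι → β) : Ht S f ≤ Ht S (fun y => (f y, g y)) := by
  rw [Ht_swap, chain]
  have := Hc_nonneg S g f
  linarith

theorem Ht_le_add (S : Finset ι) (f : ι → α) (g : ι → β) : Ht S f ≤ Hc S f g + Ht S g := by
  have h1 := Ht_le_pair S f g
  rw [chain] at h1
  linarith

theorem Hc_mono_left {S : Finset ι} {f : ι → α} {f' : ι → β} (g : ι → γ)
    (h : ∀ x ∈ S, ∀ y ∈ S, f x = f y → f' x = f' y) : Hc S f' g ≤ Hc S f g := by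
  unfold Hc
  refine div_le_div_of_nonneg_right (sum_le_sum (fun x hx => ?_)) (Nat.cast_nonneg _)
  have h1 := Ent_posR g hx
  have h2 := Ent_posR (fun y => (f y, g y)) hx
  have h3 := Ent_posR (fun y => (f' y, g y)) hx
  apply Real.log_le_log (div_pos h1 h3)
  apply div_le_div_of_nonneg_left h1.le h2
  have h4 : fib S (fun y => (f y, g y)) x ≤ fib S (fun y => (f' y, g y)) x := by
    apply Ent_mono
    intro y hy hxy
    have h5 := Prod.ext_iff.mp hxy
    exact Prod.ext (h y hy x hx h5.1) h5.2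
  exact_mod_cast h4

private theorem Ent_eqv {S : Finset ι} {g : ι → β} {x x' : ι} (h : g x = g x') :
    fib S g x = fib S g x' := by
  unfold fib
  rw [h]

theorem Hc_anti {S : Finset ι} (f : ι → α) {g : ι → β} {g' : ι → γ}
    (h : ∀ x ∈ S, ∀ y ∈ S, g' x = g' y → g x = g y) : Hc S f g' ≤ Hc S f g := by
  classical
  rcases S.eq_empty_or_nonempty with hS | hS
  · subst hS
    simp [Hc]
  obtain ⟨x₀, hx₀⟩ := hS
  set r : γ → ι := fun y => if hy : ∃ x ∈ S, g' x = y then hy.choose else x₀ with hr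
  have hrS : ∀ y, r y ∈ S := by
    intro y
    rw [hr]
    show (if hy : ∃ x ∈ S, g' x = y then hy.choose else x₀) ∈ S
    split_ifs with hy
    · exact hy.choose_spec.1
    · exact hx₀
  have hrg : ∀ x ∈ S, g (r (g' x)) = g x := by
    intro x hx
    have hex : ∃ z ∈ S, g' z = g' x := ⟨x, hx, rfl⟩
    have e1 : r (g' x) = hex.choose := by
      rw [hr]
      exact dif_pos hex
    have e2 : g' (r (g' x)) = g' x := by
      rw [e1]
      exact hex.choose_spec.2
    exact h _ (hrS _) x hx e2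
  have hden : ∀ y, (0 : ℝ) < (fib S g (r y) : ℝ) := fun y => Ent_posR g (hrS y)
  have hQ : ∀ x ∈ S, ((S.filter (fun z => f z = f x ∧ g z = g (r (g' x)))).card : ℝ) /
      (fib S g (r (g' x)) : ℝ) = (fib S (fun y => (f y, g y)) x : ℝ) / (fib S g x : ℝ) := by
    intro x hx
    have a1 : (S.filter (fun z => f z = f x ∧ g z = g (r (g' x)))).card =
        fib S (fun y => (f y, g y)) x := by
      apply Ent_card
      intro z _
      rw [hrg x hx, Prod.mk.injEq]
    have a2 : fib S g (r (g' x)) = fib S g x := by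
      apply Ent_eqv
      exact hrg x hx
    rw [a1, a2]
  have hg := gibbs ⟨x₀, hx₀⟩ f g' (fun t y => ((S.filter (fun z => f z = t ∧ g z = g (r y))).card : ℝ) /
      (fib S g (r y) : ℝ)) (fun t y => by positivity) (fun y F => ?_) (fun x hx => ?_)
  · refine hg.trans (le_of_eq ?_)
    unfold Hc
    congr 1
    apply sum_congr rfl
    intro x hx
    show - Real.log (((S.filter (fun z => f z = f x ∧ g z = g (r (g' x)))).card : ℝ) /
      (fib S g (r (g' x)) : ℝ)) = _
    rw [hQ x hx, ← Real.log_inv, inv_div]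
  · show ∑ t ∈ F, ((S.filter (fun z => f z = t ∧ g z = g (r y))).card : ℝ) /
      (fib S g (r y) : ℝ) ≤ 1
    rw [← sum_div, div_le_one (hden y), ← Nat.cast_sum]
    have h3 : ∑ t ∈ F, (S.filter (fun z => f z = t ∧ g z = g (r y))).card ≤ fib S g (r y) := by
      have h4 : ∀ t ∈ F, (S.filter (fun z => f z = t ∧ g z = g (r y))).card =
          ((S.filter (fun z => g z = g (r y))).filter (fun z => f z = t)).card := by
        intro t _
        rw [filter_filter]
        congr 1
        apply filter_congr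
        intro z _
        exact and_comm
      rw [sum_congr rfl h4]
      refine (Ent_sum _ f F).trans (le_of_eq ?_)
      exact Ent_card (fun _ _ => Iff.rfl)
    exact_mod_cast h3
  · show 0 < ((S.filter (fun z => f z = f x ∧ g z = g (r (g' x)))).card : ℝ) /
      (fib S g (r (g' x)) : ℝ)
    rw [hQ x hx]
    exact div_pos (Ent_posR _ hx) (Ent_posR _ hx)

theorem Hc_pair_ge {S : Finset ι} (hS : S.Nonempty) (f : ι → α) (g : ι → β) (h : ι → γ) {T : Finset γ}
    (hT : ∀ x ∈ S, h x ∈ T) : Hc S f g - Real.log T.card ≤ Hc S f (fun y => (g y, h y)) := by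
  have h1 : Ht S (fun y => (f y, (g y, h y))) = Ht S (fun y => (g y, h y)) +
      Hc S f (fun y => (g y, h y)) := chain S f (fun y => (g y, h y))
  have h2 : Ht S (fun y => (f y, (g y, h y))) = Ht S (fun y => ((f y, g y), h y)) := by
    apply Ht_congr
    intro x _ y _
    simp only [Prod.mk.injEq]
    exact and_assoc.symm
  have h3 : Ht S (fun y => (f y, g y)) ≤ Ht S (fun y => ((f y, g y), h y)) :=
    Ht_le_pair S (fun y => (f y, g y)) h
  have h4 := chain S f g
  have h5 : Ht S (fun y => (g y, h y)) = Ht S g + Hc S h g := by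
    rw [Ht_swap]
    exact chain S h g
  have h6 := Hc_le_log hS h g hT
  linarith

theorem mi_symm (S : Finset ι) (f : ι → α) (g : ι → β) :
    Ht S f - Hc S f g = Ht S g - Hc S g f := by
  have h1 := chain S f g
  have h2 := chain S g f
  have h3 := Ht_swap S f g
  linarith

end Pool.Agent.Lib.MP_d57abb_nt.TA
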