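import Pool.Agent.Lib.MP_d57abb_nt.TA.Code
import Pool.Agent.Lib.MP_d57abb_nt.TA.Ent

/-!
# JOB Dec: the entropy inequality between scales (about 150 lines)

`dec`.  Let `S = CC (k A)`, `X' = XX q R (k A)` on `S`, `P T y = #{C' ∈ S | X' C' = T, Y C' = y} / #{C' ∈ S | Y C' = y}` (`0` if the denominator is `0`; division by zero is zero).
`0 ≤ P`, the sum of `P T y` over any finite set of trees is `≤ 1`.  With `L = R k A` (as an integer), `N = R k A`: for `C' ∈ S`: `X' C' = tr q L N C'` and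
`P (X' C') (Y C') = fib S (X', Y) C' / fib S Y C' > 0`, and for `C ∈ CC A`: `XX q (k R) A C = tr q L N C` (the same numbers: `k * R * A = R * (k * A)`, rewrite with `Nat` identities
before unfolding `XX`).
`gibbs` for `S₀ = CC A`, `f = XX q (k R) A`, `g = Y`, `Q = QQ P yl yr` (`QQ_sum`, `QQ_nonneg`, `QQ_bound` with `A' = k A`):
`Hc (CC A) f Y ≤ (1 / |CC A|) ∑ C ∈ CC A, ∑ C' ∈ S.filter (Sb C), (2 log 2 - log P (X' C') (Y C'))`, which is `(1 / |CC A|) ∑ C' ∈ S, (2 log 2 + log (fib Y / fib (X', Y)))` by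
`sum_cells` (`A ≤ k A`), i.e. `(|S| / |CC A|) (2 log 2 + Hc S X' Y)`.
`XX_le`: `dec` with `k = R`, `R = 1`, `Y = fun _ => ()`, `yl = yr = id`, `Hc_unit`: for `C' ∈ CC A'` the tree `XX q 1 A' C'` is a leaf (`tr_lf`), so it has at most `q²` values, `Ht_le_log`
with `T` = the image of `univ ×ˢ univ : Finset (ZMod q × ZMod q)` under `Tr.lf` (`NeZero q`), `log (q²) = 2 log q`.
-/

namespace Pool.Agent.Lib.MP_d57abb_nt.TA

open Finset Pool.Agent.Lib.MP_d57abb_nt

open Classical in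
private noncomputable def Dec_P {ι α γ : Type} (S : Finset ι) (f : ι → α) (g : ι → γ) (T : α) (y : γ) : ℝ :=
  ((S.filter (fun x => f x = T ∧ g x = y)).card : ℝ) / ((S.filter (fun x => g x = y)).card : ℝ)

private theorem Dec_nonneg {ι α γ : Type} (S : Finset ι) (f : ι → α) (g : ι → γ) (T : α) (y : γ) :
    0 ≤ Dec_P S f g T y := by
  unfold Dec_P
  positivity

private theorem Dec_sum {ι α γ : Type} (S : Finset ι) (f : ι → α) (g : ι → γ) (y : γ)
    (F : Finset α) : ∑ T ∈ F, Dec_P S f g T y ≤ 1 := by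
  classical
  unfold Dec_P
  rw [← Finset.sum_div]
  apply div_le_one_of_le₀ _ (by positivity)
  have h1 : ∀ T ∈ F, (S.filter (fun x => f x = T ∧ g x = y)).card =
      (((S.filter (fun x => g x = y)).filter (fun x => f x ∈ F)).filter (fun x => f x = T)).card := by
    intro T hT
    congr 1
    ext x
    simp only [Finset.mem_filter]
    constructor
    · rintro ⟨hx, h2, h3⟩
      exact ⟨⟨⟨hx, h3⟩, h2 ▸ hT⟩, h2⟩
    · rintro ⟨⟨⟨hx, h3⟩, _⟩, h2⟩
      exact ⟨hx, h2, h3⟩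
  have h2 : ∑ T ∈ F, (S.filter (fun x => f x = T ∧ g x = y)).card ≤
      (S.filter (fun x => g x = y)).card := by
    rw [Finset.sum_congr rfl h1, ← Finset.card_eq_sum_card_fiberwise (f := f)]
    · exact Finset.card_le_card (Finset.filter_subset _ _)
    · intro x hx
      exact (Finset.mem_filter.mp (Finset.mem_coe.mp hx)).2
  exact_mod_cast h2

private theorem Dec_val {ι α γ : Type} (S : Finset ι) (f : ι → α) (g : ι → γ) {x : ι} :
    Dec_P S f g (f x) (g x) = (fib S (fun y => (f y, g y)) x : ℝ) / (fib S g x : ℝ) := by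
  unfold Dec_P fib
  congr 3
  · ext y
    simp only [Finset.mem_filter, Prod.mk.injEq]

private theorem Dec_pos {ι α γ : Type} (S : Finset ι) (f : ι → α) (g : ι → γ) {x : ι} (hx : x ∈ S) :
    0 < Dec_P S f g (f x) (g x) := by
  rw [Dec_val]
  have h1 := fib_pos (fun y => (f y, g y)) hx
  have h2 := fib_pos g hx
  positivity

theorem dec {γ : Type} {q R k A : ℕ} (hR : 1 ≤ R) (hk : 1 ≤ k) (hA : 1 ≤ A)
    {yl yr : γ → γ} {Y : (ℤ × ℤ) × (ℤ × ℤ) → γ} (hl : ∀ C, Fr C → Y (Lf C) = yl (Y C))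
    (hr : ∀ C, Fr C → Y (Rt C) = yr (Y C)) :
    Hc (CC A) (XX q (k * R) A) Y ≤ ((CC (k * A)).card : ℝ) / ((CC A).card : ℝ) *
      (2 * Real.log 2 + Hc (CC (k * A)) (XX q R (k * A)) Y) := by
  classical
  set S := CC (k * A) with hS
  set X' := XX q R (k * A) with hX'
  set N : ℕ := k * R * A with hN
  have hN1 : R * (k * A) = N := by rw [hN]; ring
  have hX1 : ∀ C, XX q (k * R) A C = tr q (N : ℤ) N C := fun C => rfl
  have hX2 : ∀ C, X' C = tr q (N : ℤ) N C := by
    intro C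
    rw [hX']
    unfold XX
    rw [hN1]
  have hkA : A ≤ k * A := Nat.le_mul_of_pos_left A (by omega)
  have hkN : ((k * A : ℕ) : ℤ) ≤ (N : ℤ) := by
    rw [← hN1]
    exact_mod_cast Nat.le_mul_of_pos_left (k * A) (by omega)
  have hSne : S.Nonempty := CC_nonempty (by nlinarith)
  have hne : (CC A).Nonempty := CC_nonempty hA
  have hSc : (0 : ℝ) < (S.card : ℝ) := by exact_mod_cast hSne.card_pos
  have hAc : (0 : ℝ) < ((CC A).card : ℝ) := by exact_mod_cast hne.card_pos
  set P : Tr (ZMod q × ZMod q) → γ → ℝ := Dec_P S X' Y with hP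
  have h0 : ∀ T y, 0 ≤ P T y := fun T y => Dec_nonneg S X' Y T y
  have h1 : ∀ y, ∀ F : Finset (Tr (ZMod q × ZMod q)), ∑ T ∈ F, P T y ≤ 1 :=
    fun y F => Dec_sum S X' Y y F
  have hPpos : ∀ C ∈ CC (k * A), 0 < P (tr q (N : ℤ) N C) (Y C) := by
    intro C hC
    rw [← hX2 C]
    exact Dec_pos S X' Y hC
  have hb : ∀ C ∈ CC A, 0 < QQ P yl yr (XX q (k * R) A C) (Y C) ∧
      - Real.log (QQ P yl yr (XX q (k * R) A C) (Y C)) ≤ ∑ C' ∈ (CC (k * A)).filter (Sb C),
      (2 * Real.log 2 - Real.log (P (tr q (N : ℤ) N C') (Y C'))) := by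
    intro C hC
    have hm := mem_CC.mp hC
    have hle : (A : ℤ) ≤ ((k * A : ℕ) : ℤ) := by exact_mod_cast hkA
    rw [hX1 C]
    exact QQ_bound h0 hl hr hkN le_rfl hPpos hm.1 (hm.2.1.trans hle) (hm.2.2.1.trans hle)
  have hg := gibbs hne (XX q (k * R) A) Y (QQ P yl yr) (fun T y => QQ_nonneg h0 yl yr T y)
    (fun y F => QQ_sum h0 h1 yl yr y F) (fun C hC => (hb C hC).1)
  have hsum : ∑ C ∈ CC A, - Real.log (QQ P yl yr (XX q (k * R) A C) (Y C)) ≤
      (S.card : ℝ) * (2 * Real.log 2 + Hc S X' Y) := by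
    calc ∑ C ∈ CC A, - Real.log (QQ P yl yr (XX q (k * R) A C) (Y C))
        ≤ ∑ C ∈ CC A, ∑ C' ∈ (CC (k * A)).filter (Sb C),
          (2 * Real.log 2 - Real.log (P (tr q (N : ℤ) N C') (Y C'))) :=
          Finset.sum_le_sum (fun C hC => (hb C hC).2)
      _ = ∑ C' ∈ S, (2 * Real.log 2 - Real.log (P (tr q (N : ℤ) N C') (Y C'))) := by
          rw [hS, sum_cells hA hkA]
      _ = ∑ C' ∈ S, (2 * Real.log 2 +
          Real.log ((fib S Y C' : ℝ) / (fib S (fun y => (X' y, Y y)) C' : ℝ))) := by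
          apply Finset.sum_congr rfl
          intro C' hC'
          rw [← hX2 C', hP, Dec_val]
          have h3 : (0 : ℝ) < fib S Y C' := by exact_mod_cast fib_pos Y hC'
          have h4 : (0 : ℝ) < fib S (fun y => (X' y, Y y)) C' := by
            exact_mod_cast fib_pos (fun y => (X' y, Y y)) hC'
          rw [Real.log_div h4.ne' h3.ne', Real.log_div h3.ne' h4.ne']
          ring
      _ = (S.card : ℝ) * (2 * Real.log 2 + Hc S X' Y) := by
          rw [Finset.sum_add_distrib, Finset.sum_const, nsmul_eq_mul]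
          unfold Hc
          field_simp
  calc Hc (CC A) (XX q (k * R) A) Y
      ≤ (∑ C ∈ CC A, - Real.log (QQ P yl yr (XX q (k * R) A C) (Y C))) / ((CC A).card : ℝ) := hg
    _ ≤ ((S.card : ℝ) * (2 * Real.log 2 + Hc S X' Y)) / ((CC A).card : ℝ) := by
        gcongr
    _ = (S.card : ℝ) / ((CC A).card : ℝ) * (2 * Real.log 2 + Hc S X' Y) := by ring

theorem XX_le {q R A : ℕ} (hq : 1 ≤ q) (hR : 1 ≤ R) (hA : 1 ≤ A) :
    Ht (CC A) (XX q R A) ≤ ((CC (R * A)).card : ℝ) / ((CC A).card : ℝ) *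
      (2 * Real.log 2 + 2 * Real.log q) := by
  classical
  have : NeZero q := ⟨by omega⟩
  have h1 := dec (γ := Unit) (q := q) (R := 1) (k := R) (A := A) le_rfl hR hA
    (yl := id) (yr := id) (Y := fun _ => ()) (fun C _ => rfl) (fun C _ => rfl)
  rw [mul_one, Hc_unit, Hc_unit] at h1
  have hRA : 1 ≤ R * A := Nat.mul_pos hR hA
  have hne : (CC (R * A)).Nonempty := CC_nonempty hRA
  set T : Finset (Tr (ZMod q × ZMod q)) :=
    (Finset.univ : Finset (ZMod q × ZMod q)).image Tr.lf with hT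
  have hXT : ∀ x ∈ CC (R * A), XX q 1 (R * A) x ∈ T := by
    intro C hC
    have hm := mem_CC.mp hC
    unfold XX
    rw [tr_lf (1 * (R * A)) (by rw [one_mul]; exact hm.2.2.2), hT]
    exact Finset.mem_image_of_mem _ (Finset.mem_univ _)
  have h2 := Ht_le_log hne (XX q 1 (R * A)) hXT
  have hTc : T.card ≤ q * q := by
    calc T.card ≤ (Finset.univ : Finset (ZMod q × ZMod q)).card := Finset.card_image_le
      _ = q * q := by rw [Finset.card_univ, Fintype.card_prod, ZMod.card]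
  have hTpos : 0 < T.card := by
    obtain ⟨C, hC⟩ := hne
    exact Finset.card_pos.mpr ⟨_, hXT C hC⟩
  have h3 : Real.log T.card ≤ 2 * Real.log q := by
    have h4 : (T.card : ℝ) ≤ (q : ℝ) * q := by exact_mod_cast hTc
    have h5 := Real.log_le_log (by exact_mod_cast hTpos) h4
    have hq0 : (q : ℝ) ≠ 0 := by
      have : 0 < q := hq
      positivity
    rw [Real.log_mul hq0 hq0] at h5
    linarith
  refine h1.trans ?_
  have h6 : (0 : ℝ) ≤ ((CC (R * A)).card : ℝ) / ((CC A).card : ℝ) := by positivity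
  apply mul_le_mul_of_nonneg_left _ h6
  linarith

end Pool.Agent.Lib.MP_d57abb_nt.TA
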