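import Mathlib
import Pool.Agent.Lib.MP_d57abb_nt.Basic

/-!
# Definitions for the log-averaged Chowla theorem on Farey pairs

Vectors are pairs of integers; `nm`, `dt`, `kk`, `ml`, `an`, `al` are in `Basic`.
-/

namespace Pool.Agent.Lib.MP_d57abb_nt.TA

open Finset Pool.Agent.Lib.MP_d57abb_nt

noncomputable section

/-- the closed quadrant without the origin -/
def Qd (v : ℤ × ℤ) : Prop := 0 ≤ v.1 ∧ 0 ≤ v.2 ∧ v ≠ 0

/-- the size `x + y` -/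
def ll (v : ℤ × ℤ) : ℤ := v.1 + v.2

/-- a frame: two vectors of the quadrant of determinant one -/
def Fr (C : (ℤ × ℤ) × (ℤ × ℤ)) : Prop := Qd C.1 ∧ Qd C.2 ∧ dt C.1 C.2 = 1

/-- `v` is in the closed cone of the frame -/
def InC (C : (ℤ × ℤ) × (ℤ × ℤ)) (v : ℤ × ℤ) : Prop := 0 ≤ dt C.1 v ∧ 0 ≤ dt v C.2

/-- `v` is in the open cone of the frame -/
def InO (C : (ℤ × ℤ) × (ℤ × ℤ)) (v : ℤ × ℤ) : Prop := 0 < dt C.1 v ∧ 0 < dt v C.2

/-- the cone of `C'` is contained in the cone of `C` -/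
def Sb (C C' : (ℤ × ℤ) × (ℤ × ℤ)) : Prop := 0 ≤ dt C.1 C'.1 ∧ 0 ≤ dt C'.2 C.2

/-- the box `[0, N]²` -/
def Bx (N : ℕ) : Finset (ℤ × ℤ) := Icc (0 : ℤ) N ×ˢ Icc (0 : ℤ) N

/-- the cells of level `A`: the frames of consecutive Farey vectors of size at most `A` -/
def CC (A : ℕ) : Finset ((ℤ × ℤ) × (ℤ × ℤ)) :=
  (Bx A ×ˢ Bx A).filter
    (fun C => dt C.1 C.2 = 1 ∧ ll C.1 ≤ A ∧ ll C.2 ≤ A ∧ (A : ℤ) < ll C.1 + ll C.2)

/-- the vector with coordinates `s` in the frame `C` -/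
def em (C : (ℤ × ℤ) × (ℤ × ℤ)) (s : ℤ × ℤ) : ℤ × ℤ := s.1 • C.1 + s.2 • C.2

/-- the coordinates of `v` in the frame `C` -/
def co (C : (ℤ × ℤ) × (ℤ × ℤ)) (v : ℤ × ℤ) : ℤ × ℤ := (dt v C.2, dt C.1 v)

/-- the two halves of a frame -/
def Lf (C : (ℤ × ℤ) × (ℤ × ℤ)) : (ℤ × ℤ) × (ℤ × ℤ) := (C.1, C.1 + C.2)

def Rt (C : (ℤ × ℤ) × (ℤ × ℤ)) : (ℤ × ℤ) × (ℤ × ℤ) := (C.1 + C.2, C.2)

/-- the balanced cells -/
def CB (n A : ℕ) : Finset ((ℤ × ℤ) × (ℤ × ℤ)) :=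
  (CC A).filter (fun C => (A : ℤ) ≤ n * ll C.1 ∧ (A : ℤ) ≤ n * ll C.2)

/-- the pairs of vectors of the box `[0, N]²` of determinant `m` -/
def pr (N : ℕ) (m : ℤ) : Finset ((ℤ × ℤ) × (ℤ × ℤ)) :=
  (Bx N ×ˢ Bx N).filter (fun x => dt x.1 x.2 = m)

/-- the pairs of primitive vectors of the box `[0, N]²` of determinant `m` -/
def pp2 (N : ℕ) (m : ℤ) : Finset ((ℤ × ℤ) × (ℤ × ℤ)) :=
  (Bx N ×ˢ Bx N).filter (fun x => dt x.1 x.2 = m ∧ IsCoprime x.1.1 x.1.2 ∧ IsCoprime x.2.1 x.2.2)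

/-- the label: number of prime factors of the norm modulo `q` -/
def lb (q : ℕ) (v : ℤ × ℤ) : ZMod q :=
  ((ArithmeticFunction.cardFactors (nm v).natAbs : ℕ) : ZMod q)

/-- the value `z ^ k` for `k` modulo `q` (`z ^ q = 1`) -/
def zz {q : ℕ} (z : ℂ) (k : ZMod q) : ℂ := z ^ k.val

/-- the multiplicative function `z ^ Ω(nm v)` -/
def aa (z : ℂ) (v : ℤ × ℤ) : ℂ := z ^ (ArithmeticFunction.cardFactors (nm v).natAbs)

/-- binary trees with labelled leaves -/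
inductive Tr (β : Type) : Type
  | lf : β → Tr β
  | nd : Tr β → Tr β → Tr β

/-- the Stern-Brocot tree of a frame up to the size `L` (the natural number is fuel) -/
def tr (q : ℕ) (L : ℤ) : ℕ → (ℤ × ℤ) × (ℤ × ℤ) → Tr (ZMod q × ZMod q)
  | 0, C => Tr.lf (lb q C.1, lb q C.2)
  | n + 1, C => if ll C.1 + ll C.2 ≤ L then Tr.nd (tr q L n (Lf C)) (tr q L n (Rt C))
      else Tr.lf (lb q C.1, lb q C.2)

/-- the patch of radius `R` at a cell of level `A` -/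
def XX (q R A : ℕ) (C : (ℤ × ℤ) × (ℤ × ℤ)) : Tr (ZMod q × ZMod q) :=
  tr q ((R * A : ℕ) : ℤ) (R * A) C

/-- the label of the vector with coordinates `s` read off from the tree -/
def look {q : ℕ} : Tr (ZMod q × ZMod q) → ℤ × ℤ → ZMod q
  | Tr.lf b, s => if s.1 = 0 then b.2 else b.1
  | Tr.nd l r, s => if s.2 ≤ s.1 then look l (s.1 - s.2, s.2) else look r (s.1, s.2 - s.1)

/-- size of a fibre -/
def fib {ι α : Type*} (S : Finset ι) (f : ι → α) (x : ι) : ℕ := by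
  classical exact (S.filter (fun y => f y = f x)).card

/-- entropy of `f` on the finite set `S` with the uniform measure -/
def Ht {ι α : Type*} (S : Finset ι) (f : ι → α) : ℝ :=
  (∑ x ∈ S, Real.log ((S.card : ℝ) / (fib S f x : ℝ))) / (S.card : ℝ)

/-- conditional entropy of `f` given `g` -/
def Hc {ι α β : Type*} (S : Finset ι) (f : ι → α) (g : ι → β) : ℝ :=
  (∑ x ∈ S, Real.log ((fib S g x : ℝ) / (fib S (fun y => (f y, g y)) x : ℝ))) / (S.card : ℝ)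

/-- a prime congruent to `± 1` modulo `5` -/
def SP (p : ℕ) : Prop := p.Prime ∧ (p % 5 = 1 ∨ p % 5 = 4)

/-- the set of these primes in `(P / 2, P]` -/
def PS (P : ℕ) : Finset ℕ := by
  classical exact (Ioc (P / 2) P).filter SP

/-- the size of the primes at the scale `2 ^ ρ` : `2 ^ (2 ρ - e)` -/
def PP (e ρ : ℕ) : ℕ := 2 ^ (2 * ρ - e)

end

end Pool.Agent.Lib.MP_d57abb_nt.TA
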