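import Pool.Agent.Lib.MP_d57abb_nt.TA.YLaw
import Pool.Agent.Lib.MP_d57abb_nt.TA.EntN
import Pool.Agent.Lib.MP_d57abb_nt.TA.Ent

/-!
# JOB EntY: the entropy of the positions is almost maximal (about 120 lines)

Let `L = ∑_{p ∈ T} log p`, `ε₁ = min 1 (ε / 4)`: `log (1 + ε₁) ≤ ε / 4`, `n0` from `ylaw T ε₁`, `A` so large that `#{C | ll C.1 < n0} ≤ ε₂ #CC A` with `ε₂ L ≤ ε / 4` (`card_small`) and
`#{C | p ∣ ll C.1} ≤ (2 / p) #CC A` for all `p ∈ T` (`card_dvd`), `A ≥ 1`.  `Ht ≥ Hc (Yv T) (fun C => ll C.1)` (`Hc_le_Ht`).  For `C ∈ CC A`, `n = ll C.1` (a natural number `1 ≤ n ≤ A`),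
`S = {p ∈ T | p ∤ n}`: `fib (fun C => ll C.1) C = φ(n)` (`card_CN`), and if `n ≥ n0`
`fib (Yv T, ll) C ≤ #{C' ∈ CC A | ll C'.1 = n ∧ ∀ p ∈ S, yv p C' = yv p C} ≤ (1 + ε₁) φ(n) ∏_{p ∈ S} 1 / p` (`ylaw` with `Y p = yv p C`), so
`log (fib / fib) ≥ ∑_{p ∈ S} log p - log (1 + ε₁)`; if `n < n0` the log is `≥ 0 ≥ ∑_{p ∈ S} log p - L` (`fib_pair_le`, `fib_pos`).  Sum over `C`:
`#CC · Hc ≥ ∑_C ∑_{p ∈ T, p ∤ ll C.1} log p - #CC log (1 + ε₁) - L #{C | ll C.1 < n0}`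
`= #CC L - ∑_{p ∈ T} log p #{C | p ∣ ll C.1} - .. ≥ #CC (L - ∑ (2 / p) log p - ε / 4 - ε / 4)`.  Finally `log (p + 1) ≤ log p + 1 / p ≤ log p + 2 log p / p` (`p ≥ 2`,
`log 2 > 1 / 2`: `Real.log_two_gt_d9`), so `∑ (log (p + 1) - 4 log p / p) ≤ L - ∑ 2 log p / p`.
-/

namespace Pool.Agent.Lib.MP_d57abb_nt.TA

open Finset Pool.Agent.Lib.MP_d57abb_nt

private theorem EntY_A2 (T : Finset ℕ) (hT : ∀ p ∈ T, SP p) : ∃ A0 : ℕ, ∀ A : ℕ, A0 ≤ A → ∀ p ∈ T,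
    (((CC A).filter (fun C => (p : ℤ) ∣ ll C.1)).card : ℝ) ≤ 2 / p * ((CC A).card : ℝ) := by
  classical
  have h : ∀ p : ℕ, ∃ A0 : ℕ, p ∈ T → ∀ A : ℕ, A0 ≤ A →
      (((CC A).filter (fun C => (p : ℤ) ∣ ll C.1)).card : ℝ) ≤ 2 / p * ((CC A).card : ℝ) := by
    intro p
    by_cases hp : p ∈ T
    · obtain ⟨A0, h0⟩ := card_dvd (hT p hp).1
      exact ⟨A0, fun _ => h0⟩
    · exact ⟨0, fun h => absurd h hp⟩
  choose a ha using h
  refine ⟨T.sup a, fun A hA p hp => ha p hp A ((le_sup hp).trans hA)⟩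

private theorem EntY_fib_le {ι α : Type*} (S : Finset ι) (f : ι → α) (x : ι) (Q : Finset ι)
    (h : ∀ y ∈ S, f y = f x → y ∈ Q) : fib S f x ≤ Q.card := by
  classical
  unfold fib
  refine card_le_card fun y hy => ?_
  have h1 := Finset.mem_filter.1 hy
  exact h y h1.1 h1.2

private theorem EntY_log {p : ℕ} (hp : p.Prime) :
    Real.log ((p : ℝ) + 1) - 4 * Real.log (p : ℝ) / p ≤ Real.log p - 2 / p * Real.log p := by
  have h2 : (2 : ℝ) ≤ p := by exact_mod_cast hp.two_le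
  have h0 : (0 : ℝ) < p := by linarith
  have h3 : Real.log 2 ≤ Real.log p := Real.log_le_log (by norm_num) h2
  have h4 : (1 : ℝ) / 2 ≤ Real.log p := by
    have := Real.log_two_gt_d9
    linarith
  have h5 : Real.log ((p : ℝ) + 1) = Real.log p + Real.log (1 + 1 / p) := by
    rw [← Real.log_mul h0.ne' (by positivity)]
    congr 1
    field_simp
  have h6 : Real.log (1 + 1 / (p : ℝ)) ≤ 1 / p := by
    have := Real.log_le_sub_one_of_pos (show (0 : ℝ) < 1 + 1 / p by positivity)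
    linarith
  have h7 : 1 / (p : ℝ) ≤ 2 / p * Real.log p := by
    rw [div_mul_eq_mul_div]
    exact div_le_div_of_nonneg_right (by linarith) h0.le
  have h8 : 4 * Real.log (p : ℝ) / p = 2 * (2 / p * Real.log p) := by ring
  rw [h5, h8]
  linarith

private theorem EntY_cell (T : Finset ℕ) (hT : ∀ p ∈ T, SP p) {ε₁ : ℝ} (hε₁ : 0 < ε₁) {n0 : ℕ}
    (hy : ∀ n : ℕ, n0 ≤ n → ∀ A : ℕ, n ≤ A → ∀ S ⊆ T, (∀ p ∈ S, ¬ p ∣ n) → ∀ Y : ℕ → ℕ,
      (((CC A).filter (fun C => ll C.1 = n ∧ ∀ p ∈ S, yv p C = Y p)).card : ℝ) ≤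
        (1 + ε₁) * n.totient * ∏ p ∈ S, (1 / (p : ℝ)))
    (A : ℕ) (C : (ℤ × ℤ) × (ℤ × ℤ)) (hC : C ∈ CC A) :
    (∑ p ∈ T, (Real.log p - (if (p : ℤ) ∣ ll C.1 then Real.log p else 0))) - Real.log (1 + ε₁) -
      (if ll C.1 < n0 then (∑ p ∈ T, Real.log (p : ℝ)) else 0) ≤
    Real.log ((fib (CC A) (fun C => ll C.1) C : ℝ) / (fib (CC A) (fun C => (Yv T C, ll C.1)) C : ℝ)) := by
  classical
  have hlp : ∀ p ∈ T, 0 ≤ Real.log (p : ℝ) := fun p hp =>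
    Real.log_nonneg (by exact_mod_cast (hT p hp).1.one_lt.le)
  have hpm := par_mem hC
  have hAn : ll C.1 ≤ A := ((mem_CC).1 hC).2.1
  obtain ⟨n, hn⟩ : ∃ n : ℕ, (n : ℤ) = ll C.1 := ⟨(ll C.1).toNat, Int.toNat_of_nonneg hpm.1.le⟩
  have hn1 : 1 ≤ n := by
    have := hpm.1
    omega
  have hnA : n ≤ A := by omega
  have hG0 : 0 < fib (CC A) (fun C => (Yv T C, ll C.1)) C := fib_pos _ hC
  have hGF : fib (CC A) (fun C => (Yv T C, ll C.1)) C ≤ fib (CC A) (fun C => ll C.1) C :=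
    fib_pair_le (CC A) (Yv T) (fun C => ll C.1) C
  have hG0' : (0 : ℝ) < (fib (CC A) (fun C => (Yv T C, ll C.1)) C : ℝ) := by exact_mod_cast hG0
  have hGF' : (fib (CC A) (fun C => (Yv T C, ll C.1)) C : ℝ) ≤ (fib (CC A) (fun C => ll C.1) C : ℝ) := by
    exact_mod_cast hGF
  have hl0 : 0 ≤ Real.log (1 + ε₁) := Real.log_nonneg (by linarith)
  by_cases hs : ll C.1 < n0
  · rw [if_pos hs]
    have h1 : ∑ p ∈ T, (Real.log (p : ℝ) - (if (p : ℤ) ∣ ll C.1 then Real.log (p : ℝ) else 0)) ≤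
        ∑ p ∈ T, Real.log (p : ℝ) := by
      refine sum_le_sum fun p hp => ?_
      have := hlp p hp
      split_ifs <;> linarith
    have h2 : 0 ≤ Real.log ((fib (CC A) (fun C => ll C.1) C : ℝ) /
        (fib (CC A) (fun C => (Yv T C, ll C.1)) C : ℝ)) := by
      apply Real.log_nonneg
      rw [le_div_iff₀ hG0', one_mul]
      exact hGF'
    linarith
  · rw [if_neg hs, sub_zero]
    have hn0 : n0 ≤ n := by omega
    have hF : fib (CC A) (fun C => ll C.1) C = n.totient := by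
      rw [← card_CN hn1 hnA]
      unfold fib
      refine congrArg Finset.card ?_
      ext y
      simp only [Finset.mem_filter]
      rw [hn]
    set S : Finset ℕ := T.filter (fun p => ¬ p ∣ n) with hS
    have hdvd : ∀ p : ℕ, p ∣ n ↔ (p : ℤ) ∣ ll C.1 := by
      intro p
      rw [← hn, Int.natCast_dvd_natCast]
    have hG : (fib (CC A) (fun C => (Yv T C, ll C.1)) C : ℝ) ≤
        (1 + ε₁) * n.totient * ∏ p ∈ S, (1 / (p : ℝ)) := by
      refine le_trans ?_ (hy n hn0 A hnA S (filter_subset _ _) (fun p hp => (mem_filter.1 hp).2)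
        (fun p => yv p C))
      have h1 : fib (CC A) (fun C => (Yv T C, ll C.1)) C ≤
          ((CC A).filter (fun C' => ll C'.1 = n ∧ ∀ p ∈ S, yv p C' = yv p C)).card := by
        refine EntY_fib_le (CC A) _ C _ fun y h1 h2 => Finset.mem_filter.2 ?_
        have h3 : Yv T y = Yv T C := congrArg Prod.fst h2
        have h4 : ll y.1 = ll C.1 := congrArg Prod.snd h2
        refine ⟨h1, by rw [h4, hn], fun p hp => ?_⟩
        exact congrFun h3 ⟨p, (mem_filter.1 hp).1⟩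
      exact_mod_cast h1
    have hSpos : ∀ p ∈ S, (0 : ℝ) < (p : ℝ) := fun p hp => by
      exact_mod_cast (hT p (mem_filter.1 hp).1).1.pos
    have hprod : 0 < ∏ p ∈ S, (p : ℝ) := prod_pos hSpos
    have h5 : ∏ p ∈ S, (p : ℝ) ≤ (1 + ε₁) * ((fib (CC A) (fun C => ll C.1) C : ℝ) /
        (fib (CC A) (fun C => (Yv T C, ll C.1)) C : ℝ)) := by
      rw [hF, ← mul_div_assoc, le_div_iff₀ hG0']
      rw [prod_div_distrib, prod_const_one, mul_one_div, le_div_iff₀ hprod] at hG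
      linarith
    have h6 := Real.log_le_log hprod h5
    rw [Real.log_mul (by linarith) (by
      have : (0 : ℝ) < (fib (CC A) (fun C => ll C.1) C : ℝ) := lt_of_lt_of_le hG0' hGF'
      positivity), Real.log_prod (fun p hp => (hSpos p hp).ne')] at h6
    have h7 : ∑ p ∈ T, (Real.log (p : ℝ) - (if (p : ℤ) ∣ ll C.1 then Real.log (p : ℝ) else 0)) =
        ∑ p ∈ S, Real.log (p : ℝ) := by
      rw [hS, sum_filter]
      refine sum_congr rfl fun p _ => ?_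
      by_cases h : p ∣ n
      · rw [if_pos ((hdvd p).1 h), if_neg (not_not.2 h), sub_self]
      · rw [if_neg (fun h' => h ((hdvd p).2 h')), if_pos h, sub_zero]
    rw [h7]
    linarith

theorem entY (T : Finset ℕ) (hT : ∀ p ∈ T, SP p) {ε : ℝ} (hε : 0 < ε) : ∃ A0 : ℕ, ∀ A : ℕ, A0 ≤ A →
    (∑ p ∈ T, (Real.log ((p : ℝ) + 1) - 4 * Real.log (p : ℝ) / p)) - ε ≤ Ht (CC A) (Yv T) := by
  classical
  set L : ℝ := ∑ p ∈ T, Real.log (p : ℝ) with hL
  have hlp : ∀ p ∈ T, 0 ≤ Real.log (p : ℝ) := fun p hp =>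
    Real.log_nonneg (by exact_mod_cast (hT p hp).1.one_lt.le)
  have hL0 : 0 ≤ L := sum_nonneg hlp
  set ε₁ : ℝ := ε / 4 with hε₁
  have hε₁0 : 0 < ε₁ := by positivity
  have hlog1 : Real.log (1 + ε₁) ≤ ε / 4 := by
    have := Real.log_le_sub_one_of_pos (show (0 : ℝ) < 1 + ε₁ by linarith)
    linarith
  set ε₂ : ℝ := ε / (4 * (L + 1)) with hε₂
  have hε₂0 : 0 < ε₂ := by positivity
  have hε₂L : ε₂ * L ≤ ε / 4 := by
    have h1 : ε₂ * (L + 1) = ε / 4 := by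
      rw [hε₂]
      field_simp
    have h2 : ε₂ * L ≤ ε₂ * (L + 1) := mul_le_mul_of_nonneg_left (by linarith) hε₂0.le
    linarith
  obtain ⟨n0, hn0⟩ := ylaw T hT ε₁ hε₁0
  obtain ⟨A1, hA1⟩ := card_small n0 ε₂ hε₂0
  obtain ⟨A2, hA2⟩ := EntY_A2 T hT
  refine ⟨max 1 (max A1 A2), fun A hA => ?_⟩
  have hA1' := hA1 A ((le_max_left _ _).trans ((le_max_right _ _).trans hA))
  have hA2' := hA2 A ((le_max_right _ _).trans ((le_max_right _ _).trans hA))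
  have hN : (0 : ℝ) < ((CC A).card : ℝ) := by
    exact_mod_cast card_pos' ((le_max_left _ _).trans hA)
  refine le_trans ?_ (Hc_le_Ht (CC A) (Yv T) (fun C => ll C.1))
  unfold Hc
  rw [le_div_iff₀ hN]
  have hsum := sum_le_sum (fun C hC => EntY_cell T hT hε₁0 hn0 A C hC)
  refine le_trans ?_ hsum
  have e0 : ∑ C ∈ CC A, ((∑ p ∈ T, (Real.log (p : ℝ) - (if (p : ℤ) ∣ ll C.1 then Real.log (p : ℝ) else 0))) -
      Real.log (1 + ε₁) - (if ll C.1 < n0 then (∑ p ∈ T, Real.log (p : ℝ)) else 0)) =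
      (∑ p ∈ T, ∑ C ∈ CC A, (Real.log (p : ℝ) - (if (p : ℤ) ∣ ll C.1 then Real.log (p : ℝ) else 0))) -
      (∑ C ∈ CC A, Real.log (1 + ε₁)) -
      ∑ C ∈ CC A, (if ll C.1 < n0 then (∑ p ∈ T, Real.log (p : ℝ)) else 0) := by
    rw [sum_sub_distrib, sum_sub_distrib, sum_comm]
  have e1 : ∑ C ∈ CC A, (if ll C.1 < n0 then (∑ p ∈ T, Real.log (p : ℝ)) else 0) =
      (((CC A).filter (fun C => ll C.1 < n0)).card : ℝ) * L := by
    rw [← sum_filter, sum_const, nsmul_eq_mul]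
  have e2 : ∀ p ∈ T, ∑ C ∈ CC A, (Real.log (p : ℝ) - (if (p : ℤ) ∣ ll C.1 then Real.log (p : ℝ) else 0)) =
      ((CC A).card : ℝ) * Real.log p - (((CC A).filter (fun C => (p : ℤ) ∣ ll C.1)).card : ℝ) * Real.log p := by
    intro p _
    rw [sum_sub_distrib, sum_const, nsmul_eq_mul, ← sum_filter, sum_const, nsmul_eq_mul]
  rw [e0, e1, sum_congr rfl e2, sum_const, nsmul_eq_mul]
  have e3 : ∑ p ∈ T, ((CC A).card : ℝ) * (Real.log p - 2 / p * Real.log p) ≤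
      ∑ p ∈ T, (((CC A).card : ℝ) * Real.log p -
        (((CC A).filter (fun C => (p : ℤ) ∣ ll C.1)).card : ℝ) * Real.log p) := by
    refine sum_le_sum fun p hp => ?_
    have h1 := mul_le_mul_of_nonneg_right (hA2' p hp) (hlp p hp)
    have h2 : ((CC A).card : ℝ) * (Real.log p - 2 / p * Real.log p) =
      ((CC A).card : ℝ) * Real.log p - 2 / p * ((CC A).card : ℝ) * Real.log p := by ring
    rw [h2]
    linarith
  have e4 : (∑ p ∈ T, (Real.log ((p : ℝ) + 1) - 4 * Real.log (p : ℝ) / p)) * ((CC A).card : ℝ) ≤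
      ∑ p ∈ T, ((CC A).card : ℝ) * (Real.log p - 2 / p * Real.log p) := by
    rw [← mul_sum, mul_comm]
    refine mul_le_mul_of_nonneg_left ?_ hN.le
    exact sum_le_sum fun p hp => EntY_log (hT p hp).1
  have e5 : ((CC A).card : ℝ) * Real.log (1 + ε₁) ≤ ((CC A).card : ℝ) * (ε / 4) :=
    mul_le_mul_of_nonneg_left hlog1 hN.le
  have e6 : (((CC A).filter (fun C => ll C.1 < n0)).card : ℝ) * L ≤ ((CC A).card : ℝ) * (ε / 4) := by
    calc _ ≤ ε₂ * ((CC A).card : ℝ) * L := mul_le_mul_of_nonneg_right hA1' hL0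
      _ = ((CC A).card : ℝ) * (ε₂ * L) := by ring
      _ ≤ _ := mul_le_mul_of_nonneg_left hε₂L hN.le
  have e7 : 0 ≤ ((CC A).card : ℝ) * ε := by positivity
  rw [sub_mul]
  linarith

end Pool.Agent.Lib.MP_d57abb_nt.TA
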