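import Mathlib

/-!
# JOB Seq: the sequence lemma (about 150 lines)

PROOF.  Enlarge `ρ₀` so that `ρ₀ ≥ 16` (the `ρ` found for the larger value is fine).  Let `κ ρ = 2 * Nat.log 2 ρ + 2`, `r 0 = ρ₀`, `r (j+1) = r j + κ (r j)`.
(1) `r j → ∞`, strictly increasing.  With `F x = log (log x)`: `F (r (j+1)) - F (r j) ≤ κ (r j) / (r j * log (r j)) ≤ C₁ / r j` with `C₁ = 2 / log 2 + 2` (mean value theorem:
`F' x = 1 / (x log x)` is decreasing; or directly `log (log (a + b)) - log (log a) ≤ (log (a + b) - log a) / log a ≤ b / (a log a)` from `log x ≤ x - 1` twice;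
`Nat.log 2 ρ ≤ log ρ / log 2`, `1 ≤ log ρ`).  So `∑ j < n, 1 / r j ≥ (F (r n) - F ρ₀) / C₁ → ∞`.
(2) `∑ j < n, c / (r j)² ≤ 2 c` since `r j ≥ j + 16`, so `∑ 1 / (r j)² ≤ ∑ 1 / (j + 16)² ≤ 1`.
(3) Choose `n` with `δ * ∑ j < n, 1 / r j > M + 2 c + 2` and `τ = 1 / (n + 1)`, `J = r n`.  If `I (r j) > δ / r j` for all `j < n`, then summing
`u (r (j+1)) ≤ u (r j) - I (r j) + c / (r j)² + τ` gives `0 ≤ u (r n) ≤ M - δ ∑ 1 / r j + 2 c + 1 < 0`, contradiction.
-/

namespace Pool.Agent.Lib.MP_d57abb_nt.TA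

open Finset

private noncomputable def Seq_r (a : ℕ) : ℕ → ℕ
  | 0 => a
  | n + 1 => Seq_r a n + (2 * Nat.log 2 (Seq_r a n) + 2)

private theorem Seq_r_ge (a : ℕ) (n : ℕ) : a + n ≤ Seq_r a n := by
  induction n with
  | zero => simp [Seq_r]
  | succ n ih =>
    have : Seq_r a (n + 1) = Seq_r a n + (2 * Nat.log 2 (Seq_r a n) + 2) := rfl
    omega

private theorem Seq_r_mono (a : ℕ) {m n : ℕ} (h : m ≤ n) : Seq_r a m ≤ Seq_r a n := by
  induction n, h using Nat.le_induction with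
  | base => exact le_rfl
  | succ n _ ih =>
    have : Seq_r a (n + 1) = Seq_r a n + (2 * Nat.log 2 (Seq_r a n) + 2) := rfl
    omega

private theorem Seq_log_one {x : ℝ} (hx : 16 ≤ x) : 1 ≤ Real.log x := by
  rw [Real.le_log_iff_exp_le (by linarith)]
  have := Real.exp_one_lt_d9
  linarith

private theorem Seq_kappa {ρ : ℕ} (h : 16 ≤ ρ) :
    ((2 * Nat.log 2 ρ + 2 : ℕ) : ℝ) ≤ (2 / Real.log 2 + 2) * Real.log ρ := by
  have h1 : (16 : ℝ) ≤ ρ := by exact_mod_cast h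
  have h2 := Seq_log_one h1
  have hl2 : 0 < Real.log 2 := Real.log_pos (by norm_num)
  have h3 : (Nat.log 2 ρ : ℝ) * Real.log 2 ≤ Real.log ρ := by
    have h4 : 2 ^ Nat.log 2 ρ ≤ ρ := Nat.pow_log_le_self 2 (by omega)
    have h5 : ((2 : ℝ) ^ Nat.log 2 ρ) ≤ ρ := by exact_mod_cast h4
    have h6 := Real.log_le_log (by positivity) h5
    rwa [Real.log_pow] at h6
  have h7 : (Nat.log 2 ρ : ℝ) ≤ Real.log ρ / Real.log 2 := by
    rw [le_div_iff₀ hl2]; exact h3
  push_cast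
  have h8 : (2 / Real.log 2 + 2) * Real.log ρ = 2 * (Real.log ρ / Real.log 2) + 2 * Real.log ρ := by
    ring
  rw [h8]
  linarith

private theorem Seq_step {a b : ℝ} (ha : 16 ≤ a) (hab : a ≤ b) :
    Real.log (Real.log b) - Real.log (Real.log a) ≤ (b - a) / (a * Real.log a) := by
  have h1 := Seq_log_one ha
  have h2 := Seq_log_one (ha.trans hab)
  have ha0 : 0 < a := by linarith
  have hb0 : 0 < b := by linarith
  have h3 : Real.log (Real.log b / Real.log a) ≤ Real.log b / Real.log a - 1 :=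
    Real.log_le_sub_one_of_pos (by positivity)
  rw [Real.log_div (by positivity) (by positivity)] at h3
  have h4 : Real.log (b / a) ≤ b / a - 1 := Real.log_le_sub_one_of_pos (by positivity)
  rw [Real.log_div (by positivity) (by positivity)] at h4
  have h5 : Real.log b / Real.log a - 1 = (Real.log b - Real.log a) / Real.log a := by
    field_simp
  have h6 : (Real.log b - Real.log a) / Real.log a ≤ (b / a - 1) / Real.log a := by
    gcongr
  have h7 : (b / a - 1) / Real.log a = (b - a) / (a * Real.log a) := by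
    field_simp
  linarith

private theorem Seq_inv (a : ℕ) (ha : 16 ≤ a) (n : ℕ) :
    Real.log (Real.log (Seq_r a n)) - Real.log (Real.log a) ≤
      (2 / Real.log 2 + 2) * ∑ j ∈ range n, 1 / (Seq_r a j : ℝ) := by
  induction n with
  | zero => simp [Seq_r]
  | succ n ih =>
    rw [Finset.sum_range_succ, mul_add]
    have hr : 16 ≤ Seq_r a n := by have := Seq_r_ge a n; omega
    have hr' : (16 : ℝ) ≤ (Seq_r a n : ℝ) := by exact_mod_cast hr
    have hdef : ((Seq_r a (n + 1) : ℕ) : ℝ) =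
        (Seq_r a n : ℝ) + ((2 * Nat.log 2 (Seq_r a n) + 2 : ℕ) : ℝ) := by
      rw [← Nat.cast_add]; rfl
    have h1 : (Seq_r a n : ℝ) ≤ (Seq_r a (n + 1) : ℝ) := by
      exact_mod_cast Seq_r_mono a (Nat.le_succ n)
    have h2 := Seq_step hr' h1
    have h3 := Seq_kappa hr
    have h4 := Seq_log_one hr'
    have h5 : ((Seq_r a (n + 1) : ℝ) - (Seq_r a n : ℝ)) / ((Seq_r a n : ℝ) * Real.log (Seq_r a n)) ≤
        (2 / Real.log 2 + 2) * (1 / (Seq_r a n : ℝ)) := by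
      rw [hdef, add_sub_cancel_left, div_le_iff₀ (by positivity)]
      have h6 : (2 / Real.log 2 + 2) * (1 / (Seq_r a n : ℝ)) *
          ((Seq_r a n : ℝ) * Real.log (Seq_r a n)) = (2 / Real.log 2 + 2) * Real.log (Seq_r a n) := by
        field_simp
      rw [h6]; exact h3
    linarith

private theorem Seq_sq (a : ℕ) (ha : 16 ≤ a) (n : ℕ) :
    ∑ j ∈ range n, 1 / (Seq_r a j : ℝ) ^ 2 ≤ 1 - 1 / ((n : ℝ) + 1) := by
  induction n with
  | zero => simp
  | succ n ih =>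
    rw [Finset.sum_range_succ]
    have hr := Seq_r_ge a n
    have hr' : ((n : ℝ) + 2) ≤ (Seq_r a n : ℝ) := by
      have : n + 2 ≤ Seq_r a n := by omega
      exact_mod_cast this
    have hn : (0 : ℝ) ≤ n := Nat.cast_nonneg n
    have h1 : 1 / (Seq_r a n : ℝ) ^ 2 ≤ 1 / (((n : ℝ) + 1) * ((n : ℝ) + 2)) := by
      apply one_div_le_one_div_of_le (by positivity)
      nlinarith
    have h2 : 1 / (((n : ℝ) + 1) * ((n : ℝ) + 2)) = 1 / ((n : ℝ) + 1) - 1 / ((n : ℝ) + 2) := by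
      field_simp
      ring
    push_cast
    have h3 : (n : ℝ) + 1 + 1 = (n : ℝ) + 2 := by ring
    rw [h3]
    linarith

theorem seq_lemma (M c δ : ℝ) (hM : 0 ≤ M) (hc : 0 ≤ c) (hδ : 0 < δ) (ρ₀ : ℕ) :
    ∃ J : ℕ, ∃ τ : ℝ, 0 < τ ∧ ∀ u I : ℕ → ℝ, (∀ ρ, 0 ≤ u ρ) → (∀ ρ, u ρ ≤ M) →
      (∀ ρ, ρ₀ ≤ ρ → ρ ≤ J →
        u (ρ + (2 * Nat.log 2 ρ + 2)) ≤ u ρ - I ρ + c / (ρ : ℝ) ^ 2 + τ) →
      ∃ ρ, ρ₀ ≤ ρ ∧ ρ ≤ J ∧ I ρ ≤ δ / ρ := by
  set a : ℕ := max ρ₀ 16 with ha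
  have ha16 : 16 ≤ a := le_max_right _ _
  have haρ : ρ₀ ≤ a := le_max_left _ _
  have hC : 0 < 2 / Real.log 2 + 2 := by
    have hl2 : 0 < Real.log 2 := Real.log_pos (by norm_num)
    positivity
  -- the sum of the reciprocals is unbounded
  have htend : Filter.Tendsto (fun n : ℕ => Real.log (Real.log ((Seq_r a n : ℕ) : ℝ)))
      Filter.atTop Filter.atTop := by
    apply Real.tendsto_log_atTop.comp
    apply Real.tendsto_log_atTop.comp
    apply tendsto_natCast_atTop_atTop.comp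
    apply Filter.tendsto_atTop_mono (fun n => (le_trans (Nat.le_add_left n a) (Seq_r_ge a n)))
    exact Filter.tendsto_id
  obtain ⟨n, hn⟩ := (Filter.tendsto_atTop.mp htend
    (Real.log (Real.log a) + (2 / Real.log 2 + 2) * ((M + 2 * c + 2) / δ) + 1)).exists
  have h1 := Seq_inv a ha16 n
  have h2 : (M + 2 * c + 2) / δ < ∑ j ∈ range n, 1 / (Seq_r a j : ℝ) := by
    have h3 : (2 / Real.log 2 + 2) * ((M + 2 * c + 2) / δ) <
        (2 / Real.log 2 + 2) * ∑ j ∈ range n, 1 / (Seq_r a j : ℝ) := by linarith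
    exact lt_of_mul_lt_mul_left h3 hC.le
  have h3 : M + 2 * c + 2 < δ * ∑ j ∈ range n, 1 / (Seq_r a j : ℝ) := by
    rwa [div_lt_iff₀' hδ] at h2
  refine ⟨Seq_r a n, 1 / ((n : ℝ) + 1), by positivity, ?_⟩
  intro u I hu0 huM hrec
  by_contra hcon
  push Not at hcon
  have hsum : ∀ m ≤ n, u (Seq_r a m) ≤ M - δ * (∑ j ∈ range m, 1 / (Seq_r a j : ℝ)) +
      c * (∑ j ∈ range m, 1 / (Seq_r a j : ℝ) ^ 2) + (m : ℝ) * (1 / ((n : ℝ) + 1)) := by
    intro m
    induction m with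
    | zero => intro _; simpa [Seq_r] using huM a
    | succ m ih =>
      intro hm
      have ih' := ih (by omega)
      have hge : ρ₀ ≤ Seq_r a m := by have := Seq_r_ge a m; omega
      have hle : Seq_r a m ≤ Seq_r a n := Seq_r_mono a (by omega)
      have h4 := hrec (Seq_r a m) hge hle
      have h5 := hcon (Seq_r a m) hge hle
      have h6 : Seq_r a (m + 1) = Seq_r a m + (2 * Nat.log 2 (Seq_r a m) + 2) := rfl
      rw [← h6] at h4
      rw [Finset.sum_range_succ, Finset.sum_range_succ]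
      push_cast
      have h7 : δ * (∑ j ∈ range m, 1 / (Seq_r a j : ℝ) + 1 / (Seq_r a m : ℝ)) =
          δ * (∑ j ∈ range m, 1 / (Seq_r a j : ℝ)) + δ / (Seq_r a m : ℝ) := by ring
      have h8 : c * (∑ j ∈ range m, 1 / (Seq_r a j : ℝ) ^ 2 + 1 / (Seq_r a m : ℝ) ^ 2) =
          c * (∑ j ∈ range m, 1 / (Seq_r a j : ℝ) ^ 2) + c / (Seq_r a m : ℝ) ^ 2 := by ring
      rw [h7, h8]
      have h9 : ((m : ℝ) + 1) * (1 / ((n : ℝ) + 1)) =
          (m : ℝ) * (1 / ((n : ℝ) + 1)) + 1 / ((n : ℝ) + 1) := by ring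
      rw [h9]
      linarith
  have h4 := hsum n le_rfl
  have h5 := Seq_sq a ha16 n
  have h6 : c * (∑ j ∈ range n, 1 / (Seq_r a j : ℝ) ^ 2) ≤ c * 1 := by
    apply mul_le_mul_of_nonneg_left _ hc
    have : 0 < 1 / ((n : ℝ) + 1) := by positivity
    linarith
  have h7 : (n : ℝ) * (1 / ((n : ℝ) + 1)) ≤ 1 := by
    rw [mul_one_div, div_le_one (by positivity)]
    linarith
  have h8 := hu0 (Seq_r a n)
  linarith

end Pool.Agent.Lib.MP_d57abb_nt.TA
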