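import Pool.Agent.Lib.MP_d57abb_nt.TA.KlDefs

/-!
# JOB KlA: the fourth moment of the Kloosterman sums modulo `n` (about 100 lines)

`ψ = ZMod.stdAddChar` is a primitive additive character (`ZMod.isPrimitive_stdAddChar`), `‖ψ x‖ = 1`, `conj (ψ x) = ψ (-x)` (`AddChar.map_neg_eq_conj` or `AddChar.inv_apply`..),
`∑ a, ψ (a * t) = if t = 0 then n else 0` (`AddChar.sum_mulShift`, `ZMod.card`).

* `Kl_comm`: substitute `x ↦ x⁻¹` (`Equiv.sum_comp (Equiv.inv _)`).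
* `Kl_unit`: substitute `x ↦ t * x` (`Equiv.sum_comp (Equiv.mulLeft t)`).
* `norm_Kl_le`: triangle inequality, `ZMod.card_units_eq_totient`.
* `moment4`: `‖K‖⁴ = (K K) conj (K K)` as a complex number `= ∑ over x₁, x₂, x₃, x₄ of ψ (a (x₁ + x₂ - x₃ - x₄) + b (x₁⁻¹ + x₂⁻¹ - x₃⁻¹ - x₄⁻¹))`.  Sum over `a` and `b`, exchange the sums:
  the inner double sum is `n * n` for the quadruples in `Q4 n` and `0` otherwise (`AddChar.map_add_eq_mul`, product of two sums).  Prove the identity in `ℂ` and use `exact_mod_cast`.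
-/

namespace Pool.Agent.Lib.MP_d57abb_nt.TA

open Finset

theorem Kl_comm (n : ℕ) [NeZero n] (a b : ZMod n) : Kl n a b = Kl n b a := by
  unfold Kl
  rw [← Equiv.sum_comp (Equiv.inv (ZMod n)ˣ)]
  refine Finset.sum_congr rfl fun x _ => ?_
  simp only [Equiv.inv_apply, inv_inv]
  rw [add_comm]

theorem Kl_unit (n : ℕ) [NeZero n] (a b : ZMod n) (t : (ZMod n)ˣ) :
    Kl n (a * t) (b * ((t⁻¹ : (ZMod n)ˣ) : ZMod n)) = Kl n a b := by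
  unfold Kl
  rw [← Equiv.sum_comp (Equiv.mulLeft t) (fun x : (ZMod n)ˣ =>
    (ZMod.stdAddChar (a * (x : ZMod n) + b * ((x⁻¹ : (ZMod n)ˣ) : ZMod n)) : ℂ))]
  refine Finset.sum_congr rfl fun x _ => ?_
  simp only [Equiv.coe_mulLeft, Units.val_mul, mul_inv_rev]
  congr 1
  ring

private theorem KlA_norm (n : ℕ) [NeZero n] (x : ZMod n) : ‖(ZMod.stdAddChar x : ℂ)‖ = 1 := by
  rw [ZMod.stdAddChar_apply]
  exact Circle.norm_coe _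

theorem norm_Kl_le (n : ℕ) [NeZero n] (a b : ZMod n) : ‖Kl n a b‖ ≤ n.totient := by
  unfold Kl
  refine (norm_sum_le _ _).trans (le_of_eq ?_)
  simp only [KlA_norm, Finset.sum_const, Finset.card_univ, ZMod.card_units_eq_totient,
    nsmul_eq_mul, mul_one]

private theorem KlA_conj (n : ℕ) [NeZero n] (x : ZMod n) :
    (starRingEnd ℂ) (ZMod.stdAddChar x : ℂ) = ZMod.stdAddChar (-x) := by
  rw [AddChar.map_neg_eq_conj]

private theorem KlA_sq (n : ℕ) [NeZero n] (a b : ZMod n) :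
    Kl n a b * Kl n a b = ∑ p : (ZMod n)ˣ × (ZMod n)ˣ,
      (ZMod.stdAddChar (a * ((p.1 : ZMod n) + (p.2 : ZMod n)) +
        b * (((p.1⁻¹ : (ZMod n)ˣ) : ZMod n) + ((p.2⁻¹ : (ZMod n)ˣ) : ZMod n))) : ℂ) := by
  unfold Kl
  rw [Finset.sum_mul_sum, Fintype.sum_prod_type]
  refine Finset.sum_congr rfl fun x _ => Finset.sum_congr rfl fun y _ => ?_
  rw [← AddChar.map_add_eq_mul]
  congr 1
  ring

private theorem KlA_four (n : ℕ) [NeZero n] (a b : ZMod n) :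
    ((‖Kl n a b‖ ^ 4 : ℝ) : ℂ) = ∑ q : ((ZMod n)ˣ × (ZMod n)ˣ) × ((ZMod n)ˣ × (ZMod n)ˣ),
      (ZMod.stdAddChar (a * (((q.1.1 : ZMod n) + (q.1.2 : ZMod n)) - ((q.2.1 : ZMod n) + (q.2.2 : ZMod n)))) : ℂ) *
      (ZMod.stdAddChar (b * ((((q.1.1⁻¹ : (ZMod n)ˣ) : ZMod n) + ((q.1.2⁻¹ : (ZMod n)ˣ) : ZMod n)) -
        (((q.2.1⁻¹ : (ZMod n)ˣ) : ZMod n) + ((q.2.2⁻¹ : (ZMod n)ˣ) : ZMod n)))) : ℂ) := by
  have h1 : ((‖Kl n a b‖ ^ 4 : ℝ) : ℂ)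
      = (Kl n a b * Kl n a b) * (starRingEnd ℂ) (Kl n a b * Kl n a b) := by
    rw [Complex.mul_conj', norm_mul]
    push_cast
    ring
  rw [h1, KlA_sq, map_sum, Finset.sum_mul_sum]
  symm
  rw [Fintype.sum_prod_type]
  refine Finset.sum_congr rfl fun x _ => Finset.sum_congr rfl fun y _ => ?_
  rw [KlA_conj, ← AddChar.map_add_eq_mul, ← AddChar.map_add_eq_mul]
  congr 1
  ring

theorem moment4 (n : ℕ) [NeZero n] :
    ∑ a : ZMod n, ∑ b : ZMod n, ‖Kl n a b‖ ^ 4 = (n : ℝ) ^ 2 * ((Q4 n).card : ℝ) := by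
  have key : (((∑ a : ZMod n, ∑ b : ZMod n, ‖Kl n a b‖ ^ 4 : ℝ)) : ℂ)
      = (((n : ℝ) ^ 2 * ((Q4 n).card : ℝ) : ℝ) : ℂ) := by
    have h1 : (((∑ a : ZMod n, ∑ b : ZMod n, ‖Kl n a b‖ ^ 4 : ℝ)) : ℂ)
        = ∑ a : ZMod n, ∑ b : ZMod n, ((‖Kl n a b‖ ^ 4 : ℝ) : ℂ) := by
      rw [Complex.ofReal_sum]
      exact Finset.sum_congr rfl fun a _ => Complex.ofReal_sum _ _
    rw [h1]
    simp only [KlA_four]
    have h2 : ∀ a : ZMod n, (∑ b : ZMod n, ∑ q : ((ZMod n)ˣ × (ZMod n)ˣ) × ((ZMod n)ˣ × (ZMod n)ˣ),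
      (ZMod.stdAddChar (a * (((q.1.1 : ZMod n) + (q.1.2 : ZMod n)) - ((q.2.1 : ZMod n) + (q.2.2 : ZMod n)))) : ℂ) *
      (ZMod.stdAddChar (b * ((((q.1.1⁻¹ : (ZMod n)ˣ) : ZMod n) + ((q.1.2⁻¹ : (ZMod n)ˣ) : ZMod n)) -
        (((q.2.1⁻¹ : (ZMod n)ˣ) : ZMod n) + ((q.2.2⁻¹ : (ZMod n)ˣ) : ZMod n)))) : ℂ))
      = ∑ q : ((ZMod n)ˣ × (ZMod n)ˣ) × ((ZMod n)ˣ × (ZMod n)ˣ),
      (ZMod.stdAddChar (a * (((q.1.1 : ZMod n) + (q.1.2 : ZMod n)) - ((q.2.1 : ZMod n) + (q.2.2 : ZMod n)))) : ℂ) *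
      (if ((((q.1.1⁻¹ : (ZMod n)ˣ) : ZMod n) + ((q.1.2⁻¹ : (ZMod n)ˣ) : ZMod n)) -
        (((q.2.1⁻¹ : (ZMod n)ˣ) : ZMod n) + ((q.2.2⁻¹ : (ZMod n)ˣ) : ZMod n))) = 0 then (n : ℂ) else 0) := by
      intro a
      rw [Finset.sum_comm]
      refine Finset.sum_congr rfl fun q _ => ?_
      rw [← Finset.mul_sum]
      congr 1
      have h3 := AddChar.sum_mulShift (ψ := (ZMod.stdAddChar (N := n)))
        ((((q.1.1⁻¹ : (ZMod n)ˣ) : ZMod n) + ((q.1.2⁻¹ : (ZMod n)ˣ) : ZMod n)) -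
        (((q.2.1⁻¹ : (ZMod n)ˣ) : ZMod n) + ((q.2.2⁻¹ : (ZMod n)ˣ) : ZMod n)))
        (ZMod.isPrimitive_stdAddChar n)
      rw [h3, ZMod.card]
      split_ifs <;> simp
    simp only [h2]
    rw [Finset.sum_comm]
    have h4 : ∀ q : ((ZMod n)ˣ × (ZMod n)ˣ) × ((ZMod n)ˣ × (ZMod n)ˣ),
      (∑ a : ZMod n, (ZMod.stdAddChar (a * (((q.1.1 : ZMod n) + (q.1.2 : ZMod n)) - ((q.2.1 : ZMod n) + (q.2.2 : ZMod n)))) : ℂ) *
      (if ((((q.1.1⁻¹ : (ZMod n)ˣ) : ZMod n) + ((q.1.2⁻¹ : (ZMod n)ˣ) : ZMod n)) -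
        (((q.2.1⁻¹ : (ZMod n)ˣ) : ZMod n) + ((q.2.2⁻¹ : (ZMod n)ˣ) : ZMod n))) = 0 then (n : ℂ) else 0))
      = if q ∈ Q4 n then (n : ℂ) ^ 2 else 0 := by
      intro q
      rw [← Finset.sum_mul]
      have h3 := AddChar.sum_mulShift (ψ := (ZMod.stdAddChar (N := n)))
        (((q.1.1 : ZMod n) + (q.1.2 : ZMod n)) - ((q.2.1 : ZMod n) + (q.2.2 : ZMod n))) (ZMod.isPrimitive_stdAddChar n)
      rw [h3, ZMod.card]
      simp only [Q4, Finset.mem_filter, Finset.mem_univ, true_and, sub_eq_zero]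
      by_cases c1 : ((q.1.1 : ZMod n) + (q.1.2 : ZMod n)) = ((q.2.1 : ZMod n) + (q.2.2 : ZMod n))
      · by_cases c2 : (((q.1.1⁻¹ : (ZMod n)ˣ) : ZMod n) + ((q.1.2⁻¹ : (ZMod n)ˣ) : ZMod n)) =
          (((q.2.1⁻¹ : (ZMod n)ˣ) : ZMod n) + ((q.2.2⁻¹ : (ZMod n)ˣ) : ZMod n))
        · rw [if_pos c1, if_pos c2, if_pos ⟨c1, c2⟩]
          ring
        · rw [if_neg c2, mul_zero, if_neg]
          exact fun h => c2 h.2
      · rw [if_neg c1, Nat.cast_zero, zero_mul, if_neg]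
        exact fun h => c1 h.1
    rw [Finset.sum_congr rfl fun q _ => h4 q]
    rw [Finset.sum_ite_mem, Finset.univ_inter, Finset.sum_const, nsmul_eq_mul]
    push_cast
    ring
  exact_mod_cast key

end Pool.Agent.Lib.MP_d57abb_nt.TA
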