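import Pool.Agent.Lib.MP_d57abb_nt.TA.KlDefs

/-!
# JOB KlB: the number of solutions (about 150 lines)

* `Gn_eq`: `#{w : ZMod n | a w = 0} = gcd (a.val, n)`.  Write `g = gcd (a.val, n)`, `n = g n'`; `a w = 0 ↔ n ∣ a.val * w.val ↔ n' ∣ w.val` (`a.val / g` is prime to `n'`), and the multiples of
  `n'` in `range n` are `n' i`, `i < g`: bijection `i ↦ (n' i : ZMod n)` from `range g`.  Any proof.
* `Gn_int`: for `a = (h : ZMod n) * u`, `u` a unit, `h ≠ 0`: `a w = 0 ↔ h w = 0`, and the number of `w` is `gcd (|h|, n) ≤ |h|` (apply `Gn_eq` to `(h.natAbs : ZMod n)`, `Nat.gcd_mod`-type lemma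
  `ZMod.val_natCast`; `h w = 0 ↔ |h| w = 0`).
* `Gn_mul`: `#{w | u v w = 0} ≤ Gn u * Gn v`: the map `w ↦ v w` sends the set to `{t | u t = 0}`, and its fibres have at most `Gn v` elements (if `v w = v w₀` then `w - w₀` is in the
  annihilator of `v`): `Finset.card_le_mul_card_image`.
* `sum_Gn`: `∑_w Gn w ≤ n τ(n)`: `Gn w = gcd (w.val, n) ≤ ∑_{d ∣ n, d ∣ w.val} d`, exchange the sums, the number of `w < n` with `d ∣ w` is `n / d` (`d ∣ n`), so the inner sum is
  `∑_{d ∣ n} d (n / d) = n τ(n)`.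
* `card_Q4`: for `(x₁, x₂, x₃, x₄) ∈ Q4 n`: `x₄ = x₁ + x₂ - x₃`, so the triple `(x₁, x₂, x₃)` determines the quadruple.  Multiply the second equation by `x₁ x₂ x₃ x₄`:
  `(x₁ + x₂) x₃ x₄ = (x₃ + x₄) x₁ x₂ = (x₁ + x₂) x₁ x₂`, so `(x₁ + x₂) (x₃ x₄ - x₁ x₂) = 0` and `x₃ (x₁ + x₂ - x₃) - x₁ x₂ = - (x₁ - x₃) (x₂ - x₃)`.  So
  `(u, v, w) = (x₁ - x₃, x₂ - x₃, x₁ + x₂)` satisfies `u v w = 0`; the fibres of `(x₁, x₂, x₃) ↦ (u, v, w)` have at most `2` elements: `w - u - v = 2 x₃` and `Gn n 2 ≤ 2`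
  (`Gn_eq`: `gcd (2 mod n, n) ≤ 2`).  `#{(u, v, w) | u v w = 0} = ∑_{u, v} Gn (u v) ≤ (∑_u Gn u) (∑_v Gn v) ≤ (n τ(n))²`.
-/

namespace Pool.Agent.Lib.MP_d57abb_nt.TA

open Finset

private theorem KlB_ann (n : ℕ) [NeZero n] (d : ℕ) :
    (univ.filter (fun w : ZMod n => (d : ZMod n) * w = 0)).card = Nat.gcd n d := by
  have h1 := IsAddCyclic.card_nsmulAddMonoidHom_ker (ZMod n) d
  rw [Nat.card_zmod] at h1
  rw [← h1]
  refine (Nat.subtype_card _ ?_).symm
  intro w
  rw [mem_filter, AddMonoidHom.mem_ker, nsmulAddMonoidHom_apply, nsmul_eq_mul]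
  exact ⟨fun h => h.2, fun h => ⟨mem_univ _, h⟩⟩

private theorem KlB_sub (n : ℕ) [NeZero n] (v b : ZMod n) (s : Finset (ZMod n)) :
    (s.filter (fun w => v * w = b)).card ≤ Gn n v := by
  rcases (s.filter (fun w => v * w = b)).eq_empty_or_nonempty with h | ⟨w0, hw0⟩
  · rw [h, card_empty]
    exact Nat.zero_le _
  · rw [mem_filter] at hw0
    unfold Gn
    refine card_le_card_of_injOn (fun w => w - w0) ?_ ?_
    · intro w hw
      rw [mem_coe, mem_filter] at hw
      rw [mem_coe, mem_filter]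
      refine ⟨mem_univ _, ?_⟩
      rw [mul_sub, hw.2, hw0.2, sub_self]
    · intro w _ w' _ h
      exact sub_left_injective h

private theorem KlB_val (n : ℕ) [NeZero n] (F : ℕ → ℕ) :
    ∑ w : ZMod n, F w.val = ∑ i ∈ range n, F i := by
  refine sum_nbij (fun w => w.val) ?_ ?_ ?_ ?_
  · intro w _
    exact mem_range.2 (ZMod.val_lt w)
  · intro w _ w' _ h
    exact ZMod.val_injective n h
  · intro i hi
    rw [mem_coe, mem_range] at hi
    exact ⟨(i : ZMod n), by simp, ZMod.val_cast_of_lt hi⟩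
  · intro w _
    rfl

private theorem KlB_cnt {n d : ℕ} (hd : 0 < d) (hdn : d ∣ n) :
    ((range n).filter (fun i => d ∣ i)).card ≤ n / d := by
  have h : ((range n).filter (fun i => d ∣ i)).card ≤ (range (n / d)).card := by
    refine card_le_card_of_injOn (fun i => i / d) ?_ ?_
    · intro i hi
      rw [mem_coe, mem_filter, mem_range] at hi
      rw [mem_coe, mem_range]
      exact Nat.div_lt_div_of_lt_of_dvd hdn hi.1
    · intro i hi j hj h
      rw [mem_coe, mem_filter] at hi hj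
      have h2 : i / d = j / d := h
      rw [← Nat.mul_div_cancel' hi.2, ← Nat.mul_div_cancel' hj.2, h2]
  rwa [card_range] at h

private theorem KlB_alg {R : Type*} [CommRing R] {a1 a2 a3 a4 b1 b2 b3 b4 : R}
    (h1 : a1 + a2 = a3 + a4) (h2 : b1 + b2 = b3 + b4) (i1 : a1 * b1 = 1) (i2 : a2 * b2 = 1)
    (i3 : a3 * b3 = 1) (i4 : a4 * b4 = 1) : (a1 - a3) * (a2 - a3) * (a1 + a2) = 0 := by
  have hE : a2 * a3 * a4 + a1 * a3 * a4 = a1 * a2 * a4 + a1 * a2 * a3 := by
    linear_combination (a1 * a2 * a3 * a4) * h2 - (a2 * a3 * a4) * i1 - (a1 * a3 * a4) * i2 +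
      (a1 * a2 * a4) * i3 + (a1 * a2 * a3) * i4
  linear_combination (-1 : R) * hE + (a1 * a2 - (a1 + a2) * a3) * h1

theorem Gn_eq (n : ℕ) [NeZero n] (a : ZMod n) : Gn n a = Nat.gcd a.val n := by
  have h := KlB_ann n a.val
  rw [ZMod.natCast_zmod_val] at h
  unfold Gn
  rw [h, Nat.gcd_comm]

theorem Gn_int (n : ℕ) [NeZero n] (h : ℤ) (hh : h ≠ 0) (u : ZMod n) (hu : IsUnit u) :
    Gn n ((h : ZMod n) * u) ≤ h.natAbs := by
  have h1 : Gn n ((h : ZMod n) * u) =
      (univ.filter (fun w : ZMod n => ((h.natAbs : ℕ) : ZMod n) * w = 0)).card := by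
    unfold Gn
    congr 1
    refine filter_congr fun w _ => ?_
    have h2 : (h : ZMod n) * u * w = 0 ↔ (h : ZMod n) * w = 0 := by
      have h3 : (h : ZMod n) * u * w = u * ((h : ZMod n) * w) := by ring
      rw [h3, hu.mul_right_eq_zero]
    rw [h2]
    rcases Int.natAbs_eq h with h4 | h4
    · have h5 : (h : ZMod n) = ((h.natAbs : ℕ) : ZMod n) := by
        conv_lhs => rw [h4]
        rw [Int.cast_natCast]
      rw [h5]
    · have h5 : (h : ZMod n) = -((h.natAbs : ℕ) : ZMod n) := by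
        conv_lhs => rw [h4]
        rw [Int.cast_neg, Int.cast_natCast]
      rw [h5, neg_mul, neg_eq_zero]
  rw [h1, KlB_ann]
  exact Nat.gcd_le_right _ (Int.natAbs_pos.2 hh)

theorem Gn_mul (n : ℕ) [NeZero n] (u v : ZMod n) : Gn n (u * v) ≤ Gn n u * Gn n v := by
  classical
  have h1 := card_le_mul_card_image (f := fun w : ZMod n => v * w)
    (univ.filter (fun w : ZMod n => u * v * w = 0)) (Gn n v) (fun b _ => KlB_sub n v b _)
  have h2 : (image (fun w : ZMod n => v * w)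
      (univ.filter (fun w : ZMod n => u * v * w = 0))).card ≤ Gn n u := by
    unfold Gn
    refine card_le_card ?_
    intro t ht
    rw [mem_image] at ht
    obtain ⟨w, hw, rfl⟩ := ht
    rw [mem_filter] at hw ⊢
    exact ⟨mem_univ _, by rw [← mul_assoc]; exact hw.2⟩
  calc Gn n (u * v) ≤ Gn n v * (image (fun w : ZMod n => v * w)
      (univ.filter (fun w : ZMod n => u * v * w = 0))).card := h1
    _ ≤ Gn n v * Gn n u := Nat.mul_le_mul_left _ h2
    _ = Gn n u * Gn n v := Nat.mul_comm _ _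

theorem sum_Gn (n : ℕ) [NeZero n] : ∑ w : ZMod n, Gn n w ≤ n * n.divisors.card := by
  have hn : 0 < n := Nat.pos_of_ne_zero (NeZero.ne n)
  have h1 : ∑ w : ZMod n, Gn n w = ∑ i ∈ range n, Nat.gcd i n := by
    rw [← KlB_val n (fun i => Nat.gcd i n)]
    exact sum_congr rfl fun w _ => Gn_eq n w
  rw [h1]
  have h2 : ∀ i ∈ range n, Nat.gcd i n ≤ ∑ d ∈ n.divisors, if d ∣ i then d else 0 := by
    intro i _
    have hmem : Nat.gcd i n ∈ n.divisors :=
      Nat.mem_divisors.2 ⟨Nat.gcd_dvd_right i n, hn.ne'⟩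
    have h3 := single_le_sum (f := fun d => if d ∣ i then d else 0) (fun _ _ => Nat.zero_le _) hmem
    have h4 : (if Nat.gcd i n ∣ i then Nat.gcd i n else 0) = Nat.gcd i n :=
      if_pos (Nat.gcd_dvd_left i n)
    calc Nat.gcd i n = (if Nat.gcd i n ∣ i then Nat.gcd i n else 0) := h4.symm
      _ ≤ _ := h3
  refine (sum_le_sum h2).trans ?_
  rw [sum_comm]
  have h3 : ∀ d ∈ n.divisors, (∑ i ∈ range n, if d ∣ i then d else 0) ≤ n := by
    intro d hd
    have hdn := Nat.dvd_of_mem_divisors hd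
    have hd0 := Nat.pos_of_mem_divisors hd
    rw [← sum_filter, sum_const, smul_eq_mul]
    calc _ ≤ n / d * d := Nat.mul_le_mul_right d (KlB_cnt hd0 hdn)
      _ = n := Nat.div_mul_cancel hdn
  refine (sum_le_sum h3).trans ?_
  rw [sum_const, smul_eq_mul, Nat.mul_comm]

theorem card_Q4 (n : ℕ) [NeZero n] : (Q4 n).card ≤ 2 * (n * n.divisors.card) ^ 2 := by
  classical
  have hfib : ∀ b ∈ image (fun x : ((ZMod n)ˣ × (ZMod n)ˣ) × ((ZMod n)ˣ × (ZMod n)ˣ) =>
      ((x.1.1 : ZMod n) - x.2.1, (x.1.2 : ZMod n) - x.2.1, (x.1.1 : ZMod n) + x.1.2)) (Q4 n),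
      ((Q4 n).filter (fun x => ((x.1.1 : ZMod n) - x.2.1, (x.1.2 : ZMod n) - x.2.1,
        (x.1.1 : ZMod n) + x.1.2) = b)).card ≤ 2 := by
    intro b hb
    rw [mem_image] at hb
    obtain ⟨x0, hx0, rfl⟩ := hb
    have h2 : (univ.filter (fun w : ZMod n => ((2 : ℕ) : ZMod n) * w = 0)).card ≤ 2 := by
      rw [KlB_ann]
      exact Nat.gcd_le_right _ (by norm_num)
    refine le_trans ?_ h2
    refine card_le_card_of_injOn (fun x => (x.2.1 : ZMod n) - x0.2.1) ?_ ?_
    · intro x hx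
      rw [mem_coe, mem_filter] at hx
      rw [mem_coe, mem_filter]
      refine ⟨mem_univ _, ?_⟩
      have h3 := hx.2
      rw [Prod.mk.injEq, Prod.mk.injEq] at h3
      obtain ⟨e1, e2, e3⟩ := h3
      push_cast
      linear_combination e3 - e1 - e2
    · intro x hx y hy hxy
      rw [mem_coe, mem_filter] at hx hy
      have e : (x.2.1 : ZMod n) = y.2.1 := sub_left_injective hxy
      have hx3 := hx.2
      have hy3 := hy.2
      rw [Prod.mk.injEq, Prod.mk.injEq] at hx3 hy3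
      obtain ⟨x1, x2, x3⟩ := hx3
      obtain ⟨y1, y2, y3⟩ := hy3
      have e1 : (x.1.1 : ZMod n) = y.1.1 := by linear_combination x1 - y1 + e
      have e2 : (x.1.2 : ZMod n) = y.1.2 := by linear_combination x2 - y2 + e
      have hxQ := hx.1
      have hyQ := hy.1
      unfold Q4 at hxQ hyQ
      rw [mem_filter] at hxQ hyQ
      have e4 : (x.2.2 : ZMod n) = y.2.2 := by
        linear_combination e1 + e2 - e - hxQ.2.1 + hyQ.2.1
      exact Prod.ext (Prod.ext (Units.ext e1) (Units.ext e2)) (Prod.ext (Units.ext e) (Units.ext e4))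
  have h1 := card_le_mul_card_image (Q4 n) 2 hfib
  have h2 : (image (fun x : ((ZMod n)ˣ × (ZMod n)ˣ) × ((ZMod n)ˣ × (ZMod n)ˣ) =>
      ((x.1.1 : ZMod n) - x.2.1, (x.1.2 : ZMod n) - x.2.1, (x.1.1 : ZMod n) + x.1.2)) (Q4 n)) ⊆
      (univ : Finset (ZMod n × ZMod n × ZMod n)).filter (fun t => t.1 * t.2.1 * t.2.2 = 0) := by
    intro t ht
    rw [mem_image] at ht
    obtain ⟨x, hx, rfl⟩ := ht
    unfold Q4 at hx
    rw [mem_filter] at hx
    rw [mem_filter]
    refine ⟨mem_univ _, ?_⟩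
    exact KlB_alg hx.2.1 hx.2.2 (Units.mul_inv _) (Units.mul_inv _) (Units.mul_inv _)
      (Units.mul_inv _)
  have h3 : ((univ : Finset (ZMod n × ZMod n × ZMod n)).filter
      (fun t => t.1 * t.2.1 * t.2.2 = 0)).card ≤ (n * n.divisors.card) ^ 2 := by
    rw [card_filter, Fintype.sum_prod_type]
    have h4 : ∀ u : ZMod n, (∑ y : ZMod n × ZMod n, if u * y.1 * y.2 = 0 then 1 else 0) ≤
        Gn n u * (n * n.divisors.card) := by
      intro u
      rw [Fintype.sum_prod_type]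
      have h5 : ∀ v : ZMod n, (∑ w : ZMod n, if u * v * w = 0 then 1 else 0) ≤
          Gn n u * Gn n v := by
        intro v
        rw [← card_filter]
        exact Gn_mul n u v
      refine (sum_le_sum fun v _ => h5 v).trans ?_
      rw [← mul_sum]
      exact Nat.mul_le_mul_left _ (sum_Gn n)
    refine (sum_le_sum fun u _ => h4 u).trans ?_
    rw [← sum_mul, sq]
    exact Nat.mul_le_mul_right _ (sum_Gn n)
  exact h1.trans (Nat.mul_le_mul_left 2 ((card_le_card h2).trans h3))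

end Pool.Agent.Lib.MP_d57abb_nt.TA
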