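import Pool.Agent.Lib.MP_d57abb_nt.TA.KlA
import Pool.Agent.Lib.MP_d57abb_nt.TA.KlB
import Pool.Agent.Lib.MP_2a816b_nt.Divisor

/-!
# JOB KlC: Kloosterman's bound for every modulus (about 120 lines)

* `Kl_pow4`: `φ(n) ‖K(a, b)‖⁴ = ∑_t ‖K(a t, b t⁻¹)‖⁴` over the units `t` (`Kl_unit`, `ZMod.card_units_eq_totient`).  Group the `t` by the value of `(a t, b t⁻¹)`
  (`Finset.sum_fiberwise` / `sum_comp`): the fibre of `(a', b')` has at most `Gn n a` elements (if `a t = a t₀`, `t - t₀` is in the annihilator of `a`; `t ↦ (t : ZMod n) - t₀` is injective).  So the sum is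
  `≤ Gn n a * ∑_{a', b'} ‖K(a', b')‖⁴ = Gn n a * n² * #Q4` (`moment4`, `card_Q4`).
* `le_totient_mul`: `n ≤ φ(n) τ(n)`: multiplicative induction (`Nat.recOnPosPrimePosCoprime`; `φ(p^k) (k + 1) = p^(k-1) (p - 1) (k + 1) ≥ p^k` since `(p - 1) (k + 1) ≥ 2 (p - 1) ≥ p`;
  `Nat.totient_prime_pow`, `Nat.Prime.divisors_prime_pow`/`Nat.divisors_prime_pow` with `Finset.card_map`, coprime: `Nat.totient_mul`, `Nat.Coprime.card_divisors_mul`).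
* `Kl_small`: by `Kl_comm` and symmetry let `Gn n a ≤ H`.  With `τ = τ(n)`: `‖K‖⁴ ≤ 2 H n⁴ τ² / φ(n)`, wanted `≤ ε⁴ φ(n)⁴`, i.e. `2 H n⁴ τ² ≤ ε⁴ φ(n)⁵`; from `φ(n) ≥ n / τ` it is enough that
  `2 H τ⁷ ≤ ε⁴ n`.  `divisor_bound (1/8)`: `τ⁷ ≤ C⁷ n^(7/8)`, and `2 H C⁷ ≤ ε⁴ n^(1/8)` for large `n`.  Conclude with `pow_le_pow_left₀`-type comparison (`pow_le_pow_iff_left₀`).
-/

namespace Pool.Agent.Lib.MP_d57abb_nt.TA

open Finset

private theorem KlC_fibre (n : ℕ) [NeZero n] (a b : ZMod n) (q : ZMod n × ZMod n) :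
    (univ.filter (fun t : (ZMod n)ˣ => (a * (t : ZMod n), b * ((t⁻¹ : (ZMod n)ˣ) : ZMod n)) = q)).card ≤ Gn n a := by
  rcases (univ.filter (fun t : (ZMod n)ˣ => (a * (t : ZMod n), b * ((t⁻¹ : (ZMod n)ˣ) : ZMod n)) = q)).eq_empty_or_nonempty
    with h | ⟨t0, ht0⟩
  · rw [h, card_empty]
    exact Nat.zero_le _
  · unfold Gn
    refine card_le_card_of_injOn (fun t => (t : ZMod n) - (t0 : ZMod n)) ?_ ?_
    · intro t ht
      rw [mem_coe, mem_filter] at ht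
      rw [mem_filter] at ht0
      rw [mem_coe, mem_filter]
      refine ⟨mem_univ _, ?_⟩
      have h1 : a * (t : ZMod n) = q.1 := congrArg Prod.fst ht.2
      have h2 : a * (t0 : ZMod n) = q.1 := congrArg Prod.fst ht0.2
      show a * ((t : ZMod n) - (t0 : ZMod n)) = 0
      rw [mul_sub, h1, h2, sub_self]
    · intro t _ t' _ h
      exact Units.ext (sub_left_injective h)

theorem Kl_pow4 (n : ℕ) [NeZero n] (a b : ZMod n) :
    (n.totient : ℝ) * ‖Kl n a b‖ ^ 4 ≤ 2 * (n : ℝ) ^ 4 * (n.divisors.card : ℝ) ^ 2 * (Gn n a : ℝ) := by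
  classical
  set F : ZMod n × ZMod n → ℝ := fun q => ‖Kl n q.1 q.2‖ ^ 4 with hF
  have hF0 : ∀ q, 0 ≤ F q := fun q => by
    rw [hF]
    positivity
  have h1 : (n.totient : ℝ) * ‖Kl n a b‖ ^ 4 =
      ∑ t : (ZMod n)ˣ, F (a * (t : ZMod n), b * ((t⁻¹ : (ZMod n)ˣ) : ZMod n)) := by
    have h2 : ∀ t ∈ (univ : Finset (ZMod n)ˣ),
        F (a * (t : ZMod n), b * ((t⁻¹ : (ZMod n)ˣ) : ZMod n)) = ‖Kl n a b‖ ^ 4 := by
      intro t _
      rw [hF]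
      show ‖Kl n (a * (t : ZMod n)) (b * ((t⁻¹ : (ZMod n)ˣ) : ZMod n))‖ ^ 4 = _
      rw [Kl_unit]
    rw [sum_congr rfl h2, sum_const, card_univ, ZMod.card_units_eq_totient, nsmul_eq_mul]
  have h3 : ∑ t : (ZMod n)ˣ, F (a * (t : ZMod n), b * ((t⁻¹ : (ZMod n)ˣ) : ZMod n)) ≤
      ∑ q : ZMod n × ZMod n, (Gn n a : ℝ) * F q := by
    rw [← sum_fiberwise univ (fun t : (ZMod n)ˣ => (a * (t : ZMod n), b * ((t⁻¹ : (ZMod n)ˣ) : ZMod n)))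
      (fun t => F (a * (t : ZMod n), b * ((t⁻¹ : (ZMod n)ˣ) : ZMod n)))]
    apply sum_le_sum
    intro q _
    have h4 : ∑ t ∈ univ.filter (fun t : (ZMod n)ˣ => (a * (t : ZMod n), b * ((t⁻¹ : (ZMod n)ˣ) : ZMod n)) = q),
        F (a * (t : ZMod n), b * ((t⁻¹ : (ZMod n)ˣ) : ZMod n)) =
        ((univ.filter (fun t : (ZMod n)ˣ => (a * (t : ZMod n), b * ((t⁻¹ : (ZMod n)ˣ) : ZMod n)) = q)).card : ℝ) * F q := by
      rw [← nsmul_eq_mul, ← sum_const]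
      apply sum_congr rfl
      intro t ht
      rw [(mem_filter.1 ht).2]
    rw [h4]
    exact mul_le_mul_of_nonneg_right (by exact_mod_cast KlC_fibre n a b q) (hF0 q)
  have h5 : ∑ q : ZMod n × ZMod n, F q = (n : ℝ) ^ 2 * ((Q4 n).card : ℝ) := by
    rw [← moment4, Fintype.sum_prod_type]
  have h6 : ((Q4 n).card : ℝ) ≤ 2 * ((n : ℝ) * n.divisors.card) ^ 2 := by exact_mod_cast card_Q4 n
  rw [h1]
  refine h3.trans ?_
  rw [← mul_sum, h5]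
  calc (Gn n a : ℝ) * ((n : ℝ) ^ 2 * ((Q4 n).card : ℝ)) ≤
        (Gn n a : ℝ) * ((n : ℝ) ^ 2 * (2 * ((n : ℝ) * n.divisors.card) ^ 2)) := by gcongr
    _ = 2 * (n : ℝ) ^ 4 * (n.divisors.card : ℝ) ^ 2 * (Gn n a : ℝ) := by ring

theorem le_totient_mul (n : ℕ) (hn : 0 < n) : n ≤ n.totient * n.divisors.card := by
  clear hn
  induction n using Nat.recOnPosPrimePosCoprime with
  | prime_pow p k hp hk =>
    obtain ⟨j, rfl⟩ : ∃ j, k = j + 1 := ⟨k - 1, by omega⟩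
    rw [Nat.totient_prime_pow hp (Nat.succ_pos j), Nat.divisors_prime_pow hp, card_map, card_range,
      Nat.succ_sub_one, pow_succ, mul_assoc]
    apply Nat.mul_le_mul_left
    have h2 := hp.two_le
    calc p ≤ (p - 1) * 2 := by omega
      _ ≤ (p - 1) * (j + 1 + 1) := Nat.mul_le_mul_left _ (by omega)
  | zero => simp
  | one => simp
  | coprime a b ha hb hab iha ihb =>
    rw [Nat.totient_mul hab, Nat.Coprime.card_divisors_mul hab]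
    calc a * b ≤ (a.totient * a.divisors.card) * (b.totient * b.divisors.card) := Nat.mul_le_mul iha ihb
      _ = a.totient * b.totient * (a.divisors.card * b.divisors.card) := by ring

private theorem KlC_one (H : ℕ) (ε C : ℝ) (hε : 0 < ε) (hC : 1 ≤ C) (n : ℕ) (hn : 0 < n)
    (hX : (2 * H * C ^ 7 / ε ^ 4) ^ 8 ≤ n) (hτ : (n.divisors.card : ℝ) ≤ C * (n : ℝ) ^ (1 / 8 : ℝ)) (K : ℝ)
    (hK : (n.totient : ℝ) * K ^ 4 ≤ 2 * (n : ℝ) ^ 4 * (n.divisors.card : ℝ) ^ 2 * H) :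
    K ≤ ε * (n.totient : ℝ) := by
  by_contra hlt
  rw [not_le] at hlt
  have hφ : (0 : ℝ) < (n.totient : ℝ) := by exact_mod_cast Nat.totient_pos.mpr hn
  have hn0 : (0 : ℝ) < (n : ℝ) := by exact_mod_cast hn
  set y : ℝ := (n : ℝ) ^ (1 / 8 : ℝ) with hy
  have hy0 : 0 < y := Real.rpow_pos_of_pos hn0 _
  have hy8 : y ^ 8 = n := by
    rw [hy, ← Real.rpow_natCast, ← Real.rpow_mul hn0.le]
    norm_num
  set τ : ℝ := (n.divisors.card : ℝ) with hτd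
  set φ : ℝ := (n.totient : ℝ) with hφd
  have hτ0 : 0 < τ := by
    rw [hτd]
    exact_mod_cast card_pos.mpr (Nat.nonempty_divisors.mpr hn.ne')
  have hnτ : (n : ℝ) ≤ φ * τ := by
    rw [hτd, hφd]
    exact_mod_cast le_totient_mul n hn
  have h1 : φ * (ε * φ) ^ 4 < φ * K ^ 4 :=
    mul_lt_mul_of_pos_left (pow_lt_pow_left₀ hlt (by positivity) (by norm_num)) hφ
  have h2 : ε ^ 4 * φ ^ 5 < 2 * (n : ℝ) ^ 4 * τ ^ 2 * H := by
    calc ε ^ 4 * φ ^ 5 = φ * (ε * φ) ^ 4 := by ring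
      _ < φ * K ^ 4 := h1
      _ ≤ _ := hK
  have h3 : ε ^ 4 * (φ * τ) ^ 5 < 2 * (n : ℝ) ^ 4 * τ ^ 7 * H := by
    calc ε ^ 4 * (φ * τ) ^ 5 = (ε ^ 4 * φ ^ 5) * τ ^ 5 := by ring
      _ < (2 * (n : ℝ) ^ 4 * τ ^ 2 * H) * τ ^ 5 := mul_lt_mul_of_pos_right h2 (by positivity)
      _ = _ := by ring
  have h4 : ε ^ 4 * (n : ℝ) ^ 5 < 2 * (n : ℝ) ^ 4 * τ ^ 7 * H := by
    refine lt_of_le_of_lt ?_ h3
    exact mul_le_mul_of_nonneg_left (pow_le_pow_left₀ hn0.le hnτ 5) (by positivity)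
  have h5 : ε ^ 4 * (n : ℝ) < 2 * τ ^ 7 * H := by
    have h6 : (n : ℝ) ^ 4 * (ε ^ 4 * (n : ℝ)) < (n : ℝ) ^ 4 * (2 * τ ^ 7 * H) := by
      calc (n : ℝ) ^ 4 * (ε ^ 4 * (n : ℝ)) = ε ^ 4 * (n : ℝ) ^ 5 := by ring
        _ < 2 * (n : ℝ) ^ 4 * τ ^ 7 * H := h4
        _ = _ := by ring
    exact lt_of_mul_lt_mul_left h6 (by positivity)
  have h7 : τ ^ 7 ≤ (C * y) ^ 7 := pow_le_pow_left₀ hτ0.le hτ 7
  have h8 : ε ^ 4 * y ^ 8 < 2 * (C * y) ^ 7 * H := by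
    rw [hy8]
    refine lt_of_lt_of_le h5 ?_
    exact mul_le_mul_of_nonneg_right (by linarith) (Nat.cast_nonneg _)
  have h9 : y * ε ^ 4 < 2 * H * C ^ 7 := by
    have h10 : y ^ 7 * (y * ε ^ 4) < y ^ 7 * (2 * H * C ^ 7) := by
      calc y ^ 7 * (y * ε ^ 4) = ε ^ 4 * y ^ 8 := by ring
        _ < 2 * (C * y) ^ 7 * H := h8
        _ = _ := by ring
    exact lt_of_mul_lt_mul_left h10 (by positivity)
  have h11 : y < 2 * H * C ^ 7 / ε ^ 4 := by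
    rw [lt_div_iff₀ (by positivity)]
    exact h9
  have h12 : y ^ 8 < (2 * H * C ^ 7 / ε ^ 4) ^ 8 := pow_lt_pow_left₀ h11 hy0.le (by norm_num)
  rw [hy8] at h12
  linarith

theorem Kl_small (H : ℕ) (ε : ℝ) (hε : 0 < ε) : ∃ n0 : ℕ, ∀ n : ℕ, n0 ≤ n → ∀ _ : NeZero n,
    ∀ a b : ZMod n, (Gn n a ≤ H ∨ Gn n b ≤ H) → ‖Kl n a b‖ ≤ ε * (n.totient : ℝ) := by
  obtain ⟨C, hC, hdiv⟩ := Pool.Agent.Lib.MP_2a816b_nt.divisor_bound (1 / 8) (by norm_num)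
  refine ⟨⌈(2 * (H : ℝ) * C ^ 7 / ε ^ 4) ^ 8⌉₊, ?_⟩
  intro n hn hne a b hab
  have hn0 : 0 < n := Nat.pos_of_ne_zero hne.out
  have hX : (2 * (H : ℝ) * C ^ 7 / ε ^ 4) ^ 8 ≤ n := (Nat.le_ceil _).trans (by exact_mod_cast hn)
  have main : ∀ a b : ZMod n, Gn n a ≤ H → ‖Kl n a b‖ ≤ ε * (n.totient : ℝ) := by
    intro a b ha
    apply KlC_one H ε C hε hC n hn0 hX (hdiv n hn0)
    refine (Kl_pow4 n a b).trans ?_
    exact mul_le_mul_of_nonneg_left (by exact_mod_cast ha) (by positivity)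
  rcases hab with h | h
  · exact main a b h
  · rw [Kl_comm]
    exact main b a h

end Pool.Agent.Lib.MP_d57abb_nt.TA
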