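import Pool.Agent.Lib.MP_d57abb_nt.TA.KlC
import Pool.Agent.Lib.MP_d57abb_nt.TA.Tri

/-!
# JOB Law: inverses modulo `n` in residue classes modulo `m`
-/

namespace Pool.Agent.Lib.MP_d57abb_nt.TA

open Finset

theorem fourier_toAddCircle (n : ℕ) [NeZero n] (h : ℤ) (z : ZMod n) :
    (fourier h (ZMod.toAddCircle z) : ℂ) = ZMod.stdAddChar ((h : ZMod n) * z) := by
  obtain ⟨k, rfl⟩ := ZMod.intCast_surjective z
  rw [ZMod.toAddCircle_intCast, fourier_coe_apply, ← Int.cast_mul, ZMod.stdAddChar_coe]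
  congr 1
  push_cast
  ring

private theorem Law_fourier_add (h : ℤ) (x y : UnitAddCircle) :
    (fourier h (x + y) : ℂ) = fourier h x * fourier h y := by
  rw [fourier_apply, fourier_apply, fourier_apply, smul_add, AddCircle.toCircle_add, Circle.coe_mul]

private theorem Law_norm_coe (r : ℝ) : ‖(r : UnitAddCircle)‖ ≤ |r| := by
  rw [UnitAddCircle.norm_eq]
  have := round_le r 0
  simpa using this

private theorem Law_near (m n : ℕ) (hm : 0 < m) [NeZero n] (N : ZMod n) (hN : N * (m : ZMod n) = 1)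
    (j j1 : ℤ) (h1 : (m : ℤ) ∣ j - j1) (h2 : 0 ≤ j - j1) (h3 : j - j1 < n) :
    ‖ZMod.toAddCircle (N * ((j : ZMod n) - (j1 : ZMod n))) + ((-(1 / (2 * m)) : ℝ) : UnitAddCircle)‖
      ≤ (1 / (m : ℝ)) / 2 := by
  obtain ⟨s, hs⟩ := h1
  have hmR : (0 : ℝ) < m := by exact_mod_cast hm
  have hnR : (0 : ℝ) < n := by exact_mod_cast Nat.pos_of_ne_zero (NeZero.ne n)
  have hz : N * ((j : ZMod n) - (j1 : ZMod n)) = ((s : ℤ) : ZMod n) := by
    have : ((j : ZMod n) - (j1 : ZMod n)) = (m : ZMod n) * ((s : ℤ) : ZMod n) := by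
      rw [← Int.cast_sub, hs]
      push_cast
      rfl
    rw [this, ← mul_assoc, hN, one_mul]
  rw [hz, ZMod.toAddCircle_intCast, ← AddCircle.coe_add]
  refine (Law_norm_coe _).trans ?_
  have hs0 : 0 ≤ s := by
    have hmZ : (0 : ℤ) < m := by exact_mod_cast hm
    rw [hs] at h2
    exact nonneg_of_mul_nonneg_right h2 hmZ
  have hs1 : (m : ℝ) * s < n := by
    rw [hs] at h3
    exact_mod_cast h3
  have h4 : (0 : ℝ) ≤ (s : ℝ) / n := by
    apply div_nonneg _ hnR.le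
    exact_mod_cast hs0
  have h5 : (s : ℝ) / n ≤ 1 / m := by
    rw [div_le_div_iff₀ hnR hmR]
    linarith
  have h6 : (1 : ℝ) / (2 * m) = (1 / m) / 2 := by ring
  rw [h6, abs_le]
  constructor <;> linarith

private theorem Law_sum (n : ℕ) [NeZero n] (D : ℕ) (c : ℤ → ℂ) (f : UnitAddCircle → ℝ)
    (hf : ∀ x, (f x : ℂ) = ∑ h ∈ Icc (-(D : ℤ)) D, c h * (fourier h x : ℂ))
    (w : UnitAddCircle) (N : ZMod n) (hN : IsUnit N) (ε : ℝ) (hε : 0 ≤ ε)
    (hK : ∀ a b : ZMod n, (Gn n a ≤ D ∨ Gn n b ≤ D) → ‖Kl n a b‖ ≤ ε * (n.totient : ℝ))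
    (j1 y1 : ZMod n) :
    ∑ u : (ZMod n)ˣ, f (ZMod.toAddCircle (N * ((u : ZMod n) - j1)) + w) *
        f (ZMod.toAddCircle (N * (-((u⁻¹ : (ZMod n)ˣ) : ZMod n) - y1)) + w) ≤
      (n.totient : ℝ) * (‖c 0‖ ^ 2 + ε * (∑ h ∈ Icc (-(D : ℤ)) D, ‖c h‖) ^ 2) := by
  have hφ : (0 : ℝ) < n.totient := by
    exact_mod_cast Nat.totient_pos.mpr (Nat.pos_of_ne_zero (NeZero.ne n))
  have key : ((∑ u : (ZMod n)ˣ, f (ZMod.toAddCircle (N * ((u : ZMod n) - j1)) + w) *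
        f (ZMod.toAddCircle (N * (-((u⁻¹ : (ZMod n)ˣ) : ZMod n) - y1)) + w) : ℝ) : ℂ) =
      ∑ h ∈ Icc (-(D : ℤ)) D, ∑ k ∈ Icc (-(D : ℤ)) D,
        (c h * c k * (fourier h w * fourier k w *
          ZMod.stdAddChar (-((h : ZMod n) * (N * j1))) * ZMod.stdAddChar (-((k : ZMod n) * (N * y1))))) *
          Kl n ((h : ZMod n) * N) (((-k : ℤ) : ZMod n) * N) := by
    simp only [Complex.ofReal_sum, Complex.ofReal_mul, hf, Kl]
    rw [Finset.sum_congr rfl (fun u _ => Finset.sum_mul_sum _ _ _ _), Finset.sum_comm]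
    refine Finset.sum_congr rfl (fun h _ => ?_)
    rw [Finset.sum_comm]
    refine Finset.sum_congr rfl (fun k _ => ?_)
    rw [Finset.mul_sum]
    refine Finset.sum_congr rfl (fun u _ => ?_)
    rw [Law_fourier_add, Law_fourier_add, fourier_toAddCircle, fourier_toAddCircle]
    have e1 : (h : ZMod n) * (N * ((u : ZMod n) - j1)) =
        (h : ZMod n) * N * u + -((h : ZMod n) * (N * j1)) := by ring
    have e2 : (k : ZMod n) * (N * (-((u⁻¹ : (ZMod n)ˣ) : ZMod n) - y1)) =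
        ((-k : ℤ) : ZMod n) * N * ((u⁻¹ : (ZMod n)ˣ) : ZMod n) + -((k : ZMod n) * (N * y1)) := by
      push_cast
      ring
    rw [e1, e2, AddChar.map_add_eq_mul, AddChar.map_add_eq_mul, AddChar.map_add_eq_mul]
    ring
  have hstd : ∀ z : ZMod n, ‖(ZMod.stdAddChar z : ℂ)‖ = 1 := fun z => by
    rw [ZMod.stdAddChar_apply]
    exact Circle.norm_coe _
  have hfou : ∀ h : ℤ, ∀ x : UnitAddCircle, ‖(fourier h x : ℂ)‖ = 1 := fun h x => by
    rw [fourier_apply]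
    exact Circle.norm_coe _
  have hterm : ∀ h ∈ Icc (-(D : ℤ)) D, ∀ k ∈ Icc (-(D : ℤ)) D,
      ‖(c h * c k * (fourier h w * fourier k w *
          ZMod.stdAddChar (-((h : ZMod n) * (N * j1))) * ZMod.stdAddChar (-((k : ZMod n) * (N * y1))))) *
          Kl n ((h : ZMod n) * N) (((-k : ℤ) : ZMod n) * N)‖ ≤
        (n.totient : ℝ) * ((if h = 0 ∧ k = 0 then ‖c 0‖ ^ 2 else 0) + ε * (‖c h‖ * ‖c k‖)) := by
    intro h hh k hk
    rw [norm_mul, norm_mul, norm_mul, norm_mul, norm_mul, norm_mul, hstd, hstd, hfou, hfou]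
    rw [Finset.mem_Icc] at hh hk
    have hc : 0 ≤ ‖c h‖ * ‖c k‖ := mul_nonneg (norm_nonneg _) (norm_nonneg _)
    by_cases h0 : h = 0 ∧ k = 0
    · rw [if_pos h0]
      obtain ⟨rfl, rfl⟩ := h0
      have := norm_Kl_le n (((0 : ℤ) : ZMod n) * N) (((-0 : ℤ) : ZMod n) * N)
      have h4 : 0 ≤ ε * (‖c 0‖ * ‖c 0‖) := mul_nonneg hε (mul_nonneg (norm_nonneg _) (norm_nonneg _))
      nlinarith [mul_le_mul_of_nonneg_left this hc, mul_nonneg hφ.le h4]
    · rw [if_neg h0]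
      have hG : Gn n ((h : ZMod n) * N) ≤ D ∨ Gn n (((-k : ℤ) : ZMod n) * N) ≤ D := by
        by_cases hh0 : h = 0
        · right
          have hk0 : k ≠ 0 := fun e => h0 ⟨hh0, e⟩
          refine (Gn_int n (-k) (by simpa using hk0) N hN).trans ?_
          omega
        · left
          refine (Gn_int n h hh0 N hN).trans ?_
          omega
      have h1 := hK _ _ hG
      nlinarith [mul_le_mul_of_nonneg_left h1 hc]
  have h0mem : (0 : ℤ) ∈ Icc (-(D : ℤ)) D := by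
    rw [Finset.mem_Icc]
    omega
  have hsum1 : ∑ h ∈ Icc (-(D : ℤ)) D, ∑ k ∈ Icc (-(D : ℤ)) D,
      (n.totient : ℝ) * ((if h = 0 ∧ k = 0 then ‖c 0‖ ^ 2 else 0) + ε * (‖c h‖ * ‖c k‖)) =
      (n.totient : ℝ) * (‖c 0‖ ^ 2 + ε * (∑ h ∈ Icc (-(D : ℤ)) D, ‖c h‖) ^ 2) := by
    have e1 : ∑ h ∈ Icc (-(D : ℤ)) D, ∑ k ∈ Icc (-(D : ℤ)) D,
        (if h = 0 ∧ k = 0 then ‖c 0‖ ^ 2 else 0) = ‖c 0‖ ^ 2 := by
      rw [Finset.sum_eq_single 0]
      · rw [Finset.sum_eq_single 0]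
        · simp
        · intro b _ hb
          simp [hb]
        · intro hb
          exact absurd h0mem hb
      · intro b _ hb
        simp [hb]
      · intro hb
        exact absurd h0mem hb
    have e2 : ∑ h ∈ Icc (-(D : ℤ)) D, ∑ k ∈ Icc (-(D : ℤ)) D, ε * (‖c h‖ * ‖c k‖) =
        ε * (∑ h ∈ Icc (-(D : ℤ)) D, ‖c h‖) ^ 2 := by
      rw [sq, Finset.sum_mul_sum, Finset.mul_sum]
      refine Finset.sum_congr rfl (fun h _ => ?_)
      rw [Finset.mul_sum]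
    simp only [← Finset.mul_sum, Finset.sum_add_distrib]
    rw [e1]
    simp only [← Finset.mul_sum] at e2
    rw [e2]
  have hS : ∀ r : ℝ, r ≤ ‖(r : ℂ)‖ := fun r => by
    rw [Complex.norm_real]
    exact le_abs_self r
  refine (hS _).trans ?_
  rw [key, ← hsum1]
  refine (norm_sum_le _ _).trans ?_
  refine Finset.sum_le_sum (fun h hh => ?_)
  refine (norm_sum_le _ _).trans ?_
  exact Finset.sum_le_sum (fun k hk => hterm h hh k hk)

open Classical in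
private noncomputable def Law_u (n : ℕ) (x : ℤ × ℤ) : (ZMod n)ˣ :=
  if h : IsUnit ((x.1 : ℤ) : ZMod n) then h.unit else 1

private theorem Law_u_spec (n : ℕ) (x : ℤ × ℤ) (hx : (n : ℤ) ∣ x.1 * x.2 + 1) :
    ((Law_u n x : (ZMod n)ˣ) : ZMod n) = (x.1 : ZMod n) ∧
      -(((Law_u n x)⁻¹ : (ZMod n)ˣ) : ZMod n) = (x.2 : ZMod n) := by
  have h1 : ((x.1 : ℤ) : ZMod n) * (x.2 : ZMod n) = -1 := by
    have := (ZMod.intCast_zmod_eq_zero_iff_dvd (x.1 * x.2 + 1) n).mpr hx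
    push_cast at this
    linear_combination this
  have hu : IsUnit ((x.1 : ℤ) : ZMod n) := by
    refine IsUnit.of_mul_eq_one (-(x.2 : ZMod n)) ?_
    linear_combination -h1
  have h2 : ((Law_u n x : (ZMod n)ˣ) : ZMod n) = (x.1 : ZMod n) := by
    unfold Law_u
    rw [dif_pos hu]
    exact hu.unit_spec
  refine ⟨h2, ?_⟩
  have h3 : (((Law_u n x)⁻¹ : (ZMod n)ˣ) : ZMod n) * (x.1 : ZMod n) = 1 := by
    rw [← h2]
    exact Units.inv_mul _
  linear_combination (-(((Law_u n x)⁻¹ : (ZMod n)ˣ) : ZMod n)) * h1 + (x.2 : ZMod n) * h3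

theorem law (m : ℕ) (hm : 0 < m) (ε : ℝ) (hε : 0 < ε) : ∃ n0 : ℕ, ∀ n : ℕ, n0 ≤ n → n.Coprime m →
    ∀ (a : ℤ) (j0 y0 : ℤ), (((Ioc a (a + n) ×ˢ Ico (0 : ℤ) n).filter (fun x => (n : ℤ) ∣ x.1 * x.2 + 1 ∧
      (m : ℤ) ∣ x.1 - j0 ∧ (m : ℤ) ∣ x.2 - y0)).card : ℝ) ≤ (1 + ε) * n.totient / (m : ℝ) ^ 2 := by
  have hmR : (0 : ℝ) < m := by exact_mod_cast hm
  have hmZ : (0 : ℤ) < m := by exact_mod_cast hm
  set e : ℝ := min 1 ε with he
  have he0 : 0 < e := lt_min one_pos hε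
  have he1 : e ≤ 1 := min_le_left _ _
  have he2 : e ≤ ε := min_le_right _ _
  obtain ⟨D, c, f, hc0, hf0, hf1, hf⟩ := exists_maj (1 / (m : ℝ)) (e / (8 * m)) (by positivity) (by positivity)
  set S : ℝ := ∑ h ∈ Icc (-(D : ℤ)) D, ‖c h‖ with hS
  have hS0 : 0 ≤ S := Finset.sum_nonneg (fun _ _ => norm_nonneg _)
  set e' : ℝ := ε / (2 * m ^ 2 * (S ^ 2 + 1)) with he'
  have he'0 : 0 < e' := by positivity
  obtain ⟨n0, hn0⟩ := Kl_small D e' he'0
  refine ⟨max n0 1, fun n hn hco a j0 y0 => ?_⟩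
  have hn1 : 1 ≤ n := (le_max_right _ _).trans hn
  haveI : NeZero n := ⟨by omega⟩
  have hnZ : (0 : ℤ) < n := by exact_mod_cast hn1
  have hK := hn0 n ((le_max_left _ _).trans hn) inferInstance
  set M : (ZMod n)ˣ := ZMod.unitOfCoprime m hco.symm with hM
  have hMN : ((M⁻¹ : (ZMod n)ˣ) : ZMod n) * (m : ZMod n) = 1 := by
    have : (M : ZMod n) = (m : ZMod n) := ZMod.coe_unitOfCoprime m hco.symm
    rw [← this]
    exact Units.inv_mul _
  set w : UnitAddCircle := ((-(1 / (2 * m)) : ℝ) : UnitAddCircle) with hw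
  set j1 : ℤ := a + 1 + (j0 - a - 1) % m with hj1
  set y1 : ℤ := y0 % m with hy1
  have hb := Law_sum n D c f hf w ((M⁻¹ : (ZMod n)ˣ) : ZMod n) (M⁻¹).isUnit e' he'0.le hK
    ((j1 : ℤ) : ZMod n) ((y1 : ℤ) : ZMod n)
  set F : (ZMod n)ˣ → ℝ := fun u =>
    f (ZMod.toAddCircle (((M⁻¹ : (ZMod n)ˣ) : ZMod n) * ((u : ZMod n) - ((j1 : ℤ) : ZMod n))) + w) *
      f (ZMod.toAddCircle (((M⁻¹ : (ZMod n)ˣ) : ZMod n) *
        (-((u⁻¹ : (ZMod n)ˣ) : ZMod n) - ((y1 : ℤ) : ZMod n))) + w) with hF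
  have hF0 : ∀ u, 0 ≤ F u := fun u => mul_nonneg (hf0 _) (hf0 _)
  set E := (Ioc a (a + n) ×ˢ Ico (0 : ℤ) n).filter (fun x => (n : ℤ) ∣ x.1 * x.2 + 1 ∧
      (m : ℤ) ∣ x.1 - j0 ∧ (m : ℤ) ∣ x.2 - y0) with hE
  have hFE : ∀ x ∈ E, 1 ≤ F (Law_u n x) := by
    intro x hx
    rw [hE, Finset.mem_filter, Finset.mem_product, Finset.mem_Ioc, Finset.mem_Ico] at hx
    obtain ⟨⟨⟨ha1, ha2⟩, hb1, hb2⟩, hd, hdj, hdy⟩ := hx
    obtain ⟨hu1, hu2⟩ := Law_u_spec n x hd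
    have hmod1 := Int.emod_nonneg (j0 - a - 1) hmZ.ne'
    have hmod2 := Int.emod_lt_of_pos (j0 - a - 1) hmZ
    have hmod3 := Int.emod_add_mul_ediv (j0 - a - 1) m
    have hmod4 := Int.emod_nonneg y0 hmZ.ne'
    have hmod5 := Int.emod_lt_of_pos y0 hmZ
    have hmod6 := Int.emod_add_mul_ediv y0 m
    have d1 : (m : ℤ) ∣ x.1 - j1 := by
      have : x.1 - j1 = (x.1 - j0) + m * ((j0 - a - 1) / m) := by
        rw [hj1]
        linear_combination -hmod3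
      rw [this]
      exact dvd_add hdj (dvd_mul_right _ _)
    have d2 : (m : ℤ) ∣ x.2 - y1 := by
      have : x.2 - y1 = (x.2 - y0) + m * (y0 / m) := by
        rw [hy1]
        linear_combination -hmod6
      rw [this]
      exact dvd_add hdy (dvd_mul_right _ _)
    have p1 : 0 ≤ x.1 - j1 := by
      obtain ⟨s, hs⟩ := d1
      rw [hs]
      by_contra hneg
      push Not at hneg
      have hs1 : s ≤ -1 := by
        by_contra hs1
        push Not at hs1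
        have : 0 ≤ (m : ℤ) * s := mul_nonneg hmZ.le (by omega)
        omega
      have : (m : ℤ) * s ≤ m * (-1) := mul_le_mul_of_nonneg_left hs1 hmZ.le
      omega
    have p2 : 0 ≤ x.2 - y1 := by
      obtain ⟨s, hs⟩ := d2
      rw [hs]
      by_contra hneg
      push Not at hneg
      have hs1 : s ≤ -1 := by
        by_contra hs1
        push Not at hs1
        have : 0 ≤ (m : ℤ) * s := mul_nonneg hmZ.le (by omega)
        omega
      have : (m : ℤ) * s ≤ m * (-1) := mul_le_mul_of_nonneg_left hs1 hmZ.le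
      omega
    have q1 := hf1 _ (Law_near m n hm _ hMN x.1 j1 d1 p1 (by omega))
    have q2 := hf1 _ (Law_near m n hm _ hMN x.2 y1 d2 p2 (by omega))
    have q3 : F (Law_u n x) =
        f (ZMod.toAddCircle (((M⁻¹ : (ZMod n)ˣ) : ZMod n) * ((x.1 : ZMod n) - ((j1 : ℤ) : ZMod n))) + w) *
        f (ZMod.toAddCircle (((M⁻¹ : (ZMod n)ˣ) : ZMod n) * ((x.2 : ZMod n) - ((y1 : ℤ) : ZMod n))) + w) := by
      rw [hF]
      simp only
      rw [hu1, hu2]
    rw [q3]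
    exact one_le_mul_of_one_le_of_one_le q1 q2
  have hinj : Set.InjOn (Law_u n) (E : Set (ℤ × ℤ)) := by
    intro x hx y hy hxy
    rw [Finset.mem_coe, hE, Finset.mem_filter, Finset.mem_product, Finset.mem_Ioc, Finset.mem_Ico] at hx hy
    obtain ⟨⟨⟨ha1, ha2⟩, hb1, hb2⟩, hd, hdj, hdy⟩ := hx
    obtain ⟨⟨⟨ha1', ha2'⟩, hb1', hb2'⟩, hd', hdj', hdy'⟩ := hy
    obtain ⟨hu1, hu2⟩ := Law_u_spec n x hd
    obtain ⟨hv1, hv2⟩ := Law_u_spec n y hd'
    rw [hxy] at hu1 hu2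
    have e1 : ((x.1 : ℤ) : ZMod n) = (y.1 : ZMod n) := hu1.symm.trans hv1
    have e2 : ((x.2 : ℤ) : ZMod n) = (y.2 : ZMod n) := hu2.symm.trans hv2
    rw [ZMod.intCast_eq_intCast_iff_dvd_sub] at e1 e2
    have aux : ∀ r : ℤ, (n : ℤ) ∣ r → -(n : ℤ) < r → r < n → r = 0 := by
      rintro r ⟨s, rfl⟩ h1 h2
      have hs1 : s < 1 := by
        by_contra hc1
        push Not at hc1
        have : (n : ℤ) * 1 ≤ n * s := mul_le_mul_of_nonneg_left hc1 hnZ.le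
        omega
      have hs2 : -1 < s := by
        by_contra hc1
        push Not at hc1
        have : (n : ℤ) * s ≤ n * (-1) := mul_le_mul_of_nonneg_left hc1 hnZ.le
        omega
      have : s = 0 := by omega
      rw [this, mul_zero]
    have r1 := aux _ e1 (by omega) (by omega)
    have r2 := aux _ e2 (by omega) (by omega)
    refine Prod.ext ?_ ?_ <;> omega
  have hcard : (E.card : ℝ) ≤ ∑ u : (ZMod n)ˣ, F u := by
    calc (E.card : ℝ) = ∑ x ∈ E, (1 : ℝ) := by simp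
      _ ≤ ∑ x ∈ E, F (Law_u n x) := Finset.sum_le_sum hFE
      _ = ∑ u ∈ E.image (Law_u n), F u := (Finset.sum_image hinj).symm
      _ ≤ ∑ u : (ZMod n)ˣ, F u :=
          Finset.sum_le_sum_of_subset_of_nonneg (Finset.subset_univ _) (fun u _ _ => hF0 u)
  refine (hcard.trans hb).trans ?_
  have hφ : (0 : ℝ) ≤ n.totient := Nat.cast_nonneg _
  have hA : ‖c 0‖ ^ 2 ≤ (1 + ε / 2) / (m : ℝ) ^ 2 := by
    have h1 : ‖c 0‖ ^ 2 ≤ (1 / (m : ℝ) + e / (8 * m)) ^ 2 := pow_le_pow_left₀ (norm_nonneg _) hc0 2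
    refine h1.trans ?_
    have h2 : (1 / (m : ℝ) + e / (8 * m)) ^ 2 = (1 + e / 8) ^ 2 / (m : ℝ) ^ 2 := by
      field_simp
    rw [h2]
    refine div_le_div_of_nonneg_right ?_ (by positivity)
    nlinarith
  have hB : e' * S ^ 2 ≤ (ε / 2) / (m : ℝ) ^ 2 := by
    rw [he', div_mul_eq_mul_div, div_le_div_iff₀ (by positivity) (by positivity)]
    have h1 : 0 ≤ ε * (m : ℝ) ^ 2 := by positivity
    nlinarith [mul_nonneg h1 (sq_nonneg S)]
  have hC : (1 + ε) * (n.totient : ℝ) / (m : ℝ) ^ 2 =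
      (n.totient : ℝ) * ((1 + ε / 2) / (m : ℝ) ^ 2 + (ε / 2) / (m : ℝ) ^ 2) := by
    field_simp
    ring
  rw [hC]
  exact mul_le_mul_of_nonneg_left (add_le_add hA hB) hφ

end Pool.Agent.Lib.MP_d57abb_nt.TA
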