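import Pool.Agent.Lib.MP_d57abb_nt.TA.Cells

/-!
# JOB Rec: the recursion for the sub-cells of a frame (about 120 lines)

`sum_node`.  It is enough that the filter sets satisfy: for `C' ∈ CC A'`: `Sb C C' ↔ Sb (Lf C) C' ∨ Sb (Rt C) C'`, not both.  Put `m = C.1 + C.2`,
`ll m ≤ A' < ll C'.1 + ll C'.2`, so `¬ InO C' m` (`not_InO`): `dt C'.1 m ≤ 0` or `dt m C'.2 ≤ 0`.
`→`: in the first case `0 ≤ dt m C'.1`, so `Sb (Rt C) C'`; in the second `0 ≤ dt C'.2 m`, so `Sb (Lf C) C'`.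
`←`: `0 ≤ dt C'.2 m`, `dt m C.2 = 1 ≥ 0` give `0 ≤ dt C'.2 C.2` (`nn_trans`); in the same way for `Rt`.
Not both: `0 ≤ dt C'.2 m`, `0 ≤ dt m C'.1` would give `0 ≤ dt C'.2 C'.1 = -1`.
`sum_leaf`.  If `C, C' ∈ CC A'` and `Sb C C'`, then `v = C'.1 + C'.2` satisfies `InC C v` (`Sb_iff` with `A = A'`) and `InC C' v`
(`dt C'.1 v = 1`), it is primitive with `ll v > A'`: `C = C'` by `cell_unique`.  And `Sb C C` holds (`dt v v = 0`).
-/

namespace Pool.Agent.Lib.MP_d57abb_nt.TA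

open Finset Pool.Agent.Lib.MP_d57abb_nt

private theorem Rec_dt_self (v : ℤ × ℤ) : dt v v = 0 := by
  unfold dt; ring

private theorem Rec_iff {A' : ℕ} {C : (ℤ × ℤ) × (ℤ × ℤ)} (hC : Fr C) (h : ll C.1 + ll C.2 ≤ A')
    {D : (ℤ × ℤ) × (ℤ × ℤ)} (hD : D ∈ CC A') : Sb C D ↔ Sb (Lf C) D ∨ Sb (Rt C) D := by
  obtain ⟨hF, h1, h2, h3⟩ := mem_CC.1 hD
  have hm : Qd (C.1 + C.2) := hC.1.add hC.2.1
  have hl := ll_add C.1 C.2
  have d1 : dt C.1 (C.1 + C.2) = 1 := by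
    rw [dt_add_right, Rec_dt_self, hC.2.2, zero_add]
  have d2 : dt (C.1 + C.2) C.2 = 1 := by
    rw [dt_add_left, Rec_dt_self, hC.2.2, add_zero]
  have hn : ¬ InO D (C.1 + C.2) := not_InO hF (by omega)
  constructor
  · rintro ⟨a, b⟩
    by_cases hc : 0 < dt D.1 (C.1 + C.2)
    · left
      refine ⟨a, ?_⟩
      show 0 ≤ dt D.2 (C.1 + C.2)
      have : ¬ 0 < dt (C.1 + C.2) D.2 := fun hh => hn ⟨hc, hh⟩
      rw [dt_swap (C.1 + C.2) D.2]
      omega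
    · right
      refine ⟨?_, b⟩
      show 0 ≤ dt (C.1 + C.2) D.1
      rw [dt_swap D.1 (C.1 + C.2)]
      omega
  · rintro (⟨a, b⟩ | ⟨a, b⟩)
    · have b' : 0 ≤ dt D.2 (C.1 + C.2) := b
      exact ⟨a, nn_trans hF.2.1 hm hC.2.1 b' (by omega)⟩
    · have a' : 0 ≤ dt (C.1 + C.2) D.1 := a
      exact ⟨nn_trans hC.1 hm hF.1 (by omega) a', b⟩

private theorem Rec_not_both {C : (ℤ × ℤ) × (ℤ × ℤ)} (hC : Fr C)
    {D : (ℤ × ℤ) × (ℤ × ℤ)} (hF : Fr D) (hL : Sb (Lf C) D) (hR : Sb (Rt C) D) : False := by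
  have hm : Qd (C.1 + C.2) := hC.1.add hC.2.1
  have b : 0 ≤ dt D.2 (C.1 + C.2) := hL.2
  have a : 0 ≤ dt (C.1 + C.2) D.1 := hR.1
  have := nn_trans hF.2.1 hm hF.1 b a
  rw [dt_swap D.1 D.2, hF.2.2] at this
  omega

open Classical in
theorem sum_node {A' : ℕ} {C : (ℤ × ℤ) × (ℤ × ℤ)} (hC : Fr C) (h : ll C.1 + ll C.2 ≤ A')
    (f : (ℤ × ℤ) × (ℤ × ℤ) → ℝ) :
    ∑ C' ∈ (CC A').filter (Sb C), f C' =
      ∑ C' ∈ (CC A').filter (Sb (Lf C)), f C' + ∑ C' ∈ (CC A').filter (Sb (Rt C)), f C' := by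
  rw [← Finset.sum_union]
  · refine Finset.sum_congr ?_ fun _ _ => rfl
    ext D
    simp only [Finset.mem_union, Finset.mem_filter]
    constructor
    · rintro ⟨hD, hs⟩
      rcases (Rec_iff hC h hD).1 hs with h1 | h1
      · exact Or.inl ⟨hD, h1⟩
      · exact Or.inr ⟨hD, h1⟩
    · rintro (⟨hD, h1⟩ | ⟨hD, h1⟩)
      · exact ⟨hD, (Rec_iff hC h hD).2 (Or.inl h1)⟩
      · exact ⟨hD, (Rec_iff hC h hD).2 (Or.inr h1)⟩
  · rw [Finset.disjoint_left]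
    intro D h1 h2
    rw [Finset.mem_filter] at h1 h2
    exact Rec_not_both hC (mem_CC.1 h1.1).1 h1.2 h2.2

open Classical in
theorem sum_leaf {A' : ℕ} {C : (ℤ × ℤ) × (ℤ × ℤ)} (hC : C ∈ CC A')
    (f : (ℤ × ℤ) × (ℤ × ℤ) → ℝ) : ∑ C' ∈ (CC A').filter (Sb C), f C' = f C := by
  have hE : (CC A').filter (Sb C) = {C} := by
    ext D
    rw [Finset.mem_filter, Finset.mem_singleton]
    constructor
    · rintro ⟨hD, hs⟩
      obtain ⟨hF, h1, h2, h3⟩ := mem_CC.1 hD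
      have hv : Qd (D.1 + D.2) := hF.1.add hF.2.1
      have d1 : dt D.1 (D.1 + D.2) = 1 := by
        rw [dt_add_right, Rec_dt_self, hF.2.2, zero_add]
      have d2 : dt (D.1 + D.2) D.2 = 1 := by
        rw [dt_add_left, Rec_dt_self, hF.2.2, add_zero]
      refine (cell_unique hC hD hv hF.primm ?_ ((Sb_iff le_rfl hC hD).1 hs) ⟨?_, ?_⟩).symm
      · rw [ll_add]
        omega
      · omega
      · omega
    · rintro rfl
      exact ⟨hC, by rw [Rec_dt_self], by rw [Rec_dt_self]⟩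
  rw [hE, Finset.sum_singleton]

/-- induction over the sub-cells of a frame -/
theorem frame_induction {A' : ℕ} (P : (ℤ × ℤ) × (ℤ × ℤ) → Prop) (h1 : ∀ C ∈ CC A', P C)
    (h2 : ∀ C, Fr C → ll C.1 + ll C.2 ≤ A' → P (Lf C) → P (Rt C) → P C) :
    ∀ C, Fr C → ll C.1 ≤ A' → ll C.2 ≤ A' → P C := by
  have key : ∀ (n : ℕ) (C : (ℤ × ℤ) × (ℤ × ℤ)), Fr C → ll C.1 ≤ A' → ll C.2 ≤ A' →
      (2 * (A' : ℤ) - ll C.1 - ll C.2).toNat ≤ n → P C := by
    intro n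
    induction n with
    | zero =>
      intro C hC a b hn
      have p1 := hC.1.ll_pos
      have p2 := hC.2.1.ll_pos
      exact h1 C (mem_CC.2 ⟨hC, a, b, by omega⟩)
    | succ n ih =>
      intro C hC a b hn
      have p1 := hC.1.ll_pos
      have p2 := hC.2.1.ll_pos
      by_cases hA : (A' : ℤ) < ll C.1 + ll C.2
      · exact h1 C (mem_CC.2 ⟨hC, a, b, hA⟩)
      · have hm := ll_add C.1 C.2
        refine h2 C hC (by omega) (ih (Lf C) hC.Lf a ?_ ?_) (ih (Rt C) hC.Rt ?_ b ?_)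
        · show ll (C.1 + C.2) ≤ A'
          omega
        · show (2 * (A' : ℤ) - ll C.1 - ll (C.1 + C.2)).toNat ≤ n
          omega
        · show ll (C.1 + C.2) ≤ A'
          omega
        · show (2 * (A' : ℤ) - ll (C.1 + C.2) - ll C.2).toNat ≤ n
          omega
  intro C hC a b
  exact key _ C hC a b le_rfl

end Pool.Agent.Lib.MP_d57abb_nt.TA
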