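import Pool.Agent.Lib.MP_d57abb_nt.TA.Wt
import Pool.Agent.Lib.MP_d57abb_nt.TA.Line
import Pool.Agent.Lib.MP_d57abb_nt.TA.Yv

/-!
# JOB TotP: total weight of the pairs in a prime ideal (about 200 lines)

`Hs j = ∑_{v primitive} hw (ll v / 2^j)` over the quadrant (`hw ≠ 0` gives `ll v < 2^(j+2)`).
(1) For primitive `v` in the quadrant (`ll v ≥ 1`) and `p ≥ 1`: `∑_{w ∈ Bx, dt v w = p} ch K (ll w / ll v) ≤ K`: the `w` are among `w₀ + k v`, with `1 ≤ ll w₀ ≤ ll v`, `k ≥ 0` (a vector with `ll w ≤ 0` in the closed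
quadrant is `0`, but `dt v w = p > 0`), different `w` have different `k`, `ch K (ll w / ll v) = ch K (x + k)` with `x = ll w₀ / ll v ∈ (0, 1]`, zero for `k > K`; `ch_sum`.
`Dw K (ll v / 2^j) (ll w / 2^j) = hw (ll v / 2^j) ch K (ll w / ll v)`.  So the left side of `totP` is `≤ K p ∑_{v primitive, Ip p v} hw (ll v / 2^j)`.
(2) For every `l ≥ 1`: `p #{v primitive in the quadrant : ll v = l, Ip p v} ≤ #{v primitive : ll v = l} + p d(l)`, `d(l)` = number of divisors.  `v = (l - y, y)`, `0 ≤ y ≤ l`, primitive iff `gcd(l, y) = 1`;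
`Ip p v ↔ p ∣ l + (r - 1) y` with `r = rt p`, `p ∤ r - 1` (`rt_sub_one`): one residue class of `y` modulo `p`, which is `0` if `p ∣ l` (then no such `v`, as `p ∣ y`, unless `p ∤ gcd`…: `p ∣ l, p ∣ y` contradicts
`gcd = 1`).  If `p ∤ l`: Moebius: `#{0 ≤ y < l : gcd(y, l) = 1, y ≡ c (p)} = ∑_{d ∣ l} μ(d) #{0 ≤ y < l : d ∣ y, y ≡ c (p)}`, and `#{…} = l / (d p) + θ`, `|θ| ≤ 1` (`gcd(d, p) = 1`, one class modulo `d p`), so it is
`≤ φ(l) / p + d(l)`; `y = l` matters only for `l = 1` (`(0, 1)`); adjust by `+ 1`: use `p (d(l) + 1)` for the error.  `#{v primitive : ll v = l} ≥ φ(l)`.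
(An alternative to Moebius: count `y` in the reduced classes modulo `l`: any argument with an error `o(l)` on average is fine.)
(3) `∑_{l ≤ 2^(j+2)} p (d(l) + 1) ≤ p 2^(j+2) (j + 6) = o(4^j)`.
`Hs_le`: `Hs j ≤ #{v : ll v ≤ 4 · 2^j} ≤ 32 · 4^j` (`card_ball`).
-/

namespace Pool.Agent.Lib.MP_d57abb_nt.TA

open Finset Pool.Agent.Lib.MP_d57abb_nt

private theorem TotP_sum {α : Type*} (s t : Finset α) (f : α → ℝ) (h0 : ∀ x, 0 ≤ f x)
    (h : ∀ x ∈ s, f x ≠ 0 → x ∈ t) : ∑ x ∈ s, f x ≤ ∑ x ∈ t, f x := by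
  classical
  rw [← sum_filter_ne_zero s]
  refine sum_le_sum_of_subset_of_nonneg (fun x hx => ?_) fun x _ _ => h0 x
  rw [mem_filter] at hx
  exact h x hx.1 hx.2

private theorem TotP_Bx {N : ℕ} {v : ℤ × ℤ} :
    v ∈ Bx N ↔ (0 ≤ v.1 ∧ v.1 ≤ N) ∧ (0 ≤ v.2 ∧ v.2 ≤ N) := by
  unfold Bx
  rw [mem_product, mem_Icc, mem_Icc]

private theorem TotP_pos {v : ℤ × ℤ} (h1 : 0 ≤ v.1) (h2 : 0 ≤ v.2) (hc : IsCoprime v.1 v.2) :
    0 < ll v := by
  unfold ll
  by_contra h
  have h3 : v.1 = 0 := by omega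
  have h4 : v.2 = 0 := by omega
  rw [h3, h4] at hc
  obtain ⟨a, b, hab⟩ := hc
  simp at hab

open Classical in
/-- the total weight of the primitive vectors -/
noncomputable def Hs (j : ℕ) : ℝ :=
  ∑ v ∈ (Bx (2 ^ (j + 2))).filter (fun v => IsCoprime v.1 v.2), hw (ll v / 2 ^ j)

theorem Hs_nonneg (j : ℕ) : 0 ≤ Hs j := sum_nonneg fun _ _ => hw_nonneg _

theorem Hs_le (j : ℕ) : Hs j ≤ 32 * 4 ^ j := by
  classical
  have h2 : (0 : ℝ) < 2 ^ j := by positivity
  have h1 : Hs j ≤ ∑ v ∈ (Bx (2 ^ (j + 2))).filter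
      (fun v => Qd v ∧ (ll v : ℝ) ≤ 4 * 2 ^ j), hw (ll v / 2 ^ j) := by
    refine TotP_sum _ _ (fun v : ℤ × ℤ => hw (ll v / 2 ^ j)) (fun v => hw_nonneg _) ?_
    intro v hv hne
    rw [mem_filter, TotP_Bx] at hv
    obtain ⟨⟨hv1, hv2⟩, hc⟩ := hv
    rw [mem_filter, TotP_Bx]
    have h3 := (hw_supp hne).2
    rw [div_lt_iff₀ h2] at h3
    refine ⟨⟨hv1, hv2⟩, ⟨hv1.1, hv2.1, ?_⟩, h3.le⟩
    rintro rfl
    exact absurd (TotP_pos hv1.1 hv2.1 hc) (by simp [ll])
  have h3 : ∑ v ∈ (Bx (2 ^ (j + 2))).filter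
      (fun v => Qd v ∧ (ll v : ℝ) ≤ 4 * 2 ^ j), hw (ll v / 2 ^ j) ≤
      (((Bx (2 ^ (j + 2))).filter (fun v => Qd v ∧ (ll v : ℝ) ≤ 4 * 2 ^ j)).card : ℝ) := by
    refine (sum_le_sum fun v _ => hw_le_one (ll v / 2 ^ j)).trans ?_
    rw [sum_const, nsmul_eq_mul, mul_one]
  have h4 := card_ball (2 ^ (j + 2)) (Z := 4 * 2 ^ j) (by positivity)
  have h5 : (2 : ℝ) * (4 * 2 ^ j) ^ 2 = 32 * 4 ^ j := by
    have h6 : (4 : ℝ) ^ j = 2 ^ j * 2 ^ j := by
      rw [← mul_pow]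
      norm_num
    rw [h6]
    ring
  rw [h5] at h4
  exact h1.trans (h3.trans h4)

/-! ### the sum over the second vector -/

open Classical in
private theorem TotP_line {K : ℕ} (hK : 1 ≤ K) {v : ℤ × ℤ} (h1 : 0 ≤ v.1) (h2 : 0 ≤ v.2)
    (hc : IsCoprime v.1 v.2) {p : ℤ} (hp : 0 < p) (N : ℕ) :
    ∑ w ∈ (Bx N).filter (fun w => dt v w = p), ch K ((ll w : ℝ) / ll v) ≤ K := by
  have hL := TotP_pos h1 h2 hc
  obtain ⟨L, hLdef⟩ : ∃ L, L = ll v := ⟨_, rfl⟩
  rw [← hLdef] at hL ⊢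
  have hLr : (0 : ℝ) < L := by exact_mod_cast hL
  rcases ((Bx N).filter (fun w => dt v w = p)).eq_empty_or_nonempty with he | ⟨w₀, hw₀⟩
  · rw [he, sum_empty]
    exact Nat.cast_nonneg K
  have key : ∀ w ∈ (Bx N).filter (fun w => dt v w = p), ∀ w' ∈ (Bx N).filter (fun w => dt v w = p),
      ∃ k : ℤ, w.1 = w'.1 + k * v.1 ∧ w.2 = w'.2 + k * v.2 := by
    intro w hw w' hw'
    rw [mem_filter] at hw hw'
    obtain ⟨a, b, hab⟩ := hc
    have h3 : dt v w = dt v w' := hw.2.trans hw'.2.symm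
    unfold dt at h3
    refine ⟨a * (w.1 - w'.1) + b * (w.2 - w'.2), ?_, ?_⟩
    · linear_combination (-(w.1 - w'.1)) * hab - b * h3
    · linear_combination (-(w.2 - w'.2)) * hab + a * h3
  have hpos : ∀ w ∈ (Bx N).filter (fun w => dt v w = p), 1 ≤ ll w := by
    intro w hw
    rw [mem_filter, TotP_Bx] at hw
    obtain ⟨⟨hw1, hw2⟩, hd⟩ := hw
    unfold ll
    by_contra h
    have h3 : w.1 = 0 := by omega
    have h4 : w.2 = 0 := by omega
    unfold dt at hd
    rw [h3, h4] at hd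
    simp at hd
    omega
  set r₀ : ℤ := (ll w₀ - 1) % L + 1 with hr₀
  have hr1 : 1 ≤ r₀ := by
    have := Int.emod_nonneg (ll w₀ - 1) hL.ne'
    omega
  have hr2 : r₀ ≤ L := by
    have := Int.emod_lt_of_pos (ll w₀ - 1) hL
    omega
  set nn : ℤ × ℤ → ℕ := fun w => ((ll w - 1) / L).toNat with hnn
  have hll : ∀ w ∈ (Bx N).filter (fun w => dt v w = p), ll w = r₀ + L * (nn w : ℤ) := by
    intro w hw
    obtain ⟨k, hk1, hk2⟩ := key w hw w₀ hw₀
    have h3 : ll w - 1 = (ll w₀ - 1) + L * k := by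
      rw [hLdef]
      unfold ll
      rw [hk1, hk2]
      ring
    have h4 : (ll w - 1) % L = (ll w₀ - 1) % L := by
      rw [h3, Int.add_mul_emod_self_left]
    have h5 : 0 ≤ (ll w - 1) / L := Int.ediv_nonneg (by have := hpos w hw; omega) hL.le
    have h6 : ((nn w : ℕ) : ℤ) = (ll w - 1) / L := Int.toNat_of_nonneg h5
    have h7 := Int.emod_add_mul_ediv (ll w - 1) L
    rw [h6, hr₀, ← h4]
    linarith
  have hinj : Set.InjOn nn ((Bx N).filter (fun w => dt v w = p) : Finset (ℤ × ℤ)) := by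
    intro w hw w' hw' he
    have hw := mem_coe.1 hw
    have hw' := mem_coe.1 hw'
    have h3 : ll w = ll w' := by rw [hll w hw, hll w' hw', he]
    obtain ⟨k, hk1, hk2⟩ := key w hw w' hw'
    have h4 : k * L = 0 := by
      rw [hLdef]
      unfold ll at h3 ⊢
      rw [hk1, hk2] at h3
      linarith
    have h5 : k = 0 := (mul_eq_zero.1 h4).resolve_right hL.ne'
    rw [h5, zero_mul, add_zero] at hk1 hk2
    exact Prod.ext hk1 hk2
  have hx0 : (0 : ℝ) < (r₀ : ℝ) / L := div_pos (by exact_mod_cast hr1) hLr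
  have hx1 : (r₀ : ℝ) / L ≤ 1 := by
    rw [div_le_one hLr]
    exact_mod_cast hr2
  have e1 : ∑ w ∈ (Bx N).filter (fun w => dt v w = p), ch K ((ll w : ℝ) / L) =
      ∑ n ∈ ((Bx N).filter (fun w => dt v w = p)).image nn, ch K ((r₀ : ℝ) / L + n) := by
    rw [sum_image hinj]
    refine sum_congr rfl fun w hw => ?_
    congr 1
    have h3 : ((ll w : ℤ) : ℝ) = (r₀ : ℝ) + L * (nn w : ℝ) := by
      have h4 := hll w hw
      exact_mod_cast h4
    rw [h3]
    field_simp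
  rw [e1]
  refine (TotP_sum _ _ (fun n : ℕ => ch K ((r₀ : ℝ) / L + n)) (fun n => ch_nonneg _ _) ?_).trans
    (ch_sum hK hx0 hx1).le
  intro n _ hne
  have h3 := (ch_supp hne).2
  rw [mem_range]
  have h4 : (n : ℝ) < K + 1 := by linarith
  exact_mod_cast h4

open Classical in
private theorem TotP_one (K : ℕ) (hK : 1 ≤ K) (N j : ℕ) {p : ℕ} (hp : 0 < p) :
    ∑ x ∈ (pp2 N p).filter (fun x => Ip p x.1), Dw K (ll x.1 / 2 ^ j) (ll x.2 / 2 ^ j) ≤
      K * ∑ v ∈ (Bx (2 ^ (j + 2))).filter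
        (fun v => (IsCoprime v.1 v.2 ∧ Ip p v) ∧ ll v < (2 ^ (j + 2) : ℕ)), hw (ll v / 2 ^ j) := by
  have h2j : (0 : ℝ) < 2 ^ j := by positivity
  have hD : ∀ x y : ℝ, 0 ≤ Dw K x y := fun x y => mul_nonneg (hw_nonneg _) (ch_nonneg _ _)
  have e1 : ∑ x ∈ (pp2 N p).filter (fun x => Ip p x.1), Dw K (ll x.1 / 2 ^ j) (ll x.2 / 2 ^ j) ≤
      ∑ x ∈ (((Bx N).filter (fun v => IsCoprime v.1 v.2 ∧ Ip p v)) ×ˢ Bx N).filter
        (fun x => dt x.1 x.2 = p), Dw K (ll x.1 / 2 ^ j) (ll x.2 / 2 ^ j) := by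
    refine sum_le_sum_of_subset_of_nonneg ?_ fun x _ _ => hD _ _
    intro x hx
    rw [mem_filter, pp2, mem_filter, mem_product] at hx
    obtain ⟨⟨⟨hx1, hx2⟩, hx3, hx4, hx5⟩, hx6⟩ := hx
    rw [mem_filter, mem_product, mem_filter]
    exact ⟨⟨⟨hx1, hx4, hx6⟩, hx2⟩, hx3⟩
  refine e1.trans ?_
  rw [sum_filter, sum_product, mul_sum]
  have e2 : ∀ v ∈ (Bx N).filter (fun v => IsCoprime v.1 v.2 ∧ Ip p v),
      ∑ w ∈ Bx N, (if dt v w = p then Dw K (ll v / 2 ^ j) (ll w / 2 ^ j) else 0) ≤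
        K * hw (ll v / 2 ^ j) := by
    intro v hv
    rw [mem_filter, TotP_Bx] at hv
    obtain ⟨⟨hv1, hv2⟩, hc, hI⟩ := hv
    rw [← sum_filter]
    have hL := TotP_pos hv1.1 hv2.1 hc
    have hLr : (0 : ℝ) < ll v := by exact_mod_cast hL
    have e3 : ∀ w ∈ (Bx N).filter (fun w => dt v w = p),
        Dw K (ll v / 2 ^ j) (ll w / 2 ^ j) = hw (ll v / 2 ^ j) * ch K ((ll w : ℝ) / ll v) := by
      intro w _
      unfold Dw
      congr 2
      field_simp
    rw [sum_congr rfl e3, ← mul_sum, mul_comm (K : ℝ)]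
    exact mul_le_mul_of_nonneg_left (TotP_line hK hv1.1 hv2.1 hc (by exact_mod_cast hp) N)
      (hw_nonneg _)
  refine (sum_le_sum e2).trans ?_
  refine TotP_sum _ _ (fun v : ℤ × ℤ => (K : ℝ) * hw (ll v / 2 ^ j))
    (fun v => mul_nonneg (Nat.cast_nonneg K) (hw_nonneg _)) ?_
  intro v hv hne
  rw [mem_filter, TotP_Bx] at hv
  obtain ⟨⟨hv1, hv2⟩, hc, hI⟩ := hv
  have h3 := (hw_supp (right_ne_zero_of_mul hne)).2
  rw [div_lt_iff₀ h2j] at h3
  have h4 : (ll v : ℤ) < ((2 ^ (j + 2) : ℕ) : ℤ) := by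
    have h5 : ((ll v : ℤ) : ℝ) < (((2 ^ (j + 2) : ℕ) : ℤ) : ℝ) := by
      push_cast
      rw [pow_add]
      linarith
    exact_mod_cast h5
  rw [mem_filter, TotP_Bx]
  have h5 : ll v = v.1 + v.2 := rfl
  exact ⟨⟨⟨hv1.1, by omega⟩, hv2.1, by omega⟩, ⟨hc, hI⟩, h4⟩

/-! ### counting in residue classes -/

private theorem TotP_mu (n : ℕ) :
    ∑ d ∈ n.divisors, ArithmeticFunction.moebius d = if n = 1 then 1 else 0 := by
  rw [← ArithmeticFunction.coe_zeta_mul_apply, ArithmeticFunction.coe_zeta_mul_moebius,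
    ArithmeticFunction.one_apply]

private theorem TotP_class {p : ℕ} (hp : p.Prime) (m : ℕ) (c c' : ZMod p) :
    ((range m).filter (fun z : ℕ => (z : ZMod p) = c)).card ≤
      ((range m).filter (fun z : ℕ => (z : ZMod p) = c')).card + 1 := by
  have : NeZero p := ⟨hp.ne_zero⟩
  have h : ∀ c : ZMod p, ((range m).filter (fun z : ℕ => (z : ZMod p) = c)).card =
      m / p + if c.val % p < m % p then 1 else 0 := by
    intro c
    rw [← Nat.count_modEq_card m hp.pos c.val, Nat.count_eq_card_filter_range]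
    congr 1
    refine filter_congr fun z _ => ?_
    rw [← ZMod.natCast_eq_natCast_iff, ZMod.natCast_zmod_val]
  rw [h, h]
  split_ifs <;> omega

private theorem TotP_dcl {p : ℕ} (hp : p.Prime) {l d : ℕ} (hl : 1 ≤ l) (hd : d ∣ l)
    (hpl : ¬ p ∣ l) (c c' : ZMod p) :
    ((range l).filter (fun y : ℕ => d ∣ y ∧ (y : ZMod p) = c)).card ≤
      ((range l).filter (fun y : ℕ => d ∣ y ∧ (y : ZMod p) = c')).card + 1 := by
  have hfact : Fact p.Prime := ⟨hp⟩
  obtain ⟨m, hm⟩ := hd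
  have hd0 : 0 < d := by
    rcases Nat.eq_zero_or_pos d with h | h
    · rw [h, zero_mul] at hm
      omega
    · exact h
  have hdp : (d : ZMod p) ≠ 0 := by
    intro h
    rw [ZMod.natCast_eq_zero_iff] at h
    exact hpl (h.trans ⟨m, hm⟩)
  have h : ∀ c : ZMod p, ((range l).filter (fun y : ℕ => d ∣ y ∧ (y : ZMod p) = c)).card =
      ((range m).filter (fun z : ℕ => (z : ZMod p) = c * (d : ZMod p)⁻¹)).card := by
    intro c
    have e : (range l).filter (fun y : ℕ => d ∣ y ∧ (y : ZMod p) = c) =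
        ((range m).filter (fun z : ℕ => (z : ZMod p) = c * (d : ZMod p)⁻¹)).image
          (fun z => d * z) := by
      ext y
      rw [mem_filter, mem_image, mem_range]
      constructor
      · rintro ⟨h1, ⟨z, rfl⟩, h2⟩
        refine ⟨z, ?_, rfl⟩
        rw [mem_filter, mem_range]
        refine ⟨?_, ?_⟩
        · rw [hm] at h1
          exact Nat.lt_of_mul_lt_mul_left h1
        · rw [← h2]
          push_cast
          field_simp
      · rintro ⟨z, hz, rfl⟩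
        rw [mem_filter, mem_range] at hz
        refine ⟨?_, ⟨z, rfl⟩, ?_⟩
        · rw [hm]
          exact Nat.mul_lt_mul_of_pos_left hz.1 hd0
        · push_cast
          rw [hz.2]
          field_simp
    rw [e, card_image_of_injective _ fun a b hab => Nat.eq_of_mul_eq_mul_left hd0 hab]
  rw [h, h]
  exact TotP_class hp m _ _

private theorem TotP_moeb {p : ℕ} {l : ℕ} (hl : 1 ≤ l) (c : ZMod p) :
    ((((range l).filter (fun y : ℕ => y.Coprime l ∧ (y : ZMod p) = c)).card : ℕ) : ℤ) =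
      ∑ d ∈ l.divisors, ArithmeticFunction.moebius d *
        ((((range l).filter (fun y : ℕ => d ∣ y ∧ (y : ZMod p) = c)).card : ℕ) : ℤ) := by
  have h1 : ∀ y : ℕ, (if y.Coprime l then (1 : ℤ) else 0) =
      ∑ d ∈ l.divisors, if d ∣ y then ArithmeticFunction.moebius d else 0 := by
    intro y
    rw [← sum_filter]
    have h2 : l.divisors.filter (fun d => d ∣ y) = (Nat.gcd y l).divisors := by
      ext d
      rw [mem_filter, Nat.mem_divisors, Nat.mem_divisors, Nat.dvd_gcd_iff]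
      have h3 : Nat.gcd y l ≠ 0 := (Nat.gcd_pos_of_pos_right _ hl).ne'
      constructor
      · rintro ⟨⟨h4, h5⟩, h6⟩
        exact ⟨⟨h6, h4⟩, h3⟩
      · rintro ⟨⟨h4, h5⟩, h6⟩
        exact ⟨⟨h5, by omega⟩, h4⟩
    rw [h2, TotP_mu]
  have h2 : ((((range l).filter (fun y : ℕ => y.Coprime l ∧ (y : ZMod p) = c)).card : ℕ) : ℤ) =
      ∑ y ∈ range l, (if (y : ZMod p) = c then (if y.Coprime l then (1 : ℤ) else 0) else 0) := by
    rw [card_filter]
    push_cast
    refine sum_congr rfl fun y _ => ?_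
    by_cases h3 : (y : ZMod p) = c <;> by_cases h4 : y.Coprime l <;> simp [h3, h4]
  have h3 : ∀ d : ℕ, ((((range l).filter (fun y : ℕ => d ∣ y ∧ (y : ZMod p) = c)).card : ℕ) : ℤ) =
      ∑ y ∈ range l, (if (y : ZMod p) = c then (if d ∣ y then (1 : ℤ) else 0) else 0) := by
    intro d
    rw [card_filter]
    push_cast
    refine sum_congr rfl fun y _ => ?_
    by_cases h3 : (y : ZMod p) = c <;> by_cases h4 : d ∣ y <;> simp [h3, h4]
  rw [h2]
  simp only [h1, h3, mul_sum]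
  rw [sum_comm]
  refine sum_congr rfl fun y _ => ?_
  by_cases h4 : (y : ZMod p) = c
  · simp only [if_pos h4]
    refine sum_congr rfl fun d _ => ?_
    by_cases h5 : d ∣ y <;> simp [h5]
  · simp only [if_neg h4, mul_zero, sum_const_zero]

private theorem TotP_diff {p : ℕ} (hp : p.Prime) {l : ℕ} (hl : 1 ≤ l) (hpl : ¬ p ∣ l)
    (c c' : ZMod p) :
    ((range l).filter (fun y : ℕ => y.Coprime l ∧ (y : ZMod p) = c)).card ≤
      ((range l).filter (fun y : ℕ => y.Coprime l ∧ (y : ZMod p) = c')).card +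
        l.divisors.card := by
  have h1 := TotP_moeb (p := p) hl c
  have h2 := TotP_moeb (p := p) hl c'
  have h3 : ∑ d ∈ l.divisors, ArithmeticFunction.moebius d *
        ((((range l).filter (fun y : ℕ => d ∣ y ∧ (y : ZMod p) = c)).card : ℕ) : ℤ) ≤
      ∑ d ∈ l.divisors, (ArithmeticFunction.moebius d *
        ((((range l).filter (fun y : ℕ => d ∣ y ∧ (y : ZMod p) = c')).card : ℕ) : ℤ) + 1) := by
    refine sum_le_sum fun d hd => ?_
    have h4 := TotP_dcl hp hl (Nat.mem_divisors.1 hd).1 hpl c c'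
    have h5 := TotP_dcl hp hl (Nat.mem_divisors.1 hd).1 hpl c' c
    rcases ArithmeticFunction.moebius_eq_or d with h6 | h6 | h6
    · rw [h6]
      omega
    · rw [h6]
      omega
    · rw [h6]
      omega
  rw [← h1, sum_add_distrib, ← h2, sum_const, nsmul_eq_mul, mul_one] at h3
  exact_mod_cast h3

private theorem TotP_avg {p : ℕ} (hp : p.Prime) {l : ℕ} (hl : 1 ≤ l) (hpl : ¬ p ∣ l)
    (c : ZMod p) :
    p * ((range l).filter (fun y : ℕ => y.Coprime l ∧ (y : ZMod p) = c)).card ≤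
      ((range l).filter (fun y : ℕ => y.Coprime l)).card + p * l.divisors.card := by
  have : NeZero p := ⟨hp.ne_zero⟩
  have h1 : ∑ c' : ZMod p, ((range l).filter (fun y : ℕ => y.Coprime l ∧ (y : ZMod p) = c')).card =
      ((range l).filter (fun y : ℕ => y.Coprime l)).card := by
    rw [card_eq_sum_card_fiberwise (s := (range l).filter (fun y : ℕ => y.Coprime l))
      (t := (univ : Finset (ZMod p))) (f := fun y : ℕ => (y : ZMod p)) (fun _ _ => mem_coe.2 (mem_univ _))]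
    refine sum_congr rfl fun c' _ => ?_
    rw [filter_filter]
  have h2 : ∑ _c' : ZMod p,
      ((range l).filter (fun y : ℕ => y.Coprime l ∧ (y : ZMod p) = c)).card ≤
      ∑ c' : ZMod p, (((range l).filter (fun y : ℕ => y.Coprime l ∧ (y : ZMod p) = c')).card +
        l.divisors.card) := sum_le_sum fun c' _ => TotP_diff hp hl hpl c c'
  rw [sum_const, card_univ, ZMod.card, smul_eq_mul, sum_add_distrib, h1, sum_const, card_univ,
    ZMod.card, smul_eq_mul] at h2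
  exact h2

open Classical in
private theorem TotP_cnt {p : ℕ} (hp : SP p) {l R : ℕ} (hl : 1 ≤ l) (hR : l ≤ R) :
    p * ((Bx R).filter (fun v => (IsCoprime v.1 v.2 ∧ Ip p v) ∧ ll v = l)).card ≤
      ((Bx R).filter (fun v => IsCoprime v.1 v.2 ∧ ll v = l)).card +
        p * (l.divisors.card + 1) := by
  have hpp := hp.1
  have hfact : Fact p.Prime := ⟨hpp⟩
  have hpz : Prime (p : ℤ) := Nat.prime_iff_prime_int.1 hpp
  have hr := rt_sub_one hp
  have hcop : ∀ v : ℤ × ℤ, v ∈ Bx R → IsCoprime v.1 v.2 → ll v = l →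
      v.2.toNat.Coprime l ∧ (v.2.toNat : ℤ) = v.2 ∧ v.2.toNat ≤ l := by
    intro v hv hc hll
    rw [TotP_Bx] at hv
    have h1 : (v.2.toNat : ℤ) = v.2 := Int.toNat_of_nonneg hv.2.1
    have h2 : ll v = v.1 + v.2 := rfl
    refine ⟨?_, h1, by omega⟩
    rw [← Nat.isCoprime_iff_coprime, h1]
    have h3 : (l : ℤ) = v.1 + 1 * v.2 := by rw [one_mul, ← h2, hll]
    rw [h3]
    exact (IsCoprime.add_mul_right_right hc.symm 1)
  by_cases hpl : p ∣ l
  · have h0 : (Bx R).filter (fun v => (IsCoprime v.1 v.2 ∧ Ip p v) ∧ ll v = l) = ∅ := by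
      rw [filter_eq_empty_iff]
      rintro v hv ⟨⟨hc, hI⟩, hll⟩
      have h2 : ll v = v.1 + v.2 := rfl
      have h3 : (p : ℤ) ∣ v.1 + v.2 := by
        rw [← h2, hll]
        exact_mod_cast hpl
      have h4 : (p : ℤ) ∣ (rt p - 1) * v.2 := by
        have h5 := dvd_sub hI h3
        have h6 : v.1 + rt p * v.2 - (v.1 + v.2) = (rt p - 1) * v.2 := by ring
        rwa [h6] at h5
      have h5 : (p : ℤ) ∣ v.2 := (hpz.dvd_or_dvd h4).resolve_left hr
      have h6 : (p : ℤ) ∣ v.1 := by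
        have h7 := dvd_sub h3 h5
        rwa [add_sub_cancel_right] at h7
      exact hpz.not_isUnit (hc.isUnit_of_dvd' h6 h5)
    rw [h0, card_empty, mul_zero]
    exact Nat.zero_le _
  · have hr' : ((rt p - 1 : ℤ) : ZMod p) ≠ 0 := by
      intro h
      rw [ZMod.intCast_zmod_eq_zero_iff_dvd] at h
      exact hr h
    obtain ⟨c, hcdef⟩ : ∃ c : ZMod p, c = -(l : ZMod p) * ((rt p - 1 : ℤ) : ZMod p)⁻¹ := ⟨_, rfl⟩
    have h1 : ((Bx R).filter (fun v => (IsCoprime v.1 v.2 ∧ Ip p v) ∧ ll v = l)).card ≤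
        ((range l).filter (fun y : ℕ => y.Coprime l ∧ (y : ZMod p) = c)).card + 1 := by
      have h2 : ((Bx R).filter (fun v => (IsCoprime v.1 v.2 ∧ Ip p v) ∧ ll v = l)).card ≤
          (insert l ((range l).filter (fun y : ℕ => y.Coprime l ∧ (y : ZMod p) = c))).card := by
        refine card_le_card_of_injOn (fun v : ℤ × ℤ => v.2.toNat) ?_ ?_
        · intro v hv
          rw [mem_coe, mem_filter] at hv
          obtain ⟨hv0, ⟨hc, hI⟩, hll⟩ := hv
          obtain ⟨h3, h4, h5⟩ := hcop v hv0 hc hll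
          rw [mem_coe, mem_insert]
          rcases Nat.eq_or_lt_of_le h5 with h6 | h6
          · exact Or.inl h6
          · right
            rw [mem_filter, mem_range]
            refine ⟨h6, h3, ?_⟩
            have h7 : (((v.2.toNat : ℕ) : ℤ) : ZMod p) = ((v.2 : ℤ) : ZMod p) := by rw [h4]
            have h8 : ((v.1 + rt p * v.2 : ℤ) : ZMod p) = 0 := by
              rw [ZMod.intCast_zmod_eq_zero_iff_dvd]
              exact hI
            have h9 : ((v.1 + v.2 : ℤ) : ZMod p) = (l : ZMod p) := by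
              have h10 : v.1 + v.2 = (l : ℤ) := hll
              rw [h10]
              push_cast
              rfl
            push_cast at h7 h8 h9 hr' hcdef
            rw [h7, hcdef, eq_mul_inv_iff_mul_eq₀ hr']
            linear_combination h8 - h9
        · intro v hv v' hv' he
          rw [mem_coe, mem_filter] at hv hv'
          obtain ⟨hv0, ⟨hc, hI⟩, hll⟩ := hv
          obtain ⟨hv0', ⟨hc', hI'⟩, hll'⟩ := hv'
          obtain ⟨-, h4, -⟩ := hcop v hv0 hc hll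
          obtain ⟨-, h4', -⟩ := hcop v' hv0' hc' hll'
          have he : v.2.toNat = v'.2.toNat := he
          have h5 : v.2 = v'.2 := by rw [← h4, ← h4', he]
          have h6 : v.1 + v.2 = v'.1 + v'.2 := (hll.trans hll'.symm : ll v = ll v')
          exact Prod.ext (by omega) h5
      exact h2.trans (card_insert_le _ _)
    have h2 := TotP_avg hpp hl hpl c
    have h3 : ((range l).filter (fun y : ℕ => y.Coprime l)).card ≤
        ((Bx R).filter (fun v => IsCoprime v.1 v.2 ∧ ll v = l)).card := by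
      refine card_le_card_of_injOn (fun y : ℕ => (((l : ℤ) - y, (y : ℤ)) : ℤ × ℤ)) ?_ ?_
      · intro y hy
        rw [mem_coe, mem_filter, mem_range] at hy
        rw [mem_coe, mem_filter, TotP_Bx]
        have hyl := hy.1
        refine ⟨⟨⟨?_, ?_⟩, ?_, ?_⟩, ?_, ?_⟩
        · simp only; omega
        · simp only; omega
        · simp only; omega
        · simp only; omega
        · simp only
          have h4 : IsCoprime (l : ℤ) (y : ℤ) := (Nat.isCoprime_iff_coprime.2 hy.2).symm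
          have h5 : (l : ℤ) - y = (l : ℤ) + (-1) * y := by ring
          rw [h5]
          exact IsCoprime.add_mul_right_left h4 (-1)
        · unfold ll
          simp
      · intro y _ y' _ he
        have h4 := congrArg Prod.snd he
        simp only at h4
        exact_mod_cast h4
    calc p * ((Bx R).filter (fun v => (IsCoprime v.1 v.2 ∧ Ip p v) ∧ ll v = l)).card ≤
        p * (((range l).filter (fun y : ℕ => y.Coprime l ∧ (y : ZMod p) = c)).card + 1) :=
          Nat.mul_le_mul_left _ h1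
      _ ≤ ((Bx R).filter (fun v => IsCoprime v.1 v.2 ∧ ll v = l)).card +
        p * (l.divisors.card + 1) := by
          rw [mul_add, mul_add]
          omega

private theorem TotP_div (l : ℕ) : l.divisors.card ≤ 2 * Nat.sqrt l := by
  have h1 : l.divisors ⊆ (Icc 1 (Nat.sqrt l)) ∪ (Icc 1 (Nat.sqrt l)).image (fun d => l / d) := by
    intro d hd
    rw [Nat.mem_divisors] at hd
    obtain ⟨⟨e, he⟩, hl⟩ := hd
    have hd0 : 0 < d := by
      rcases Nat.eq_zero_or_pos d with h | h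
      · rw [h, zero_mul] at he
        exact absurd he hl
      · exact h
    have he0 : 0 < e := by
      rcases Nat.eq_zero_or_pos e with h | h
      · rw [h, mul_zero] at he
        exact absurd he hl
      · exact h
    rw [mem_union, mem_Icc, mem_image]
    rcases Nat.le_total d e with h | h
    · left
      refine ⟨hd0, Nat.le_sqrt.2 ?_⟩
      rw [he]
      exact Nat.mul_le_mul_left _ h
    · right
      refine ⟨e, mem_Icc.2 ⟨he0, Nat.le_sqrt.2 ?_⟩, ?_⟩
      · rw [he]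
        exact Nat.mul_le_mul_right _ h
      · rw [he, Nat.mul_div_cancel _ he0]
  refine (card_le_card h1).trans ((card_union_le _ _).trans ?_)
  have h2 : ((Icc 1 (Nat.sqrt l)).image (fun d => l / d)).card ≤ (Icc 1 (Nat.sqrt l)).card :=
    card_image_le
  rw [Nat.card_Icc] at *
  omega

open Classical in
private theorem TotP_two {p : ℕ} (hp : SP p) (j : ℕ) :
    (p : ℝ) * ∑ v ∈ (Bx (2 ^ (j + 2))).filter
        (fun v => (IsCoprime v.1 v.2 ∧ Ip p v) ∧ ll v < (2 ^ (j + 2) : ℕ)), hw (ll v / 2 ^ j) ≤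
      Hs j + p * ∑ l ∈ range (2 ^ (j + 2)), (2 * (Nat.sqrt l : ℝ) + 1) := by
  set R : ℕ := 2 ^ (j + 2) with hR
  have hfib : ∀ (Q : ℤ × ℤ → Prop) [DecidablePred Q], ∑ v ∈ (Bx R).filter (fun v => Q v ∧ ll v < (R : ℕ)),
      hw (ll v / 2 ^ j) = ∑ l ∈ range R,
        ((((Bx R).filter (fun v => Q v ∧ ll v = l)).card : ℕ) : ℝ) * hw (l / 2 ^ j) := by
    intro Q _
    rw [← sum_fiberwise_of_maps_to (s := (Bx R).filter (fun v => Q v ∧ ll v < (R : ℕ)))
      (t := range R) (g := fun v => (ll v).toNat) (by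
        intro v hv
        rw [mem_filter, TotP_Bx] at hv
        rw [mem_range]
        have h1 : ll v = v.1 + v.2 := rfl
        omega)]
    refine sum_congr rfl fun l hl => ?_
    rw [mem_range] at hl
    have h1 : ((Bx R).filter (fun v => Q v ∧ ll v < (R : ℕ))).filter
        (fun v => (ll v).toNat = l) = (Bx R).filter (fun v => Q v ∧ ll v = l) := by
      ext v
      rw [mem_filter, mem_filter, mem_filter, TotP_Bx]
      have h2 : ll v = v.1 + v.2 := rfl
      constructor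
      · rintro ⟨⟨h3, h4, h5⟩, h6⟩
        exact ⟨h3, h4, by omega⟩
      · rintro ⟨h3, h4, h5⟩
        exact ⟨⟨h3, h4, by omega⟩, by omega⟩
    rw [h1, ← nsmul_eq_mul, ← sum_const]
    refine sum_congr rfl fun v hv => ?_
    rw [mem_filter] at hv
    rw [hv.2.2]
    push_cast
    rfl
  rw [hfib (fun v => IsCoprime v.1 v.2 ∧ Ip p v)]
  have h1 : ∑ l ∈ range R,
        ((((Bx R).filter (fun v => IsCoprime v.1 v.2 ∧ ll v = l)).card : ℕ) : ℝ) *
          hw (l / 2 ^ j) ≤ Hs j := by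
    rw [← hfib (fun v => IsCoprime v.1 v.2), Hs]
    refine sum_le_sum_of_subset_of_nonneg ?_ fun v _ _ => hw_nonneg _
    intro v hv
    rw [mem_filter] at hv ⊢
    exact ⟨hv.1, hv.2.1⟩
  have h2 : (p : ℝ) * ∑ l ∈ range R,
      ((((Bx R).filter (fun v => (IsCoprime v.1 v.2 ∧ Ip p v) ∧ ll v = l)).card : ℕ) : ℝ) *
        hw (l / 2 ^ j) ≤ ∑ l ∈ range R,
        (((((Bx R).filter (fun v => IsCoprime v.1 v.2 ∧ ll v = l)).card : ℕ) : ℝ) *
          hw (l / 2 ^ j) + p * (2 * (Nat.sqrt l : ℝ) + 1)) := by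
    rw [mul_sum]
    refine sum_le_sum fun l hl => ?_
    rw [mem_range] at hl
    have h3 : (0 : ℝ) ≤ hw (l / 2 ^ j) := hw_nonneg _
    have h4 : hw ((l : ℝ) / 2 ^ j) ≤ 1 := hw_le_one _
    rcases Nat.eq_zero_or_pos l with h0 | h0
    · have h5 : hw ((l : ℝ) / 2 ^ j) = 0 := by
        by_contra h6
        have h7 := (hw_supp h6).1
        rw [h0, Nat.cast_zero, zero_div] at h7
        norm_num at h7
      rw [h5, mul_zero, mul_zero, mul_zero, zero_add]
      positivity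
    · have h5 := TotP_cnt hp h0 hl.le
      have h6 := TotP_div l
      have h7 : (p : ℝ) * ((((Bx R).filter
          (fun v => (IsCoprime v.1 v.2 ∧ Ip p v) ∧ ll v = l)).card : ℕ) : ℝ) ≤
          ((((Bx R).filter (fun v => IsCoprime v.1 v.2 ∧ ll v = l)).card : ℕ) : ℝ) +
            p * (2 * (Nat.sqrt l : ℝ) + 1) := by
        have h8 : p * ((Bx R).filter (fun v => (IsCoprime v.1 v.2 ∧ Ip p v) ∧ ll v = l)).card ≤
            ((Bx R).filter (fun v => IsCoprime v.1 v.2 ∧ ll v = l)).card +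
              p * (2 * Nat.sqrt l + 1) :=
          h5.trans (Nat.add_le_add_left (Nat.mul_le_mul_left _ (by omega)) _)
        exact_mod_cast h8
      have h8 := mul_le_mul_of_nonneg_right h7 h3
      have h9 : p * (2 * (Nat.sqrt l : ℝ) + 1) * hw ((l : ℝ) / 2 ^ j) ≤
          p * (2 * (Nat.sqrt l : ℝ) + 1) * 1 :=
        mul_le_mul_of_nonneg_left h4 (by positivity)
      calc (p : ℝ) * (((((Bx R).filter
          (fun v => (IsCoprime v.1 v.2 ∧ Ip p v) ∧ ll v = l)).card : ℕ) : ℝ) *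
            hw ((l : ℝ) / 2 ^ j)) = (p : ℝ) * ((((Bx R).filter
          (fun v => (IsCoprime v.1 v.2 ∧ Ip p v) ∧ ll v = l)).card : ℕ) : ℝ) *
            hw ((l : ℝ) / 2 ^ j) := by ring
        _ ≤ _ := h8
        _ ≤ _ := by rw [add_mul]; linarith
  refine h2.trans ?_
  rw [sum_add_distrib, mul_sum]
  linarith

private theorem TotP_err (p : ℕ) {ε : ℝ} (hε : 0 < ε) : ∃ j₀ : ℕ, ∀ j : ℕ, j₀ ≤ j →
    (p : ℝ) * ∑ l ∈ range (2 ^ (j + 2)), (2 * (Nat.sqrt l : ℝ) + 1) ≤ ε * 4 ^ j := by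
  have hlim : Filter.Tendsto (fun j : ℕ => (Real.sqrt 2) ^ j) Filter.atTop Filter.atTop :=
    tendsto_pow_atTop_atTop_of_one_lt (by
      rw [Real.lt_sqrt (by norm_num)]
      norm_num)
  obtain ⟨j₀, hj₀⟩ := Filter.eventually_atTop.1
    (hlim.eventually (Filter.eventually_ge_atTop (20 * (p : ℝ) / ε)))
  refine ⟨j₀, fun j hj => ?_⟩
  have h1 := hj₀ j hj
  set t : ℝ := (Real.sqrt 2) ^ j with ht
  have ht1 : 1 ≤ t := one_le_pow₀ (by rw [Real.one_le_sqrt]; norm_num)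
  have ht2 : t ^ 2 = 2 ^ j := by
    rw [ht, ← pow_mul, mul_comm, pow_mul, Real.sq_sqrt (by norm_num)]
  have h2 : ∀ l ∈ range (2 ^ (j + 2)), 2 * (Nat.sqrt l : ℝ) + 1 ≤ 5 * t := by
    intro l hl
    rw [mem_range] at hl
    have h3 : (Nat.sqrt l : ℝ) ≤ 2 * t := by
      have h4 : (Nat.sqrt l : ℝ) ^ 2 ≤ (2 * t) ^ 2 := by
        have h5 : Nat.sqrt l ^ 2 ≤ 2 ^ (j + 2) := (Nat.sqrt_le' l).trans hl.le
        have h6 : (Nat.sqrt l : ℝ) ^ 2 ≤ 2 ^ (j + 2) := by exact_mod_cast h5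
        rw [mul_pow, ht2]
        rw [pow_add] at h6
        linarith
      exact (pow_le_pow_iff_left₀ (Nat.cast_nonneg _) (by positivity) (by norm_num)).1 h4
    linarith
  have h3 : ∑ l ∈ range (2 ^ (j + 2)), (2 * (Nat.sqrt l : ℝ) + 1) ≤ 4 * t ^ 2 * (5 * t) := by
    refine (sum_le_sum h2).trans ?_
    rw [sum_const, card_range, nsmul_eq_mul]
    push_cast
    rw [pow_add, ← ht2]
    exact le_of_eq (by ring)
  have h4 : (4 : ℝ) ^ j = t ^ 2 * t ^ 2 := by
    rw [ht2, ← mul_pow]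
    norm_num
  rw [div_le_iff₀ hε] at h1
  rw [h4]
  calc (p : ℝ) * ∑ l ∈ range (2 ^ (j + 2)), (2 * (Nat.sqrt l : ℝ) + 1) ≤
      p * (4 * t ^ 2 * (5 * t)) := mul_le_mul_of_nonneg_left h3 (Nat.cast_nonneg _)
    _ = (20 * p) * t ^ 3 := by ring
    _ ≤ (t * ε) * t ^ 3 := mul_le_mul_of_nonneg_right h1 (by positivity)
    _ = ε * (t ^ 2 * t ^ 2) := by ring

open Classical in
theorem totP (K : ℕ) (hK : 1 ≤ K) (γ : ℕ) {p : ℕ} (hp : SP p) {ε : ℝ} (hε : 0 < ε) :
    ∃ j₀ : ℕ, ∀ j : ℕ, j₀ ≤ j →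
      (p : ℝ) * ∑ x ∈ (pp2 (2 ^ (γ + j)) p).filter (fun x => Ip p x.1),
        Dw K (ll x.1 / 2 ^ j) (ll x.2 / 2 ^ j) ≤ K * Hs j + ε * 4 ^ j := by
  have hK0 : (0 : ℝ) < K := by exact_mod_cast hK
  obtain ⟨j₀, hj₀⟩ := TotP_err p (ε := ε / K) (by positivity)
  refine ⟨j₀, fun j hj => ?_⟩
  have h1 := TotP_one K hK (2 ^ (γ + j)) j hp.1.pos
  have h2 := TotP_two hp j
  have h3 := hj₀ j hj
  have h4 : (p : ℝ) * ∑ v ∈ (Bx (2 ^ (j + 2))).filter
        (fun v => (IsCoprime v.1 v.2 ∧ Ip p v) ∧ ll v < (2 ^ (j + 2) : ℕ)), hw (ll v / 2 ^ j) ≤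
      Hs j + ε / K * 4 ^ j := by linarith
  have h5 := mul_le_mul_of_nonneg_left h4 hK0.le
  have h6 := mul_le_mul_of_nonneg_left h1 (Nat.cast_nonneg p : (0 : ℝ) ≤ p)
  refine h6.trans ?_
  have h7 : (K : ℝ) * (Hs j + ε / K * 4 ^ j) = K * Hs j + ε * 4 ^ j := by
    field_simp
  rw [← h7]
  calc _ = (K : ℝ) * ((p : ℝ) * ∑ v ∈ (Bx (2 ^ (j + 2))).filter
        (fun v => (IsCoprime v.1 v.2 ∧ Ip p v) ∧ ll v < (2 ^ (j + 2) : ℕ)),
          hw (ll v / 2 ^ j)) := by ring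
    _ ≤ _ := h5

end Pool.Agent.Lib.MP_d57abb_nt.TA
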